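import Pool.Agent.H74.DE.Fr
import Pool.Agent.H74.DD.AsmQ

set_option autoImplicit false

/-!
# [H74 DE Asm] assembly from the statements (helper74)
-/

namespace Pool.Agent.H74.DE

open MeasureTheory Set Filter Topology Pool.Agent.H74.SX Pool.Agent.H74.DD

theorem exists_dir2 (β : ℂ) : ∃ ζ : ℂ, ‖ζ‖ = 1 ∧ (β * ζ ^ 2).re = ‖β‖ := by
  obtain ⟨ζ, hζ, h⟩ := exists_dir β
  refine ⟨(starRingEnd ℂ) ζ, by simpa using hζ, ?_⟩
  rw [mul_comm]; exact h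

theorem re_le (β ζ : ℂ) : (β * ζ ^ 2).re ≤ ‖β‖ * ‖ζ‖ ^ 2 := by
  refine (Complex.re_le_norm _).trans ?_
  rw [norm_mul, norm_pow]

theorem neg_le_re (β ζ : ℂ) : -(‖β‖ * ‖ζ‖ ^ 2) ≤ (β * ζ ^ 2).re := by
  have h := Complex.abs_re_le_norm (β * ζ ^ 2)
  rw [norm_mul, norm_pow] at h
  linarith [neg_abs_le (β * ζ ^ 2).re]

theorem Mq_nonneg (g : ℂ → ℂ) (ξ : ℂ) : 0 ≤ Mq g ξ := by
  unfold Mq
  have h1 : 0 ≤ ∫ z in Metric.ball (0 : ℂ) 1, ‖((starRingEnd ℂ) ξ + ξ * z ^ 2) * (deriv g z / z)‖ ^ 2 :=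
    integral_nonneg fun z => by positivity
  have h2 : 0 ≤ ∫ θ in (0 : ℝ)..(2 * Real.pi), L0 ξ θ ^ 2 * b2 g θ :=
    intervalIntegral.integral_nonneg (by positivity) fun θ _ => by unfold b2; positivity
  linarith [mul_nonneg (by norm_num : (0 : ℝ) ≤ 1 / 4) h1]

theorem normSq_add (c s : ℝ) : ‖((c : ℂ) + s * Complex.I)‖ ^ 2 = c ^ 2 + s ^ 2 := by
  rw [← Complex.normSq_eq_norm_sq, Complex.normSq_add_mul_I]

theorem perp {β ξ₁ ξ : ℂ} (h1 : ‖ξ₁‖ = 1) (hβ : (β * ξ₁ ^ 2).re = ‖β‖) (h : ((starRingEnd ℂ) ξ₁ * ξ).re = 0) :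
    (β * ξ ^ 2).re = -(‖β‖ * ‖ξ‖ ^ 2) := by
  obtain ⟨t, ht⟩ : ∃ t : ℝ, (starRingEnd ℂ) ξ₁ * ξ = t * Complex.I := by
    refine ⟨((starRingEnd ℂ) ξ₁ * ξ).im, ?_⟩
    apply Complex.ext
    · simp only [Complex.mul_re, Complex.ofReal_re, Complex.I_re, mul_zero, Complex.ofReal_im, Complex.I_im, mul_one,
        sub_self] at *
      exact h
    · simp only [Complex.mul_im, Complex.ofReal_re, Complex.I_im, mul_one, Complex.ofReal_im, Complex.I_re, mul_zero,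
        add_zero]
  have hc : ξ₁ * (starRingEnd ℂ) ξ₁ = 1 := by
    rw [Complex.mul_conj, Complex.normSq_eq_norm_sq, h1]; simp
  have hξ : ξ = ξ₁ * (t * Complex.I) := by
    rw [← ht, ← mul_assoc, hc, one_mul]
  have hn : ‖ξ‖ ^ 2 = t ^ 2 := by
    rw [hξ, norm_mul, h1, one_mul, norm_mul, Complex.norm_I, mul_one, Complex.norm_real, Real.norm_eq_abs, sq_abs]
  rw [hn, hξ]
  have e1 : β * (ξ₁ * (t * Complex.I)) ^ 2 = ((-(t ^ 2) : ℝ) : ℂ) * (β * ξ₁ ^ 2) := by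
    push_cast
    ring_nf
    rw [Complex.I_sq]
    ring
  rw [e1, Complex.re_ofReal_mul, hβ]
  ring

theorem psi_ep_cont {g : ℂ → ℂ} {ε : ℝ} (hc : Chart (psi g ε)) : Continuous fun θ : ℝ => psi g ε (ep θ) := by
  obtain ⟨r, hr, hd⟩ := hc.hol
  have hep : Continuous ep := by unfold ep; fun_prop
  refine hd.continuousOn.comp_continuous hep fun θ => ?_
  have : ‖ep θ‖ = 1 := Complex.norm_exp_ofReal_mul_I θ
  simp only [mem_ofPred_eq, this]
  exact hr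

theorem ext_bd (hlow : Low3Stmt) (hcfe : CfeUStmt) (hE : QfEStmt) {g : ℂ → ℂ} {ρ : ℝ} (hg : Good0 g ρ) :
    ∃ α m : ℝ, HasSum (fun n : ℕ => ‖cf g n‖ ^ 2 * ((n : ℝ) ^ 2 / 4 + (n : ℝ) ^ 3 / (2 * ((n : ℝ) ^ 2 - 1)))) α ∧
      0 ≤ m ∧ m ≤ α ∧ ∃ C ε₀ : ℝ, 0 < C ∧ 0 < ε₀ ∧ ∀ ε : ℝ, 0 < ε → ε < ε₀ → Chart (psi g ε) →
        ((1 / (1 + ε ^ 2 * (α + m) + C * ε ^ 3) : ℝ) : EReal) ≤ minmax (psi g ε) (Ext (psi g ε)) (ExtAdm (psi g ε)) 2 ∧
        ((1 / (1 + ε ^ 2 * (α - m) + C * ε ^ 3) : ℝ) : EReal) ≤ minmax (psi g ε) (Ext (psi g ε)) (ExtAdm (psi g ε)) 3 := by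
  obtain ⟨α, β, hs, hM⟩ := hE g ρ hg
  obtain ⟨ξ₁, hξ₁, hβ⟩ := exists_dir2 β
  have hpi := Real.pi_pos
  have hm0 : 0 ≤ ‖β‖ / Real.pi := by positivity
  have hmα : ‖β‖ / Real.pi ≤ α := by
    have h1 := Mq_nonneg g (ξ₁ * Complex.I)
    rw [hM] at h1
    have h2 : (β * (ξ₁ * Complex.I) ^ 2).re = -‖β‖ := by
      have : β * (ξ₁ * Complex.I) ^ 2 = -(β * ξ₁ ^ 2) := by
        rw [mul_pow, Complex.I_sq]; ring
      rw [this, Complex.neg_re, hβ]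
    rw [h2, norm_mul, hξ₁, Complex.norm_I] at h1
    rw [div_le_iff₀ hpi]
    linarith
  have hα0 : 0 ≤ α := hm0.trans hmα
  obtain ⟨m, hm⟩ : ∃ m, m = ‖β‖ / Real.pi := ⟨_, rfl⟩
  have hβm : ‖β‖ = m * Real.pi := by rw [hm]; field_simp
  rw [← hm] at hm0 hmα
  obtain ⟨C, ε₀, hC, hε₀, H⟩ := hlow g ρ hg
  refine ⟨α, m, hs, hm0, hmα, C, ε₀, hC, hε₀, fun ε hε hlt hc => ⟨?_, ?_⟩⟩
  · have hK : 0 < 1 + ε ^ 2 * (α + m) + C * ε ^ 3 := by positivity
    refine hcfe (psi g ε) hc _ hK 1 (fun _ _ => 1) (fun _ => continuous_const) fun u hu h => ?_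
    have h0 : ∫ θ in (0 : ℝ)..(2 * Real.pi), u (psi g ε (ep θ)) = 0 := by
      have := h 0
      simpa using this
    obtain ⟨g1, g2⟩ := H ε hε hlt hc u hu h0
    obtain ⟨c, hcc⟩ : ∃ c, c = cj (fun θ => u (psi g ε (ep θ))) 1 := ⟨_, rfl⟩
    obtain ⟨s, hss⟩ : ∃ s, s = sj (fun θ => u (psi g ε (ep θ))) 1 := ⟨_, rfl⟩
    rw [← hcc, ← hss] at g1 g2
    rw [hM, normSq_add] at g2
    have h3 := re_le β (c + s * Complex.I)
    rw [normSq_add, hβm] at h3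
    have h4 : Real.pi * α * (c ^ 2 + s ^ 2) + (β * (c + s * Complex.I) ^ 2).re ≤ (α + m) * dir (Ext (psi g ε)) u := by
      calc _ ≤ (α + m) * (Real.pi * (c ^ 2 + s ^ 2)) := by linarith
        _ ≤ _ := by gcongr
    have h5 : ε ^ 2 * (Real.pi * α * (c ^ 2 + s ^ 2) + (β * (c + s * Complex.I) ^ 2).re) ≤
        ε ^ 2 * ((α + m) * dir (Ext (psi g ε)) u) := by gcongr
    linarith
  · have hαm : 0 ≤ α - m := by linarith
    have hK : 0 < 1 + ε ^ 2 * (α - m) + C * ε ^ 3 := by positivity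
    have hL : Continuous (L0 ξ₁) := by unfold L0 ep; fun_prop
    refine hcfe (psi g ε) hc _ hK 2 (fun i => if i = 0 then (fun _ => 1) else L0 ξ₁)
      (fun i => by by_cases hi : i = 0 <;> simp only [hi, if_true, if_false]; exacts [continuous_const, hL]) fun u hu h => ?_
    have h0 : ∫ θ in (0 : ℝ)..(2 * Real.pi), u (psi g ε (ep θ)) = 0 := by
      have := h 0
      simpa using this
    have h1 : ∫ θ in (0 : ℝ)..(2 * Real.pi), u (psi g ε (ep θ)) * L0 ξ₁ θ = 0 := by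
      have := h 1
      simpa using this
    have hU : Continuous fun θ : ℝ => u (psi g ε (ep θ)) := hu.1.continuous.comp (psi_ep_cont hc)
    obtain ⟨g1, g2⟩ := H ε hε hlt hc u hu h0
    obtain ⟨c, hcc⟩ : ∃ c, c = cj (fun θ => u (psi g ε (ep θ))) 1 := ⟨_, rfl⟩
    obtain ⟨s, hss⟩ : ∃ s, s = sj (fun θ => u (psi g ε (ep θ))) 1 := ⟨_, rfl⟩
    rw [← hcc, ← hss] at g1 g2
    have hre : ((starRingEnd ℂ) ξ₁ * (c + s * Complex.I)).re = 0 := by
      have e1 : ∀ θ : ℝ, u (psi g ε (ep θ)) * L0 ξ₁ θ =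
          ξ₁.re * (u (psi g ε (ep θ)) * Real.cos ((1 : ℕ) * θ)) + ξ₁.im * (u (psi g ε (ep θ)) * Real.sin ((1 : ℕ) * θ)) := by
        intro θ
        unfold L0 ep
        rw [Complex.mul_re, Complex.conj_re, Complex.conj_im, Complex.exp_ofReal_mul_I_re, Complex.exp_ofReal_mul_I_im]
        simp only [Nat.cast_one, one_mul]
        ring
      have e2 : ∫ θ in (0 : ℝ)..(2 * Real.pi), u (psi g ε (ep θ)) * L0 ξ₁ θ =
          ξ₁.re * (Real.pi * c) + ξ₁.im * (Real.pi * s) := by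
        simp only [e1]
        rw [intervalIntegral.integral_add, intervalIntegral.integral_const_mul, intervalIntegral.integral_const_mul, hcc, hss]
        · unfold cj sj
          field_simp
        · exact (continuous_const.mul (hU.mul (by fun_prop))).intervalIntegrable _ _
        · exact (continuous_const.mul (hU.mul (by fun_prop))).intervalIntegrable _ _
      rw [h1] at e2
      have e3 : Real.pi * (ξ₁.re * c + ξ₁.im * s) = 0 := by linarith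
      have e4 : ξ₁.re * c + ξ₁.im * s = 0 := by
        rcases mul_eq_zero.1 e3 with h | h
        · exact absurd h hpi.ne'
        · exact h
      simp only [Complex.mul_re, Complex.conj_re, Complex.conj_im, Complex.add_re, Complex.ofReal_re, Complex.add_im,
        Complex.ofReal_im, Complex.I_re, Complex.I_im, Complex.mul_im]
      linarith
    rw [hM, perp hξ₁ hβ hre, normSq_add, hβm] at g2
    have h4 : Real.pi * α * (c ^ 2 + s ^ 2) + -(m * Real.pi * (c ^ 2 + s ^ 2)) ≤ (α - m) * dir (Ext (psi g ε)) u := by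
      calc _ = (α - m) * (Real.pi * (c ^ 2 + s ^ 2)) := by ring
        _ ≤ _ := by gcongr
    have h5 : ε ^ 2 * (Real.pi * α * (c ^ 2 + s ^ 2) + -(m * Real.pi * (c ^ 2 + s ^ 2))) ≤
        ε ^ 2 * ((α - m) * dir (Ext (psi g ε)) u) := by gcongr
    linarith

end Pool.Agent.H74.DE
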