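import Pool.Agent.H74.DE.Asm

set_option autoImplicit false

/-!
# [H74 DE Asm2] assembly from the statements, second part (helper74)
-/

namespace Pool.Agent.H74.DE

open MeasureTheory Set Filter Topology Pool.Agent.H74.SX Pool.Agent.H74.DD

theorem quot3 {D V N Q μ C₁ C₂ B M ε C : ℝ} (hε : 0 < ε) (hε1 : ε ≤ 1) (hC₁ : 0 < C₁) (hC₂ : 0 < C₂) (hB : |N| ≤ B)
    (hM : |μ| ≤ M) (hμ : Real.pi * μ ≤ N - Q) (hD : D ≤ Real.pi + ε ^ 2 * Q + C₁ * ε ^ 3)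
    (hV : Real.pi + ε ^ 2 * N - C₂ * ε ^ 3 ≤ V) (hC : C = C₁ + C₂ + M * B + M * C₂)
    (h1 : ε ^ 2 * B ≤ 1) (h2 : ε ^ 3 * C₂ ≤ 1) (h3 : ε ^ 2 * M ≤ 1) :
    0 < V ∧ D ≤ (1 - ε ^ 2 * μ + C * ε ^ 3) * V := by
  have hpi3 := Real.pi_gt_three
  have hB0 : 0 ≤ B := (abs_nonneg _).trans hB
  have hM0 : 0 ≤ M := (abs_nonneg _).trans hM
  have hC0 : 0 < C := by rw [hC]; positivity
  have hN := abs_le.1 hB
  have hμ' := abs_le.1 hM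
  have e2 : 0 < ε ^ 2 := by positivity
  have e3 : 0 < ε ^ 3 := by positivity
  have a1 : -1 ≤ ε ^ 2 * N := by
    have : ε ^ 2 * (-B) ≤ ε ^ 2 * N := by gcongr; exact hN.1
    linarith
  have a1' : |ε ^ 2 * N| ≤ 1 := by
    rw [abs_mul, abs_of_pos e2]
    exact (mul_le_mul_of_nonneg_left hB e2.le).trans h1
  have a2 : ε ^ 2 * μ ≤ 1 := by
    have : ε ^ 2 * μ ≤ ε ^ 2 * M := by gcongr; exact hμ'.2
    linarith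
  have hV0 : 0 < V := by linarith [mul_comm (ε ^ 3) C₂]
  refine ⟨hV0, ?_⟩
  have hf : 0 ≤ 1 - ε ^ 2 * μ + C * ε ^ 3 := by
    have : 0 ≤ C * ε ^ 3 := by positivity
    linarith
  refine hD.trans (le_trans ?_ (mul_le_mul_of_nonneg_left hV hf))
  have t1 : 0 ≤ ε ^ 2 * (N - Q - Real.pi * μ) := mul_nonneg e2.le (by linarith)
  have t2 : 3 * (C * ε ^ 3) ≤ Real.pi * (C * ε ^ 3) := by
    have : 0 ≤ C * ε ^ 3 := by positivity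
    nlinarith
  have hμN : |μ * N| ≤ M * B := by
    rw [abs_mul]
    exact mul_le_mul hM hB (abs_nonneg _) hM0
  have t3 : ε ^ 4 * (μ * N) ≤ ε ^ 3 * (M * B) := by
    have b1 : ε ^ 4 * (μ * N) ≤ ε ^ 4 * (M * B) :=
      mul_le_mul_of_nonneg_left (abs_le.1 hμN).2 (by positivity)
    have b2 : ε ^ 4 * (M * B) ≤ ε ^ 3 * (M * B) := by
      have : ε ^ 4 ≤ ε ^ 3 := pow_le_pow_of_le_one hε.le hε1 (by norm_num)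
      exact mul_le_mul_of_nonneg_right this (by positivity)
    linarith
  have t4 : -(ε ^ 3 * (M * C₂)) ≤ ε ^ 5 * (μ * C₂) := by
    have b1 : ε ^ 5 * (-(M * C₂)) ≤ ε ^ 5 * (μ * C₂) := by
      have : -(M * C₂) ≤ μ * C₂ := by nlinarith [hμ'.1]
      exact mul_le_mul_of_nonneg_left this (by positivity)
    have b2 : ε ^ 5 * (M * C₂) ≤ ε ^ 3 * (M * C₂) := by
      have : ε ^ 5 ≤ ε ^ 3 := pow_le_pow_of_le_one hε.le hε1 (by norm_num)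
      exact mul_le_mul_of_nonneg_right this (by positivity)
    linarith
  have t5 : -(C * ε ^ 3) ≤ C * ε ^ 3 * (ε ^ 2 * N) := by
    have : 0 ≤ C * ε ^ 3 := by positivity
    nlinarith [(abs_le.1 a1').1]
  have t6 : C * ε ^ 3 * (ε ^ 3 * C₂) ≤ C * ε ^ 3 := mul_le_of_le_one_right (by positivity) h2
  have hexp : (1 - ε ^ 2 * μ + C * ε ^ 3) * (Real.pi + ε ^ 2 * N - C₂ * ε ^ 3) - (Real.pi + ε ^ 2 * Q + C₁ * ε ^ 3) =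
      ε ^ 2 * (N - Q - Real.pi * μ) + Real.pi * (C * ε ^ 3) - C₂ * ε ^ 3 - C₁ * ε ^ 3 - ε ^ 4 * (μ * N) +
        ε ^ 5 * (μ * C₂) + C * ε ^ 3 * (ε ^ 2 * N) - C * ε ^ 3 * (ε ^ 3 * C₂) := by ring
  have hCe : C * ε ^ 3 = C₁ * ε ^ 3 + C₂ * ε ^ 3 + ε ^ 3 * (M * B) + ε ^ 3 * (M * C₂) := by rw [hC]; ring
  linarith

theorem int_bd (hN : QfNStmt) (hD : QfDStmt) (hdir : Dir2Stmt) (hbd : Bd2Stmt) (hint : IntMStmt)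
    {g : ℂ → ℂ} {ρ : ℝ} (hg : Good0 g ρ) :
    ∃ αN αD m : ℝ, HasSum (fun n : ℕ => ‖cf g n‖ ^ 2 * (1 / 2 - n + (n : ℝ) ^ 2 / 4)) αN ∧
      HasSum (fun n : ℕ => ‖cf g n‖ ^ 2 * (-(3 * (n : ℝ) + 3) / 2)) αD ∧
      ∃ C ε₀ : ℝ, 0 < C ∧ 0 < ε₀ ∧ ∀ ε : ℝ, 0 < ε → ε < ε₀ → Chart (psi g ε) →
        minmax (psi g ε) (Inn (psi g ε)) (fun u => ContDiff ℝ 1 u) 2 ≤
          ((1 - ε ^ 2 * (αN - αD + m) + C * ε ^ 3 : ℝ) : EReal) ∧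
        minmax (psi g ε) (Inn (psi g ε)) (fun u => ContDiff ℝ 1 u) 3 ≤
          ((1 - ε ^ 2 * (αN - αD - m) + C * ε ^ 3 : ℝ) : EReal) := by
  obtain ⟨αN, βN, hsN, HN⟩ := hN g ρ hg
  obtain ⟨αD, βD, hsD, HD⟩ := hD g ρ hg
  obtain ⟨ζ₁, hζ₁, hβ⟩ := exists_dir2 (βN - βD)
  obtain ⟨C₁, e1, hC₁, he1, H1⟩ := hdir g ρ hg
  obtain ⟨C₂, e2, hC₂, he2, H2⟩ := hbd g ρ hg
  obtain ⟨e3, he3, H3⟩ := hint g ρ hg
  have hpi := Real.pi_pos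
  obtain ⟨m, hm⟩ : ∃ m, m = ‖βN - βD‖ / Real.pi := ⟨_, rfl⟩
  have hm0 : 0 ≤ m := by rw [hm]; positivity
  have hβm : ‖βN - βD‖ = m * Real.pi := by rw [hm]; field_simp
  obtain ⟨B, hB⟩ : ∃ B, B = Real.pi * |αN| + ‖βN‖ := ⟨_, rfl⟩
  obtain ⟨M, hM⟩ : ∃ M, M = |αN - αD| + m := ⟨_, rfl⟩
  have hB0 : 0 ≤ B := by rw [hB]; positivity
  have hM0 : 0 ≤ M := by rw [hM]; positivity
  have hNB : ∀ ζ : ℂ, ‖ζ‖ = 1 → |Nq g ζ| ≤ B := by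
    intro ζ hζ
    rw [HN ζ hζ, hB]
    refine (abs_add_le _ _).trans ?_
    rw [abs_mul, abs_of_pos hpi]
    have h1 := Complex.abs_re_le_norm (βN * ζ ^ 2)
    rw [norm_mul, norm_pow, hζ, one_pow, mul_one] at h1
    linarith
  have hdiff : ∀ ζ : ℂ, ‖ζ‖ = 1 → Nq g ζ - Dq g ζ = Real.pi * (αN - αD) + ((βN - βD) * ζ ^ 2).re := by
    intro ζ hζ
    rw [HN ζ hζ, HD ζ hζ, sub_mul, Complex.sub_re]
    ring
  have hC : 0 < C₁ + C₂ + M * B + M * C₂ := by positivity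
  refine ⟨αN, αD, m, hsN, hsD, C₁ + C₂ + M * B + M * C₂,
    min (min e1 (min e2 e3)) (min 1 (min (1 / (B + 1)) (min (1 / (C₂ + 1)) (1 / (M + 1))))), hC, ?_, fun ε hε hlt hc => ?_⟩
  · simp only [lt_min_iff]
    exact ⟨⟨he1, he2, he3⟩, one_pos, by positivity, by positivity, by positivity⟩
  simp only [lt_min_iff] at hlt
  obtain ⟨⟨l1, l2, l3⟩, l4, l5, l6, l7⟩ := hlt
  have aux : ∀ X : ℝ, 0 ≤ X → ε < 1 / (X + 1) → ε * X ≤ 1 := by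
    intro X hX hl
    rw [lt_div_iff₀ (by positivity)] at hl
    nlinarith
  have p2 : ε ^ 2 ≤ ε := by nlinarith
  have p3 : ε ^ 3 ≤ ε := by nlinarith [mul_pos hε hε]
  have q1 : ε ^ 2 * B ≤ 1 := (mul_le_mul_of_nonneg_right p2 hB0).trans (aux B hB0 l5)
  have q2 : ε ^ 3 * C₂ ≤ 1 := (mul_le_mul_of_nonneg_right p3 hC₂.le).trans (aux C₂ hC₂.le l6)
  have q3 : ε ^ 2 * M ≤ 1 := (mul_le_mul_of_nonneg_right p2 hM0).trans (aux M hM0 l7)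
  have hMab : |αN - αD + m| ≤ M ∧ |αN - αD - m| ≤ M := by
    rw [hM]
    constructor
    · exact (abs_add_le _ _).trans (by rw [abs_of_nonneg hm0])
    · exact (abs_sub _ _).trans (by rw [abs_of_nonneg hm0])
  constructor
  · have hμ : Real.pi * (αN - αD + m) ≤ Nq g ζ₁ - Dq g ζ₁ := by
      rw [hdiff ζ₁ hζ₁, hβ, hβm]; linarith
    obtain ⟨r1, r2⟩ := quot3 hε l4.le hC₁ hC₂ (hNB ζ₁ hζ₁) hMab.1 hμ (H1 ε hε l1 ζ₁ hζ₁) (H2 ε hε l2 ζ₁ hζ₁) rfl q1 q2 q3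
    exact (H3 ε hε l3 hc _).1 ζ₁ hζ₁ r1 r2
  · refine (H3 ε hε l3 hc _).2 fun ζ hζ => ?_
    have hμ : Real.pi * (αN - αD - m) ≤ Nq g ζ - Dq g ζ := by
      have h5 := neg_le_re (βN - βD) ζ
      rw [hζ, hβm] at h5
      rw [hdiff ζ hζ]; linarith
    exact quot3 hε l4.le hC₁ hC₂ (hNB ζ hζ) hMab.2 hμ (H1 ε hε l1 ζ hζ) (H2 ε hε l2 ζ hζ) rfl q1 q2 q3

theorem alpha_lt {g : ℂ → ℂ} {αN αD α : ℝ} (hex : ∃ n, cf g n ≠ 0)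
    (hN : HasSum (fun n : ℕ => ‖cf g n‖ ^ 2 * (1 / 2 - n + (n : ℝ) ^ 2 / 4)) αN)
    (hD : HasSum (fun n : ℕ => ‖cf g n‖ ^ 2 * (-(3 * (n : ℝ) + 3) / 2)) αD)
    (hE : HasSum (fun n : ℕ => ‖cf g n‖ ^ 2 * ((n : ℝ) ^ 2 / 4 + (n : ℝ) ^ 3 / (2 * ((n : ℝ) ^ 2 - 1)))) α) :
    α < αN - αD := by
  have key : ∀ n : ℕ, (n : ℝ) ^ 2 / 4 + (n : ℝ) ^ 3 / (2 * ((n : ℝ) ^ 2 - 1)) <
      (1 / 2 - n + (n : ℝ) ^ 2 / 4) - (-(3 * (n : ℝ) + 3) / 2) := by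
    intro n
    rcases Nat.lt_or_ge n 2 with hn | hn
    · interval_cases n <;> norm_num
    · have h2 : (2 : ℝ) ≤ n := by exact_mod_cast hn
      have h3 : 0 < 2 * ((n : ℝ) ^ 2 - 1) := by nlinarith
      have h4 : (n : ℝ) ^ 3 / (2 * ((n : ℝ) ^ 2 - 1)) < n / 2 + 2 := by
        rw [div_lt_iff₀ h3]
        nlinarith
      linarith
  obtain ⟨k, hk⟩ := hex
  have hpos : 0 < ‖cf g k‖ ^ 2 := by positivity
  refine hasSum_lt (f := fun n : ℕ => ‖cf g n‖ ^ 2 * ((n : ℝ) ^ 2 / 4 + (n : ℝ) ^ 3 / (2 * ((n : ℝ) ^ 2 - 1))))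
    (g := fun n : ℕ => ‖cf g n‖ ^ 2 * (1 / 2 - n + (n : ℝ) ^ 2 / 4) - ‖cf g n‖ ^ 2 * (-(3 * (n : ℝ) + 3) / 2))
    (i := k) (fun n => ?_) ?_ hE (hN.sub hD)
  · have h0 : 0 ≤ ‖cf g n‖ ^ 2 := by positivity
    exact (mul_le_mul_of_nonneg_left (key n).le h0).trans_eq (mul_sub _ _ _)
  · exact (mul_lt_mul_of_pos_left (key k) hpos).trans_eq (mul_sub _ _ _)

/-- `1 - ε² x + C₁ ε³ < 1 / (1 + ε² y + C₂ ε³)` -/
theorem fin_lt {x y C₁ C₂ ε : ℝ} (hC₁ : 0 < C₁) (hC₂ : 0 < C₂) (hy : 0 ≤ y) (hε : 0 < ε)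
    (hlt : ε < (x - y) / (C₁ + C₂)) : 1 - ε ^ 2 * x + C₁ * ε ^ 3 < 1 / (1 + ε ^ 2 * y + C₂ * ε ^ 3) := by
  rw [lt_div_iff₀ (by positivity)] at hlt
  have hK : 0 < 1 + ε ^ 2 * y + C₂ * ε ^ 3 := by positivity
  have h1 : 1 - (ε ^ 2 * y + C₂ * ε ^ 3) ≤ 1 / (1 + ε ^ 2 * y + C₂ * ε ^ 3) := by
    rw [le_div_iff₀ hK]
    nlinarith [sq_nonneg (ε ^ 2 * y + C₂ * ε ^ 3)]
  have h2 : ε ^ 2 * (ε * (C₁ + C₂)) < ε ^ 2 * (x - y) := mul_lt_mul_of_pos_left hlt (by positivity)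
  refine lt_of_lt_of_le ?_ h1
  nlinarith

theorem main0 (hlow : Low3Stmt) (hcfe : CfeUStmt) (hE : QfEStmt) (hN : QfNStmt) (hD : QfDStmt) (hdir : Dir2Stmt)
    (hbd : Bd2Stmt) (hint : IntMStmt) (hch : ChStmt) {g : ℂ → ℂ} {ρ : ℝ} (hg : Good0 g ρ) (hex : ∃ n, cf g n ≠ 0) :
    ∃ k : ℕ, (k = 2 ∨ k = 3) ∧ ∃ ε₀ : ℝ, 0 < ε₀ ∧ ∀ ε : ℝ, 0 < ε → ε < ε₀ →
      minmax (psi g ε) (Inn (psi g ε)) (fun u => ContDiff ℝ 1 u) k <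
        minmax (psi g ε) (Ext (psi g ε)) (ExtAdm (psi g ε)) k := by
  obtain ⟨α, m, hs, hm0, hmα, C₂, e2, hC₂, he2, H2⟩ := ext_bd hlow hcfe hE hg
  obtain ⟨αN, αD, m', hsN, hsD, C₁, e1, hC₁, he1, H1⟩ := int_bd hN hD hdir hbd hint hg
  obtain ⟨e3, he3, H3⟩ := hch g ρ hg.good
  have hα := alpha_lt hex hsN hsD hs
  rcases le_or_gt m m' with hmm | hmm
  · have hgap : 0 < (αN - αD + m') - (α + m) := by linarith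
    refine ⟨2, Or.inl rfl, min (min e1 e2) (min e3 (((αN - αD + m') - (α + m)) / (C₁ + C₂))), ?_, fun ε hε hlt => ?_⟩
    · simp only [lt_min_iff]; exact ⟨⟨he1, he2⟩, he3, by positivity⟩
    simp only [lt_min_iff] at hlt
    obtain ⟨⟨l1, l2⟩, l3, l4⟩ := hlt
    have hc := H3 ε hε l3
    exact lt_of_le_of_lt (H1 ε hε l1 hc).1 (lt_of_lt_of_le
      (EReal.coe_lt_coe_iff.2 (fin_lt hC₁ hC₂ (by linarith) hε l4)) (H2 ε hε l2 hc).1)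
  · have hgap : 0 < (αN - αD - m') - (α - m) := by linarith
    refine ⟨3, Or.inr rfl, min (min e1 e2) (min e3 (((αN - αD - m') - (α - m)) / (C₁ + C₂))), ?_, fun ε hε hlt => ?_⟩
    · simp only [lt_min_iff]; exact ⟨⟨he1, he2⟩, he3, by positivity⟩
    simp only [lt_min_iff] at hlt
    obtain ⟨⟨l1, l2⟩, l3, l4⟩ := hlt
    have hc := H3 ε hε l3
    exact lt_of_le_of_lt (H1 ε hε l1 hc).2 (lt_of_lt_of_le
      (EReal.coe_lt_coe_iff.2 (fin_lt hC₁ hC₂ (by linarith) hε l4)) (H2 ε hε l2 hc).2)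

end Pool.Agent.H74.DE
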