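import Pool.Agent.H74.DE.Asm2

set_option autoImplicit false

/-!
# [H74 DE Asm3] assembly from the statements, all nonconstant functions (helper74)
-/

namespace Pool.Agent.H74.DE

open MeasureTheory Set Filter Topology Pool.Agent.H74.SX Pool.Agent.H74.DD

theorem psi_sub (g : ℂ → ℂ) (ε : ℝ) : psi g ε = fun w => psi (fun z => g z - g 0) ε w + ε * g 0 := by
  funext w
  unfold psi
  ring

theorem mainA (hlow : Low3Stmt) (hcfe : CfeUStmt) (hE : QfEStmt) (hN : QfNStmt) (hD : QfDStmt) (hdir : Dir2Stmt)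
    (hbd : Bd2Stmt) (hint : IntMStmt) (hch : ChStmt) (htrn : TrnStmt) (hnc : NcStmt)
    (hfirst : ∀ (g : ℂ → ℂ) (ρ : ℝ), Good g ρ → deriv g 0 ≠ 0 → ∃ ε₀ : ℝ, 0 < ε₀ ∧ ∀ ε : ℝ, 0 < ε → ε < ε₀ →
      minmax (psi g ε) (Inn (psi g ε)) (fun u => ContDiff ℝ 1 u) 2 <
        minmax (psi g ε) (Ext (psi g ε)) (ExtAdm (psi g ε)) 2)
    {g : ℂ → ℂ} {ρ : ℝ} (hg : Good g ρ) (hne : ∃ z : ℂ, ‖z‖ < ρ ∧ g z ≠ g 0) :
    ∃ k : ℕ, (k = 2 ∨ k = 3) ∧ ∃ ε₀ : ℝ, 0 < ε₀ ∧ ∀ ε : ℝ, 0 < ε → ε < ε₀ →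
      minmax (psi g ε) (Inn (psi g ε)) (fun u => ContDiff ℝ 1 u) k <
        minmax (psi g ε) (Ext (psi g ε)) (ExtAdm (psi g ε)) k := by
  by_cases h : deriv g 0 = 0
  · have hg' : Good0 (fun z => g z - g 0) ρ :=
      ⟨⟨hg.one_lt, hg.hol.sub_const _⟩, sub_self _, by rw [deriv_sub_const]; exact h⟩
    have hex : ∃ n, cf (fun z => g z - g 0) n ≠ 0 := by
      by_contra hcon
      push Not at hcon
      obtain ⟨z, hz, hzg⟩ := hne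
      exact hzg (sub_eq_zero.1 (hnc _ ρ hg'.good hcon z hz))
    obtain ⟨k, hk, ε₀, hε₀, H⟩ := main0 hlow hcfe hE hN hD hdir hbd hint hch hg' hex
    refine ⟨k, hk, ε₀, hε₀, fun ε hε hlt => ?_⟩
    have h2 := htrn (psi (fun z => g z - g 0) ε) (ε * g 0) k
    rw [psi_sub g ε, h2.1, h2.2]
    exact H ε hε hlt
  · obtain ⟨ε₀, hε₀, H⟩ := hfirst g ρ hg h
    exact ⟨2, Or.inl rfl, ε₀, hε₀, H⟩

end Pool.Agent.H74.DE
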