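import Pool.Agent.H74.DE.Fr
import Pool.Agent.H74.DD.Up

/-!
# [H74 DE Bd2] second order expansion on the circle (helper73)
-/

set_option autoImplicit false

namespace Pool.Agent.H74.DE

open MeasureTheory Set Filter Topology Pool.Agent.H74.SX Pool.Agent.H74.DD Pool.Agent.H74.DD.UpM

namespace Bd2M

theorem good_gh {g : ℂ → ℂ} {ρ : ℝ} (hg : Good g ρ) : DifferentiableOn ℂ (gh g) (Metric.ball 0 ρ) := by
  intro z hz
  have hz' : (starRingEnd ℂ) z ∈ Metric.ball (0 : ℂ) ρ := by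
    rw [mem_ball_zero_iff, RCLike.norm_conj]
    exact mem_ball_zero_iff.1 hz
  have h1 : DifferentiableAt ℂ g ((starRingEnd ℂ) z) := hg.hol.differentiableAt (Metric.isOpen_ball.mem_nhds hz')
  have h2 := h1.conj_conj
  rw [Complex.conj_conj] at h2
  exact h2.differentiableWithinAt

theorem good_g2 {g : ℂ → ℂ} {ρ : ℝ} (hg : Good g ρ) : DifferentiableOn ℂ (g2 g) (Metric.ball 0 ρ) := by
  have h := good_gh hg
  unfold g2
  obtain ⟨f, hf⟩ : ∃ f, f = gh g := ⟨_, rfl⟩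
  rw [← hf] at h ⊢
  fun_prop

theorem taylor2 {f : ℂ → ℂ} {ρ : ℝ} (h1 : 1 < ρ) (hf : DifferentiableOn ℂ f (Metric.ball 0 ρ)) :
    ∃ K : ℝ, 0 ≤ K ∧ ∀ w δ : ℂ, ‖w‖ = 1 → ‖δ‖ ≤ (ρ - 1) / 2 → ‖f (w + δ) - f w - δ * deriv f w‖ ≤ K * ‖δ‖ ^ 2 := by
  have hf1 : DifferentiableOn ℂ (deriv f) (Metric.ball 0 ρ) := hf.deriv Metric.isOpen_ball
  have hf2 : DifferentiableOn ℂ (deriv (deriv f)) (Metric.ball 0 ρ) := hf1.deriv Metric.isOpen_ball
  have hsub : Metric.closedBall (0 : ℂ) ((1 + ρ) / 2) ⊆ Metric.ball 0 ρ :=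
    Metric.closedBall_subset_ball (by linarith)
  obtain ⟨K, hK⟩ := (isCompact_closedBall (0 : ℂ) ((1 + ρ) / 2)).exists_bound_of_continuousOn
    (hf2.continuousOn.mono hsub)
  have hK0 : 0 ≤ K := (norm_nonneg _).trans (hK 0 (Metric.mem_closedBall_self (by linarith)))
  refine ⟨K, hK0, fun w δ hw hδ => ?_⟩
  have hball : ∀ y ∈ Metric.closedBall w ‖δ‖, y ∈ Metric.closedBall (0 : ℂ) ((1 + ρ) / 2) := by
    intro y hy
    rw [mem_closedBall_zero_iff]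
    rw [mem_closedBall_iff_norm] at hy
    calc ‖y‖ = ‖w + (y - w)‖ := by rw [add_sub_cancel]
      _ ≤ ‖w‖ + ‖y - w‖ := norm_add_le _ _
      _ ≤ (1 + ρ) / 2 := by rw [hw]; linarith
  have hwm : w ∈ Metric.closedBall w ‖δ‖ := Metric.mem_closedBall_self (norm_nonneg _)
  have hlip : ∀ y ∈ Metric.closedBall w ‖δ‖, ‖deriv f y - deriv f w‖ ≤ K * ‖δ‖ := by
    intro y hy
    have h3 := (convex_closedBall (0 : ℂ) ((1 + ρ) / 2)).norm_image_sub_le_of_norm_deriv_le (f := deriv f) (C := K)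
      (fun x hx => hf1.differentiableAt (Metric.isOpen_ball.mem_nhds (hsub hx))) hK (hball w hwm) (hball y hy)
    refine h3.trans (mul_le_mul_of_nonneg_left ?_ hK0)
    exact mem_closedBall_iff_norm.1 hy
  have hd : ∀ y ∈ Metric.closedBall w ‖δ‖, HasDerivAt (fun y => f y - y * deriv f w) (deriv f y - deriv f w) y := by
    intro y hy
    have h3 := (hf.differentiableAt (Metric.isOpen_ball.mem_nhds (hsub (hball y hy)))).hasDerivAt
    have h4 : HasDerivAt (fun y => y * deriv f w) (1 * deriv f w) y := (hasDerivAt_id y).mul_const (deriv f w)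
    rw [one_mul] at h4
    exact h3.sub h4
  have h5 := (convex_closedBall w ‖δ‖).norm_image_sub_le_of_norm_hasDerivWithin_le
    (f := fun y => f y - y * deriv f w) (f' := fun y => deriv f y - deriv f w) (C := K * ‖δ‖)
    (fun y hy => (hd y hy).hasDerivWithinAt) hlip hwm
    (show w + δ ∈ Metric.closedBall w ‖δ‖ by rw [mem_closedBall_iff_norm, add_sub_cancel_left])
  rw [add_sub_cancel_left] at h5
  have h6 : f (w + δ) - (w + δ) * deriv f w - (f w - w * deriv f w) = f (w + δ) - f w - δ * deriv f w := by ring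
  rw [h6] at h5
  calc ‖f (w + δ) - f w - δ * deriv f w‖ ≤ K * ‖δ‖ * ‖δ‖ := h5
    _ = K * ‖δ‖ ^ 2 := by ring

/-- second order expansion of `|1 - ε x|` -/
theorem norm_exp {x : ℂ} {ε R : ℝ} (hx : ‖x‖ ≤ R) (h0 : 0 < ε) (h1 : ε ≤ 1) (h2 : ε * R ≤ 1 / 2) :
    |‖1 - (ε : ℂ) * x‖ - (1 + ε * (-x.re) + ε ^ 2 * (x.im ^ 2 / 2))| ≤ (2 * R ^ 3 + R ^ 4) * ε ^ 3 := by
  have hR : 0 ≤ R := (norm_nonneg _).trans hx
  have hre : |x.re| ≤ R := (Complex.abs_re_le_norm x).trans hx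
  have him : |x.im| ≤ R := (Complex.abs_im_le_norm x).trans hx
  obtain ⟨P, hP⟩ : ∃ P, P = 1 + ε * (-x.re) + ε ^ 2 * (x.im ^ 2 / 2) := ⟨_, rfl⟩
  obtain ⟨N, hN⟩ : ∃ N, N = ‖1 - (ε : ℂ) * x‖ := ⟨_, rfl⟩
  have hN0 : 0 ≤ N := by rw [hN]; exact norm_nonneg _
  have hN2 : N ^ 2 = (1 - ε * x.re) ^ 2 + (ε * x.im) ^ 2 := by
    rw [hN, ← Complex.normSq_eq_norm_sq, Complex.normSq_apply]
    simp only [Complex.sub_re, Complex.sub_im, Complex.one_re, Complex.one_im, Complex.re_ofReal_mul,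
      Complex.im_ofReal_mul]
    ring
  have hP2 : 1 / 2 ≤ P := by
    rw [hP]
    have e1 := (abs_le.1 hre).2
    have e2 : 0 ≤ ε ^ 2 * (x.im ^ 2 / 2) := by positivity
    nlinarith
  have e3 : P ^ 2 - N ^ 2 = -(ε ^ 3 * (x.re * x.im ^ 2)) + ε ^ 4 * (x.im ^ 4 / 4) := by
    rw [hN2, hP]
    ring
  have e4 : |P ^ 2 - N ^ 2| ≤ ε ^ 3 * R ^ 3 + ε ^ 3 * (R ^ 4 / 4) := by
    rw [e3]
    refine (abs_add_le _ _).trans (add_le_add ?_ ?_)
    · rw [abs_neg, abs_mul, abs_mul, abs_pow, abs_pow, abs_of_pos h0]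
      refine mul_le_mul_of_nonneg_left ?_ (by positivity)
      calc |x.re| * |x.im| ^ 2 ≤ R * R ^ 2 :=
            mul_le_mul hre (pow_le_pow_left₀ (abs_nonneg _) him 2) (by positivity) hR
        _ = R ^ 3 := by ring
    · rw [abs_mul, abs_div, abs_pow, abs_pow, abs_of_pos h0, abs_of_pos (by norm_num : (0 : ℝ) < 4)]
      have e5 : ε ^ 4 ≤ ε ^ 3 := pow_le_pow_of_le_one h0.le h1 (by norm_num)
      have e6 : |x.im| ^ 4 / 4 ≤ R ^ 4 / 4 := by
        have := pow_le_pow_left₀ (abs_nonneg _) him 4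
        linarith
      exact mul_le_mul e5 e6 (by positivity) (by positivity)
  have e5 : P ^ 2 - N ^ 2 = (P - N) * (P + N) := by ring
  rw [e5, abs_mul, abs_of_pos (by linarith : 0 < P + N)] at e4
  have e6 : |P - N| * (1 / 2) ≤ |P - N| * (P + N) := mul_le_mul_of_nonneg_left (by linarith) (abs_nonneg _)
  rw [← hN, ← hP, abs_sub_comm]
  have e7 : 0 ≤ R ^ 4 * ε ^ 3 := by positivity
  nlinarith

/-- remainder of the expansion of `U² b` -/
noncomputable def G1 (x : Fin 8 → ℝ) : ℝ :=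
  (2 * x 2 * x 3 + (x 2 ^ 2 + 2 * x 1 * x 3) * x 4 + 2 * x 1 * x 2 * x 5) +
    x 0 * (x 3 ^ 2 + 2 * x 2 * x 3 * x 4 + (x 2 ^ 2 + 2 * x 1 * x 3) * x 5) +
    x 0 ^ 2 * (x 3 ^ 2 * x 4 + 2 * x 2 * x 3 * x 5) + x 0 ^ 3 * (x 3 ^ 2 * x 5) +
    (2 * (x 1 + x 0 * x 2 + x 0 ^ 2 * x 3) * x 6 + x 0 ^ 3 * x 6 ^ 2) * (1 + x 0 * x 4 + x 0 ^ 2 * x 5 + x 0 ^ 3 * x 7) +
    (x 1 + x 0 * x 2 + x 0 ^ 2 * x 3) ^ 2 * x 7

noncomputable def G2 (x : Fin 8 → ℝ) : ℝ :=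
  (x 3 + x 2 * x 4 + x 1 * x 5) + x 0 * (x 3 * x 4 + x 2 * x 5) + x 0 ^ 2 * (x 3 * x 5) +
    x 0 * (x 6 * (1 + x 0 * x 4 + x 0 ^ 2 * x 5 + x 0 ^ 3 * x 7) + (x 1 + x 0 * x 2 + x 0 ^ 2 * x 3) * x 7)

theorem bound {G : (Fin 8 → ℝ) → ℝ} (hG : Continuous G) (M : ℝ) :
    ∃ K : ℝ, 0 ≤ K ∧ ∀ x : Fin 8 → ℝ, (∀ i, |x i| ≤ M) → |G x| ≤ K := by
  rcases lt_or_ge M 0 with hM | hM
  · exact ⟨0, le_rfl, fun x hx => absurd ((abs_nonneg _).trans (hx 0)) (not_le.2 hM)⟩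
  obtain ⟨K, hK⟩ := (isCompact_closedBall (0 : Fin 8 → ℝ) M).exists_bound_of_continuousOn hG.continuousOn
  refine ⟨K, (norm_nonneg _).trans (hK 0 (Metric.mem_closedBall_self hM)), fun x hx => ?_⟩
  rw [← Real.norm_eq_abs]
  refine hK x ?_
  rw [mem_closedBall_zero_iff, pi_norm_le_iff_of_nonneg hM]
  exact fun i => by rw [Real.norm_eq_abs]; exact hx i

theorem exp1 (ε l a c p s e f : ℝ) :
    (l + ε * a + ε ^ 2 * c + ε ^ 3 * e) ^ 2 * (1 + ε * p + ε ^ 2 * s + ε ^ 3 * f) =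
      (l ^ 2 + ε * (2 * l * a + l ^ 2 * p) + ε ^ 2 * (a ^ 2 + l * (2 * c) + 2 * l * a * p + l ^ 2 * s)) +
        ε ^ 3 * G1 ![ε, l, a, c, p, s, e, f] := by
  have h : G1 ![ε, l, a, c, p, s, e, f] = (2 * a * c + (a ^ 2 + 2 * l * c) * p + 2 * l * a * s) +
    ε * (c ^ 2 + 2 * a * c * p + (a ^ 2 + 2 * l * c) * s) +
    ε ^ 2 * (c ^ 2 * p + 2 * a * c * s) + ε ^ 3 * (c ^ 2 * s) +
    (2 * (l + ε * a + ε ^ 2 * c) * e + ε ^ 3 * e ^ 2) * (1 + ε * p + ε ^ 2 * s + ε ^ 3 * f) +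
    (l + ε * a + ε ^ 2 * c) ^ 2 * f := rfl
  rw [h]
  ring

theorem exp2 (ε l a c p s e f : ℝ) :
    (l + ε * a + ε ^ 2 * c + ε ^ 3 * e) * (1 + ε * p + ε ^ 2 * s + ε ^ 3 * f) =
      (l + ε * (a + l * p)) + ε ^ 2 * G2 ![ε, l, a, c, p, s, e, f] := by
  have h : G2 ![ε, l, a, c, p, s, e, f] = (c + a * p + l * s) + ε * (c * p + a * s) + ε ^ 2 * (c * s) +
    ε * (e * (1 + ε * p + ε ^ 2 * s + ε ^ 3 * f) + (l + ε * a + ε ^ 2 * c) * f) := rfl
  rw [h]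
  ring

theorem ep_conj (θ : ℝ) : ep θ = (starRingEnd ℂ) (em θ) := exp_conj θ

theorem ep_norm (θ : ℝ) : ‖ep θ‖ = 1 := by rw [ep_conj, RCLike.norm_conj, em_norm]

theorem ep_cont : Continuous ep := by
  unfold ep
  fun_prop

theorem gh_ep (g : ℂ → ℂ) (θ : ℝ) : gh g (ep θ) = (starRingEnd ℂ) (g (em θ)) := by
  unfold gh
  rw [ep_conj, Complex.conj_conj]

/-- `u₁` as a real part of a holomorphic function of `e^{-iθ}` -/
theorem u1_eq (g : ℂ → ℂ) (ζ : ℂ) (θ : ℝ) :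
    u1 g ζ θ = 3 / 2 * ((starRingEnd ℂ) ζ * g (em θ)).re - 1 / 2 * (ζ * em θ ^ 2 * g (em θ)).re := by
  unfold u1 g2
  rw [gh_ep, Complex.sub_re]
  have h1 : (ζ * (starRingEnd ℂ) (g (em θ))).re = ((starRingEnd ℂ) ζ * g (em θ)).re := by
    rw [← Complex.conj_re (ζ * (starRingEnd ℂ) (g (em θ))), map_mul, Complex.conj_conj]
  have h2 : ((starRingEnd ℂ) ζ * (ep θ ^ 2 * (starRingEnd ℂ) (g (em θ)))).re = (ζ * em θ ^ 2 * g (em θ)).re := by
    rw [← Complex.conj_re (ζ * em θ ^ 2 * g (em θ)), map_mul, map_mul, map_pow, ep_conj]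
    congr 1
    ring
  rw [h1, h2]
  ring

theorem L0_eq (ζ : ℂ) (θ : ℝ) : L0 ζ θ = (ζ * em θ).re := by
  unfold L0
  rw [ep_conj, ← map_mul, Complex.conj_re]

noncomputable def K1 (g : ℂ → ℂ) (ζ z : ℂ) : ℂ :=
  ((3 / 2 : ℝ) : ℂ) * (z * g z + (starRingEnd ℂ) ζ ^ 2 * dslope g 0 z) -
    ((1 / 2 : ℝ) : ℂ) * (ζ ^ 2 * z ^ 3 * g z + z * g z) - ((1 / 2 : ℝ) : ℂ) * (z ^ 2 * deriv g z) -
    ((1 / 4 : ℝ) : ℂ) * (ζ ^ 2 * z ^ 4 * deriv g z + (starRingEnd ℂ) ζ ^ 2 * deriv g z)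

noncomputable def K2 (g : ℂ → ℂ) (ζ z : ℂ) : ℂ :=
  ((3 / 2 : ℝ) : ℂ) * ((starRingEnd ℂ) ζ * g z) - ((1 / 2 : ℝ) : ℂ) * (ζ * z ^ 2 * g z) -
    ((1 / 2 : ℝ) : ℂ) * (ζ * z ^ 3 * deriv g z + (starRingEnd ℂ) ζ * z * deriv g z)

theorem good_K1 {g : ℂ → ℂ} {ρ : ℝ} (hg : Good g ρ) (ζ : ℂ) : Good (K1 g ζ) ρ := by
  refine ⟨hg.one_lt, ?_⟩
  have hd : DifferentiableOn ℂ (deriv g) (Metric.ball 0 ρ) := hg.hol.deriv Metric.isOpen_ball
  have hs : DifferentiableOn ℂ (dslope g 0) (Metric.ball 0 ρ) :=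
    (Complex.differentiableOn_dslope (Metric.ball_mem_nhds 0 (by linarith [hg.one_lt]))).2 hg.hol
  have hh := hg.hol
  unfold K1
  obtain ⟨d, hd'⟩ : ∃ d, d = deriv g := ⟨_, rfl⟩
  obtain ⟨l, hl'⟩ : ∃ l, l = dslope g 0 := ⟨_, rfl⟩
  rw [← hd'] at hd ⊢
  rw [← hl'] at hs ⊢
  fun_prop

theorem good_K2 {g : ℂ → ℂ} {ρ : ℝ} (hg : Good g ρ) (ζ : ℂ) : Good (K2 g ζ) ρ := by
  refine ⟨hg.one_lt, ?_⟩
  have hd : DifferentiableOn ℂ (deriv g) (Metric.ball 0 ρ) := hg.hol.deriv Metric.isOpen_ball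
  have hh := hg.hol
  unfold K2
  obtain ⟨d, hd'⟩ : ∃ d, d = deriv g := ⟨_, rfl⟩
  rw [← hd'] at hd ⊢
  fun_prop

theorem L0_sq {ζ : ℂ} (hζ : ‖ζ‖ = 1) (θ : ℝ) : L0 ζ θ ^ 2 = 1 / 2 + (((1 / 2 : ℝ) : ℂ) * (ζ ^ 2 * em θ ^ 2)).re := by
  have hz1 := norm_one_mul (em_norm θ)
  have hζ1 := norm_one_mul hζ
  rw [L0_eq, Complex.re_ofReal_mul]
  have e2 : 2 * (ζ * em θ).re * (ζ * em θ).re = (ζ ^ 2 * em θ ^ 2).re + 1 := by
    rw [two_re]
    have h1 : ζ * em θ * (ζ * em θ) = ζ ^ 2 * em θ ^ 2 := by ring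
    have h2 : (starRingEnd ℂ) (ζ * em θ) * (ζ * em θ) = 1 := by
      rw [map_mul]
      linear_combination (starRingEnd ℂ) (em θ) * em θ * hζ1 + hz1
    rw [h1, h2, Complex.one_re]
  linear_combination 1 / 2 * e2

theorem first {g : ℂ → ℂ} (h0 : g 0 = 0) {ζ : ℂ} (hζ : ‖ζ‖ = 1) (θ : ℝ) :
    2 * L0 ζ θ * u1 g ζ θ + L0 ζ θ ^ 2 * b1 g θ = (K1 g ζ (em θ)).re := by
  rw [u1_eq]
  have hL := L0_sq hζ θ
  rw [Complex.re_ofReal_mul] at hL
  rw [hL, L0_eq]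
  unfold b1 xx K1
  obtain ⟨z, hzz⟩ : ∃ z, z = em θ := ⟨_, rfl⟩
  have hz : ‖z‖ = 1 := by rw [hzz, em_norm]
  rw [← hzz]
  have hz1 := norm_one_mul hz
  have hζ1 := norm_one_mul hζ
  have hz0 : z ≠ 0 := fun h => by rw [h] at hz; simp at hz
  have e3 : 2 * (ζ * z).re * ((starRingEnd ℂ) ζ * g z).re = (z * g z).re +
      ((starRingEnd ℂ) ζ ^ 2 * dslope g 0 z).re := by
    rw [two_re]
    have h1 : ζ * z * ((starRingEnd ℂ) ζ * g z) = z * g z := by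
      linear_combination z * g z * hζ1
    have hinv : z⁻¹ = (starRingEnd ℂ) z := (eq_inv_of_mul_eq_one_left hz1).symm
    have h2 : dslope g 0 z = (starRingEnd ℂ) z * g z := by
      rw [dslope_of_ne _ hz0, slope_def_module, sub_zero, hinv, smul_eq_mul, h0, sub_zero]
    have h3 : (starRingEnd ℂ) (ζ * z) * ((starRingEnd ℂ) ζ * g z) = (starRingEnd ℂ) ζ ^ 2 * dslope g 0 z := by
      rw [map_mul, h2]
      ring
    rw [h1, h3]
  have e4 : 2 * (ζ ^ 2 * z ^ 2).re * (z ^ 2 * deriv g z).re = (ζ ^ 2 * z ^ 4 * deriv g z).re +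
      ((starRingEnd ℂ) ζ ^ 2 * deriv g z).re := by
    rw [two_re]
    have h1 : ζ ^ 2 * z ^ 2 * (z ^ 2 * deriv g z) = ζ ^ 2 * z ^ 4 * deriv g z := by ring
    have h2 : (starRingEnd ℂ) (ζ ^ 2 * z ^ 2) * (z ^ 2 * deriv g z) = (starRingEnd ℂ) ζ ^ 2 * deriv g z := by
      rw [map_mul, map_pow, map_pow]
      linear_combination (starRingEnd ℂ) ζ ^ 2 * deriv g z * ((starRingEnd ℂ) z * z + 1) * hz1
    rw [h1, h2]
  have e5 : 2 * (ζ * z).re * (ζ * z ^ 2 * g z).re = (ζ ^ 2 * z ^ 3 * g z).re + (z * g z).re := by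
    rw [two_re]
    have h1 : ζ * z * (ζ * z ^ 2 * g z) = ζ ^ 2 * z ^ 3 * g z := by ring
    have h2 : (starRingEnd ℂ) (ζ * z) * (ζ * z ^ 2 * g z) = z * g z := by
      rw [map_mul]
      linear_combination (starRingEnd ℂ) z * z ^ 2 * g z * hζ1 + z * g z * hz1
    rw [h1, h2]
  simp only [Complex.add_re, Complex.sub_re, Complex.re_ofReal_mul]
  linear_combination 3 / 2 * e3 - 1 / 2 * e5 - 1 / 4 * e4

theorem second (g : ℂ → ℂ) (ζ : ℂ) (θ : ℝ) :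
    u1 g ζ θ + L0 ζ θ * b1 g θ = (K2 g ζ (em θ)).re := by
  rw [u1_eq, L0_eq]
  unfold b1 xx K2
  obtain ⟨z, hzz⟩ : ∃ z, z = em θ := ⟨_, rfl⟩
  have hz : ‖z‖ = 1 := by rw [hzz, em_norm]
  rw [← hzz]
  have hz1 := norm_one_mul hz
  have e3 : 2 * (ζ * z).re * (z ^ 2 * deriv g z).re = (ζ * z ^ 3 * deriv g z).re +
      ((starRingEnd ℂ) ζ * z * deriv g z).re := by
    rw [two_re]
    have h1 : ζ * z * (z ^ 2 * deriv g z) = ζ * z ^ 3 * deriv g z := by ring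
    have h2 : (starRingEnd ℂ) (ζ * z) * (z ^ 2 * deriv g z) = (starRingEnd ℂ) ζ * z * deriv g z := by
      rw [map_mul]
      linear_combination (starRingEnd ℂ) ζ * z * deriv g z * hz1
    rw [h1, h2]
  simp only [Complex.add_re, Complex.sub_re, Complex.re_ofReal_mul]
  linear_combination -(1 / 2) * e3

theorem wt_eq {g : ℂ → ℂ} {ρ : ℝ} (hg : Good g ρ) (ε θ : ℝ) : wt g ε θ = ‖1 - (ε : ℂ) * xx g θ‖ := by
  unfold wt xx
  have h : deriv (psi g ε) (ep θ) = 1 + ε * (deriv g (em θ) * -((Complex.exp (θ * Complex.I)) ^ 2)⁻¹) :=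
    deriv_psi hg ε θ
  rw [h, ← inv_pow, em_inv]
  congr 1
  ring

end Bd2M

open Bd2M in
theorem bd2 (hMv : MvStmt) : Bd2Stmt := by
  intro g ρ hg0
  have hg := hg0.good
  have hρ := hg.one_lt
  have hd : DifferentiableOn ℂ (deriv g) (Metric.ball 0 ρ) := hg.hol.deriv Metric.isOpen_ball
  have hgh := good_gh hg
  have hg2 := good_g2 hg
  have hghd : DifferentiableOn ℂ (deriv (gh g)) (Metric.ball 0 ρ) := hgh.deriv Metric.isOpen_ball
  have hg2d : DifferentiableOn ℂ (deriv (g2 g)) (Metric.ball 0 ρ) := hg2.deriv Metric.isOpen_ball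
  have hsub : Metric.closedBall (0 : ℂ) 1 ⊆ Metric.ball 0 ρ := Metric.closedBall_subset_ball hρ
  have hcpt := isCompact_closedBall (0 : ℂ) 1
  obtain ⟨A, hA⟩ := hcpt.exists_bound_of_continuousOn (hg.hol.continuousOn.mono hsub)
  obtain ⟨R, hR⟩ := hcpt.exists_bound_of_continuousOn (hd.continuousOn.mono hsub)
  obtain ⟨D1, hD1⟩ := hcpt.exists_bound_of_continuousOn (hghd.continuousOn.mono hsub)
  obtain ⟨D2, hD2⟩ := hcpt.exists_bound_of_continuousOn (hg2d.continuousOn.mono hsub)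
  obtain ⟨Ka, hKa0, hKa⟩ := taylor2 hρ hgh
  obtain ⟨Kb, hKb0, hKb⟩ := taylor2 hρ hg2
  have hmem : ∀ θ : ℝ, em θ ∈ Metric.closedBall (0 : ℂ) 1 := fun θ => by
    rw [mem_closedBall_zero_iff, em_norm]
  have hmem' : ∀ θ : ℝ, ep θ ∈ Metric.closedBall (0 : ℂ) 1 := fun θ => by
    rw [mem_closedBall_zero_iff, ep_norm]
  have hAe : ∀ θ, ‖g (em θ)‖ ≤ A := fun θ => hA _ (hmem θ)
  have hRe : ∀ θ, ‖xx g θ‖ ≤ R := fun θ => by
    unfold xx
    rw [norm_mul, norm_pow, em_norm, one_pow, one_mul]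
    exact hR _ (hmem θ)
  have hA0 : 0 ≤ A := (norm_nonneg _).trans (hAe 0)
  have hR0 : 0 ≤ R := (norm_nonneg _).trans (hRe 0)
  have hD10 : 0 ≤ D1 := (norm_nonneg _).trans (hD1 _ (hmem' 0))
  have hD20 : 0 ≤ D2 := (norm_nonneg _).trans (hD2 _ (hmem' 0))
  have hpi := Real.pi_pos
  obtain ⟨M, hM⟩ : ∃ M, M = 1 + 2 * A + (D1 + D2) * A + R + R ^ 2 + (Ka + Kb) * A ^ 2 + (2 * R ^ 3 + R ^ 4) := ⟨_, rfl⟩
  have t2 : 0 ≤ (D1 + D2) * A := by positivity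
  have t4 : 0 ≤ R ^ 2 := by positivity
  have t5 : 0 ≤ (Ka + Kb) * A ^ 2 := by positivity
  have t6 : 0 ≤ 2 * R ^ 3 + R ^ 4 := by positivity
  have hG1 : Continuous G1 := by unfold G1; fun_prop
  have hG2 : Continuous G2 := by unfold G2; fun_prop
  obtain ⟨C1, hC10, hC1⟩ := bound hG1 M
  obtain ⟨C2, hC20, hC2⟩ := bound hG2 M
  refine ⟨2 * Real.pi * C1 + 4 * Real.pi * C2 ^ 2 + 1, min 1 (min (1 / (2 * (R + 1))) ((ρ - 1) / (2 * (A + 1)))),
    by positivity, lt_min one_pos (lt_min (by positivity) (div_pos (by linarith) (by positivity))),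
    fun ε h0 hε ζ hζ => ?_⟩
  have h1 : ε ≤ 1 := (hε.trans_le (min_le_left _ _)).le
  have h2 : ε * R ≤ 1 / 2 := by
    have h3 : ε ≤ 1 / (2 * (R + 1)) := (hε.trans_le ((min_le_right _ _).trans (min_le_left _ _))).le
    rw [le_div_iff₀ (by positivity)] at h3
    linarith
  have h3 : ε * A ≤ (ρ - 1) / 2 := by
    have h4 : ε ≤ (ρ - 1) / (2 * (A + 1)) := (hε.trans_le ((min_le_right _ _).trans (min_le_right _ _))).le
    rw [le_div_iff₀ (by positivity)] at h4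
    linarith
  have hζc : ‖(starRingEnd ℂ) ζ‖ = 1 := by rw [RCLike.norm_conj, hζ]
  -- continuity
  have hec := em_cont
  have hpc := ep_cont
  have hgc : Continuous fun θ => g (em θ) := hg.hol.continuousOn.comp_continuous em_cont (em_mem hρ)
  have hdc : Continuous fun θ => deriv g (em θ) := hd.continuousOn.comp_continuous em_cont (em_mem hρ)
  have hghc : Continuous fun θ => deriv (gh g) (ep θ) :=
    hghd.continuousOn.comp_continuous ep_cont (fun θ => hsub (hmem' θ))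
  have hg2c : Continuous fun θ => deriv (g2 g) (ep θ) :=
    hg2d.continuousOn.comp_continuous ep_cont (fun θ => hsub (hmem' θ))
  have cL : Continuous fun θ => L0 ζ θ := by
    unfold L0
    exact Complex.continuous_re.comp (continuous_const.mul hpc)
  have cu : Continuous fun θ => u1 g ζ θ := by
    have e : (fun θ => u1 g ζ θ) = fun θ => 3 / 2 * ((starRingEnd ℂ) ζ * g (em θ)).re -
        1 / 2 * (ζ * em θ ^ 2 * g (em θ)).re := funext fun θ => u1_eq g ζ θ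
    rw [e]
    exact (continuous_const.mul (Complex.continuous_re.comp (continuous_const.mul hgc))).sub
      (continuous_const.mul (Complex.continuous_re.comp ((continuous_const.mul (hec.pow 2)).mul hgc)))
  have ck : Continuous fun θ => (kk g ζ (ep θ) * g (em θ)).re := by
    unfold kk
    exact Complex.continuous_re.comp (((continuous_const.mul hghc).sub (continuous_const.mul hg2c)).mul hgc)
  have cx : Continuous fun θ => xx g θ := by
    unfold xx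
    exact (hec.pow 2).mul hdc
  have cb1 : Continuous fun θ => b1 g θ := by
    unfold b1
    exact (Complex.continuous_re.comp cx).neg
  have cb2 : Continuous fun θ => b2 g θ := by
    unfold b2
    exact ((Complex.continuous_im.comp cx).pow 2).div_const 2
  have cw : Continuous fun θ => wt g ε θ := by
    have e : (fun θ => wt g ε θ) = fun θ => ‖1 - (ε : ℂ) * xx g θ‖ := funext fun θ => wt_eq hg ε θ
    rw [e]
    exact (continuous_const.sub (continuous_const.mul cx)).norm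
  have hpsi : ∀ θ : ℝ, psi g ε (ep θ) = ep θ + ε * g (em θ) := fun θ => by
    unfold psi
    have e : (ep θ)⁻¹ = em θ := em_inv θ
    rw [e]
  have hδ : ∀ θ : ℝ, ‖(ε : ℂ) * g (em θ)‖ ≤ ε * A := fun θ => by
    rw [norm_mul, Complex.norm_real, Real.norm_eq_abs, abs_of_pos h0]
    exact mul_le_mul_of_nonneg_left (hAe θ) h0.le
  have cU : Continuous fun θ => UU g ε ζ θ := by
    unfold UU
    refine Complex.continuous_re.comp ?_
    have hF : ContinuousOn (FF g ε ζ) (Metric.ball 0 ρ) := by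
      unfold FF
      exact (continuousOn_const.mul continuousOn_id).add (continuousOn_const.mul
        ((continuousOn_const.mul hgh.continuousOn).sub (continuousOn_const.mul hg2.continuousOn)))
    refine hF.comp_continuous ?_ fun θ => ?_
    · have e : (fun θ => psi g ε (ep θ)) = fun θ => ep θ + ε * g (em θ) := funext hpsi
      rw [e]
      exact hpc.add (continuous_const.mul hgc)
    · rw [hpsi, mem_ball_zero_iff]
      calc ‖ep θ + ε * g (em θ)‖ ≤ ‖ep θ‖ + ‖(ε : ℂ) * g (em θ)‖ := norm_add_le _ _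
        _ ≤ 1 + (ρ - 1) / 2 := by rw [ep_norm]; exact add_le_add le_rfl ((hδ θ).trans h3)
        _ < ρ := by linarith
  -- remainders
  have hw0 : ∀ θ, |wt g ε θ - (1 + ε * b1 g θ + ε ^ 2 * b2 g θ)| ≤ (2 * R ^ 3 + R ^ 4) * ε ^ 3 := fun θ => by
    rw [wt_eq hg]
    exact norm_exp (hRe θ) h0 h1 h2
  have hU0 : ∀ θ, |UU g ε ζ θ - (L0 ζ θ + ε * u1 g ζ θ + ε ^ 2 * ((kk g ζ (ep θ) * g (em θ)).re / 2))| ≤
      (Ka + Kb) * A ^ 2 * ε ^ 3 := fun θ => by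
    obtain ⟨δ, hδd⟩ : ∃ δ, δ = (ε : ℂ) * g (em θ) := ⟨_, rfl⟩
    have hδn : ‖δ‖ ≤ ε * A := by rw [hδd]; exact hδ θ
    have r1 := hKa (ep θ) δ (ep_norm θ) (hδn.trans h3)
    have r2 := hKb (ep θ) δ (ep_norm θ) (hδn.trans h3)
    obtain ⟨X, hX⟩ : ∃ X, X = gh g (ep θ + δ) - gh g (ep θ) - δ * deriv (gh g) (ep θ) := ⟨_, rfl⟩
    obtain ⟨Y, hY⟩ : ∃ Y, Y = g2 g (ep θ + δ) - g2 g (ep θ) - δ * deriv (g2 g) (ep θ) := ⟨_, rfl⟩
    rw [← hX] at r1
    rw [← hY] at r2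
    have e1 : UU g ε ζ θ - (L0 ζ θ + ε * u1 g ζ θ + ε ^ 2 * ((kk g ζ (ep θ) * g (em θ)).re / 2)) =
        (((ε / 2 : ℝ) : ℂ) * (ζ * X - (starRingEnd ℂ) ζ * Y)).re := by
      have e2 : UU g ε ζ θ = ((starRingEnd ℂ) ζ * ep θ + (ε : ℂ) * ((starRingEnd ℂ) ζ * g (em θ)) +
          ((ε / 2 : ℝ) : ℂ) * (ζ * gh g (ep θ) - (starRingEnd ℂ) ζ * g2 g (ep θ)) +
          ((ε ^ 2 / 2 : ℝ) : ℂ) * (kk g ζ (ep θ) * g (em θ)) +
          ((ε / 2 : ℝ) : ℂ) * (ζ * X - (starRingEnd ℂ) ζ * Y)).re := by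
        unfold UU FF kk
        rw [hpsi, ← hδd]
        congr 1
        rw [hX, hY, hδd]
        push_cast
        ring
      rw [e2]
      unfold L0 u1
      simp only [Complex.add_re, Complex.re_ofReal_mul]
      ring
    rw [e1]
    refine (Complex.abs_re_le_norm _).trans ?_
    rw [norm_mul, Complex.norm_real, Real.norm_eq_abs, abs_of_pos (by positivity : 0 < ε / 2)]
    have e3 : ‖ζ * X - (starRingEnd ℂ) ζ * Y‖ ≤ (Ka + Kb) * (ε * A) ^ 2 := by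
      calc ‖ζ * X - (starRingEnd ℂ) ζ * Y‖ ≤ ‖ζ * X‖ + ‖(starRingEnd ℂ) ζ * Y‖ := norm_sub_le _ _
        _ = ‖X‖ + ‖Y‖ := by rw [norm_mul, norm_mul, hζ, hζc, one_mul, one_mul]
        _ ≤ Ka * ‖δ‖ ^ 2 + Kb * ‖δ‖ ^ 2 := add_le_add r1 r2
        _ = (Ka + Kb) * ‖δ‖ ^ 2 := by ring
        _ ≤ (Ka + Kb) * (ε * A) ^ 2 :=
            mul_le_mul_of_nonneg_left (pow_le_pow_left₀ (norm_nonneg _) hδn 2) (by positivity)
    calc ε / 2 * ‖ζ * X - (starRingEnd ℂ) ζ * Y‖ ≤ ε / 2 * ((Ka + Kb) * (ε * A) ^ 2) :=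
          mul_le_mul_of_nonneg_left e3 (by positivity)
      _ ≤ (Ka + Kb) * A ^ 2 * ε ^ 3 := by
          have : 0 ≤ (Ka + Kb) * A ^ 2 * ε ^ 3 := by positivity
          nlinarith
  -- the vector of the expansion
  have key : ∀ θ : ℝ, ∃ e f : ℝ, UU g ε ζ θ = L0 ζ θ + ε * u1 g ζ θ + ε ^ 2 * ((kk g ζ (ep θ) * g (em θ)).re / 2) +
      ε ^ 3 * e ∧ wt g ε θ = 1 + ε * b1 g θ + ε ^ 2 * b2 g θ + ε ^ 3 * f ∧
      (∀ i, |(![ε, L0 ζ θ, u1 g ζ θ, (kk g ζ (ep θ) * g (em θ)).re / 2, b1 g θ, b2 g θ, e, f] : Fin 8 → ℝ) i| ≤ M) := by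
    intro θ
    have hε3 : 0 < ε ^ 3 := by positivity
    refine ⟨(UU g ε ζ θ - (L0 ζ θ + ε * u1 g ζ θ + ε ^ 2 * ((kk g ζ (ep θ) * g (em θ)).re / 2))) / ε ^ 3,
      (wt g ε θ - (1 + ε * b1 g θ + ε ^ 2 * b2 g θ)) / ε ^ 3, ?_, ?_, ?_⟩
    · rw [mul_div_cancel₀ _ hε3.ne']
      ring
    · rw [mul_div_cancel₀ _ hε3.ne']
      ring
    · have q1 : |ε| ≤ M := by rw [abs_of_pos h0]; linarith
      have q2 : |L0 ζ θ| ≤ M := by
        unfold L0
        refine (Complex.abs_re_le_norm _).trans ?_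
        rw [norm_mul, hζc, ep_norm, mul_one]
        linarith
      have q3 : |u1 g ζ θ| ≤ M := by
        rw [u1_eq]
        have n1 : |((starRingEnd ℂ) ζ * g (em θ)).re| ≤ A := by
          refine (Complex.abs_re_le_norm _).trans ?_
          rw [norm_mul, hζc, one_mul]
          exact hAe θ
        have n2 : |(ζ * em θ ^ 2 * g (em θ)).re| ≤ A := by
          refine (Complex.abs_re_le_norm _).trans ?_
          rw [norm_mul, norm_mul, norm_pow, hζ, em_norm, one_pow, one_mul, one_mul]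
          exact hAe θ
        rw [abs_le] at n1 n2 ⊢
        constructor <;> linarith [n1.1, n1.2, n2.1, n2.2]
      have q4 : |(kk g ζ (ep θ) * g (em θ)).re / 2| ≤ M := by
        have n1 : |(kk g ζ (ep θ) * g (em θ)).re| ≤ (D1 + D2) * A := by
          refine (Complex.abs_re_le_norm _).trans ?_
          rw [norm_mul]
          refine mul_le_mul ?_ (hAe θ) (norm_nonneg _) (by positivity)
          unfold kk
          calc ‖ζ * deriv (gh g) (ep θ) - (starRingEnd ℂ) ζ * deriv (g2 g) (ep θ)‖ ≤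
                ‖ζ * deriv (gh g) (ep θ)‖ + ‖(starRingEnd ℂ) ζ * deriv (g2 g) (ep θ)‖ := norm_sub_le _ _
            _ ≤ D1 + D2 := by
                rw [norm_mul, norm_mul, hζ, hζc, one_mul, one_mul]
                exact add_le_add (hD1 _ (hmem' θ)) (hD2 _ (hmem' θ))
        rw [abs_div, abs_two]
        linarith [abs_nonneg (kk g ζ (ep θ) * g (em θ)).re]
      have q5 : |b1 g θ| ≤ M := by
        unfold b1
        rw [abs_neg]
        refine ((Complex.abs_re_le_norm _).trans (hRe θ)).trans ?_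
        linarith
      have q6 : |b2 g θ| ≤ M := by
        unfold b2
        rw [abs_div, abs_two, abs_pow]
        have n1 := pow_le_pow_left₀ (abs_nonneg _) ((Complex.abs_im_le_norm (xx g θ)).trans (hRe θ)) 2
        linarith
      have q7 : |(UU g ε ζ θ - (L0 ζ θ + ε * u1 g ζ θ + ε ^ 2 * ((kk g ζ (ep θ) * g (em θ)).re / 2))) / ε ^ 3| ≤ M := by
        rw [abs_div, abs_of_pos hε3, div_le_iff₀ hε3]
        refine (hU0 θ).trans (mul_le_mul_of_nonneg_right ?_ hε3.le)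
        linarith
      have q8 : |(wt g ε θ - (1 + ε * b1 g θ + ε ^ 2 * b2 g θ)) / ε ^ 3| ≤ M := by
        rw [abs_div, abs_of_pos hε3, div_le_iff₀ hε3]
        refine (hw0 θ).trans (mul_le_mul_of_nonneg_right ?_ hε3.le)
        linarith
      intro i
      fin_cases i
      · exact q1
      · exact q2
      · exact q3
      · exact q4
      · exact q5
      · exact q6
      · exact q7
      · exact q8
  -- the three integrals
  obtain ⟨B, hB⟩ : ∃ B, B = ∫ θ in (0 : ℝ)..(2 * Real.pi), wt g ε θ := ⟨_, rfl⟩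
  obtain ⟨N, hN⟩ : ∃ N, N = ∫ θ in (0 : ℝ)..(2 * Real.pi), UU g ε ζ θ * wt g ε θ := ⟨_, rfl⟩
  obtain ⟨Q, hQ⟩ : ∃ Q, Q = ∫ θ in (0 : ℝ)..(2 * Real.pi), UU g ε ζ θ ^ 2 * wt g ε θ := ⟨_, rfl⟩
  have eVI : VI g ε ζ = Q - N ^ 2 / B := by
    rw [hQ, hN, hB]
    rfl
  have hBpi : Real.pi ≤ B := by
    have e1 : ∫ _θ in (0 : ℝ)..(2 * Real.pi), (1 / 2 : ℝ) ≤ B := by
      rw [hB]
      refine intervalIntegral.integral_mono_on (by positivity) (continuous_const.intervalIntegrable _ _)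
        (cw.intervalIntegrable _ _) fun θ _ => ?_
      rw [wt_eq hg]
      have e2 : ‖(ε : ℂ) * xx g θ‖ ≤ ε * R := by
        rw [norm_mul, Complex.norm_real, Real.norm_eq_abs, abs_of_pos h0]
        exact mul_le_mul_of_nonneg_left (hRe θ) h0.le
      have e3 := norm_sub_norm_le (1 : ℂ) ((ε : ℂ) * xx g θ)
      rw [norm_one] at e3
      linarith
    rw [intervalIntegral.integral_const, smul_eq_mul] at e1
    linarith
  have iL : ∫ θ in (0 : ℝ)..(2 * Real.pi), L0 ζ θ = 0 := by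
    have hG : Good (fun z => ζ * z) 2 := ⟨by norm_num, (differentiable_id.const_mul ζ).differentiableOn⟩
    have e1 := mv_re hMv hG
    rw [mul_zero, Complex.zero_re, mul_zero] at e1
    refine Eq.trans ?_ e1
    exact intervalIntegral.integral_congr fun θ _ => L0_eq ζ θ
  have iLL : ∫ θ in (0 : ℝ)..(2 * Real.pi), L0 ζ θ ^ 2 = Real.pi := by
    have hG : Good (fun z => ((1 / 2 : ℝ) : ℂ) * (ζ ^ 2 * z ^ 2)) 2 := ⟨by norm_num, by fun_prop⟩
    have e1 := mv_re hMv hG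
    have e2 : ∫ θ in (0 : ℝ)..(2 * Real.pi), L0 ζ θ ^ 2 = ∫ θ in (0 : ℝ)..(2 * Real.pi),
        (1 / 2 + (((1 / 2 : ℝ) : ℂ) * (ζ ^ 2 * DD.em θ ^ 2)).re) :=
      intervalIntegral.integral_congr fun θ _ => L0_sq hζ θ
    have cc : Continuous fun θ => (((1 / 2 : ℝ) : ℂ) * (ζ ^ 2 * DD.em θ ^ 2)).re :=
      Complex.continuous_re.comp (continuous_const.mul (continuous_const.mul (hec.pow 2)))
    rw [e2, intervalIntegral.integral_add (continuous_const.intervalIntegrable _ _) (cc.intervalIntegrable _ _), e1,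
      intervalIntegral.integral_const, smul_eq_mul]
    simp
    ring
  have i1 : ∫ θ in (0 : ℝ)..(2 * Real.pi), (2 * L0 ζ θ * u1 g ζ θ + L0 ζ θ ^ 2 * b1 g θ) = 0 := by
    have e1 := mv_re hMv (good_K1 hg ζ)
    have e2 : K1 g ζ 0 = 0 := by
      unfold K1
      rw [dslope_same, hg0.zero, hg0.dzero]
      ring
    rw [e2, Complex.zero_re, mul_zero] at e1
    refine Eq.trans ?_ e1
    exact intervalIntegral.integral_congr fun θ _ => first hg0.zero hζ θ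
  have i2 : ∫ θ in (0 : ℝ)..(2 * Real.pi), (u1 g ζ θ + L0 ζ θ * b1 g θ) = 0 := by
    have e1 := mv_re hMv (good_K2 hg ζ)
    have e2 : K2 g ζ 0 = 0 := by
      unfold K2
      rw [hg0.zero, hg0.dzero]
      ring
    rw [e2, Complex.zero_re, mul_zero] at e1
    refine Eq.trans ?_ e1
    exact intervalIntegral.integral_congr fun θ _ => second g ζ θ
  have cUw : Continuous fun θ => UU g ε ζ θ * wt g ε θ := cU.mul cw
  have cUUw : Continuous fun θ => UU g ε ζ θ ^ 2 * wt g ε θ := (cU.pow 2).mul cw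
  have cF2 : Continuous fun θ => u1 g ζ θ + L0 ζ θ * b1 g θ := cu.add (cL.mul cb1)
  have cF1 : Continuous fun θ => 2 * L0 ζ θ * u1 g ζ θ + L0 ζ θ ^ 2 * b1 g θ :=
    ((continuous_const.mul cL).mul cu).add ((cL.pow 2).mul cb1)
  have cT2 : Continuous fun θ => u1 g ζ θ ^ 2 + L0 ζ θ * (kk g ζ (ep θ) * g (em θ)).re +
      2 * L0 ζ θ * u1 g ζ θ * b1 g θ + L0 ζ θ ^ 2 * b2 g θ :=
    (((cu.pow 2).add (cL.mul ck)).add (((continuous_const.mul cL).mul cu).mul cb1)).add ((cL.pow 2).mul cb2)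
  have hNb : |N| ≤ 2 * Real.pi * C2 * ε ^ 2 := by
    have cF3 : Continuous fun θ => L0 ζ θ + ε * (u1 g ζ θ + L0 ζ θ * b1 g θ) := cL.add (continuous_const.mul cF2)
    have cF4 : Continuous fun θ => ε * (u1 g ζ θ + L0 ζ θ * b1 g θ) := continuous_const.mul cF2
    have e0 : ∫ θ in (0 : ℝ)..(2 * Real.pi), (L0 ζ θ + ε * (u1 g ζ θ + L0 ζ θ * b1 g θ)) = 0 := by
      rw [intervalIntegral.integral_add (cL.intervalIntegrable _ _)
        (cF4.intervalIntegrable _ _), intervalIntegral.integral_const_mul, i2, iL]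
      ring
    have e1 : N = ∫ θ in (0 : ℝ)..(2 * Real.pi), (UU g ε ζ θ * wt g ε θ -
        (L0 ζ θ + ε * (u1 g ζ θ + L0 ζ θ * b1 g θ))) := by
      rw [intervalIntegral.integral_sub (cUw.intervalIntegrable _ _) (cF3.intervalIntegrable _ _), e0, sub_zero, hN]
    have e2 := intervalIntegral.norm_integral_le_of_norm_le_const (a := 0) (b := 2 * Real.pi) (C := C2 * ε ^ 2)
      (f := fun θ => UU g ε ζ θ * wt g ε θ - (L0 ζ θ + ε * (u1 g ζ θ + L0 ζ θ * b1 g θ))) (fun θ _ => by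
        obtain ⟨e, f, k1, k2, k3⟩ := key θ
        rw [Real.norm_eq_abs, k1, k2, exp2, add_sub_cancel_left, abs_mul, abs_of_pos (by positivity : 0 < ε ^ 2),
          mul_comm C2]
        exact mul_le_mul_of_nonneg_left (hC2 _ k3) (by positivity))
    rw [← e1, Real.norm_eq_abs, sub_zero, abs_of_pos (by positivity : 0 < 2 * Real.pi)] at e2
    linarith
  have hQb : Real.pi + ε ^ 2 * Nq g ζ - 2 * Real.pi * C1 * ε ^ 3 ≤ Q := by
    obtain ⟨T, hT⟩ : ∃ T : ℝ → ℝ, T = fun θ => u1 g ζ θ ^ 2 + L0 ζ θ * (kk g ζ (ep θ) * g (em θ)).re +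
      2 * L0 ζ θ * u1 g ζ θ * b1 g θ + L0 ζ θ ^ 2 * b2 g θ := ⟨_, rfl⟩
    have cT : Continuous T := by rw [hT]; exact cT2
    have eN : Nq g ζ = ∫ θ in (0 : ℝ)..(2 * Real.pi), T θ := by rw [hT]; rfl
    have cTt : Continuous fun θ => L0 ζ θ ^ 2 + ε * (2 * L0 ζ θ * u1 g ζ θ + L0 ζ θ ^ 2 * b1 g θ) :=
      (cL.pow 2).add (continuous_const.mul cF1)
    have cTu : Continuous fun θ => L0 ζ θ ^ 2 + ε * (2 * L0 ζ θ * u1 g ζ θ + L0 ζ θ ^ 2 * b1 g θ) + ε ^ 2 * T θ :=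
      cTt.add (continuous_const.mul cT)
    have e1 : ∫ θ in (0 : ℝ)..(2 * Real.pi), (L0 ζ θ ^ 2 + ε * (2 * L0 ζ θ * u1 g ζ θ + L0 ζ θ ^ 2 * b1 g θ) +
        ε ^ 2 * T θ - C1 * ε ^ 3) ≤ Q := by
      rw [hQ]
      refine intervalIntegral.integral_mono_on (by positivity)
        ((cTu.sub continuous_const).intervalIntegrable _ _) (cUUw.intervalIntegrable _ _) fun θ _ => ?_
      obtain ⟨e, f, k1, k2, k3⟩ := key θ
      have k4 := hC1 _ k3
      rw [k1, k2, exp1, hT]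
      have k5 := (abs_le.1 k4).1
      have k6 : ε ^ 3 * -C1 ≤ ε ^ 3 * G1 ![ε, L0 ζ θ, u1 g ζ θ, (kk g ζ (ep θ) * g (em θ)).re / 2, b1 g θ, b2 g θ, e, f] :=
        mul_le_mul_of_nonneg_left k5 (by positivity)
      have k7 : 2 * ((kk g ζ (ep θ) * g (em θ)).re / 2) = (kk g ζ (ep θ) * g (em θ)).re := by ring
      rw [k7]
      linarith
    have cA1 : Continuous fun θ => ε ^ 2 * T θ := continuous_const.mul cT
    have cA2 : Continuous fun θ => L0 ζ θ ^ 2 := cL.pow 2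
    have cA3 : Continuous fun θ => ε * (2 * L0 ζ θ * u1 g ζ θ + L0 ζ θ ^ 2 * b1 g θ) := continuous_const.mul cF1
    rw [intervalIntegral.integral_sub (cTu.intervalIntegrable _ _) (continuous_const.intervalIntegrable _ _),
      intervalIntegral.integral_add (cTt.intervalIntegrable _ _) (cA1.intervalIntegrable _ _),
      intervalIntegral.integral_add (cA2.intervalIntegrable _ _) (cA3.intervalIntegrable _ _),
      intervalIntegral.integral_const_mul, intervalIntegral.integral_const_mul, i1, iLL, ← eN,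
      intervalIntegral.integral_const, smul_eq_mul] at e1
    linarith
  rw [eVI]
  have hB0 : 0 < B := hpi.trans_le hBpi
  have e2 : N ^ 2 ≤ (2 * Real.pi * C2 * ε ^ 2) ^ 2 := by
    rw [← sq_abs N]
    exact pow_le_pow_left₀ (abs_nonneg N) hNb 2
  have e3 : N ^ 2 / B ≤ 4 * Real.pi * C2 ^ 2 * ε ^ 3 := by
    rw [div_le_iff₀ hB0]
    have e4 : (2 * Real.pi * C2 * ε ^ 2) ^ 2 = 4 * Real.pi * C2 ^ 2 * ε ^ 4 * Real.pi := by ring
    rw [e4] at e2
    have e5 : ε ^ 4 ≤ ε ^ 3 := pow_le_pow_of_le_one h0.le h1 (by norm_num)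
    calc N ^ 2 ≤ 4 * Real.pi * C2 ^ 2 * ε ^ 4 * Real.pi := e2
      _ ≤ 4 * Real.pi * C2 ^ 2 * ε ^ 3 * B := by
          refine mul_le_mul ?_ hBpi hpi.le (by positivity)
          exact mul_le_mul_of_nonneg_left e5 (by positivity)
  have e5 : 0 ≤ ε ^ 3 := by positivity
  nlinarith

end Pool.Agent.H74.DE
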