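import Pool.Agent.H74.DE.Fr

set_option autoImplicit false

/-!
# [H74 DE Brg] Parseval on circles and on the disk (helper30)
-/

namespace Pool.Agent.H74.DE

open MeasureTheory Set Filter Topology Pool.Agent.H74.SX Pool.Agent.H74.DD

namespace Brg

theorem taylor {F : ℂ → ℂ} {ρ : ℝ} (hF : DifferentiableOn ℂ F (Metric.ball 0 ρ)) {z : ℂ} (hz : ‖z‖ < ρ) :
    HasSum (fun n : ℕ => cf F n * z ^ n) (F z) := by
  have h := Complex.hasSum_taylorSeries_on_ball hF (by simpa using hz : z ∈ Metric.ball (0 : ℂ) ρ)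
  have e : (fun n : ℕ => cf F n * z ^ n) = fun n : ℕ => ((n.factorial : ℂ))⁻¹ • (z - 0) ^ n • iteratedDeriv n F 0 := by
    funext n
    simp only [cf, sub_zero, smul_eq_mul]
    ring
  rw [e]
  exact h

theorem cf_summable {F : ℂ → ℂ} {ρ r : ℝ} (hF : DifferentiableOn ℂ F (Metric.ball 0 ρ)) (h0 : 0 ≤ r) (hr : r < ρ) :
    Summable fun n : ℕ => ‖cf F n‖ * r ^ n := by
  have h := (taylor hF (z := (r : ℂ)) (by simpa [abs_of_nonneg h0] using hr)).summable.norm
  refine h.congr fun n => ?_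
  rw [norm_mul, norm_pow, Complex.norm_real, Real.norm_eq_abs, abs_of_nonneg h0]

theorem norm_ep (θ : ℝ) : ‖ep θ‖ = 1 := by
  unfold ep; exact Complex.norm_exp_ofReal_mul_I θ

theorem ep_cont : Continuous ep := by unfold ep; fun_prop

theorem int_ep (m n : ℕ) : ∫ θ in (0 : ℝ)..(2 * Real.pi), ep θ ^ m * (starRingEnd ℂ) (ep θ) ^ n =
    if m = n then 2 * Real.pi else 0 := by
  have h1 : ∀ θ : ℝ, ep θ ^ m * (starRingEnd ℂ) (ep θ) ^ n = Complex.exp ((((m : ℤ) - n : ℤ) : ℂ) * Complex.I * θ) := by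
    intro θ
    unfold ep
    rw [← Complex.exp_conj, map_mul, Complex.conj_ofReal, Complex.conj_I, ← Complex.exp_nat_mul, ← Complex.exp_nat_mul,
      ← Complex.exp_add]
    congr 1
    push_cast
    ring
  simp_rw [h1]
  by_cases hmn : m = n
  · rw [if_pos hmn, hmn]
    simp
  · rw [if_neg hmn]
    have hc : (((m : ℤ) - n : ℤ) : ℂ) * Complex.I ≠ 0 := by
      refine mul_ne_zero ?_ Complex.I_ne_zero
      rw [Int.cast_ne_zero]
      omega
    rw [integral_exp_mul_complex hc]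
    have e : Complex.exp ((((m : ℤ) - n : ℤ) : ℂ) * Complex.I * ((2 * Real.pi : ℝ) : ℂ)) = 1 := by
      rw [show (((m : ℤ) - n : ℤ) : ℂ) * Complex.I * ((2 * Real.pi : ℝ) : ℂ) =
        (((m : ℤ) - n : ℤ) : ℂ) * (2 * Real.pi * Complex.I) by push_cast; ring]
      exact Complex.exp_int_mul_two_pi_mul_I _
    rw [e]
    simp

theorem circ_cont {F : ℂ → ℂ} {ρ r : ℝ} (hF : DifferentiableOn ℂ F (Metric.ball 0 ρ)) (h0 : 0 ≤ r) (hr : r < ρ) :
    Continuous fun θ : ℝ => F (r * ep θ) :=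
  hF.continuousOn.comp_continuous (by have := ep_cont; fun_prop) fun θ => by
    simp [norm_ep, abs_of_nonneg h0, hr]

/-- coefficients as integrals over a circle -/
theorem coef {F : ℂ → ℂ} {ρ r : ℝ} (hF : DifferentiableOn ℂ F (Metric.ball 0 ρ)) (h0 : 0 ≤ r) (hr : r < ρ) (n : ℕ) :
    ∫ θ in (0 : ℝ)..(2 * Real.pi), F (r * ep θ) * (starRingEnd ℂ) (ep θ) ^ n = 2 * Real.pi * (cf F n * r ^ n) := by
  have hs := cf_summable hF h0 hr
  have h := intervalIntegral.hasSum_integral_of_dominated_convergence (μ := volume) (a := 0) (b := 2 * Real.pi)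
    (F := fun (m : ℕ) (θ : ℝ) => cf F m * (r * ep θ) ^ m * (starRingEnd ℂ) (ep θ) ^ n)
    (f := fun θ : ℝ => F (r * ep θ) * (starRingEnd ℂ) (ep θ) ^ n) (fun m _ => ‖cf F m‖ * r ^ m)
    (fun m => (by have := ep_cont; fun_prop : Continuous fun θ : ℝ =>
      cf F m * (r * ep θ) ^ m * (starRingEnd ℂ) (ep θ) ^ n).aestronglyMeasurable)
    (fun m => Eventually.of_forall fun θ _ => by
      simp [norm_ep, abs_of_nonneg h0])
    (Eventually.of_forall fun θ _ => hs) intervalIntegrable_const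
    (Eventually.of_forall fun θ _ => (taylor hF (by simpa [norm_ep, abs_of_nonneg h0] using hr)).mul_right _)
  have h1 : ∀ m : ℕ, ∫ θ in (0 : ℝ)..(2 * Real.pi), cf F m * (r * ep θ) ^ m * (starRingEnd ℂ) (ep θ) ^ n =
      if m = n then 2 * Real.pi * (cf F n * r ^ n) else 0 := by
    intro m
    have h2 : ∀ θ : ℝ, cf F m * (r * ep θ) ^ m * (starRingEnd ℂ) (ep θ) ^ n =
        (cf F m * r ^ m) * (ep θ ^ m * (starRingEnd ℂ) (ep θ) ^ n) := fun θ => by rw [mul_pow]; ring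
    simp_rw [h2]
    rw [intervalIntegral.integral_const_mul, int_ep]
    by_cases hmn : m = n
    · rw [if_pos hmn, if_pos hmn, hmn]; push_cast; ring
    · rw [if_neg hmn, if_neg hmn]; simp
  simp_rw [h1] at h
  exact h.unique (hasSum_ite_eq n _)

theorem hardy {F : ℂ → ℂ} {ρ r : ℝ} (hF : DifferentiableOn ℂ F (Metric.ball 0 ρ)) (h0 : 0 ≤ r) (hr : r < ρ) :
    HasSum (fun n : ℕ => 2 * Real.pi * (‖cf F n‖ ^ 2 * r ^ (2 * n))) (∫ θ in (0 : ℝ)..(2 * Real.pi), ‖F (r * ep θ)‖ ^ 2) := by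
  have hs := cf_summable hF h0 hr
  have hFc := circ_cont hF h0 hr
  obtain ⟨M, hM⟩ := (isCompact_uIcc (a := (0 : ℝ)) (b := 2 * Real.pi)).exists_bound_of_continuousOn hFc.continuousOn
  have h := intervalIntegral.hasSum_integral_of_dominated_convergence (μ := volume) (a := 0) (b := 2 * Real.pi)
    (F := fun (m : ℕ) (θ : ℝ) => F (r * ep θ) * (starRingEnd ℂ) (cf F m * (r * ep θ) ^ m))
    (f := fun θ : ℝ => F (r * ep θ) * (starRingEnd ℂ) (F (r * ep θ))) (fun m _ => M * (‖cf F m‖ * r ^ m))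
    (fun m => (hFc.mul (Complex.continuous_conj.comp (by have := ep_cont; fun_prop : Continuous fun θ : ℝ =>
      cf F m * (r * ep θ) ^ m))).aestronglyMeasurable)
    (fun m => Eventually.of_forall fun θ hθ => by
      rw [norm_mul, RCLike.norm_conj, norm_mul, norm_pow, norm_mul, norm_ep, mul_one, Complex.norm_real, Real.norm_eq_abs,
        abs_of_nonneg h0]
      exact mul_le_mul_of_nonneg_right (hM θ (uIoc_subset_uIcc hθ)) (by positivity))
    (Eventually.of_forall fun θ _ => hs.mul_left M) intervalIntegrable_const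
    (Eventually.of_forall fun θ _ => ((Complex.hasSum_conj'.2 (taylor hF
      (by simpa [norm_ep, abs_of_nonneg h0] using hr : ‖(r : ℂ) * ep θ‖ < ρ))).mul_left _))
  have h1 : ∀ m : ℕ, ∫ θ in (0 : ℝ)..(2 * Real.pi), F (r * ep θ) * (starRingEnd ℂ) (cf F m * (r * ep θ) ^ m) =
      ((2 * Real.pi * (‖cf F m‖ ^ 2 * r ^ (2 * m)) : ℝ) : ℂ) := by
    intro m
    have h2 : ∀ θ : ℝ, F (r * ep θ) * (starRingEnd ℂ) (cf F m * (r * ep θ) ^ m) =
        ((starRingEnd ℂ) (cf F m) * r ^ m) * (F (r * ep θ) * (starRingEnd ℂ) (ep θ) ^ m) := fun θ => by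
      rw [map_mul, map_pow, map_mul, Complex.conj_ofReal, mul_pow]; ring
    simp_rw [h2]
    rw [intervalIntegral.integral_const_mul, coef hF h0 hr m]
    have h3 : (starRingEnd ℂ) (cf F m) * cf F m = ((‖cf F m‖ ^ 2 : ℝ) : ℂ) := by
      rw [mul_comm, Complex.mul_conj, Complex.normSq_eq_norm_sq]
    calc _ = 2 * Real.pi * (((starRingEnd ℂ) (cf F m) * cf F m) * (r : ℂ) ^ (2 * m)) := by ring
      _ = _ := by rw [h3]; push_cast; ring
  simp_rw [h1] at h
  have h2 : ∫ θ in (0 : ℝ)..(2 * Real.pi), F (r * ep θ) * (starRingEnd ℂ) (F (r * ep θ)) =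
      ((∫ θ in (0 : ℝ)..(2 * Real.pi), ‖F (r * ep θ)‖ ^ 2 : ℝ) : ℂ) := by
    rw [← intervalIntegral.integral_ofReal]
    refine intervalIntegral.integral_congr fun θ _ => ?_
    rw [Complex.mul_conj, Complex.normSq_eq_norm_sq]
  rw [h2] at h
  exact Complex.hasSum_ofReal.1 h

theorem bergman {F : ℂ → ℂ} {ρ : ℝ} (h1 : 1 < ρ) (hF : DifferentiableOn ℂ F (Metric.ball 0 ρ)) :
    HasSum (fun n : ℕ => ‖cf F n‖ ^ 2 * (Real.pi / (n + 1))) (∫ z in Metric.ball (0 : ℂ) 1, ‖F z‖ ^ 2) := by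
  have hpi := Real.pi_pos
  have hcont : ContinuousOn (fun p : ℝ × ℝ => p.1 * ‖F (p.1 * ep p.2)‖ ^ 2) (Icc 0 1 ×ˢ Icc (-Real.pi) Real.pi) := by
    refine continuousOn_fst.mul ((hF.continuousOn.comp (f := fun p : ℝ × ℝ => (p.1 : ℂ) * ep p.2)
      (by have := ep_cont; fun_prop) fun p hp => ?_).norm.pow 2)
    simp only [Metric.mem_ball, dist_zero_right, norm_mul, Complex.norm_real, norm_ep, mul_one, Real.norm_eq_abs]
    rw [abs_of_nonneg hp.1.1]
    exact lt_of_le_of_lt hp.1.2 h1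
  have hint : IntegrableOn (fun p : ℝ × ℝ => p.1 * ‖F (p.1 * ep p.2)‖ ^ 2) (Ioo 0 1 ×ˢ Ioo (-Real.pi) Real.pi)
      (volume.prod volume) :=
    (hcont.integrableOn_compact (isCompact_Icc.prod isCompact_Icc)).mono_set
      (prod_mono Ioo_subset_Icc_self Ioo_subset_Icc_self)
  have e1 : ∫ z in Metric.ball (0 : ℂ) 1, ‖F z‖ ^ 2 =
      ∫ p in (Ioo (0 : ℝ) 1 ×ˢ Ioo (-Real.pi) Real.pi), p.1 * ‖F (p.1 * ep p.2)‖ ^ 2 := by
    rw [← integral_indicator measurableSet_ball, ← Complex.integral_comp_polarCoord_symm]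
    have hsub : Ioo (0 : ℝ) 1 ×ˢ Ioo (-Real.pi) Real.pi ⊆ polarCoord.target := by
      rintro ⟨a, b⟩ ⟨ha, hb⟩
      exact ⟨ha.1, hb⟩
    rw [setIntegral_eq_of_subset_of_forall_sdiff_eq_zero polarCoord.open_target.measurableSet hsub ?_]
    · refine setIntegral_congr_fun (measurableSet_Ioo.prod measurableSet_Ioo) fun p hp => ?_
      have hb : Complex.polarCoord.symm p ∈ Metric.ball (0 : ℂ) 1 := by
        simp [abs_of_pos hp.1.1, hp.1.2]
      simp only [Set.indicator_of_mem hb, smul_eq_mul]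
      congr 4
      rw [Complex.polarCoord_symm_apply]
      unfold ep
      rw [Complex.exp_mul_I, Complex.ofReal_cos, Complex.ofReal_sin]
    · rintro p ⟨hp1, hp2⟩
      have hb : Complex.polarCoord.symm p ∉ Metric.ball (0 : ℂ) 1 := by
        intro hb
        refine hp2 ⟨⟨hp1.1, ?_⟩, hp1.2⟩
        have hp0 : 0 < p.1 := hp1.1
        simpa [abs_of_pos hp0] using hb
      rw [Set.indicator_of_notMem hb, smul_zero]
  have e2 : ∀ r ∈ Ioo (0 : ℝ) 1, ∫ θ in Ioo (-Real.pi) Real.pi, r * ‖F (r * ep θ)‖ ^ 2 =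
      r * ∫ θ in (0 : ℝ)..(2 * Real.pi), ‖F (r * ep θ)‖ ^ 2 := by
    intro r hr
    rw [integral_const_mul, ← integral_Ioc_eq_integral_Ioo, ← intervalIntegral.integral_of_le (by linarith)]
    congr 1
    have hper : Function.Periodic (fun θ : ℝ => ‖F (r * ep θ)‖ ^ 2) (2 * Real.pi) := by
      intro θ
      simp only
      congr 4
      unfold ep
      rw [show ((θ + 2 * Real.pi : ℝ) : ℂ) * Complex.I = (θ : ℂ) * Complex.I + 2 * Real.pi * Complex.I by push_cast; ring,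
        Complex.exp_add, Complex.exp_two_pi_mul_I, mul_one]
    have := hper.intervalIntegral_add_eq (-Real.pi) 0
    rw [zero_add, show -Real.pi + 2 * Real.pi = Real.pi by ring] at this
    exact this
  have e3 : ∫ z in Metric.ball (0 : ℂ) 1, ‖F z‖ ^ 2 =
      ∫ r in (0 : ℝ)..1, r * ∫ θ in (0 : ℝ)..(2 * Real.pi), ‖F (r * ep θ)‖ ^ 2 := by
    rw [e1, show (volume : Measure (ℝ × ℝ)) = volume.prod volume from rfl, setIntegral_prod _ hint,
      intervalIntegral.integral_of_le zero_le_one, integral_Ioc_eq_integral_Ioo]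
    exact setIntegral_congr_fun measurableSet_Ioo fun r hr => e2 r hr
  have hs : Summable fun n : ℕ => 2 * Real.pi * ‖cf F n‖ ^ 2 := by
    have := (hardy hF zero_le_one h1).summable
    simpa using this
  have h := intervalIntegral.hasSum_integral_of_dominated_convergence (μ := volume) (a := 0) (b := 1)
    (F := fun (n : ℕ) (r : ℝ) => r * (2 * Real.pi * (‖cf F n‖ ^ 2 * r ^ (2 * n))))
    (f := fun r : ℝ => r * ∫ θ in (0 : ℝ)..(2 * Real.pi), ‖F (r * ep θ)‖ ^ 2) (fun n _ => 2 * Real.pi * ‖cf F n‖ ^ 2)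
    (fun n => (by fun_prop : Continuous fun r : ℝ => r * (2 * Real.pi * (‖cf F n‖ ^ 2 * r ^ (2 * n)))).aestronglyMeasurable)
    (fun n => Eventually.of_forall fun r hr => by
      rw [uIoc_of_le zero_le_one] at hr
      have h2 : 0 ≤ r := hr.1.le
      rw [Real.norm_eq_abs, abs_of_nonneg (by positivity)]
      have h3 : r * r ^ (2 * n) ≤ 1 := by
        rw [← pow_succ']
        exact pow_le_one₀ h2 hr.2
      calc r * (2 * Real.pi * (‖cf F n‖ ^ 2 * r ^ (2 * n))) = (2 * Real.pi * ‖cf F n‖ ^ 2) * (r * r ^ (2 * n)) := by ring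
        _ ≤ (2 * Real.pi * ‖cf F n‖ ^ 2) * 1 := mul_le_mul_of_nonneg_left h3 (by positivity)
        _ = _ := mul_one _)
    (Eventually.of_forall fun r _ => hs) intervalIntegrable_const
    (Eventually.of_forall fun r hr => by
      rw [uIoc_of_le zero_le_one] at hr
      exact (hardy hF hr.1.le (lt_of_le_of_lt hr.2 h1)).mul_left r)
  have h2 : ∀ n : ℕ, ∫ r in (0 : ℝ)..1, r * (2 * Real.pi * (‖cf F n‖ ^ 2 * r ^ (2 * n))) =
      ‖cf F n‖ ^ 2 * (Real.pi / (n + 1)) := by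
    intro n
    have h3 : ∀ r : ℝ, r * (2 * Real.pi * (‖cf F n‖ ^ 2 * r ^ (2 * n))) = (2 * Real.pi * ‖cf F n‖ ^ 2) * r ^ (2 * n + 1) :=
      fun r => by ring
    simp_rw [h3]
    rw [intervalIntegral.integral_const_mul, integral_pow]
    push_cast
    simp
    field_simp
    ring
  simp_rw [h2] at h
  rw [e3]
  exact h

end Brg

end Pool.Agent.H74.DE
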