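import Pool.Agent.H74.DE.Prs

set_option autoImplicit false

/-!
# [H74 DE Cf] Taylor coefficients: rules
-/

namespace Pool.Agent.H74.DE

open MeasureTheory Set Filter Topology Pool.Agent.H74.SX Pool.Agent.H74.DD

theorem cf_eq {f : ℂ → ℂ} {ρ r : ℝ} (h : Good f ρ) (hr : 0 < r) {c : ℕ → ℂ}
    (hc : ∀ z : ℂ, ‖z‖ < r → HasSum (fun n => c n * z ^ n) (f z)) (n : ℕ) : cf f n = c n := by
  have key : ∀ d : ℕ → ℂ, ∀ r : ℝ, 0 < r →
      (∀ z : ℂ, ‖z‖ < r → HasSum (fun n => d n * z ^ n) (f z)) →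
        HasFPowerSeriesAt f (FormalMultilinearSeries.ofScalars ℂ d) 0 := by
    intro d r hr hd
    rw [hasFPowerSeriesAt_iff]
    filter_upwards [Metric.ball_mem_nhds (0 : ℂ) hr] with z hz
    have h1 := hd z (by rwa [Metric.mem_ball, dist_zero_right] at hz)
    rw [zero_add]
    have h2 : (fun n => z ^ n • (FormalMultilinearSeries.ofScalars ℂ d).coeff n) =
        fun n => d n * z ^ n := by
      funext n
      rw [FormalMultilinearSeries.coeff_ofScalars, smul_eq_mul, mul_comm]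
    rw [h2]
    exact h1
  have h1 := (key _ ρ (by linarith [h.one_lt]) (fun z hz => ser h hz)).eq_formalMultilinearSeries
    (key c r hr hc)
  have h2 := congrArg (fun p => p.coeff n) h1
  simpa only [FormalMultilinearSeries.coeff_ofScalars] using h2

theorem good_deriv {f : ℂ → ℂ} {ρ : ℝ} (h : Good f ρ) : Good (deriv f) ρ :=
  ⟨h.one_lt, h.hol.deriv Metric.isOpen_ball⟩

theorem cf_deriv (f : ℂ → ℂ) (n : ℕ) : cf (deriv f) n = ((n : ℂ) + 1) * cf f (n + 1) := by
  rw [cf, cf, ← iteratedDeriv_succ', Nat.factorial_succ]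
  have h1 : (n.factorial : ℂ) ≠ 0 := Nat.cast_ne_zero.2 n.factorial_ne_zero
  have h2 : ((n : ℂ) + 1) ≠ 0 := Nat.cast_add_one_ne_zero n
  push_cast
  field_simp

theorem cf_zero (f : ℂ → ℂ) : cf f 0 = f 0 := by
  rw [cf]
  simp

theorem cf_one (f : ℂ → ℂ) : cf f 1 = deriv f 0 := by
  have h := cf_deriv f 0
  rw [cf_zero] at h
  simpa using h.symm

theorem good_z {f : ℂ → ℂ} {ρ : ℝ} (h : Good f ρ) : Good (fun z => z * f z) ρ :=
  ⟨h.one_lt, differentiableOn_id.mul h.hol⟩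

theorem cf_z0 (f : ℂ → ℂ) : cf (fun z => z * f z) 0 = 0 := by
  rw [cf_zero]
  exact zero_mul _

theorem cf_z {f : ℂ → ℂ} {ρ : ℝ} (h : Good f ρ) (n : ℕ) :
    cf (fun z => z * f z) (n + 1) = cf f n := by
  have h1 := cf_eq (good_z h) (c := fun n => if n = 0 then 0 else cf f (n - 1))
    (lt_trans one_pos h.one_lt) (fun z hz => by
      have h2 := (ser h hz).mul_left z
      have h3 : (fun n => z * (cf f n * z ^ n)) =
          fun n => (fun n => (if n = 0 then 0 else cf f (n - 1)) * z ^ n) (n + 1) := by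
        funext n
        simp only [Nat.succ_ne_zero, if_false, Nat.add_sub_cancel]
        ring
      rw [h3] at h2
      have h4 := (hasSum_nat_add_iff (f := fun n => (if n = 0 then 0 else cf f (n - 1)) * z ^ n)
        1).1 h2
      simpa using h4) (n + 1)
  rw [h1]
  simp

theorem cf_zd {f : ℂ → ℂ} {ρ : ℝ} (h : Good f ρ) (n : ℕ) :
    cf (fun z => z * deriv f z) n = n * cf f n := by
  rcases n with _ | n
  · rw [cf_z0]
    simp
  · rw [cf_z (good_deriv h), cf_deriv]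
    push_cast
    ring

theorem good_add {f g : ℂ → ℂ} {ρ : ℝ} (hf : Good f ρ) (hg : Good g ρ) :
    Good (fun z => f z + g z) ρ := ⟨hf.one_lt, hf.hol.add hg.hol⟩

theorem cf_add {f g : ℂ → ℂ} {ρ : ℝ} (hf : Good f ρ) (hg : Good g ρ) (n : ℕ) :
    cf (fun z => f z + g z) n = cf f n + cf g n :=
  cf_eq (good_add hf hg) (c := fun n => cf f n + cf g n) (lt_trans one_pos hf.one_lt) (fun z hz => by
    simp only [add_mul]
    exact (ser hf hz).add (ser hg hz)) n

theorem good_sub {f g : ℂ → ℂ} {ρ : ℝ} (hf : Good f ρ) (hg : Good g ρ) :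
    Good (fun z => f z - g z) ρ := ⟨hf.one_lt, hf.hol.sub hg.hol⟩

theorem cf_sub {f g : ℂ → ℂ} {ρ : ℝ} (hf : Good f ρ) (hg : Good g ρ) (n : ℕ) :
    cf (fun z => f z - g z) n = cf f n - cf g n :=
  cf_eq (good_sub hf hg) (c := fun n => cf f n - cf g n) (lt_trans one_pos hf.one_lt) (fun z hz => by
    simp only [sub_mul]
    exact (ser hf hz).sub (ser hg hz)) n

theorem good_mul {f g : ℂ → ℂ} {ρ : ℝ} (hf : Good f ρ) (hg : Good g ρ) :
    Good (fun z => f z * g z) ρ := ⟨hf.one_lt, hf.hol.mul hg.hol⟩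

theorem good_c {f : ℂ → ℂ} {ρ : ℝ} (hf : Good f ρ) (c : ℂ) : Good (fun z => c * f z) ρ :=
  ⟨hf.one_lt, hf.hol.const_mul c⟩

theorem cf_c {f : ℂ → ℂ} {ρ : ℝ} (hf : Good f ρ) (c : ℂ) (n : ℕ) :
    cf (fun z => c * f z) n = c * cf f n :=
  cf_eq (good_c hf c) (c := fun n => c * cf f n) (lt_trans one_pos hf.one_lt) (fun z hz => by
    simp only [mul_assoc]
    exact (ser hf hz).mul_left c) n

theorem good_gh {f : ℂ → ℂ} {ρ : ℝ} (hf : Good f ρ) : Good (gh f) ρ := by
  refine ⟨hf.one_lt, fun z hz => ?_⟩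
  have h1 : (starRingEnd ℂ) z ∈ Metric.ball (0 : ℂ) ρ := by
    rw [Metric.mem_ball, dist_zero_right, RCLike.norm_conj]
    rwa [Metric.mem_ball, dist_zero_right] at hz
  have h2 := (hf.hol.differentiableAt (Metric.isOpen_ball.mem_nhds h1)).conj_conj
  rw [Complex.conj_conj] at h2
  exact h2.differentiableWithinAt

theorem cf_gh {f : ℂ → ℂ} {ρ : ℝ} (hf : Good f ρ) (n : ℕ) : cf (gh f) n = (starRingEnd ℂ) (cf f n) :=
  cf_eq (good_gh hf) (c := fun n => (starRingEnd ℂ) (cf f n)) (lt_trans one_pos hf.one_lt)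
    (fun z hz => by
      have h1 := ser hf (z := (starRingEnd ℂ) z) (by rwa [RCLike.norm_conj])
      have h2 := Complex.hasSum_conj'.2 h1
      simp only [map_mul, map_pow, Complex.conj_conj] at h2
      exact h2) n

end Pool.Agent.H74.DE
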