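import Pool.Agent.H74.DE.Fr
import Pool.Agent.H74.SX.Cfe

set_option autoImplicit false

/-!
# [H74 DE CfeU] Courant-Fischer with finitely many linear conditions (helper84; model DD/CfeK by helper3)
-/

namespace Pool.Agent.H74.DE.CfU

open MeasureTheory Set Filter Topology Pool.Agent.H74.SX Pool.Agent.H74.DD

theorem adm_sum {ψ : ℂ → ℂ} {ι : Type} (u : ι → ℂ → ℝ) (hu : ∀ i, ExtAdm ψ (u i)) (c : ι → ℝ) (s : Finset ι) :
    ExtAdm ψ (fun z => ∑ i ∈ s, c i * u i z) := by
  classical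
  induction s using Finset.induction_on with
  | empty =>
    refine ⟨?_, ⟨0, fun z => ?_⟩, ?_⟩
    · simp only [Finset.sum_empty]
      exact contDiff_const
    · simp
    · simp
  | insert a s ha ih =>
    have h := Cf.adm_comb (ψ := ψ) (u := ![u a, fun z => ∑ i ∈ s, c i * u i z]) (by
      intro i
      fin_cases i
      · exact hu a
      · exact ih) ![c a, 1]
    have e : (fun z => ∑ i ∈ insert a s, c i * u i z) =
        fun z => ∑ i, (![c a, 1] : Fin 2 → ℝ) i * (![u a, fun z => ∑ i ∈ s, c i * u i z] : Fin 2 → ℂ → ℝ) i z := by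
      funext z
      rw [Finset.sum_insert ha, Fin.sum_univ_two]
      simp
    rw [e]
    exact h

end Pool.Agent.H74.DE.CfU

namespace Pool.Agent.H74.DE

open MeasureTheory Set Filter Topology Pool.Agent.H74.SX Pool.Agent.H74.DD

theorem cfeU : CfeUStmt := by
  intro ψ hψ K hK n wt hwt hlow
  refine le_sInf ?_
  rintro x ⟨R, rfl, u, hu, hind, hR⟩
  obtain ⟨c, hc, hb⟩ : ∃ c : Fin (n + 1) → ℝ, c ≠ 0 ∧
      ∀ i, ∫ θ in (0 : ℝ)..(2 * Real.pi), (∑ j, c j * u j (ψ (ep θ))) * wt i θ = 0 := by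
    let f : (Fin (n + 1) → ℝ) →ₗ[ℝ] (Fin n → ℝ) :=
      LinearMap.pi fun i => ∑ j, (∫ θ in (0 : ℝ)..(2 * Real.pi), u j (ψ (ep θ)) * wt i θ) • LinearMap.proj j
    have hker : LinearMap.ker f ≠ ⊥ := LinearMap.ker_ne_bot_of_finrank_lt (by simp)
    obtain ⟨c, hc, hc0⟩ := Submodule.exists_mem_ne_zero_of_ne_bot hker
    refine ⟨c, hc0, fun i => ?_⟩
    have h1 : ∑ j, (∫ θ in (0 : ℝ)..(2 * Real.pi), u j (ψ (ep θ)) * wt i θ) * c j = 0 := by
      have h2 := congrFun (LinearMap.mem_ker.1 hc) i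
      simpa [f] using h2
    have hcont : ∀ j, Continuous fun θ : ℝ => c j * (u j (ψ (ep θ)) * wt i θ) := fun j =>
      continuous_const.mul (((hu j).1.continuous.comp (Cf.cont_circ hψ)).mul (hwt i))
    refine Eq.trans ?_ h1
    calc ∫ θ in (0 : ℝ)..(2 * Real.pi), (∑ j, c j * u j (ψ (ep θ))) * wt i θ =
          ∫ θ in (0 : ℝ)..(2 * Real.pi), ∑ j, c j * (u j (ψ (ep θ)) * wt i θ) := by
            refine intervalIntegral.integral_congr fun θ _ => ?_
            show (∑ j, c j * u j (ψ (ep θ))) * wt i θ = ∑ j, c j * (u j (ψ (ep θ)) * wt i θ)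
            rw [Finset.sum_mul]
            exact Finset.sum_congr rfl fun j _ => by ring
      _ = ∑ j, ∫ θ in (0 : ℝ)..(2 * Real.pi), c j * (u j (ψ (ep θ)) * wt i θ) :=
            intervalIntegral.integral_finsetSum fun j _ => (hcont j).intervalIntegrable _ _
      _ = ∑ j, (∫ θ in (0 : ℝ)..(2 * Real.pi), u j (ψ (ep θ)) * wt i θ) * c j := by
            refine Finset.sum_congr rfl fun j _ => ?_
            rw [intervalIntegral.integral_const_mul, mul_comm]
  obtain ⟨w, hw, hne⟩ : ∃ w : ℂ, ‖w‖ = 1 ∧ ∑ i, c i * u i (ψ w) ≠ 0 := by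
    by_contra hcon
    push Not at hcon
    exact hc (hind c hcon)
  have hadm := CfU.adm_sum u hu c Finset.univ
  have hpos := Cf.bd_pos hψ hadm.1.continuous w hw hne
  have h1 := hlow _ hadm hb
  have h2 := hR c
  have hd : 0 < dir (Ext ψ) (fun z => ∑ i, c i * u i z) := by
    by_contra hcon
    push Not at hcon
    have h3 : K * dir (Ext ψ) (fun z => ∑ i, c i * u i z) ≤ 0 := mul_nonpos_of_nonneg_of_nonpos hK.le hcon
    linarith
  have hR0 : 0 < R := by
    by_contra hcon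
    push Not at hcon
    have h3 : R * bd ψ (fun z => (∑ i, c i * u i z) ^ 2) ≤ 0 := mul_nonpos_of_nonpos_of_nonneg hcon hpos.le
    linarith
  have h4 : dir (Ext ψ) (fun z => ∑ i, c i * u i z) ≤ R * (K * dir (Ext ψ) (fun z => ∑ i, c i * u i z)) :=
    h2.trans (mul_le_mul_of_nonneg_left h1 hR0.le)
  have h5 : 1 ≤ R * K := by
    by_contra hcon
    push Not at hcon
    nlinarith
  rw [EReal.coe_le_coe_iff, div_le_iff₀ hK]
  exact h5

end Pool.Agent.H74.DE
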