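import Pool.Agent.H74.DE.Fr
import Pool.Agent.H74.DD.ArB

set_option autoImplicit false

/-!
# [H74 DE Dir2] MP_bddfa3_an: the Dirichlet integral over the inner region, second order (helper27)
-/

namespace Pool.Agent.H74.DE.Dir2

open MeasureTheory Set Filter Topology Pool.Agent.H74.SX Pool.Agent.H74.DD Pool.Agent.H74.DE

theorem ep_cont : Continuous ep := by
  unfold ep
  fun_prop

theorem ep_norm (θ : ℝ) : ‖ep θ‖ = 1 := by
  unfold ep
  rw [Complex.norm_exp_ofReal_mul_I]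

theorem ep_neg (θ : ℝ) : ep (-θ) = DD.em θ := by
  unfold ep DD.em
  congr 1
  push_cast
  ring

theorem ep_per (θ : ℝ) : ep (θ + 2 * Real.pi) = ep θ := by
  unfold ep
  have h : ((θ + 2 * Real.pi : ℝ) : ℂ) * Complex.I = (θ : ℂ) * Complex.I + 2 * Real.pi * Complex.I := by
    push_cast
    ring
  rw [h]
  exact Complex.exp_periodic _

theorem polar (f : ℝ → ℝ) (hf : Continuous f) (h0 : ∀ θ, 0 < f θ) (R : ℝ) (hR : ∀ θ, f θ ≤ R)
    (u : ℂ → ℝ) (hu : Continuous u) :
    ∫ z in {z : ℂ | ‖z‖ < f (Complex.arg z)}, u z =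
      ∫ θ in (-Real.pi)..Real.pi, ∫ r in (0 : ℝ)..(f θ), r * u (r * ep θ) := by
  have hpp : -Real.pi ≤ Real.pi := by linarith [Real.pi_pos]
  have hSm : MeasurableSet {z : ℂ | ‖z‖ < f (Complex.arg z)} :=
    measurableSet_lt measurable_norm (hf.measurable.comp Complex.measurable_arg)
  have hPm : MeasurableSet {p : ℝ × ℝ | p.1 < f p.2} :=
    measurableSet_lt measurable_fst (hf.measurable.comp measurable_snd)
  have hv : Continuous fun p : ℝ × ℝ => p.1 * u (p.1 * ep p.2) :=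
    continuous_fst.mul (hu.comp ((Complex.continuous_ofReal.comp continuous_fst).mul
      (ep_cont.comp continuous_snd)))
  rw [← integral_indicator hSm, ← Complex.integral_comp_polarCoord_symm]
  have h1 : ∫ p in polarCoord.target, p.1 •
        ({z : ℂ | ‖z‖ < f (Complex.arg z)}.indicator u) (Complex.polarCoord.symm p) =
      ∫ p in Ioi (0 : ℝ) ×ˢ Ioo (-Real.pi) Real.pi,
        {p : ℝ × ℝ | p.1 < f p.2}.indicator (fun p => p.1 * u (p.1 * ep p.2)) p := by
    refine setIntegral_congr_fun (measurableSet_Ioi.prod measurableSet_Ioo) fun p hp => ?_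
    have hp1 : 0 < p.1 := hp.1
    have hnorm : ‖Complex.polarCoord.symm p‖ = p.1 := by
      rw [Complex.norm_polarCoord_symm, abs_of_pos hp1]
    have harg : Complex.arg (Complex.polarCoord.symm p) = p.2 := by
      rw [Complex.polarCoord_symm_apply, Complex.ofReal_cos, Complex.ofReal_sin]
      exact Complex.arg_mul_cos_add_sin_mul_I hp1 (Ioo_subset_Ioc_self hp.2)
    have hval : Complex.polarCoord.symm p = p.1 * ep p.2 := by
      rw [Complex.polarCoord_symm_apply, Complex.ofReal_cos, Complex.ofReal_sin, ep, Complex.exp_mul_I]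
    by_cases h : p.1 < f p.2
    · have h2 : Complex.polarCoord.symm p ∈ {z : ℂ | ‖z‖ < f (Complex.arg z)} := by
        rw [mem_ofPred_eq, hnorm, harg]
        exact h
      rw [indicator_of_mem h2, indicator_of_mem (show p ∈ {p : ℝ × ℝ | p.1 < f p.2} from h), hval]
      rfl
    · have h2 : Complex.polarCoord.symm p ∉ {z : ℂ | ‖z‖ < f (Complex.arg z)} := by
        rw [mem_ofPred_eq, hnorm, harg]
        exact h
      rw [indicator_of_notMem h2, indicator_of_notMem (show p ∉ {p : ℝ × ℝ | p.1 < f p.2} from h)]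
      simp
  rw [h1, Measure.volume_eq_prod, ← Measure.prod_restrict]
  have hint : Integrable ({p : ℝ × ℝ | p.1 < f p.2}.indicator (fun p => p.1 * u (p.1 * ep p.2)))
      ((volume.restrict (Ioi (0 : ℝ))).prod (volume.restrict (Ioo (-Real.pi) Real.pi))) := by
    rw [integrable_indicator_iff hPm, Measure.prod_restrict, IntegrableOn, Measure.restrict_restrict hPm,
      ← Measure.volume_eq_prod]
    have hc : IntegrableOn (fun p : ℝ × ℝ => p.1 * u (p.1 * ep p.2))
        (Icc (0 : ℝ) R ×ˢ Icc (-Real.pi) Real.pi) volume :=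
      hv.continuousOn.integrableOn_compact (isCompact_Icc.prod isCompact_Icc)
    refine hc.mono_set ?_
    rintro ⟨x, y⟩ ⟨h2, h3, h4⟩
    exact ⟨⟨(show (0 : ℝ) < x from h3).le, (show x < f y from h2).le.trans (hR y)⟩, Ioo_subset_Icc_self h4⟩
  rw [integral_prod_symm _ hint, intervalIntegral.integral_of_le hpp, integral_Ioc_eq_integral_Ioo]
  refine setIntegral_congr_fun measurableSet_Ioo fun y hy => ?_
  have e : ∀ x : ℝ, {p : ℝ × ℝ | p.1 < f p.2}.indicator (fun p => p.1 * u (p.1 * ep p.2)) (x, y) =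
      (Iio (f y)).indicator (fun x : ℝ => x * u (x * ep y)) x := by
    intro x
    by_cases h : x < f y
    · rw [indicator_of_mem (show (x, y) ∈ {p : ℝ × ℝ | p.1 < f p.2} from h), indicator_of_mem (show x ∈ Iio (f y) from h)]
    · rw [indicator_of_notMem (show (x, y) ∉ {p : ℝ × ℝ | p.1 < f p.2} from h),
        indicator_of_notMem (show x ∉ Iio (f y) from h)]
  simp only [e]
  rw [setIntegral_indicator measurableSet_Iio, Ioi_inter_Iio, intervalIntegral.integral_of_le (h0 y).le,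
    integral_Ioc_eq_integral_Ioo]

theorem ball_eq : Metric.ball (0 : ℂ) 1 = {z : ℂ | ‖z‖ < (fun _ : ℝ => (1 : ℝ)) (Complex.arg z)} := by
  ext z
  rw [mem_ball_zero_iff]
  rfl

theorem per_int {E : Type} [NormedAddCommGroup E] [NormedSpace ℝ E] (F : ℝ → E)
    (h : Function.Periodic F (2 * Real.pi)) :
    ∫ θ in (-Real.pi)..Real.pi, F θ = ∫ θ in (0 : ℝ)..(2 * Real.pi), F θ := by
  have h1 := h.intervalIntegral_add_eq (-Real.pi) 0
  have h2 : -Real.pi + 2 * Real.pi = Real.pi := by ring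
  rw [h2, zero_add] at h1
  exact h1

theorem ball_zero (hMv : MvStmt) (h : ℂ → ℂ) (ρ : ℝ) (hρ : 1 < ρ)
    (hh : DifferentiableOn ℂ h (Metric.ball 0 ρ)) (h00 : h 0 = 0) (u : ℂ → ℝ) (hu : Continuous u)
    (he : ∀ z, ‖z‖ ≤ 1 → u z = (h z).re) : ∫ z in Metric.ball (0 : ℂ) 1, u z = 0 := by
  rw [ball_eq, polar (fun _ => 1) continuous_const (fun _ => one_pos) 1 (fun _ => le_refl _) u hu]
  have hc : Continuous (Function.uncurry fun θ r : ℝ => r * u (r * ep θ)) :=
    continuous_snd.mul (hu.comp ((Complex.continuous_ofReal.comp continuous_snd).mul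
      (ep_cont.comp continuous_fst)))
  rw [intervalIntegral_intervalIntegral_swap]
  · have h1 : ∀ r ∈ uIcc (0 : ℝ) 1, ∫ θ in (-Real.pi)..Real.pi, r * u (r * ep θ) = 0 := by
      intro r hr
      rw [uIcc_of_le zero_le_one] at hr
      rw [intervalIntegral.integral_const_mul]
      have hr1 : |r| ≤ 1 := by
        rw [abs_of_nonneg hr.1]
        exact hr.2
      have hG : Good (fun z => h (r * z)) ρ := by
        refine ⟨hρ, hh.comp (by fun_prop) fun z hz => ?_⟩
        rw [mem_ball_zero_iff] at hz ⊢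
        rw [norm_mul, Complex.norm_real, Real.norm_eq_abs]
        exact (mul_le_of_le_one_left (norm_nonneg _) hr1).trans_lt hz
      have h3 := hMv _ ρ hG
      have h5 : ∀ θ, u (r * ep (-θ)) = (h (r * DD.em θ)).re := by
        intro θ
        rw [ep_neg]
        refine he _ ?_
        rw [norm_mul, ArB.em_norm, Complex.norm_real, Real.norm_eq_abs, mul_one]
        exact hr1
      have h4 : ∫ θ in (-Real.pi)..Real.pi, u (r * ep θ) = ∫ θ in (-Real.pi)..Real.pi, (h (r * DD.em θ)).re := by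
        have := intervalIntegral.integral_comp_neg (a := -Real.pi) (b := Real.pi) fun θ => u (r * ep θ)
        rw [neg_neg] at this
        rw [← this]
        exact intervalIntegral.integral_congr fun θ _ => h5 θ
      have hgc : Continuous fun θ => h (r * DD.em θ) :=
        hh.continuousOn.comp_continuous (continuous_const.mul ArB.em_cont) fun θ => by
          rw [mem_ball_zero_iff, norm_mul, ArB.em_norm, Complex.norm_real, Real.norm_eq_abs, mul_one]
          exact hr1.trans_lt hρ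
      have h6 : ∫ θ in (-Real.pi)..Real.pi, (h (r * DD.em θ)).re =
          (∫ θ in (0 : ℝ)..(2 * Real.pi), h (r * DD.em θ)).re := by
        rw [per_int (fun θ => (h (r * DD.em θ)).re) fun θ => by simp only [ArB.em_per]]
        exact Complex.reCLM.intervalIntegral_comp_comm (hgc.intervalIntegrable (μ := volume) 0 (2 * Real.pi))
      rw [h4, h6, h3, mul_zero, h00, mul_zero, Complex.zero_re, mul_zero]
    rw [intervalIntegral.integral_congr h1]
    simp
  · have hcc : IntegrableOn (Function.uncurry fun θ r : ℝ => r * u (r * ep θ))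
        (uIcc (-Real.pi) Real.pi ×ˢ uIcc (0 : ℝ) 1) volume :=
      hc.continuousOn.integrableOn_compact (isCompact_uIcc.prod isCompact_uIcc)
    exact hcc.mono_set (prod_mono uIoc_subset_uIcc uIoc_subset_uIcc)

theorem gh_diff {g : ℂ → ℂ} {ρ : ℝ} (hg : Good g ρ) : DifferentiableOn ℂ (gh g) (Metric.ball 0 ρ) := by
  intro z hz
  have hz' : (starRingEnd ℂ) z ∈ Metric.ball (0 : ℂ) ρ := by
    rw [mem_ball_zero_iff] at hz ⊢
    rwa [Complex.norm_conj]
  have h1 : DifferentiableAt ℂ g ((starRingEnd ℂ) z) :=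
    (hg.hol _ hz').differentiableAt (Metric.isOpen_ball.mem_nhds hz')
  have h2 : DifferentiableAt ℂ ((starRingEnd ℂ) ∘ g ∘ (starRingEnd ℂ)) z := differentiableAt_conj_conj_iff.2 h1
  exact h2.differentiableWithinAt

theorem g2_diff {g : ℂ → ℂ} {ρ : ℝ} (hg : Good g ρ) : DifferentiableOn ℂ (g2 g) (Metric.ball 0 ρ) :=
  (differentiableOn_id.pow 2).mul (gh_diff hg)

/-- the derivative of a holomorphic function is bounded and Lipschitz on a smaller disk -/
theorem bdd {G : ℂ → ℂ} {ρ R : ℝ} (hR : R < ρ) (hG : DifferentiableOn ℂ G (Metric.ball 0 ρ)) :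
    ∃ M : ℝ, 0 ≤ M ∧ (∀ z, ‖z‖ ≤ R → ‖deriv G z‖ ≤ M) ∧
      ∀ z w, ‖z‖ ≤ R → ‖w‖ ≤ R → ‖deriv G w - deriv G z‖ ≤ M * ‖w - z‖ := by
  have hsub : Metric.closedBall (0 : ℂ) R ⊆ Metric.ball 0 ρ := Metric.closedBall_subset_ball hR
  have h1 := hG.deriv Metric.isOpen_ball
  have h2 := h1.deriv Metric.isOpen_ball
  obtain ⟨M1, hM1⟩ := (isCompact_closedBall (0 : ℂ) R).exists_bound_of_continuousOn (h1.continuousOn.mono hsub)
  obtain ⟨M2, hM2⟩ := (isCompact_closedBall (0 : ℂ) R).exists_bound_of_continuousOn (h2.continuousOn.mono hsub)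
  refine ⟨max 0 (max M1 M2), le_max_left _ _, fun z hz => ?_, fun z w hz hw => ?_⟩
  · exact (hM1 z (mem_closedBall_zero_iff.2 hz)).trans ((le_max_left _ _).trans (le_max_right _ _))
  · refine (convex_closedBall (0 : ℂ) R).norm_image_sub_le_of_norm_deriv_le (𝕜 := ℂ) (fun x hx => ?_) (fun x hx => ?_)
      (mem_closedBall_zero_iff.2 hz) (mem_closedBall_zero_iff.2 hw)
    · exact (h1 x (hsub hx)).differentiableAt (Metric.isOpen_ball.mem_nhds (hsub hx))
    · exact (hM2 x hx).trans ((le_max_right _ _).trans (le_max_right _ _))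

/-- retraction onto the disk of radius `R` -/
noncomputable def rt (R : ℝ) (z : ℂ) : ℂ := ((R / max R ‖z‖ : ℝ) : ℂ) * z

theorem rt_cont {R : ℝ} (hR : 0 < R) : Continuous (rt R) := by
  unfold rt
  refine (Complex.continuous_ofReal.comp (continuous_const.div (continuous_const.max continuous_norm)
    fun z => ?_)).mul continuous_id
  exact (hR.trans_le (le_max_left _ _)).ne'

theorem rt_norm {R : ℝ} (hR : 0 < R) (z : ℂ) : ‖rt R z‖ ≤ R := by
  unfold rt
  have h : 0 < max R ‖z‖ := hR.trans_le (le_max_left _ _)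
  rw [norm_mul, Complex.norm_real, Real.norm_eq_abs, abs_of_pos (div_pos hR h), div_mul_eq_mul_div,
    div_le_iff₀ h]
  exact mul_le_mul_of_nonneg_left (le_max_right _ _) hR.le

theorem rt_eq {R : ℝ} (hR : 0 < R) {z : ℂ} (hz : ‖z‖ ≤ R) : rt R z = z := by
  unfold rt
  rw [max_eq_left hz, div_self hR.ne', Complex.ofReal_one, one_mul]

theorem F_exp (ζ k : ℂ) (hζ : ‖ζ‖ = 1) (ε : ℝ) :
    ‖(starRingEnd ℂ) ζ + ε / 2 * k‖ ^ 2 = 1 + ε * (ζ * k).re + ε ^ 2 / 4 * ‖k‖ ^ 2 := by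
  have h1 : ‖ζ‖ ^ 2 = 1 := by rw [hζ]; norm_num
  rw [← Complex.normSq_eq_norm_sq] at h1
  rw [← Complex.normSq_eq_norm_sq, ← Complex.normSq_eq_norm_sq]
  rw [Complex.normSq_apply] at h1 ⊢
  have e1 : ((ε : ℂ) / 2 * k).re = ε / 2 * k.re := by
    have : (ε : ℂ) / 2 = ((ε / 2 : ℝ) : ℂ) := by push_cast; ring
    rw [this, Complex.re_ofReal_mul]
  have e2 : ((ε : ℂ) / 2 * k).im = ε / 2 * k.im := by
    have : (ε : ℂ) / 2 = ((ε / 2 : ℝ) : ℂ) := by push_cast; ring
    rw [this, Complex.im_ofReal_mul]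
  rw [Complex.add_re, Complex.add_im, e1, e2, Complex.conj_re, Complex.conj_im, Complex.mul_re, Complex.normSq_apply]
  linear_combination h1

/-- one direction: the integral from `1` to `x` -/
theorem seg (k : ℂ → ℂ) (ζ : ℂ) (hζ : ‖ζ‖ = 1) (M R ε L x θ : ℝ) (hM : 0 ≤ M) (hR : 1 ≤ R) (hε : 0 < ε) (hε1 : ε ≤ 1)
    (hL : 0 ≤ L) (hx0 : 0 < x) (hx : |x - 1| ≤ L * ε) (hxR : x ≤ R) (hk : Continuous k)
    (hb : ∀ z, ‖z‖ ≤ R → ‖k z‖ ≤ M) (hl : ∀ z w, ‖z‖ ≤ R → ‖w‖ ≤ R → ‖k w - k z‖ ≤ M * ‖w - z‖) :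
    ∫ r in (1 : ℝ)..x, r * ‖(starRingEnd ℂ) ζ + ε / 2 * k (r * ep θ)‖ ^ 2 ≤
      (x ^ 2 - 1) / 2 + ε * ((x - 1) * (ζ * k (ep θ)).re) + (2 * M * L + R * M ^ 2 / 4) * L * ε ^ 3 := by
  have hF : Continuous fun r : ℝ => r * ‖(starRingEnd ℂ) ζ + ε / 2 * k (r * ep θ)‖ ^ 2 := by
    have : Continuous fun r : ℝ => k (r * ep θ) :=
      hk.comp (Complex.continuous_ofReal.mul continuous_const)
    fun_prop
  have hlin : Continuous fun r : ℝ => r + ε * (ζ * k (ep θ)).re := by fun_prop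
  have h1 : ∫ r in (1 : ℝ)..x, (r + ε * (ζ * k (ep θ)).re) =
      (x ^ 2 - 1) / 2 + ε * ((x - 1) * (ζ * k (ep θ)).re) := by
    rw [intervalIntegral.integral_add (f := fun r : ℝ => r) (g := fun _ : ℝ => ε * (ζ * k (ep θ)).re)
      (continuous_id.intervalIntegrable _ _) (continuous_const.intervalIntegrable _ _),
      integral_id, intervalIntegral.integral_const, smul_eq_mul]
    ring
  have h2 := intervalIntegral.integral_sub (hF.intervalIntegrable (μ := volume) 1 x) (hlin.intervalIntegrable (μ := volume) 1 x)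
  have h3 : ‖∫ r in (1 : ℝ)..x, (r * ‖(starRingEnd ℂ) ζ + ε / 2 * k (r * ep θ)‖ ^ 2 - (r + ε * (ζ * k (ep θ)).re))‖ ≤
      ((2 * M * L + R * M ^ 2 / 4) * ε ^ 2) * |x - 1| := by
    refine intervalIntegral.norm_integral_le_of_norm_le_const fun r hr => ?_
    have hr0 : 0 < r ∧ r ≤ R ∧ |r - 1| ≤ L * ε := by
      rw [uIoc, mem_Ioc] at hr
      obtain ⟨ha, hb'⟩ := hr
      rcases le_total 1 x with h | h
      · rw [min_eq_left h] at ha
        rw [max_eq_right h] at hb'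
        refine ⟨by linarith, by linarith, ?_⟩
        rw [abs_of_nonneg (by linarith)]
        rw [abs_of_nonneg (by linarith)] at hx
        linarith
      · rw [min_eq_right h] at ha
        rw [max_eq_left h] at hb'
        refine ⟨by linarith, by linarith, ?_⟩
        rw [abs_of_nonpos (by linarith)]
        rw [abs_of_nonpos (by linarith)] at hx
        linarith
    obtain ⟨r0, r1, r2⟩ := hr0
    have n1 : ‖(r : ℂ) * ep θ‖ ≤ R := by
      rw [norm_mul, ep_norm, mul_one, Complex.norm_real, Real.norm_eq_abs, abs_of_pos r0]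
      exact r1
    have n2 : ‖ep θ‖ ≤ R := by
      rw [ep_norm]
      exact hR
    have n3 : ‖(r : ℂ) * ep θ - ep θ‖ = |r - 1| := by
      have : (r : ℂ) * ep θ - ep θ = ((r - 1 : ℝ) : ℂ) * ep θ := by
        push_cast
        ring
      rw [this, norm_mul, ep_norm, mul_one, Complex.norm_real, Real.norm_eq_abs]
    rw [F_exp ζ _ hζ]
    have e : r * (1 + ε * (ζ * k (r * ep θ)).re + ε ^ 2 / 4 * ‖k (r * ep θ)‖ ^ 2) - (r + ε * (ζ * k (ep θ)).re) =
        ε * (r - 1) * (ζ * k (r * ep θ)).re + ε * (ζ * (k (r * ep θ) - k (ep θ))).re +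
          r * (ε ^ 2 / 4 * ‖k (r * ep θ)‖ ^ 2) := by
      have e0 : (ζ * (k (r * ep θ) - k (ep θ))).re = (ζ * k (r * ep θ)).re - (ζ * k (ep θ)).re := by
        rw [mul_sub, Complex.sub_re]
      rw [e0]
      ring
    rw [e, Real.norm_eq_abs]
    have b1 : |(ζ * k (r * ep θ)).re| ≤ M := by
      refine (Complex.abs_re_le_norm _).trans ?_
      rw [norm_mul, hζ, one_mul]
      exact hb _ n1
    have b2 : |(ζ * (k (r * ep θ) - k (ep θ))).re| ≤ M * (L * ε) := by
      refine (Complex.abs_re_le_norm _).trans ?_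
      rw [norm_mul, hζ, one_mul]
      refine (hl _ _ n2 n1).trans ?_
      rw [n3]
      exact mul_le_mul_of_nonneg_left r2 hM
    have b3 : ‖k (r * ep θ)‖ ^ 2 ≤ M ^ 2 := pow_le_pow_left₀ (norm_nonneg _) (hb _ n1) 2
    refine (abs_add_le _ _).trans ((add_le_add (abs_add_le _ _) le_rfl).trans ?_)
    rw [abs_mul, abs_mul, abs_mul, abs_of_pos hε, abs_of_nonneg (by positivity : 0 ≤ r * (ε ^ 2 / 4 * ‖k (r * ep θ)‖ ^ 2))]
    have c1 : ε * |r - 1| * |(ζ * k (r * ep θ)).re| ≤ ε * (L * ε) * M :=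
      mul_le_mul (mul_le_mul_of_nonneg_left r2 hε.le) b1 (abs_nonneg _) (by positivity)
    have c2 : ε * |(ζ * (k (r * ep θ) - k (ep θ))).re| ≤ ε * (M * (L * ε)) := mul_le_mul_of_nonneg_left b2 hε.le
    have c3 : r * (ε ^ 2 / 4 * ‖k (r * ep θ)‖ ^ 2) ≤ R * (ε ^ 2 / 4 * M ^ 2) :=
      mul_le_mul r1 (mul_le_mul_of_nonneg_left b3 (by positivity)) (by positivity) (by linarith)
    calc _ ≤ ε * (L * ε) * M + ε * (M * (L * ε)) + R * (ε ^ 2 / 4 * M ^ 2) := add_le_add (add_le_add c1 c2) c3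
      _ = (2 * M * L + R * M ^ 2 / 4) * ε ^ 2 := by ring
  rw [h2, h1] at h3
  have h4 := (le_abs_self _).trans ((Real.norm_eq_abs _).symm.le.trans h3)
  have h5 : ((2 * M * L + R * M ^ 2 / 4) * ε ^ 2) * |x - 1| ≤ ((2 * M * L + R * M ^ 2 / 4) * ε ^ 2) * (L * ε) :=
    mul_le_mul_of_nonneg_left hx (by positivity)
  have h6 : ((2 * M * L + R * M ^ 2 / 4) * ε ^ 2) * (L * ε) = (2 * M * L + R * M ^ 2 / 4) * L * ε ^ 3 := by ring
  linarith

end Pool.Agent.H74.DE.Dir2

namespace Pool.Agent.H74.DE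

open MeasureTheory Set Filter Topology Pool.Agent.H74.SX Pool.Agent.H74.DD Dir2

theorem dir2 (hR : Rad2Stmt) (hMv : MvStmt) : Dir2Stmt := by
  intro g ρ hg0
  obtain ⟨C, ε₁, hC, hε₁, hrad⟩ := hR g ρ hg0
  have hg := hg0.good
  have hρ := hg.one_lt
  obtain ⟨R, hR1, hRρ⟩ := exists_between hρ
  have hR0 : 0 < R := by linarith
  -- bounds for `g`
  have hsub1 : Metric.closedBall (0 : ℂ) 1 ⊆ Metric.ball 0 ρ := Metric.closedBall_subset_ball hρ
  obtain ⟨G0, hG0⟩ := (isCompact_closedBall (0 : ℂ) 1).exists_bound_of_continuousOn (hg.hol.continuousOn.mono hsub1)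
  obtain ⟨G1, hG1⟩ := (isCompact_closedBall (0 : ℂ) 1).exists_bound_of_continuousOn
    ((hg.hol.deriv Metric.isOpen_ball).continuousOn.mono hsub1)
  have hem1 : ∀ θ, DD.em θ ∈ Metric.closedBall (0 : ℂ) 1 := fun θ =>
    mem_closedBall_zero_iff.2 (ArB.em_norm θ).le
  have hG00 : 0 ≤ G0 := (norm_nonneg _).trans (hG0 _ (hem1 0))
  have hG10 : 0 ≤ G1 := (norm_nonneg _).trans (hG1 _ (hem1 0))
  have hgc : Continuous fun θ => g (DD.em θ) :=
    hg.hol.continuousOn.comp_continuous ArB.em_cont fun θ => hsub1 (hem1 θ)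
  have hg1c : Continuous fun θ => deriv g (DD.em θ) :=
    (hg.hol.deriv Metric.isOpen_ball).continuousOn.comp_continuous ArB.em_cont fun θ => hsub1 (hem1 θ)
  have hqc : Continuous (qq g) := Complex.continuous_re.comp (ArB.em_cont.mul hgc)
  have hpc : Continuous (pp g) := Complex.continuous_im.comp (ArB.em_cont.mul hgc)
  have hxc : Continuous (xx g) := (ArB.em_cont.pow 2).mul hg1c
  have hq2c : Continuous (q2 g) :=
    (((hpc.pow 2).neg).div_const 2).sub (hpc.mul (Complex.continuous_im.comp hxc))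
  have hqb : ∀ θ, |qq g θ| ≤ G0 := by
    intro θ
    refine (Complex.abs_re_le_norm _).trans ?_
    rw [norm_mul, ArB.em_norm, one_mul]
    exact hG0 _ (hem1 θ)
  have hpb : ∀ θ, |pp g θ| ≤ G0 := by
    intro θ
    refine (Complex.abs_im_le_norm _).trans ?_
    rw [norm_mul, ArB.em_norm, one_mul]
    exact hG0 _ (hem1 θ)
  have hxb : ∀ θ, |(xx g θ).im| ≤ G1 := by
    intro θ
    refine (Complex.abs_im_le_norm _).trans ?_
    unfold xx
    rw [norm_mul, norm_pow, ArB.em_norm, one_pow, one_mul]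
    exact hG1 _ (hem1 θ)
  have hq2b : ∀ θ, |q2 g θ| ≤ G0 ^ 2 / 2 + G0 * G1 := by
    intro θ
    unfold q2
    refine (abs_sub _ _).trans (add_le_add ?_ ?_)
    · rw [abs_div, abs_neg, abs_pow, abs_of_pos (by norm_num : (0 : ℝ) < 2)]
      have := pow_le_pow_left₀ (abs_nonneg _) (hpb θ) 2
      linarith
    · rw [abs_mul]
      exact mul_le_mul (hpb θ) (hxb θ) (abs_nonneg _) hG00
  -- a common bound
  obtain ⟨Q, hQ0, hQ1, hQ2⟩ : ∃ Q : ℝ, 0 ≤ Q ∧ (∀ θ, |qq g θ| ≤ Q) ∧ ∀ θ, |q2 g θ| ≤ Q :=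
    ⟨G0 + (G0 ^ 2 / 2 + G0 * G1), by positivity, fun θ => (hqb θ).trans (by nlinarith [mul_nonneg hG00 hG10]),
      fun θ => (hq2b θ).trans (by linarith)⟩
  obtain ⟨MA, hMA0, hMA1, hMA2⟩ := bdd hRρ (gh_diff hg)
  obtain ⟨MB, hMB0, hMB1, hMB2⟩ := bdd hRρ (g2_diff hg)
  have hAc : Continuous fun z => deriv (gh g) (rt R z) :=
    ((gh_diff hg).deriv Metric.isOpen_ball).continuousOn.comp_continuous (rt_cont hR0) fun z =>
      mem_ball_zero_iff.2 ((rt_norm hR0 z).trans_lt hRρ)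
  have hBc : Continuous fun z => deriv (g2 g) (rt R z) :=
    ((g2_diff hg).deriv Metric.isOpen_ball).continuousOn.comp_continuous (rt_cont hR0) fun z =>
      mem_ball_zero_iff.2 ((rt_norm hR0 z).trans_lt hRρ)
  obtain ⟨M, hM⟩ : ∃ M : ℝ, M = MA + MB := ⟨_, rfl⟩
  have hM0 : 0 ≤ M := by rw [hM]; positivity
  obtain ⟨L, hL⟩ : ∃ L : ℝ, L = 2 * Q + C := ⟨_, rfl⟩
  have hL0 : 0 ≤ L := by rw [hL]; positivity
  obtain ⟨K, hK⟩ : ∃ K : ℝ, K = C + Q * (Q + C) + (Q + C) ^ 2 / 2 + (Q + C) * M +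
    (2 * M * L + R * M ^ 2 / 4) * L := ⟨_, rfl⟩
  have hK0 : 0 ≤ K := by rw [hK]; positivity
  refine ⟨2 * Real.pi * K + 1, min (min ε₁ 1) (min ((R - 1) / (L + 1)) (1 / (2 * (L + 1)))), by positivity,
    lt_min (lt_min hε₁ one_pos) (lt_min (div_pos (by linarith) (by linarith)) (by positivity)), ?_⟩
  intro ε hε hlt ζ hζ
  have hεε : ε < ε₁ := hlt.trans_le ((min_le_left _ _).trans (min_le_left _ _))
  have hε1 : ε ≤ 1 := (hlt.trans_le ((min_le_left _ _).trans (min_le_right _ _))).le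
  have hεR : L * ε ≤ R - 1 := by
    have h1 : ε ≤ (R - 1) / (L + 1) := (hlt.trans_le ((min_le_right _ _).trans (min_le_left _ _))).le
    rw [le_div_iff₀ (by linarith)] at h1
    nlinarith
  have hεh : L * ε ≤ 1 / 2 := by
    have h1 : ε ≤ 1 / (2 * (L + 1)) := (hlt.trans_le ((min_le_right _ _).trans (min_le_right _ _))).le
    rw [le_div_iff₀ (by positivity)] at h1
    nlinarith
  obtain ⟨f, hf⟩ : ∃ f : ℝ → ℝ, f = fun θ => 1 + ε * qq g θ + ε ^ 2 * q2 g θ + C * ε ^ 3 := ⟨_, rfl⟩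
  have hfc : Continuous f := by
    rw [hf]
    fun_prop
  have hfv : ∀ θ, f θ = 1 + ε * qq g θ + ε ^ 2 * q2 g θ + C * ε ^ 3 := fun θ => by rw [hf]
  have hδ : ∀ θ, |ε * q2 g θ + C * ε ^ 2| ≤ ε * (Q + C) := by
    intro θ
    refine (abs_add_le _ _).trans ?_
    rw [abs_mul, abs_of_pos hε, abs_of_pos (by positivity : 0 < C * ε ^ 2)]
    have h5 : ε * |q2 g θ| ≤ ε * Q := mul_le_mul_of_nonneg_left (hQ2 θ) hε.le
    have h6 : C * ε ^ 2 ≤ C * ε := by
      refine mul_le_mul_of_nonneg_left ?_ hC.le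
      rw [sq]
      exact mul_le_of_le_one_left hε.le hε1
    linarith
  have hf1 : ∀ θ, |f θ - 1| ≤ L * ε := by
    intro θ
    have e : f θ - 1 = ε * (qq g θ + (ε * q2 g θ + C * ε ^ 2)) := by
      rw [hfv]
      ring
    rw [e, abs_mul, abs_of_pos hε]
    have h1 : |qq g θ + (ε * q2 g θ + C * ε ^ 2)| ≤ L := by
      refine (abs_add_le _ _).trans ?_
      have h2 := hδ θ
      have h3 : ε * (Q + C) ≤ 1 * (Q + C) := mul_le_mul_of_nonneg_right hε1 (by positivity)
      have h4 := hQ1 θ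
      rw [hL]
      linarith
    calc _ ≤ ε * L := mul_le_mul_of_nonneg_left h1 hε.le
      _ = L * ε := by ring
  have hfpos : ∀ θ, 0 < f θ := fun θ => by
    have := (abs_le.1 (hf1 θ)).1
    linarith
  have hfR : ∀ θ, f θ ≤ R := fun θ => by
    have := (abs_le.1 (hf1 θ)).2
    linarith
  -- the function `k`
  obtain ⟨k, hk⟩ : ∃ k : ℂ → ℂ, k = fun z => ζ * deriv (gh g) (rt R z) - (starRingEnd ℂ) ζ * deriv (g2 g) (rt R z) :=
    ⟨_, rfl⟩
  have hkc : Continuous k := by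
    rw [hk]
    exact (continuous_const.mul hAc).sub (continuous_const.mul hBc)
  have hkk : ∀ z, ‖z‖ ≤ R → kk g ζ z = k z := fun z hz => by
    rw [hk]
    simp only [rt_eq hR0 hz]
    rfl
  have hζ' : ‖(starRingEnd ℂ) ζ‖ = 1 := by rw [Complex.norm_conj, hζ]
  have hkb : ∀ z, ‖z‖ ≤ R → ‖k z‖ ≤ M := by
    intro z hz
    rw [← hkk z hz]
    unfold kk
    refine (norm_sub_le _ _).trans ?_
    rw [norm_mul, norm_mul, hζ, hζ', one_mul, one_mul, hM]
    exact add_le_add (hMA1 z hz) (hMB1 z hz)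
  have hkl : ∀ z w, ‖z‖ ≤ R → ‖w‖ ≤ R → ‖k w - k z‖ ≤ M * ‖w - z‖ := by
    intro z w hz hw
    rw [← hkk z hz, ← hkk w hw]
    have e : kk g ζ w - kk g ζ z = ζ * (deriv (gh g) w - deriv (gh g) z) -
        (starRingEnd ℂ) ζ * (deriv (g2 g) w - deriv (g2 g) z) := by
      unfold kk
      ring
    rw [e]
    refine (norm_sub_le _ _).trans ?_
    rw [norm_mul, norm_mul, hζ, hζ', one_mul, one_mul, hM, add_mul]
    exact add_le_add (hMA2 z w hz hw) (hMB2 z w hz hw)
  obtain ⟨F, hF⟩ : ∃ F : ℂ → ℝ, F = fun z => ‖(starRingEnd ℂ) ζ + ε / 2 * k z‖ ^ 2 := ⟨_, rfl⟩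
  have hFc : Continuous F := by
    rw [hF]
    fun_prop
  have hFv : ∀ z, F z = ‖(starRingEnd ℂ) ζ + ε / 2 * k z‖ ^ 2 := fun z => by rw [hF]
  -- step 1
  have hSm : MeasurableSet {z : ℂ | ‖z‖ < f (Complex.arg z)} :=
    measurableSet_lt measurable_norm (hfc.measurable.comp Complex.measurable_arg)
  have hSR : {z : ℂ | ‖z‖ < f (Complex.arg z)} ⊆ Metric.closedBall 0 R := by
    intro z hz
    rw [mem_closedBall_zero_iff]
    exact (show ‖z‖ < f (Complex.arg z) from hz).le.trans (hfR _)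
  have hIS : Inn (psi g ε) ⊆ {z : ℂ | ‖z‖ < f (Complex.arg z)} := by
    intro z hz
    have h1 := hrad ε hε hεε (Complex.arg z) ‖z‖ (norm_nonneg z) (by
      rw [ep, Complex.norm_mul_exp_arg_mul_I]
      exact hz)
    rw [← hfv] at h1
    exact h1
  have hFS : IntegrableOn F {z : ℂ | ‖z‖ < f (Complex.arg z)} volume :=
    (hFc.continuousOn.integrableOn_compact (isCompact_closedBall (0 : ℂ) R)).mono_set hSR
  have hcong : EqOn F (fun z => ‖(starRingEnd ℂ) ζ + ε / 2 * kk g ζ z‖ ^ 2) {z : ℂ | ‖z‖ < f (Complex.arg z)} := by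
    intro z hz
    simp only [hFv]
    rw [hkk z (mem_closedBall_zero_iff.1 (hSR hz))]
  have hDI : DI g ε ζ ≤ ∫ z in {z : ℂ | ‖z‖ < f (Complex.arg z)}, F z := by
    rw [setIntegral_congr_fun hSm hcong]
    unfold DI
    exact setIntegral_mono_set (hFS.congr_fun hcong hSm) (Eventually.of_forall fun z => by positivity)
      (LE.le.eventuallyLE hIS)
  have hball : Metric.ball (0 : ℂ) 1 ⊆ Metric.closedBall 0 R :=
    Metric.ball_subset_closedBall.trans (Metric.closedBall_subset_closedBall hR1.le)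
  -- step 2: polar coordinates
  have hFF : Continuous (Function.uncurry fun θ r : ℝ => r * F (r * ep θ)) :=
    continuous_snd.mul (hFc.comp ((Complex.continuous_ofReal.comp continuous_snd).mul
      (ep_cont.comp continuous_fst)))
  have hP1 := polar f hfc hfpos R hfR F hFc
  have hP2 := polar (fun _ => 1) continuous_const (fun _ => one_pos) 1 (fun _ => le_refl _) F hFc
  rw [← ball_eq] at hP2
  have hc1 : Continuous fun θ : ℝ => ∫ r in (0 : ℝ)..(f θ), r * F (r * ep θ) :=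
    intervalIntegral.continuous_parametric_intervalIntegral_of_continuous hFF hfc
  have hc2 : Continuous fun θ : ℝ => ∫ r in (0 : ℝ)..1, r * F (r * ep θ) :=
    intervalIntegral.continuous_parametric_intervalIntegral_of_continuous hFF continuous_const
  have hkep : Continuous fun θ => (ζ * k (ep θ)).re :=
    Complex.continuous_re.comp (continuous_const.mul (hkc.comp ep_cont))
  have hpt : ∀ θ, (∫ r in (0 : ℝ)..(f θ), r * F (r * ep θ)) - ∫ r in (0 : ℝ)..1, r * F (r * ep θ) ≤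
      ε * qq g θ + ε ^ 2 * (qq g θ ^ 2 / 2 + q2 g θ) + ε ^ 2 * (qq g θ * (ζ * k (ep θ)).re) + K * ε ^ 3 := by
    intro θ
    have hi : ∀ a b : ℝ, IntervalIntegrable (fun r : ℝ => r * F (r * ep θ)) volume a b := fun a b =>
      (continuous_id.mul (hFc.comp (Complex.continuous_ofReal.mul continuous_const))).intervalIntegrable a b
    rw [intervalIntegral.integral_interval_sub_left (hi _ _) (hi _ _)]
    have h1 := seg k ζ hζ M R ε L (f θ) θ hM0 hR1.le hε hε1 hL0 (hfpos θ) (hf1 θ) (hfR θ) hkc hkb hkl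
    simp only [hFv]
    refine h1.trans ?_
    obtain ⟨δ, hδe⟩ : ∃ δ : ℝ, δ = ε * q2 g θ + C * ε ^ 2 := ⟨_, rfl⟩
    have hδb : |δ| ≤ ε * (Q + C) := by rw [hδe]; exact hδ θ
    have ey : f θ - 1 = ε * (qq g θ + δ) := by
      rw [hfv, hδe]
      ring
    have hκ : |(ζ * k (ep θ)).re| ≤ M := by
      refine (Complex.abs_re_le_norm _).trans ?_
      rw [norm_mul, hζ, one_mul]
      exact hkb _ (by rw [ep_norm]; exact hR1.le)
    have h2 : (f θ ^ 2 - 1) / 2 = (f θ - 1) + (f θ - 1) ^ 2 / 2 := by ring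
    rw [h2, ey]
    have t1 : qq g θ * δ ≤ Q * (ε * (Q + C)) := by
      refine (le_abs_self _).trans ?_
      rw [abs_mul]
      exact mul_le_mul (hQ1 θ) hδb (abs_nonneg _) hQ0
    have t2 : δ ^ 2 ≤ ε * (Q + C) ^ 2 := by
      rw [← sq_abs]
      refine (pow_le_pow_left₀ (abs_nonneg _) hδb 2).trans ?_
      rw [mul_pow]
      refine mul_le_mul_of_nonneg_right ?_ (by positivity)
      rw [sq]
      exact mul_le_of_le_one_left hε.le hε1
    have t3 : δ * (ζ * k (ep θ)).re ≤ (ε * (Q + C)) * M := by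
      refine (le_abs_self _).trans ?_
      rw [abs_mul]
      exact mul_le_mul hδb hκ (abs_nonneg _) (by positivity)
    have t4 : ε * δ = ε ^ 2 * q2 g θ + C * ε ^ 3 := by
      rw [hδe]
      ring
    have u1' : ε ^ 2 * (qq g θ * δ) ≤ ε ^ 2 * (Q * (ε * (Q + C))) := mul_le_mul_of_nonneg_left t1 (by positivity)
    have u2' : ε ^ 2 * δ ^ 2 ≤ ε ^ 2 * (ε * (Q + C) ^ 2) := mul_le_mul_of_nonneg_left t2 (by positivity)
    have u3' : ε ^ 2 * (δ * (ζ * k (ep θ)).re) ≤ ε ^ 2 * ((ε * (Q + C)) * M) := mul_le_mul_of_nonneg_left t3 (by positivity)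
    rw [hK]
    have e1 : ε * (qq g θ + δ) + (ε * (qq g θ + δ)) ^ 2 / 2 + ε * (ε * (qq g θ + δ) * (ζ * k (ep θ)).re) =
        ε * qq g θ + ε * δ + ε ^ 2 * (qq g θ ^ 2 / 2) + ε ^ 2 * (qq g θ * δ) + ε ^ 2 * δ ^ 2 / 2 +
          ε ^ 2 * (qq g θ * (ζ * k (ep θ)).re) + ε ^ 2 * (δ * (ζ * k (ep θ)).re) := by
      ring
    rw [e1, t4]
    linarith
  -- step 3: integrate
  have hpp : -Real.pi ≤ Real.pi := by linarith [Real.pi_pos]
  have hper1 : Function.Periodic (fun θ => qq g θ ^ 2 / 2 + q2 g θ) (2 * Real.pi) := by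
    intro θ
    simp only [qq, q2, pp, xx, ArB.em_per]
  have hper2 : Function.Periodic (fun θ => qq g θ * (ζ * kk g ζ (ep θ)).re) (2 * Real.pi) := by
    intro θ
    simp only [qq, ep_per, ArB.em_per]
  have hq0 : ∫ θ in (-Real.pi)..Real.pi, qq g θ = 0 := by
    have h1 := ArB.int_zero hMv g ρ hg
    rw [hg0.zero] at h1
    simp only [sub_zero] at h1
    exact h1
  have k1 : Continuous fun θ => ε * qq g θ := continuous_const.mul hqc
  have k2 : Continuous fun θ => ε ^ 2 * (qq g θ ^ 2 / 2 + q2 g θ) :=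
    continuous_const.mul (((hqc.pow 2).div_const 2).add hq2c)
  have k3 : Continuous fun θ => ε ^ 2 * (qq g θ * (ζ * k (ep θ)).re) := continuous_const.mul (hqc.mul hkep)
  have hI : ∫ θ in (-Real.pi)..Real.pi, (ε * qq g θ + ε ^ 2 * (qq g θ ^ 2 / 2 + q2 g θ) +
        ε ^ 2 * (qq g θ * (ζ * k (ep θ)).re) + K * ε ^ 3) =
      ε ^ 2 * (∫ θ in (0 : ℝ)..(2 * Real.pi), (qq g θ ^ 2 / 2 + q2 g θ)) +
        ε ^ 2 * (∫ θ in (0 : ℝ)..(2 * Real.pi), qq g θ * (ζ * kk g ζ (ep θ)).re) + 2 * Real.pi * K * ε ^ 3 := by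
    rw [intervalIntegral.integral_add (f := fun θ => ε * qq g θ + ε ^ 2 * (qq g θ ^ 2 / 2 + q2 g θ) +
        ε ^ 2 * (qq g θ * (ζ * k (ep θ)).re)) (g := fun _ => K * ε ^ 3)
        (((k1.add k2).add k3).intervalIntegrable _ _) (continuous_const.intervalIntegrable _ _),
      intervalIntegral.integral_add (f := fun θ => ε * qq g θ + ε ^ 2 * (qq g θ ^ 2 / 2 + q2 g θ))
        (g := fun θ => ε ^ 2 * (qq g θ * (ζ * k (ep θ)).re))
        ((k1.add k2).intervalIntegrable _ _) (k3.intervalIntegrable _ _),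
      intervalIntegral.integral_add (f := fun θ => ε * qq g θ) (g := fun θ => ε ^ 2 * (qq g θ ^ 2 / 2 + q2 g θ))
        (k1.intervalIntegrable _ _) (k2.intervalIntegrable _ _),
      intervalIntegral.integral_const_mul, intervalIntegral.integral_const_mul, intervalIntegral.integral_const_mul,
      intervalIntegral.integral_const, hq0, per_int _ hper1, smul_eq_mul]
    have h3 : ∫ θ in (-Real.pi)..Real.pi, qq g θ * (ζ * k (ep θ)).re =
        ∫ θ in (0 : ℝ)..(2 * Real.pi), qq g θ * (ζ * kk g ζ (ep θ)).re := by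
      rw [← per_int _ hper2]
      refine intervalIntegral.integral_congr fun θ _ => ?_
      simp only [hkk (ep θ) (by rw [ep_norm]; exact hR1.le)]
    rw [h3]
    ring
  have hdiff : (∫ z in {z : ℂ | ‖z‖ < f (Complex.arg z)}, F z) - ∫ z in Metric.ball (0 : ℂ) 1, F z ≤
      ∫ θ in (-Real.pi)..Real.pi, (ε * qq g θ + ε ^ 2 * (qq g θ ^ 2 / 2 + q2 g θ) +
        ε ^ 2 * (qq g θ * (ζ * k (ep θ)).re) + K * ε ^ 3) := by
    rw [hP1, hP2, ← intervalIntegral.integral_sub (hc1.intervalIntegrable _ _) (hc2.intervalIntegrable _ _)]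
    exact intervalIntegral.integral_mono_on hpp ((hc1.sub hc2).intervalIntegrable _ _)
      ((((k1.add k2).add k3).add continuous_const).intervalIntegrable _ _) fun θ _ => hpt θ
  -- step 4: the disk
  have hz1 : deriv (gh g) 0 = 0 := by
    have h1 : deriv (gh g) = (starRingEnd ℂ) ∘ deriv g ∘ (starRingEnd ℂ) := deriv_conj_conj
    rw [h1]
    simp [hg0.dzero]
  have hz2 : deriv (g2 g) 0 = 0 := by
    have h0 : (0 : ℂ) ∈ Metric.ball (0 : ℂ) ρ := Metric.mem_ball_self (by linarith)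
    have h1 : DifferentiableAt ℂ (gh g) 0 := (gh_diff hg _ h0).differentiableAt (Metric.isOpen_ball.mem_nhds h0)
    have h2 := ((hasDerivAt_pow 2 (0 : ℂ)).mul h1.hasDerivAt).deriv
    have h3 : deriv (g2 g) 0 = deriv ((fun x : ℂ => x ^ 2) * gh g) 0 := rfl
    rw [h3, h2]
    simp
  have hk0 : kk g ζ 0 = 0 := by
    unfold kk
    rw [hz1, hz2, mul_zero, mul_zero, sub_zero]
  have hkd : DifferentiableOn ℂ (fun z => ζ * kk g ζ z) (Metric.ball 0 ρ) :=
    (((gh_diff hg).deriv Metric.isOpen_ball).const_mul ζ |>.sub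
      (((g2_diff hg).deriv Metric.isOpen_ball).const_mul ((starRingEnd ℂ) ζ))).const_mul ζ
  have huc : Continuous fun z => (ζ * k z).re := Complex.continuous_re.comp (continuous_const.mul hkc)
  have hz : ∫ z in Metric.ball (0 : ℂ) 1, (ζ * k z).re = 0 := by
    refine ball_zero hMv (fun z => ζ * kk g ζ z) ρ hρ hkd (by simp [hk0]) _ huc fun z hz => ?_
    rw [hkk z (hz.trans hR1.le)]
  have hbi : ∀ u : ℂ → ℝ, Continuous u → IntegrableOn u (Metric.ball (0 : ℂ) 1) volume := fun u hu =>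
    (hu.continuousOn.integrableOn_compact (isCompact_closedBall (0 : ℂ) 1)).mono_set Metric.ball_subset_closedBall
  have hn : Continuous fun z => ε ^ 2 / 4 * ‖k z‖ ^ 2 := by fun_prop
  have hu2 : Continuous fun z => ε * (ζ * k z).re := continuous_const.mul huc
  have hD : ∫ z in Metric.ball (0 : ℂ) 1, F z = Real.pi + ε ^ 2 / 4 * ∫ z in Metric.ball (0 : ℂ) 1, ‖kk g ζ z‖ ^ 2 := by
    have h1 : ∀ z, F z = 1 + ε * (ζ * k z).re + ε ^ 2 / 4 * ‖k z‖ ^ 2 := fun z => by rw [hFv, F_exp ζ _ hζ]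
    simp only [h1]
    rw [integral_add (f := fun z => 1 + ε * (ζ * k z).re) (g := fun z => ε ^ 2 / 4 * ‖k z‖ ^ 2)
        (hbi _ (continuous_const.add hu2)) (hbi _ hn),
      integral_add (f := fun _ => (1 : ℝ)) (g := fun z => ε * (ζ * k z).re)
        (hbi _ continuous_const) (hbi _ hu2), integral_const_mul, integral_const_mul, hz, mul_zero, add_zero]
    have h2 : ∫ _ in Metric.ball (0 : ℂ) 1, (1 : ℝ) = Real.pi := by
      rw [setIntegral_const, smul_eq_mul, mul_one, Measure.real, Complex.volume_ball]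
      simp
    have h3 : ∫ z in Metric.ball (0 : ℂ) 1, ‖k z‖ ^ 2 = ∫ z in Metric.ball (0 : ℂ) 1, ‖kk g ζ z‖ ^ 2 := by
      refine setIntegral_congr_fun Metric.isOpen_ball.measurableSet fun z hz => ?_
      simp only [hkk z (mem_closedBall_zero_iff.1 (hball hz))]
    rw [h2, h3]
  have hfinal : DI g ε ζ ≤ Real.pi + ε ^ 2 / 4 * (∫ z in Metric.ball (0 : ℂ) 1, ‖kk g ζ z‖ ^ 2) +
      (ε ^ 2 * (∫ θ in (0 : ℝ)..(2 * Real.pi), (qq g θ ^ 2 / 2 + q2 g θ)) +
        ε ^ 2 * (∫ θ in (0 : ℝ)..(2 * Real.pi), qq g θ * (ζ * kk g ζ (ep θ)).re) + 2 * Real.pi * K * ε ^ 3) := by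
    rw [hI, hD] at hdiff
    linarith
  unfold Dq
  have hε3 : 0 < ε ^ 3 := by positivity
  linarith

end Pool.Agent.H74.DE
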