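import Pool.Agent.H74.DE.Fr
import Pool.Agent.H11.SC.Pars

set_option autoImplicit false

/-!
# [H74 DE Par] power series and Parseval on the circle and on the disk (helper84)
-/

namespace Pool.Agent.H74.DE.Par

open MeasureTheory Set Filter Topology Pool.Agent.H74.SX Pool.Agent.H74.DD

theorem ser {h : ℂ → ℂ} {ρ : ℝ} (hh : Good h ρ) {z : ℂ} (hz : ‖z‖ < ρ) : HasSum (fun n => cf h n * z ^ n) (h z) := by
  have h1 := Complex.hasSum_taylorSeries_on_ball hh.hol (z := z) (by simpa using hz)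
  refine h1.congr_fun fun n => ?_
  rw [sub_zero, smul_eq_mul, smul_eq_mul]
  unfold cf
  rw [div_eq_mul_inv]
  ring

theorem summ {h : ℂ → ℂ} {ρ : ℝ} (hh : Good h ρ) : Summable fun n => ‖cf h n‖ := by
  have h1 := (ser hh (z := 1) (by rw [norm_one]; exact hh.one_lt)).summable
  simp only [one_pow, mul_one] at h1
  exact h1.norm

theorem sq_summ {a : ℕ → ℝ} (h0 : ∀ n, 0 ≤ a n) (h : Summable a) : Summable fun n => a n ^ 2 := by
  have h1 := (h.mul_of_nonneg h h0 h0).comp_injective (i := fun n : ℕ => (n, n)) fun m n hmn => (Prod.mk.inj hmn).1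
  refine h1.congr fun n => ?_
  show a n * a n = a n ^ 2
  ring

theorem norm_ep (θ : ℝ) : ‖ep θ‖ = 1 := Complex.norm_exp_ofReal_mul_I θ

theorem norm_rep {r : ℝ} (h0 : 0 ≤ r) (θ : ℝ) : ‖(r : ℂ) * ep θ‖ = r := by
  rw [norm_mul, norm_ep, mul_one, Complex.norm_real, Real.norm_of_nonneg h0]

/-- circle, radius `r ≤ 1` -/
theorem circ {h : ℂ → ℂ} {ρ : ℝ} (hh : Good h ρ) {r : ℝ} (h0 : 0 ≤ r) (h1 : r ≤ 1) :
    HasSum (fun n => ‖cf h n‖ ^ 2 * r ^ (2 * n)) ((∫ θ in (0 : ℝ)..(2 * Real.pi), ‖h (r * ep θ)‖ ^ 2) / (2 * Real.pi)) := by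
  have hn : ∀ n, ‖cf h n * (r : ℂ) ^ n‖ = ‖cf h n‖ * r ^ n := by
    intro n
    rw [norm_mul, norm_pow, Complex.norm_real, Real.norm_of_nonneg h0]
  have hc : Summable fun n => ‖cf h n * (r : ℂ) ^ n‖ := by
    refine Summable.of_nonneg_of_le (fun n => norm_nonneg _) (fun n => ?_) (summ hh)
    rw [hn]
    exact mul_le_of_le_one_right (norm_nonneg _) (pow_le_one₀ h0 h1)
  have hP := Pool.Agent.H11.SC.parseval (fun n => cf h n * (r : ℂ) ^ n) hc
  have hS := sq_summ (fun n => norm_nonneg _) hc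
  have e1 : ∀ x : ℝ, ∑' n : ℕ, cf h n * (r : ℂ) ^ n * Complex.exp (2 * (Real.pi : ℂ) * Complex.I * n * x) =
      h (r * ep (2 * Real.pi * x)) := by
    intro x
    have h2 := ser hh (z := (r : ℂ) * ep (2 * Real.pi * x))
      (by rw [norm_rep h0]; exact h1.trans_lt hh.one_lt)
    rw [← h2.tsum_eq]
    refine tsum_congr fun n => ?_
    rw [mul_pow, ← mul_assoc]
    congr 1
    unfold ep
    rw [← Complex.exp_nat_mul]
    congr 1
    push_cast
    ring
  simp only [e1] at hP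
  have hpi : (2 * Real.pi) ≠ 0 := by positivity
  have h3 := intervalIntegral.integral_comp_mul_left (a := 0) (b := 1) (fun θ : ℝ => ‖h (r * ep θ)‖ ^ 2) hpi
  rw [mul_zero, mul_one] at h3
  rw [h3, smul_eq_mul] at hP
  have h4 : (∫ θ in (0 : ℝ)..(2 * Real.pi), ‖h (r * ep θ)‖ ^ 2) / (2 * Real.pi) =
      ∑' n, ‖cf h n * (r : ℂ) ^ n‖ ^ 2 := by
    rw [← hP, div_eq_inv_mul]
  rw [h4]
  refine hS.hasSum.congr_fun fun n => ?_
  rw [hn, mul_pow, ← pow_mul, mul_comm n 2]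

theorem cont_h {h : ℂ → ℂ} {ρ : ℝ} (hh : Good h ρ) {r : ℝ} (h0 : 0 ≤ r) (h1 : r ≤ 1) :
    Continuous fun θ : ℝ => ‖h (r * ep θ)‖ ^ 2 := by
  have h2 : Continuous fun θ : ℝ => (r : ℂ) * ep θ := by
    unfold ep
    fun_prop
  refine (hh.hol.continuousOn.comp_continuous h2 fun θ => ?_).norm.pow 2
  rw [mem_ball_zero_iff, norm_rep h0]
  exact h1.trans_lt hh.one_lt

theorem shift {h : ℂ → ℂ} {r : ℝ} :
    ∫ θ in (-Real.pi)..Real.pi, ‖h (r * ep θ)‖ ^ 2 = ∫ θ in (0 : ℝ)..(2 * Real.pi), ‖h (r * ep θ)‖ ^ 2 := by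
  have hp : Function.Periodic (fun θ : ℝ => ‖h (r * ep θ)‖ ^ 2) (2 * Real.pi) := by
    intro θ
    have e : ep (θ + 2 * Real.pi) = ep θ := by
      unfold ep
      have h1 : ((θ + 2 * Real.pi : ℝ) : ℂ) * Complex.I = θ * Complex.I + 2 * Real.pi * Complex.I := by
        push_cast
        ring
      rw [h1, Complex.exp_periodic]
    show ‖h (r * ep (θ + 2 * Real.pi))‖ ^ 2 = ‖h (r * ep θ)‖ ^ 2
    rw [e]
  have h1 := hp.intervalIntegral_add_eq (-Real.pi) 0
  rw [zero_add, show -Real.pi + 2 * Real.pi = Real.pi by ring] at h1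
  exact h1

/-- unit disk -/
theorem area {h : ℂ → ℂ} {ρ : ℝ} (hh : Good h ρ) :
    HasSum (fun n => ‖cf h n‖ ^ 2 * (Real.pi / (n + 1))) (∫ z in Metric.ball (0 : ℂ) 1, ‖h z‖ ^ 2) := by
  have hpi := Real.pi_pos
  -- polar coordinates
  have e1 : ∫ z in Metric.ball (0 : ℂ) 1, ‖h z‖ ^ 2 =
      ∫ p in Ioo (0 : ℝ) 1 ×ˢ Ioo (-Real.pi) Real.pi, p.1 * ‖h ((p.1 : ℂ) * ep p.2)‖ ^ 2 := by
    rw [← integral_indicator Metric.isOpen_ball.measurableSet, ← Complex.integral_comp_polarCoord_symm,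
      polarCoord_target]
    have hsub : Ioo (0 : ℝ) 1 ×ˢ Ioo (-Real.pi) Real.pi ⊆ Ioi (0 : ℝ) ×ˢ Ioo (-Real.pi) Real.pi :=
      prod_mono (fun x hx => hx.1) (Subset.refl _)
    have e2 : ∀ p : ℝ × ℝ, Complex.polarCoord.symm p = (p.1 : ℂ) * ep p.2 := by
      intro p
      rw [Complex.polarCoord_symm_apply]
      unfold ep
      rw [Complex.exp_mul_I]
      push_cast
      rfl
    refine (setIntegral_eq_of_subset_of_forall_sdiff_eq_zero
      (measurableSet_Ioi.prod measurableSet_Ioo) hsub fun p hp => ?_).trans ?_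
    · show p.1 • (Metric.ball (0 : ℂ) 1).indicator (fun z => ‖h z‖ ^ 2) (Complex.polarCoord.symm p) = (0 : ℝ)
      rw [e2, indicator_of_notMem, smul_zero]
      rw [mem_ball_zero_iff, norm_rep (le_of_lt hp.1.1)]
      intro hlt
      exact hp.2 ⟨⟨hp.1.1, hlt⟩, hp.1.2⟩
    · refine setIntegral_congr_fun (measurableSet_Ioo.prod measurableSet_Ioo) fun p hp => ?_
      show p.1 • (Metric.ball (0 : ℂ) 1).indicator (fun z => ‖h z‖ ^ 2) (Complex.polarCoord.symm p) =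
        p.1 * ‖h ((p.1 : ℂ) * ep p.2)‖ ^ 2
      rw [e2, indicator_of_mem, smul_eq_mul]
      rw [mem_ball_zero_iff, norm_rep hp.1.1.le]
      exact hp.1.2
  have hint : IntegrableOn (fun p : ℝ × ℝ => p.1 * ‖h ((p.1 : ℂ) * ep p.2)‖ ^ 2)
      (Ioo (0 : ℝ) 1 ×ˢ Ioo (-Real.pi) Real.pi) (volume.prod volume) := by
    have hc : ContinuousOn (fun p : ℝ × ℝ => p.1 * ‖h ((p.1 : ℂ) * ep p.2)‖ ^ 2)
        (Icc (0 : ℝ) 1 ×ˢ Icc (-Real.pi) Real.pi) := by
      refine continuous_fst.continuousOn.mul ((ContinuousOn.comp hh.hol.continuousOn ?_ ?_).norm.pow 2)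
      · have h2 : Continuous fun p : ℝ × ℝ => (p.1 : ℂ) * ep p.2 := by
          unfold ep
          fun_prop
        exact h2.continuousOn
      · intro p hp
        rw [mem_ball_zero_iff, norm_rep hp.1.1]
        exact hp.1.2.trans_lt hh.one_lt
    rw [← Measure.volume_eq_prod]
    exact (hc.integrableOn_compact (isCompact_Icc.prod isCompact_Icc)).mono_set
      (prod_mono Ioo_subset_Icc_self Ioo_subset_Icc_self)
  have e3 : ∫ p in Ioo (0 : ℝ) 1 ×ˢ Ioo (-Real.pi) Real.pi, p.1 * ‖h ((p.1 : ℂ) * ep p.2)‖ ^ 2 =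
      ∫ r in (0 : ℝ)..1, r * ∫ θ in (0 : ℝ)..(2 * Real.pi), ‖h (r * ep θ)‖ ^ 2 := by
    rw [Measure.volume_eq_prod, setIntegral_prod _ hint, intervalIntegral.integral_of_le zero_le_one,
      integral_Ioc_eq_integral_Ioo]
    refine setIntegral_congr_fun measurableSet_Ioo fun r _ => ?_
    show ∫ θ in Ioo (-Real.pi) Real.pi, r * ‖h ((r : ℂ) * ep θ)‖ ^ 2 = _
    rw [← shift, intervalIntegral.integral_of_le (by linarith), integral_Ioc_eq_integral_Ioo,
      integral_const_mul]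
  rw [e1, e3]
  have hsum : Summable fun n => ‖cf h n‖ ^ 2 * (2 * Real.pi) :=
    (sq_summ (fun n => norm_nonneg _) (summ hh)).mul_right _
  have key := intervalIntegral.hasSum_integral_of_dominated_convergence (μ := volume) (a := 0) (b := 1)
    (F := fun (n : ℕ) (r : ℝ) => ‖cf h n‖ ^ 2 * (2 * Real.pi) * r ^ (2 * n + 1))
    (f := fun r : ℝ => r * ∫ θ in (0 : ℝ)..(2 * Real.pi), ‖h (r * ep θ)‖ ^ 2)
    (fun n _ => ‖cf h n‖ ^ 2 * (2 * Real.pi))
    (fun n => (by fun_prop : Continuous fun r : ℝ =>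
      ‖cf h n‖ ^ 2 * (2 * Real.pi) * r ^ (2 * n + 1)).aestronglyMeasurable)
    (fun n => Filter.Eventually.of_forall fun r hr => by
      rw [uIoc_of_le zero_le_one] at hr
      rw [Real.norm_of_nonneg (by have := hr.1.le; positivity)]
      exact mul_le_of_le_one_right (by positivity) (pow_le_one₀ hr.1.le hr.2))
    (Filter.Eventually.of_forall fun _ _ => hsum)
    intervalIntegrable_const
    (Filter.Eventually.of_forall fun r hr => by
      rw [uIoc_of_le zero_le_one] at hr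
      have h1 := (circ hh hr.1.le hr.2).mul_left (2 * Real.pi * r)
      have e4 : 2 * Real.pi * r * ((∫ θ in (0 : ℝ)..(2 * Real.pi), ‖h (r * ep θ)‖ ^ 2) / (2 * Real.pi)) =
          r * ∫ θ in (0 : ℝ)..(2 * Real.pi), ‖h (r * ep θ)‖ ^ 2 := by
        field_simp
      rw [e4] at h1
      refine h1.congr_fun fun n => ?_
      rw [pow_succ]
      ring)
  refine key.congr_fun fun n => ?_
  rw [intervalIntegral.integral_const_mul, integral_pow]
  have hn : ((n : ℝ) + 1) ≠ 0 := by positivity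
  push_cast
  rw [one_pow, zero_pow (by omega), sub_zero]
  have e5 : (2 * (n : ℝ) + 1 + 1) = 2 * (n + 1) := by ring
  rw [e5]
  field_simp

end Pool.Agent.H74.DE.Par
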