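import Pool.Agent.H74.DE.IntM
import Pool.Agent.H74.DE.Par
import Pool.Agent.H74.DD.ArB
import Pool.Agent.H1.QF.Par

set_option autoImplicit false

/-!
# [H74 DE DirK] star regions in polar coordinates, bounds for `kk` (helper84, for Dir2)
-/

namespace Pool.Agent.H74.DE.DirK

open MeasureTheory Set Filter Topology Pool.Agent.H74.SX Pool.Agent.H74.DD

variable {g : ℂ → ℂ} {ρ : ℝ}

theorem gh_on (hg : Good0 g ρ) : DifferentiableOn ℂ (gh g) (Metric.ball 0 ρ) := fun _ hz =>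
  (IntMH.gh_diff hg.good.hol (mem_ball_zero_iff.1 hz)).differentiableWithinAt

theorem g2_on (hg : Good0 g ρ) : DifferentiableOn ℂ (g2 g) (Metric.ball 0 ρ) := fun _ hz =>
  (IntMH.g2_diff hg.good.hol (mem_ball_zero_iff.1 hz)).differentiableWithinAt

theorem kk_on (hg : Good0 g ρ) (ζ : ℂ) : DifferentiableOn ℂ (kk g ζ) (Metric.ball 0 ρ) := by
  have h1 := (gh_on hg).deriv Metric.isOpen_ball
  have h2 := (g2_on hg).deriv Metric.isOpen_ball
  exact (h1.const_mul ζ).sub (h2.const_mul ((starRingEnd ℂ) ζ))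

theorem bdd {f : ℂ → ℂ} (hf : DifferentiableOn ℂ f (Metric.ball 0 ρ)) {s : ℝ} (hs : s < ρ) :
    ∃ M : ℝ, 0 ≤ M ∧ ∀ z : ℂ, ‖z‖ ≤ s → ‖f z‖ ≤ M := by
  obtain ⟨M, hM⟩ := (isCompact_closedBall (0 : ℂ) s).exists_bound_of_continuousOn
    (hf.continuousOn.mono (Metric.closedBall_subset_ball hs))
  refine ⟨max M 0, le_max_right _ _, fun z hz => (hM z ?_).trans (le_max_left _ _)⟩
  rwa [mem_closedBall_zero_iff]

theorem lip {f : ℂ → ℂ} (hf : DifferentiableOn ℂ f (Metric.ball 0 ρ)) {s : ℝ} (hs : s < ρ) :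
    ∃ L : ℝ, 0 ≤ L ∧ ∀ a b : ℂ, ‖a‖ ≤ s → ‖b‖ ≤ s → ‖f b - f a‖ ≤ L * ‖b - a‖ := by
  obtain ⟨L, hL0, hL⟩ := bdd (hf.deriv Metric.isOpen_ball) hs
  refine ⟨L, hL0, fun a b ha hb => ?_⟩
  refine Convex.norm_image_sub_le_of_norm_deriv_le (s := Metric.closedBall (0 : ℂ) s) (fun x hx => ?_)
    (fun x hx => hL x (mem_closedBall_zero_iff.1 hx)) (convex_closedBall _ _)
    (mem_closedBall_zero_iff.2 ha) (mem_closedBall_zero_iff.2 hb)
  exact hf.differentiableAt (Metric.isOpen_ball.mem_nhds (Metric.closedBall_subset_ball hs hx))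

theorem kk_bdd (hg : Good0 g ρ) {s : ℝ} (hs : s < ρ) :
    ∃ M : ℝ, 0 ≤ M ∧ ∀ ζ : ℂ, ‖ζ‖ = 1 → ∀ z : ℂ, ‖z‖ ≤ s → ‖kk g ζ z‖ ≤ M := by
  obtain ⟨M1, h10, h1⟩ := bdd ((gh_on hg).deriv Metric.isOpen_ball) hs
  obtain ⟨M2, h20, h2⟩ := bdd ((g2_on hg).deriv Metric.isOpen_ball) hs
  refine ⟨M1 + M2, by positivity, fun ζ hζ z hz => ?_⟩
  unfold kk
  refine (norm_sub_le _ _).trans ?_
  rw [norm_mul, norm_mul, RCLike.norm_conj, hζ, one_mul, one_mul]
  exact add_le_add (h1 z hz) (h2 z hz)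

theorem kk_lip (hg : Good0 g ρ) {s : ℝ} (hs : s < ρ) :
    ∃ L : ℝ, 0 ≤ L ∧ ∀ ζ : ℂ, ‖ζ‖ = 1 → ∀ a b : ℂ, ‖a‖ ≤ s → ‖b‖ ≤ s → ‖kk g ζ b - kk g ζ a‖ ≤ L * ‖b - a‖ := by
  obtain ⟨M1, h10, h1⟩ := lip ((gh_on hg).deriv Metric.isOpen_ball) hs
  obtain ⟨M2, h20, h2⟩ := lip ((g2_on hg).deriv Metric.isOpen_ball) hs
  refine ⟨M1 + M2, by positivity, fun ζ hζ a b ha hb => ?_⟩
  unfold kk
  have e : ζ * deriv (gh g) b - (starRingEnd ℂ) ζ * deriv (g2 g) b -
      (ζ * deriv (gh g) a - (starRingEnd ℂ) ζ * deriv (g2 g) a) =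
      ζ * (deriv (gh g) b - deriv (gh g) a) - (starRingEnd ℂ) ζ * (deriv (g2 g) b - deriv (g2 g) a) := by ring
  rw [e]
  refine (norm_sub_le _ _).trans ?_
  rw [norm_mul, norm_mul, RCLike.norm_conj, hζ, one_mul, one_mul, add_mul]
  exact add_le_add (h1 a b ha hb) (h2 a b ha hb)

theorem kk_zero (hg : Good0 g ρ) (ζ : ℂ) : kk g ζ 0 = 0 := by
  have hρ : ‖(0 : ℂ)‖ < ρ := by
    rw [norm_zero]
    exact zero_lt_one.trans hg.good.one_lt
  have h1 : deriv (gh g) 0 = 0 := by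
    have h2 : HasDerivAt g 0 0 := by
      have h4 := (hg.good.hol.differentiableAt (Metric.isOpen_ball.mem_nhds (mem_ball_zero_iff.2 hρ))).hasDerivAt
      rwa [hg.dzero] at h4
    have h3 := h2.conj_conj
    rw [map_zero] at h3
    exact h3.deriv
  have h2 : deriv (g2 g) 0 = 0 := by
    have h3 := ((hasDerivAt_pow 2 (0 : ℂ)).mul (IntMH.gh_diff hg.good.hol hρ).hasDerivAt).deriv
    have h4 : deriv (g2 g) 0 = deriv ((fun z : ℂ => z ^ 2) * gh g) 0 := rfl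
    rw [h4, h3]
    simp
  unfold kk
  rw [h1, h2]
  simp

theorem int_kk (hg : Good0 g ρ) (ζ : ℂ) : ∫ z in Metric.ball (0 : ℂ) 1, kk g ζ z = 0 := by
  have hd : DifferentiableOn ℂ (fun _ : ℂ => (1 : ℂ)) (Metric.ball 0 ρ) := differentiableOn_const _
  have h1 := Pool.Agent.H1.QF.berg hg.good.one_lt (kk_on hg ζ) hg.good.one_lt hd
  have h2 : ∀ n : ℕ, ((Real.pi / (n + 1) : ℝ) : ℂ) *
      (Pool.Agent.H1.QF.tc (kk g ζ) n * (starRingEnd ℂ) (Pool.Agent.H1.QF.tc (fun _ => 1) n)) = 0 := by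
    intro n
    rcases n with _ | n
    · have h3 : Pool.Agent.H1.QF.tc (kk g ζ) 0 = 0 := by
        unfold Pool.Agent.H1.QF.tc
        rw [iteratedDeriv_zero, kk_zero hg, zero_div]
      rw [h3, zero_mul, mul_zero]
    · have h3 : Pool.Agent.H1.QF.tc (fun _ : ℂ => (1 : ℂ)) (n + 1) = 0 := by
        unfold Pool.Agent.H1.QF.tc
        rw [iteratedDeriv_const]
        simp
      rw [h3, map_zero, mul_zero, mul_zero]
  simp only [h2, map_one, mul_one] at h1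
  exact h1.unique hasSum_zero

/-- pointwise expansion -/
theorem expand (g : ℂ → ℂ) (ε : ℝ) {ζ : ℂ} (hζ : ‖ζ‖ = 1) (z : ℂ) :
    ‖(starRingEnd ℂ) ζ + ε / 2 * kk g ζ z‖ ^ 2 = 1 + ε * (ζ * kk g ζ z).re + ε ^ 2 / 4 * ‖kk g ζ z‖ ^ 2 := by
  have h1 : Complex.normSq ζ = 1 := by rw [Complex.normSq_eq_norm_sq, hζ, one_pow]
  rw [← Complex.normSq_eq_norm_sq, ← Complex.normSq_eq_norm_sq]
  rw [Complex.normSq_apply] at h1 ⊢
  rw [Complex.normSq_apply]
  have e : ((ε : ℂ) / 2) = ((ε / 2 : ℝ) : ℂ) := by push_cast; rfl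
  rw [e]
  simp only [Complex.add_re, Complex.add_im, Complex.conj_re, Complex.conj_im, Complex.mul_re, Complex.mul_im,
    Complex.ofReal_re, Complex.ofReal_im, zero_mul, sub_zero, add_zero]
  linear_combination h1

/-- the integral over the unit disk -/
theorem ball (hg : Good0 g ρ) (ε : ℝ) {ζ : ℂ} (hζ : ‖ζ‖ = 1) :
    ∫ z in Metric.ball (0 : ℂ) 1, ‖(starRingEnd ℂ) ζ + ε / 2 * kk g ζ z‖ ^ 2 =
      Real.pi + ε ^ 2 / 4 * ∫ z in Metric.ball (0 : ℂ) 1, ‖kk g ζ z‖ ^ 2 := by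
  have hc : ContinuousOn (kk g ζ) (Metric.closedBall 0 1) :=
    (kk_on hg ζ).continuousOn.mono (Metric.closedBall_subset_ball hg.good.one_lt)
  have i1 : IntegrableOn (kk g ζ) (Metric.ball 0 1) :=
    (hc.integrableOn_compact (isCompact_closedBall _ _)).mono_set Metric.ball_subset_closedBall
  have i2 : IntegrableOn (fun z => ‖kk g ζ z‖ ^ 2) (Metric.ball 0 1) :=
    ((hc.norm.pow 2).integrableOn_compact (isCompact_closedBall _ _)).mono_set Metric.ball_subset_closedBall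
  have i3 : IntegrableOn (fun z => (ζ * kk g ζ z).re) (Metric.ball 0 1) :=
    ((Complex.continuous_re.comp_continuousOn (continuousOn_const.mul hc)).integrableOn_compact
      (isCompact_closedBall _ _)).mono_set Metric.ball_subset_closedBall
  have i4 : IntegrableOn (fun _ : ℂ => (1 : ℝ)) (Metric.ball 0 1) :=
    (continuousOn_const.integrableOn_compact (isCompact_closedBall (0 : ℂ) 1)).mono_set Metric.ball_subset_closedBall
  have e1 : ∫ z in Metric.ball (0 : ℂ) 1, (ζ * kk g ζ z).re = 0 := by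
    have h1 := Complex.reCLM.integral_comp_comm (i1.const_mul ζ)
    have h2 : ∫ z in Metric.ball (0 : ℂ) 1, (ζ * kk g ζ z).re = (∫ z in Metric.ball (0 : ℂ) 1, ζ * kk g ζ z).re := h1
    rw [h2, integral_const_mul, int_kk hg, mul_zero]
    rfl
  have e2 : ∫ _z in Metric.ball (0 : ℂ) 1, (1 : ℝ) = Real.pi := by
    rw [setIntegral_const, Measure.real, Complex.volume_ball]
    simp
  calc _ = ∫ z in Metric.ball (0 : ℂ) 1, (1 + ε * (ζ * kk g ζ z).re + ε ^ 2 / 4 * ‖kk g ζ z‖ ^ 2) := by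
        refine setIntegral_congr_fun Metric.isOpen_ball.measurableSet fun z _ => ?_
        exact expand g ε hζ z
    _ = _ := by
        have i5 : IntegrableOn (fun z => 1 + ε * (ζ * kk g ζ z).re) (Metric.ball 0 1) := i4.add (i3.const_mul ε)
        rw [integral_add i5 (i2.const_mul (ε ^ 2 / 4)), integral_add i4 (i3.const_mul ε),
          integral_const_mul, integral_const_mul, e1, e2, mul_zero, add_zero]

end Pool.Agent.H74.DE.DirK
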