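import Pool.Agent.H74.DE.Prs
import Pool.Agent.H57.Cyc.Polar

set_option autoImplicit false

/-!
# [H74 DE Dsk] Parseval in the unit disk (helper35)
-/

namespace Pool.Agent.H74.DE.Dsk

open MeasureTheory Set Filter Topology Pool.Agent.H74.SX Pool.Agent.H74.DD Pool.Agent.H57.Cyc

theorem gamd (n m : ℕ) :
    ∫ z in Metric.ball (0 : ℂ) 1, z ^ n * (starRingEnd ℂ) (z ^ m) =
      if n = m then (Real.pi : ℂ) / (n + 1) else 0 := by
  rw [integral_ball_polar (fun z : ℂ => z ^ n * (starRingEnd ℂ) (z ^ m)) zero_le_one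
    (by fun_prop)]
  have h1 : ∀ r θ : ℝ, r • (((r : ℂ) * cis θ) ^ n * (starRingEnd ℂ) (((r : ℂ) * cis θ) ^ m)) =
      ((r ^ (n + m + 1) : ℝ) : ℂ) * Complex.exp ((((n : ℤ) - (m : ℤ) : ℤ) : ℂ) * Complex.I * θ) := by
    intro r θ
    have h2 : cis θ ^ n * (starRingEnd ℂ) (cis θ ^ m) =
        Complex.exp ((((n : ℤ) - (m : ℤ) : ℤ) : ℂ) * Complex.I * θ) := by
      unfold cis
      rw [map_pow, ← Complex.exp_conj, ← Complex.exp_nat_mul, ← Complex.exp_nat_mul,
        ← Complex.exp_add]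
      congr 1
      simp only [map_mul, Complex.conj_ofReal, Complex.conj_I]
      push_cast
      ring
    rw [← h2, Complex.real_smul, mul_pow, mul_pow, map_mul, map_pow, map_pow, Complex.conj_ofReal]
    push_cast
    ring
  simp only [h1]
  simp only [intervalIntegral.integral_const_mul]
  by_cases hnm : n = m
  · subst hnm
    rw [if_pos rfl]
    simp only [sub_self, Int.cast_zero, zero_mul, Complex.exp_zero, intervalIntegral.integral_const,
      intervalIntegral.integral_mul_const]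
    rw [intervalIntegral.integral_ofReal, integral_pow]
    simp only [one_pow, Complex.real_smul, mul_one]
    have h3 : ((n : ℂ) + 1) ≠ 0 := by exact_mod_cast Nat.succ_ne_zero n
    push_cast
    rw [zero_pow (Nat.succ_ne_zero _)]
    have h4 : ((n : ℂ) + n + 1 + 1) = 2 * (n + 1) := by ring
    rw [h4]
    field_simp
    ring
  · have h2 : (((n : ℤ) - (m : ℤ) : ℤ) : ℂ) ≠ 0 := by
      rw [Int.cast_ne_zero]
      omega
    rw [if_neg hnm, integral_exp_mul_complex (mul_ne_zero h2 Complex.I_ne_zero)]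
    have h5 : (((n : ℤ) - (m : ℤ) : ℤ) : ℂ) * Complex.I * ((Real.pi : ℝ) : ℂ) =
        (((n : ℤ) - (m : ℤ) : ℤ) : ℂ) * Complex.I * ((-Real.pi : ℝ) : ℂ) +
        (((n : ℤ) - (m : ℤ) : ℤ) : ℂ) * (2 * Real.pi * Complex.I) := by
      push_cast
      ring
    rw [h5, Complex.exp_add, Complex.exp_int_mul_two_pi_mul_I, mul_one, sub_self, zero_div]
    simp

theorem disk {f h : ℂ → ℂ} {ρ ρ' : ℝ} (hf : Good f ρ) (hh : Good h ρ') :
    HasSum (fun n : ℕ => (Real.pi : ℂ) / (n + 1) * (cf f n * (starRingEnd ℂ) (cf h n)))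
      (∫ z in Metric.ball (0 : ℂ) 1, f z * (starRingEnd ℂ) (h z)) := by
  have hball : ∀ᵐ z ∂(volume.restrict (Metric.ball (0 : ℂ) 1)), ‖z‖ < 1 := by
    filter_upwards [ae_restrict_mem measurableSet_ball] with z hz
    rwa [mem_ball_zero_iff] at hz
  have : IsFiniteMeasure (volume.restrict (Metric.ball (0 : ℂ) 1)) :=
    ⟨by rw [Measure.restrict_apply_univ]; exact measure_ball_lt_top⟩
  refine orth (volume.restrict (Metric.ball (0 : ℂ) 1)) (fun n z => z ^ n)
    (fun n => (continuous_pow n).aestronglyMeasurable)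
    (fun n => hball.mono fun z hz => by
      rw [norm_pow]
      exact pow_le_one₀ (norm_nonneg _) hz.le)
    (fun n => (Real.pi : ℂ) / (n + 1)) (fun n m => gamd n m) (cf f) (cf h) (sumn hf) (sumn hh)
    f h (hball.mono fun z hz => ser hf (hz.trans hf.one_lt))
    (hball.mono fun z hz => ser hh (hz.trans hh.one_lt)) ?_
  refine ContinuousOn.aestronglyMeasurable ?_ measurableSet_ball
  exact hh.hol.continuousOn.mono (Metric.ball_subset_ball hh.one_lt.le)

/-- real form -/
theorem diskR {f : ℂ → ℂ} {ρ : ℝ} (hf : Good f ρ) :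
    HasSum (fun n : ℕ => Real.pi / (n + 1) * ‖cf f n‖ ^ 2)
      (∫ z in Metric.ball (0 : ℂ) 1, ‖f z‖ ^ 2) := by
  have h1 := disk hf hf
  have h2 : ∀ z : ℂ, z * (starRingEnd ℂ) z = ((‖z‖ ^ 2 : ℝ) : ℂ) := fun z => by
    rw [Complex.mul_conj, Complex.normSq_eq_norm_sq]
  simp only [h2] at h1
  rw [integral_complex_ofReal] at h1
  rw [← Complex.hasSum_ofReal]
  convert h1 using 2
  push_cast
  ring

end Pool.Agent.H74.DE.Dsk
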