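import Pool.Agent.H74.DE.Fr
import Pool.Agent.H74.DD.ArA
import Pool.Agent.H74.DD.CfiL

set_option autoImplicit false

/-!
# [H74 DE IntM] upper bounds for the interior eigenvalues with cut off test functions (helper13)
-/

namespace Pool.Agent.H74.DE

open MeasureTheory Set Filter Topology Pool.Agent.H74.SX Pool.Agent.H74.DD

namespace IntMH

theorem gh_diff {g : ℂ → ℂ} {ρ : ℝ} (hg : DifferentiableOn ℂ g (Metric.ball 0 ρ)) {z : ℂ} (hz : ‖z‖ < ρ) :
    DifferentiableAt ℂ (gh g) z := by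
  have h1 : DifferentiableAt ℂ g ((starRingEnd ℂ) z) := by
    apply hg.differentiableAt
    apply Metric.isOpen_ball.mem_nhds
    rw [Metric.mem_ball, dist_zero_right, RCLike.norm_conj]
    exact hz
  exact differentiableAt_conj_conj_iff.2 h1

theorem g2_diff {g : ℂ → ℂ} {ρ : ℝ} (hg : DifferentiableOn ℂ g (Metric.ball 0 ρ)) {z : ℂ} (hz : ‖z‖ < ρ) :
    DifferentiableAt ℂ (g2 g) z := by
  have h1 := gh_diff hg hz
  have h2 : DifferentiableAt ℂ (fun z : ℂ => z ^ 2) z := by fun_prop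
  exact h2.mul h1

theorem FF_der {g : ℂ → ℂ} {ρ : ℝ} (hg : DifferentiableOn ℂ g (Metric.ball 0 ρ)) (ε : ℝ) (ζ : ℂ) {z : ℂ}
    (hz : ‖z‖ < ρ) : HasDerivAt (FF g ε ζ) ((starRingEnd ℂ) ζ + ε / 2 * kk g ζ z) z := by
  have h1 := (gh_diff hg hz).hasDerivAt
  have h2 := (g2_diff hg hz).hasDerivAt
  have h3 := ((hasDerivAt_id z).const_mul ((starRingEnd ℂ) ζ)).add
    (((h1.const_mul ζ).sub (h2.const_mul ((starRingEnd ℂ) ζ))).const_mul ((ε : ℂ) / 2))
  rw [mul_one] at h3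
  exact h3

/-- `v ↦ Re (c v)` -/
noncomputable def RC (c : ℂ) : ℂ →L[ℝ] ℝ := Complex.reCLM.comp (ContinuousLinearMap.mul ℝ ℂ c)

theorem RC_apply (c v : ℂ) : RC c v = (c * v).re := rfl

theorem RC_norm (c : ℂ) : ‖RC c‖ = ‖c‖ := by
  apply le_antisymm
  · refine ContinuousLinearMap.opNorm_le_bound _ (norm_nonneg c) fun z => ?_
    rw [RC_apply, Real.norm_eq_abs]
    refine (Complex.abs_re_le_norm _).trans ?_
    rw [norm_mul]
  · by_cases hc : c = 0
    · rw [hc, norm_zero]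
      exact norm_nonneg _
    · have h1 := (RC c).le_opNorm ((starRingEnd ℂ) c)
      rw [RC_apply, Complex.mul_conj, Complex.ofReal_re, Complex.normSq_eq_norm_sq, RCLike.norm_conj,
        Real.norm_eq_abs, abs_of_nonneg (by positivity), sq] at h1
      exact le_of_mul_le_mul_right h1 (norm_pos_iff.2 hc)

theorem re_fderiv {F : ℂ → ℂ} {c z : ℂ} (h : HasDerivAt F c z) : HasFDerivAt (fun z => (F z).re) (RC c) z := by
  have h1 := (h.hasFDerivAt.restrictScalars ℝ)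
  have h2 := Complex.reCLM.hasFDerivAt.comp z h1
  refine h2.congr_fderiv ?_
  ext v
  simp [RC, mul_comm]

/-- the test function -/
noncomputable def vv (g : ℂ → ℂ) (ε : ℝ) (ζ : ℂ) (χ : ContDiffBump (0 : ℂ)) (z : ℂ) : ℝ := χ z * (FF g ε ζ z).re

theorem vv_contDiff {g : ℂ → ℂ} {ρ : ℝ} (hg : DifferentiableOn ℂ g (Metric.ball 0 ρ)) (ε : ℝ) (ζ : ℂ)
    (χ : ContDiffBump (0 : ℂ)) (hχ : χ.rOut < ρ) : ContDiff ℝ 1 (vv g ε ζ χ) := by
  rw [contDiff_iff_contDiffAt]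
  intro z
  by_cases hz : ‖z‖ < ρ
  · have hd : DifferentiableOn ℂ (FF g ε ζ) (Metric.ball 0 ρ) := fun w hw =>
      (FF_der hg ε ζ (by rwa [Metric.mem_ball, dist_zero_right] at hw)).differentiableAt.differentiableWithinAt
    have h1 : ContDiffOn ℂ 1 (FF g ε ζ) (Metric.ball 0 ρ) := hd.contDiffOn Metric.isOpen_ball
    have h2 : ContDiffAt ℝ 1 (FF g ε ζ) z :=
      (h1.restrict_scalars ℝ).contDiffAt (Metric.isOpen_ball.mem_nhds (by
        rw [Metric.mem_ball, dist_zero_right]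
        exact hz))
    have h3 : ContDiffAt ℝ 1 (fun z => (FF g ε ζ z).re) z := Complex.reCLM.contDiff.contDiffAt.comp z h2
    exact χ.contDiff.contDiffAt.mul h3
  · have h1 : vv g ε ζ χ =ᶠ[𝓝 z] fun _ => 0 := by
      have h2 : {w : ℂ | χ.rOut < ‖w‖} ∈ 𝓝 z :=
        (isOpen_lt continuous_const continuous_norm).mem_nhds (lt_of_lt_of_le hχ (not_lt.1 hz))
      filter_upwards [h2] with w hw
      unfold vv
      rw [χ.zero_of_le_dist (by rw [dist_zero_right]; exact le_of_lt hw), zero_mul]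
    exact contDiffAt_const.congr_of_eventuallyEq h1

theorem vv_fderiv {g : ℂ → ℂ} {ρ : ℝ} (hg : DifferentiableOn ℂ g (Metric.ball 0 ρ)) (ε : ℝ) (ζ : ℂ)
    (χ : ContDiffBump (0 : ℂ)) (hχ : χ.rOut < ρ) (a r : ℝ) {z : ℂ} (hz : ‖z‖ < χ.rIn) :
    ‖fderiv ℝ (fun z => a + r * vv g ε ζ χ z) z‖ ^ 2 = r ^ 2 * ‖(starRingEnd ℂ) ζ + ε / 2 * kk g ζ z‖ ^ 2 := by
  have h1 : (fun z => a + r * vv g ε ζ χ z) =ᶠ[𝓝 z] fun z => a + r * (FF g ε ζ z).re := by
    have h2 := χ.eventuallyEq_one_of_mem_ball (x := z) (by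
      rw [Metric.mem_ball, dist_zero_right]
      exact hz)
    filter_upwards [h2] with w hw
    unfold vv
    rw [hw, Pi.one_apply, one_mul]
  have h3 := ((re_fderiv (FF_der hg ε ζ (hz.trans (χ.rIn_lt_rOut.trans hχ)))).const_mul r).const_add a
  rw [h1.fderiv_eq, h3.fderiv, norm_smul, RC_norm, mul_pow, Real.norm_eq_abs, sq_abs]

/-- the main computation -/
theorem core {g : ℂ → ℂ} {ρ : ℝ} (hg : DifferentiableOn ℂ g (Metric.ball 0 ρ)) (ε : ℝ) (ζ : ℂ)
    (χ : ContDiffBump (0 : ℂ)) (hχ : χ.rOut < ρ) (hCh : Chart (psi g ε))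
    (hin : ∀ z ∈ Inn (psi g ε), ‖z‖ < χ.rIn) (hbd : ∀ w : ℂ, ‖w‖ = 1 → ‖psi g ε w‖ < χ.rIn)
    (R : ℝ) (hV : 0 < VI g ε ζ) (hD : DI g ε ζ ≤ R * VI g ε ζ) (a r : ℝ) :
    dir (Inn (psi g ε)) (fun z => a + r * vv g ε ζ χ z) ≤
        R * bd (psi g ε) (fun z => (a + r * vv g ε ζ χ z) ^ 2) ∧
      ((∀ w : ℂ, ‖w‖ = 1 → a + r * vv g ε ζ χ (psi g ε w) = 0) → a = 0 ∧ r = 0) := by
  have hvc : Continuous (vv g ε ζ χ) := (vv_contDiff hg ε ζ χ hχ).continuous
  obtain ⟨U, hU⟩ : ∃ U : ℝ → ℝ, U = fun θ : ℝ => vv g ε ζ χ (psi g ε (Complex.exp (θ * Complex.I))) := ⟨_, rfl⟩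
  obtain ⟨b, hb⟩ : ∃ b : ℝ → ℝ, b = fun θ : ℝ => ‖deriv (psi g ε) (Complex.exp (θ * Complex.I))‖ := ⟨_, rfl⟩
  have hUc : Continuous U := by
    rw [hU]
    exact hvc.comp (CfiLAux.cont_psi hCh)
  have hbc : Continuous b := by
    rw [hb]
    exact CfiLAux.cont_der hCh
  have hUU : UU g ε ζ = U := by
    funext θ
    rw [hU]
    show (FF g ε ζ (psi g ε (ep θ))).re = χ (psi g ε (Complex.exp (θ * Complex.I))) *
      (FF g ε ζ (psi g ε (Complex.exp (θ * Complex.I)))).re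
    rw [χ.one_of_mem_closedBall (by
      rw [Metric.mem_closedBall, dist_zero_right]
      exact (hbd _ (Complex.norm_exp_ofReal_mul_I θ)).le), one_mul]
    rfl
  have hwt : wt g ε = b := by
    rw [hb]
    rfl
  obtain ⟨A, hA⟩ : ∃ A : ℝ, A = ∫ θ in (0 : ℝ)..(2 * Real.pi), U θ ^ 2 * b θ := ⟨_, rfl⟩
  obtain ⟨B, hB⟩ : ∃ B : ℝ, B = ∫ θ in (0 : ℝ)..(2 * Real.pi), U θ * b θ := ⟨_, rfl⟩
  obtain ⟨C, hC⟩ : ∃ C : ℝ, C = ∫ θ in (0 : ℝ)..(2 * Real.pi), b θ := ⟨_, rfl⟩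
  have hC0 : 0 < C := by
    have h1 := CfiLAux.bd_one_pos hCh
    unfold bd at h1
    simp only [one_mul] at h1
    rw [hC, hb]
    exact h1
  have hVI : VI g ε ζ = A - B ^ 2 / C := by
    unfold VI
    rw [hUU, hwt, ← hA, ← hB, ← hC]
  have hbdq : bd (psi g ε) (fun z => (a + r * vv g ε ζ χ z) ^ 2) = r ^ 2 * A + 2 * a * r * B + a ^ 2 * C := by
    have h0 : bd (psi g ε) (fun z => (a + r * vv g ε ζ χ z) ^ 2) =
        ∫ θ in (0 : ℝ)..(2 * Real.pi), (r ^ 2 * (U θ ^ 2 * b θ) + 2 * a * r * (U θ * b θ) + a ^ 2 * b θ) := by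
      unfold bd
      refine intervalIntegral.integral_congr fun θ _ => ?_
      rw [hU, hb]
      simp only
      ring
    have i1 : IntervalIntegrable (fun θ => r ^ 2 * (U θ ^ 2 * b θ)) volume 0 (2 * Real.pi) :=
      (continuous_const.mul ((hUc.pow 2).mul hbc)).intervalIntegrable _ _
    have i2 : IntervalIntegrable (fun θ => 2 * a * r * (U θ * b θ)) volume 0 (2 * Real.pi) :=
      (continuous_const.mul (hUc.mul hbc)).intervalIntegrable _ _
    have i3 : IntervalIntegrable (fun θ => a ^ 2 * b θ) volume 0 (2 * Real.pi) :=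
      (continuous_const.mul hbc).intervalIntegrable _ _
    rw [h0, intervalIntegral.integral_add (i1.add i2) i3, intervalIntegral.integral_add i1 i2,
      intervalIntegral.integral_const_mul, intervalIntegral.integral_const_mul,
      intervalIntegral.integral_const_mul, ← hA, ← hB, ← hC]
  have hform : r ^ 2 * A + 2 * a * r * B + a ^ 2 * C = C * (a + r * (B / C)) ^ 2 + r ^ 2 * VI g ε ζ := by
    rw [hVI]
    field_simp
    ring
  have hDI0 : 0 ≤ DI g ε ζ := integral_nonneg fun z => by positivity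
  have hR0 : 0 ≤ R := by
    by_contra hneg
    have : R * VI g ε ζ < 0 := mul_neg_of_neg_of_pos (not_le.1 hneg) hV
    linarith
  have hdir : dir (Inn (psi g ε)) (fun z => a + r * vv g ε ζ χ z) = r ^ 2 * DI g ε ζ := by
    unfold dir DI
    rw [← integral_const_mul]
    apply integral_congr_ae
    have h1 : ∀ᵐ z ∂(volume.restrict (Inn (psi g ε))), z ∈ Metric.ball (0 : ℂ) χ.rIn := by
      have h2 : Inn (psi g ε) ⊆ Metric.ball (0 : ℂ) χ.rIn := fun z hz => by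
        rw [Metric.mem_ball, dist_zero_right]
        exact hin z hz
      exact ae_mono (Measure.restrict_mono h2 le_rfl) (ae_restrict_mem Metric.isOpen_ball.measurableSet)
    filter_upwards [h1] with z hz
    rw [Metric.mem_ball, dist_zero_right] at hz
    exact vv_fderiv hg ε ζ χ hχ a r hz
  refine ⟨?_, fun h => ?_⟩
  · rw [hdir, hbdq, hform]
    have h1 : r ^ 2 * DI g ε ζ ≤ r ^ 2 * (R * VI g ε ζ) := mul_le_mul_of_nonneg_left hD (sq_nonneg r)
    have h2 : 0 ≤ R * (C * (a + r * (B / C)) ^ 2) := by positivity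
    calc r ^ 2 * DI g ε ζ ≤ r ^ 2 * (R * VI g ε ζ) := h1
      _ ≤ R * (C * (a + r * (B / C)) ^ 2) + r ^ 2 * (R * VI g ε ζ) := by linarith
      _ = R * (C * (a + r * (B / C)) ^ 2 + r ^ 2 * VI g ε ζ) := by ring
  · have h1 : bd (psi g ε) (fun z => (a + r * vv g ε ζ χ z) ^ 2) = 0 := by
      unfold bd
      have h2 : ∫ θ in (0 : ℝ)..(2 * Real.pi),
          (a + r * vv g ε ζ χ (psi g ε (Complex.exp (θ * Complex.I)))) ^ 2 *
            ‖deriv (psi g ε) (Complex.exp (θ * Complex.I))‖ = ∫ θ in (0 : ℝ)..(2 * Real.pi), (0 : ℝ) := by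
        refine intervalIntegral.integral_congr fun θ _ => ?_
        show (a + r * vv g ε ζ χ (psi g ε (Complex.exp (θ * Complex.I)))) ^ 2 *
            ‖deriv (psi g ε) (Complex.exp (θ * Complex.I))‖ = 0
        rw [h _ (Complex.norm_exp_ofReal_mul_I θ)]
        ring
      rw [h2]
      simp
    rw [hbdq, hform] at h1
    have h3 : 0 ≤ C * (a + r * (B / C)) ^ 2 := by positivity
    have h4 : 0 ≤ r ^ 2 * VI g ε ζ := by positivity
    have h5 : r ^ 2 * VI g ε ζ = 0 := by linarith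
    have h6 : r = 0 := by
      rcases mul_eq_zero.1 h5 with h7 | h7
      · exact pow_eq_zero_iff (by norm_num) |>.1 h7
      · exact absurd h7 hV.ne'
    refine ⟨?_, h6⟩
    rw [h6] at h1
    have h7 : C * a ^ 2 = 0 := by
      have : C * (a + 0 * (B / C)) ^ 2 + 0 ^ 2 * VI g ε ζ = C * a ^ 2 := by ring
      linarith
    rcases mul_eq_zero.1 h7 with h8 | h8
    · exact absurd h8 hC0.ne'
    · exact pow_eq_zero_iff (by norm_num) |>.1 h8

/-- real linearity in `ζ` -/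
theorem lin (g : ℂ → ℂ) (ε : ℝ) (c d : ℝ) : ∃ (ζ : ℂ) (r : ℝ), ‖ζ‖ = 1 ∧ (r = 0 → c = 0 ∧ d = 0) ∧
    ∀ z, c * (FF g ε 1 z).re + d * (FF g ε Complex.I z).re = r * (FF g ε ζ z).re := by
  obtain ⟨η, hη⟩ : ∃ η : ℂ, η = c + d * Complex.I := ⟨_, rfl⟩
  have hre : η.re = c := by rw [hη]; simp
  have him : η.im = d := by rw [hη]; simp
  have key : ∀ z, (c : ℂ) * FF g ε 1 z + d * FF g ε Complex.I z = FF g ε η z := by
    intro z
    unfold FF
    rw [hη]
    simp only [map_one, Complex.conj_I, map_add, map_mul, Complex.conj_ofReal]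
    ring
  by_cases h0 : η = 0
  · refine ⟨1, 0, norm_one, fun _ => ?_, fun z => ?_⟩
    · rw [← hre, ← him, h0]
      exact ⟨rfl, rfl⟩
    · have h1 : c = 0 := by rw [← hre, h0]; rfl
      have h2 : d = 0 := by rw [← him, h0]; rfl
      rw [h1, h2]
      ring
  · have hn : ‖η‖ ≠ 0 := norm_ne_zero_iff.2 h0
    refine ⟨η / ‖η‖, ‖η‖, ?_, fun h => absurd h hn, fun z => ?_⟩
    · rw [norm_div, Complex.norm_real, norm_norm, div_self hn]
    · have h1 : (‖η‖ : ℂ) * FF g ε (η / ‖η‖) z = FF g ε η z := by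
        have hnc : (‖η‖ : ℂ) ≠ 0 := by exact_mod_cast hn
        unfold FF
        simp only [map_div₀, Complex.conj_ofReal]
        field_simp
      have h2 := congrArg Complex.re (key z)
      rw [← h1, Complex.add_re, Complex.re_ofReal_mul, Complex.re_ofReal_mul, Complex.re_ofReal_mul] at h2
      exact h2

end IntMH

open IntMH in
theorem intM : IntMStmt := by
  intro g ρ hg0
  have hg := hg0.good.hol
  have h1ρ := hg0.good.one_lt
  obtain ⟨C, ε₁, hC, hε₁, hAr⟩ := arA g ρ hg0.good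
  -- a bound on the unit circle
  obtain ⟨G, hG⟩ : ∃ G : ℝ, ∀ z : ℂ, ‖z‖ ≤ 1 → ‖g z‖ ≤ G := by
    have hc : ContinuousOn g (Metric.closedBall 0 1) := hg.continuousOn.mono fun z hz => by
      rw [Metric.mem_closedBall, dist_zero_right] at hz
      rw [Metric.mem_ball, dist_zero_right]
      linarith
    obtain ⟨G, hG⟩ := (isCompact_closedBall (0 : ℂ) 1).exists_bound_of_continuousOn hc
    refine ⟨G, fun z hz => hG z ?_⟩
    rw [Metric.mem_closedBall, dist_zero_right]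
    exact hz
  have hG0 : 0 ≤ G := (norm_nonneg _).trans (hG 0 (by simp))
  obtain ⟨ρ1, hρ1⟩ : ∃ ρ1 : ℝ, ρ1 = (1 + ρ) / 2 := ⟨_, rfl⟩
  have hρ1a : 1 < ρ1 := by rw [hρ1]; linarith
  have hρ1b : ρ1 < ρ := by rw [hρ1]; linarith
  let χ : ContDiffBump (0 : ℂ) := ⟨ρ1, (ρ1 + ρ) / 2, by linarith, by linarith⟩
  have hχ : χ.rOut < ρ := by
    show (ρ1 + ρ) / 2 < ρ
    linarith
  obtain ⟨ε₂, hε₂⟩ : ∃ ε₂ : ℝ, ε₂ = min 1 ((ρ1 - 1) / (G + C + 1)) := ⟨_, rfl⟩
  have hden : 0 < G + C + 1 := by linarith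
  have hε₂0 : 0 < ε₂ := by
    rw [hε₂]
    apply lt_min one_pos
    apply div_pos _ hden
    linarith
  refine ⟨min ε₁ ε₂, lt_min hε₁ hε₂0, ?_⟩
  intro ε hε hεlt hCh
  have hεa : ε < ε₁ := lt_of_lt_of_le hεlt (min_le_left _ _)
  have hεb : ε < ε₂ := lt_of_lt_of_le hεlt (min_le_right _ _)
  have hε1 : ε < 1 := lt_of_lt_of_le hεb (by rw [hε₂]; exact min_le_left _ _)
  have hεc : ε * (G + C + 1) < ρ1 - 1 := by
    have : ε < (ρ1 - 1) / (G + C + 1) := lt_of_lt_of_le hεb (by rw [hε₂]; exact min_le_right _ _)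
    rwa [lt_div_iff₀ hden] at this
  have hin : ∀ z ∈ Inn (psi g ε), ‖z‖ < χ.rIn := by
    intro z hz
    have h1 := hAr ε hε hεa (Complex.arg z) ‖z‖ (norm_nonneg z) (by
      rw [hg0.zero, mul_zero, zero_add, Complex.norm_mul_exp_arg_mul_I]
      exact hz)
    rw [hg0.zero, sub_zero] at h1
    have hem : ‖em (Complex.arg z)‖ = 1 := by
      unfold DD.em
      have : -((Complex.arg z : ℂ) * Complex.I) = ((-(Complex.arg z) : ℝ) : ℂ) * Complex.I := by
        push_cast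
        ring
      rw [this, Complex.norm_exp_ofReal_mul_I]
    have h2 : (em (Complex.arg z) * g (em (Complex.arg z))).re ≤ G := by
      refine (Complex.re_le_norm _).trans ?_
      rw [norm_mul, hem, one_mul]
      exact hG _ hem.le
    have h3 : C * ε ^ 2 ≤ ε * C := by
      have h31 : ε ^ 2 ≤ ε := by nlinarith
      have h32 := mul_le_mul_of_nonneg_left h31 hC.le
      linarith
    show ‖z‖ < ρ1
    nlinarith
  have hbd : ∀ w : ℂ, ‖w‖ = 1 → ‖psi g ε w‖ < χ.rIn := by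
    intro w hw
    unfold psi
    have h1 : ‖g w⁻¹‖ ≤ G := hG _ (by rw [norm_inv, hw, inv_one])
    have h2 : ‖w + ε * g w⁻¹‖ ≤ 1 + ε * G := by
      refine (norm_add_le _ _).trans ?_
      rw [hw, norm_mul, Complex.norm_of_nonneg hε.le]
      have := mul_le_mul_of_nonneg_left h1 hε.le
      linarith
    show ‖w + ε * g w⁻¹‖ < ρ1
    nlinarith
  intro R
  constructor
  · intro ζ hζ hV hD
    refine sInf_le ⟨R, rfl, ![fun _ => 1, vv g ε ζ χ], ?_, ?_, ?_⟩
    · intro i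
      fin_cases i
      · exact contDiff_const
      · exact vv_contDiff hg ε ζ χ hχ
    · intro c hc
      have h1 := (core hg ε ζ χ hχ hCh hin hbd R hV hD (c 0) (c 1)).2 (fun w hw => by
        have h2 := hc w hw
        rw [Fin.sum_univ_two] at h2
        have h3 : c 0 * 1 + c 1 * vv g ε ζ χ (psi g ε w) = 0 := h2
        rwa [mul_one] at h3)
      funext i
      fin_cases i
      · exact h1.1
      · exact h1.2
    · intro c
      have h1 := (core hg ε ζ χ hχ hCh hin hbd R hV hD (c 0) (c 1)).1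
      have h2 : (fun z : ℂ => ∑ i, c i * (![fun _ => 1, vv g ε ζ χ] : Fin 2 → ℂ → ℝ) i z) =
          fun z => c 0 + c 1 * vv g ε ζ χ z := by
        funext z
        rw [Fin.sum_univ_two]
        change c 0 * 1 + c 1 * vv g ε ζ χ z = _
        rw [mul_one]
      have h3 : (fun z : ℂ => (∑ i, c i * (![fun _ => 1, vv g ε ζ χ] : Fin 2 → ℂ → ℝ) i z) ^ 2) =
          fun z => (c 0 + c 1 * vv g ε ζ χ z) ^ 2 := by
        funext z
        exact congrArg (fun t : ℝ => t ^ 2) (congrFun h2 z)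
      rw [h2, h3]
      exact h1
  · intro hall
    have hsum : ∀ c : Fin 3 → ℝ, ∃ (ζ : ℂ) (r : ℝ), ‖ζ‖ = 1 ∧ (r = 0 → c 1 = 0 ∧ c 2 = 0) ∧ ∀ z,
        (∑ i, c i * (![fun _ => 1, vv g ε 1 χ, vv g ε Complex.I χ] : Fin 3 → ℂ → ℝ) i z) =
          c 0 + r * vv g ε ζ χ z := by
      intro c
      obtain ⟨ζ, r, hζ, hr, hl⟩ := lin g ε (c 1) (c 2)
      refine ⟨ζ, r, hζ, hr, fun z => ?_⟩
      rw [Fin.sum_univ_three]
      change c 0 * 1 + c 1 * (χ z * (FF g ε 1 z).re) + c 2 * (χ z * (FF g ε Complex.I z).re) =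
        c 0 + r * (χ z * (FF g ε ζ z).re)
      have h1 := hl z
      linear_combination χ z * h1
    refine sInf_le ⟨R, rfl, ![fun _ => 1, vv g ε 1 χ, vv g ε Complex.I χ], ?_, ?_, ?_⟩
    · intro i
      fin_cases i
      · exact contDiff_const
      · exact vv_contDiff hg ε 1 χ hχ
      · exact vv_contDiff hg ε Complex.I χ hχ
    · intro c hc
      obtain ⟨ζ, r, hζ, hr, hs⟩ := hsum c
      obtain ⟨hV, hD⟩ := hall ζ hζ
      have h1 := (core hg ε ζ χ hχ hCh hin hbd R hV hD (c 0) r).2 (fun w hw => by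
        have h2 := hc w hw
        rwa [hs] at h2)
      have h2 := hr h1.2
      funext i
      fin_cases i
      · exact h1.1
      · exact h2.1
      · exact h2.2
    · intro c
      obtain ⟨ζ, r, hζ, hr, hs⟩ := hsum c
      obtain ⟨hV, hD⟩ := hall ζ hζ
      have h1 := (core hg ε ζ χ hχ hCh hin hbd R hV hD (c 0) r).1
      simp only [hs]
      exact h1

end Pool.Agent.H74.DE
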