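import Pool.Agent.H74.DE.Fr
import Pool.Agent.H74.SX.Low

set_option autoImplicit false

/-!
# [H74 DE Low3] the lower bound for one function, second order (helper84; model DD/Low2 by helper3)
-/

namespace Pool.Agent.H74.DE

open MeasureTheory Set Filter Topology Pool.Agent.H74.SX Pool.Agent.H74.DD

theorem low3 (hcv : CvStmt) (hst : StJStmt) (hw : Wt3Stmt) : Low3Stmt := by
  intro g ρ hg
  obtain ⟨C, ε₀, hC, hε₀, hW⟩ := hw g ρ hg
  refine ⟨C, ε₀, hC, hε₀, ?_⟩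
  intro ε hε hε' hψ u hu hz
  obtain ⟨hu1, -, hu3⟩ := hu
  obtain ⟨h1, h2⟩ := hcv (psi g ε) hψ u hu1 hu3
  obtain ⟨r, hr, hd⟩ := hψ.hol
  have hr1 : max r (1 / 2) < 1 := max_lt hr (by norm_num)
  have hr0 : 0 < max r (1 / 2) := lt_max_of_lt_right (by norm_num)
  have hlog : Real.log (max r (1 / 2)) < 0 := Real.log_neg hr0 hr1
  have hV : ContDiffOn ℝ 1 (fun ζ => u (psi g ε (Complex.exp ζ))) {ζ | Real.log (max r (1 / 2)) < ζ.re} := by
    have hmaps : MapsTo Complex.exp {ζ : ℂ | Real.log (max r (1 / 2)) < ζ.re} {w | r < ‖w‖} := by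
      intro ζ hζ
      show r < ‖Complex.exp ζ‖
      rw [Complex.norm_exp]
      have h3 : max r (1 / 2) < Real.exp ζ.re := (Real.log_lt_iff_lt_exp hr0).1 hζ
      exact (le_max_left _ _).trans_lt h3
    have hop : IsOpen {ζ : ℂ | Real.log (max r (1 / 2)) < ζ.re} := isOpen_lt continuous_const Complex.continuous_re
    have h4 : DifferentiableOn ℂ (fun ζ => psi g ε (Complex.exp ζ)) {ζ : ℂ | Real.log (max r (1 / 2)) < ζ.re} :=
      hd.comp Complex.differentiable_exp.differentiableOn hmaps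
    have h5 : ContDiffOn ℂ 1 (fun ζ => psi g ε (Complex.exp ζ)) {ζ : ℂ | Real.log (max r (1 / 2)) < ζ.re} :=
      h4.contDiffOn hop
    have h6 : ContDiffOn ℝ 1 (fun ζ => psi g ε (Complex.exp ζ)) {ζ : ℂ | Real.log (max r (1 / 2)) < ζ.re} :=
      h5.restrict_scalars ℝ
    exact hu1.comp_contDiffOn h6
  have hper : ∀ ζ : ℂ, u (psi g ε (Complex.exp (ζ + 2 * Real.pi * Complex.I))) = u (psi g ε (Complex.exp ζ)) := by
    intro ζ
    rw [Complex.exp_periodic ζ]
  have h3 : ∀ J : ℕ, ∑ j ∈ Finset.Icc 1 J, j * Real.pi * (cj (fun θ => u (psi g ε (ep θ))) j ^ 2 +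
      sj (fun θ => u (psi g ε (ep θ))) j ^ 2) ≤ dir (Ext (psi g ε)) u := fun J =>
    (hst _ (fun ζ => u (psi g ε (Complex.exp ζ))) hlog hV hper h1 J).trans h2
  have h4 := hW ε hε hε' (fun θ : ℝ => u (psi g ε (ep θ)))
    (hu1.continuous.comp (Lw.cont_circ hψ)) (dir (Ext (psi g ε)) u) hz h3
  refine ⟨?_, h4⟩
  have h5 := h3 1
  rw [Finset.Icc_self, Finset.sum_singleton, Nat.cast_one, one_mul] at h5
  exact h5

end Pool.Agent.H74.DE
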