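import Pool.Agent.H74.DE.Brg
import Pool.Agent.H74.DD.Mv

set_option autoImplicit false

/-!
# [H74 DE QfD] the form `Dq` (helper59)
-/

namespace Pool.Agent.H74.DE.QfDAux

open MeasureTheory Set Filter Topology Pool.Agent.H74.SX Pool.Agent.H74.DD Pool.Agent.H74.DE

theorem gh_eq (g : ℂ → ℂ) : gh g = (starRingEnd ℂ) ∘ g ∘ (starRingEnd ℂ) := rfl

theorem deriv_gh (g : ℂ → ℂ) : deriv (gh g) = gh (deriv g) := by
  rw [gh_eq, gh_eq]
  exact deriv_conj_conj

theorem iter_gh (g : ℂ → ℂ) (n : ℕ) : iteratedDeriv n (gh g) = gh (iteratedDeriv n g) := by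
  induction n with
  | zero => rw [iteratedDeriv_zero, iteratedDeriv_zero]
  | succ n ih => rw [iteratedDeriv_succ, iteratedDeriv_succ, ih, deriv_gh]

theorem cf_gh (g : ℂ → ℂ) (n : ℕ) : cf (gh g) n = (starRingEnd ℂ) (cf g n) := by
  unfold cf
  rw [iter_gh, map_div₀]
  unfold gh
  rw [map_zero, map_natCast]

theorem norm_gh (g : ℂ → ℂ) (n : ℕ) : ‖cf (gh g) n‖ = ‖cf g n‖ := by
  rw [cf_gh, Complex.norm_conj]

theorem cf_deriv (f : ℂ → ℂ) (n : ℕ) : cf (deriv f) n = (n + 1) * cf f (n + 1) := by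
  unfold cf
  rw [iteratedDeriv_succ', Nat.factorial_succ]
  have h1 : ((n : ℂ) + 1) ≠ 0 := by exact_mod_cast Nat.succ_ne_zero n
  have h2 : ((n.factorial : ℕ) : ℂ) ≠ 0 := by exact_mod_cast Nat.factorial_ne_zero n
  push_cast
  field_simp

theorem good_gh {g : ℂ → ℂ} {ρ : ℝ} (hg : Good g ρ) : Good (gh g) ρ := by
  refine ⟨hg.one_lt, fun z hz => ?_⟩
  have hz' : (starRingEnd ℂ) z ∈ Metric.ball (0 : ℂ) ρ := by
    rw [mem_ball_zero_iff] at hz ⊢
    rwa [Complex.norm_conj]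
  have h1 : DifferentiableAt ℂ g ((starRingEnd ℂ) z) := hg.hol.differentiableAt
    (Metric.isOpen_ball.mem_nhds hz')
  have h2 := (differentiableAt_conj_conj_iff (f := g) (x := z)).2 h1
  exact h2.differentiableWithinAt

theorem good_deriv {g : ℂ → ℂ} {ρ : ℝ} (hg : Good g ρ) : Good (deriv g) ρ :=
  ⟨hg.one_lt, hg.hol.deriv Metric.isOpen_ball⟩

theorem good_mul {g : ℂ → ℂ} {ρ : ℝ} (hg : Good g ρ) : Good (fun z => z * g z) ρ :=
  ⟨hg.one_lt, differentiableOn_id.mul hg.hol⟩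

theorem good_at {g : ℂ → ℂ} {ρ : ℝ} (hg : Good g ρ) {z : ℂ} (hz : ‖z‖ < ρ) :
    DifferentiableAt ℂ g z :=
  hg.hol.differentiableAt (Metric.isOpen_ball.mem_nhds (by rwa [mem_ball_zero_iff]))

theorem cf_mul_zero (h : ℂ → ℂ) : cf (fun z => z * h z) 0 = 0 := by
  unfold cf
  rw [iteratedDeriv_zero]
  simp

theorem cf_mul {h : ℂ → ℂ} {ρ : ℝ} (hh : Good h ρ) (n : ℕ) :
    cf (fun z => z * h z) (n + 1) = cf h n := by
  have han : AnalyticAt ℂ h 0 := hh.hol.analyticAt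
    (Metric.isOpen_ball.mem_nhds (Metric.mem_ball_self (by linarith [hh.one_lt])))
  have h1 := iteratedDeriv_fun_mul (n := n + 1) (f := fun z : ℂ => z) (g := h) (x := (0 : ℂ))
    contDiffAt_id han.contDiffAt
  unfold cf
  rw [h1, Finset.sum_eq_single 1]
  · rw [iteratedDeriv_one, Nat.choose_one_right, deriv_id'', Nat.factorial_succ]
    have h2 : ((n : ℂ) + 1) ≠ 0 := by exact_mod_cast Nat.succ_ne_zero n
    have h3 : ((n.factorial : ℕ) : ℂ) ≠ 0 := by exact_mod_cast Nat.factorial_ne_zero n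
    rw [Nat.add_sub_cancel]
    push_cast
    field_simp
  · intro i _ hi
    have h4 : iteratedDeriv i (fun z : ℂ => z) 0 = 0 := by
      rcases i with _ | _ | i
      · rw [iteratedDeriv_zero]
      · exact absurd rfl hi
      · rw [iteratedDeriv_succ', deriv_id'', iteratedDeriv_succ', deriv_const']
        rw [iteratedDeriv_const]
        simp
    rw [h4]
    simp
  · intro hn
    exact absurd (Finset.mem_range.2 (by omega)) hn

theorem ep_norm (θ : ℝ) : ‖ep θ‖ = 1 := Complex.norm_exp_ofReal_mul_I θ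

theorem ep_cont : Continuous ep := by
  unfold ep
  fun_prop

theorem em_ep (θ : ℝ) : em θ = (starRingEnd ℂ) (ep θ) := by
  unfold DD.em ep
  rw [← Complex.exp_conj, map_mul, Complex.conj_ofReal, Complex.conj_I, mul_neg]

theorem cont_ep {F : ℂ → ℂ} {ρ : ℝ} (hF : Good F ρ) : Continuous fun θ => F (ep θ) :=
  hF.hol.continuousOn.comp_continuous ep_cont fun θ => by
    rw [mem_ball_zero_iff, ep_norm]
    exact hF.one_lt

theorem cont_ball {F : ℂ → ℂ} {ρ : ℝ} (hF : Good F ρ) : ContinuousOn F (Metric.closedBall 0 1) :=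
  hF.hol.continuousOn.mono (Metric.closedBall_subset_ball hF.one_lt)

theorem int_ball {E : Type} [NormedAddCommGroup E] {F : ℂ → E}
    (hF : ContinuousOn F (Metric.closedBall 0 1)) : IntegrableOn F (Metric.ball (0 : ℂ) 1) :=
  (hF.integrableOn_compact (isCompact_closedBall 0 1)).mono_set Metric.ball_subset_closedBall


section sums

variable {g : ℂ → ℂ} {ρ : ℝ}

/-- `z h'(z)` -/
noncomputable def SS (h : ℂ → ℂ) (z : ℂ) : ℂ := z * deriv h z
/-- `(z h)'` -/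
noncomputable def WW (h : ℂ → ℂ) : ℂ → ℂ := deriv (fun z => z * h z)

theorem cf_SS {h : ℂ → ℂ} (hh : Good h ρ) (n : ℕ) : cf (SS h) n = n * cf h n := by
  rcases n with _ | n
  · unfold SS
    rw [cf_mul_zero]
    simp
  · unfold SS
    rw [cf_mul (good_deriv hh), cf_deriv]
    push_cast
    rfl

theorem cf_WW {h : ℂ → ℂ} (hh : Good h ρ) (n : ℕ) : cf (WW h) n = (n + 1) * cf h n := by
  unfold WW
  rw [cf_deriv, cf_mul hh]

theorem g2_eq (g : ℂ → ℂ) : g2 g = fun z => z * (z * gh g z) := by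
  funext z
  unfold g2
  ring

theorem cf_R0 {h : ℂ → ℂ} (hh : Good h ρ) : cf (deriv (fun z => z * (z * h z))) 0 = 0 := by
  rw [cf_deriv, cf_mul (good_mul hh), cf_mul_zero, mul_zero]

theorem cf_R {h : ℂ → ℂ} (hh : Good h ρ) (n : ℕ) :
    cf (deriv (fun z => z * (z * h z))) (n + 1) = (n + 2) * cf h n := by
  rw [cf_deriv, cf_mul (good_mul hh), cf_mul hh]
  push_cast
  ring

theorem circ1 {h : ℂ → ℂ} (hh : Good h ρ) :
    HasSum (fun n => ‖cf h n‖ ^ 2) ((∫ θ in (0 : ℝ)..(2 * Real.pi), ‖h (ep θ)‖ ^ 2) / (2 * Real.pi)) := by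
  have h1 := (Pool.Agent.H74.DE.Brg.hardy hh.hol zero_le_one hh.one_lt).div_const (2 * Real.pi)
  have e1 : (fun n : ℕ => 2 * Real.pi * (‖cf h n‖ ^ 2 * (1 : ℝ) ^ (2 * n)) / (2 * Real.pi)) =
      fun n => ‖cf h n‖ ^ 2 := by
    funext n
    have := Real.pi_ne_zero
    rw [one_pow, mul_one]
    field_simp
  rw [e1] at h1
  simpa using h1

theorem sumS {h : ℂ → ℂ} (hh : Good h ρ) :
    HasSum (fun n : ℕ => (n : ℝ) ^ 2 * ‖cf h n‖ ^ 2)
      ((∫ θ in (0 : ℝ)..(2 * Real.pi), ‖SS h (ep θ)‖ ^ 2) / (2 * Real.pi)) := by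
  have h1 := circ1 (good_mul (good_deriv hh))
  have h2 : (fun n : ℕ => (n : ℝ) ^ 2 * ‖cf h n‖ ^ 2) = fun n => ‖cf (SS h) n‖ ^ 2 := by
    funext n
    rw [cf_SS hh, norm_mul, mul_pow, Complex.norm_natCast]
  rw [h2]
  exact h1

theorem sumW {h : ℂ → ℂ} (hh : Good h ρ) :
    HasSum (fun n : ℕ => ((n : ℝ) + 1) ^ 2 * ‖cf h n‖ ^ 2)
      ((∫ θ in (0 : ℝ)..(2 * Real.pi), ‖WW h (ep θ)‖ ^ 2) / (2 * Real.pi)) := by
  have h1 := circ1 (good_deriv (good_mul hh))
  have h2 : (fun n : ℕ => ((n : ℝ) + 1) ^ 2 * ‖cf h n‖ ^ 2) = fun n => ‖cf (WW h) n‖ ^ 2 := by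
    funext n
    have h3 : ((n : ℂ) + 1) = ((n + 1 : ℕ) : ℂ) := by push_cast; rfl
    rw [cf_WW hh, norm_mul, mul_pow, h3, Complex.norm_natCast]
    push_cast
    rfl
  rw [h2]
  exact h1

theorem sumD {h : ℂ → ℂ} (hh : Good h ρ) :
    HasSum (fun n : ℕ => Real.pi * n * ‖cf h n‖ ^ 2) (∫ z in Metric.ball (0 : ℂ) 1, ‖deriv h z‖ ^ 2) := by
  have h1 := Pool.Agent.H74.DE.Brg.bergman (good_deriv hh).one_lt (good_deriv hh).hol
  have h2 : (fun n : ℕ => ‖cf (deriv h) n‖ ^ 2 * (Real.pi / (n + 1))) =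
      fun n : ℕ => Real.pi * ((n + 1 : ℕ) : ℝ) * ‖cf h (n + 1)‖ ^ 2 := by
    funext n
    have h3 : ((n : ℂ) + 1) = ((n + 1 : ℕ) : ℂ) := by push_cast; rfl
    have h4 : ((n : ℝ) + 1) ≠ 0 := by positivity
    rw [cf_deriv, norm_mul, mul_pow, h3, Complex.norm_natCast]
    push_cast
    field_simp
  rw [h2] at h1
  have h5 := (hasSum_nat_add_iff (f := fun n : ℕ => Real.pi * n * ‖cf h n‖ ^ 2) 1).1 h1
  simpa using h5

theorem sumR {h : ℂ → ℂ} (hh : Good h ρ) :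
    HasSum (fun n : ℕ => Real.pi * (n + 2) * ‖cf h n‖ ^ 2)
      (∫ z in Metric.ball (0 : ℂ) 1, ‖deriv (fun z => z * (z * h z)) z‖ ^ 2) := by
  have h1 := Pool.Agent.H74.DE.Brg.bergman hh.one_lt (good_deriv (good_mul (good_mul hh))).hol
  have h5 := (hasSum_nat_add_iff' (f := fun n : ℕ =>
    ‖cf (deriv (fun z => z * (z * h z))) n‖ ^ 2 * (Real.pi / (n + 1))) 1).2 h1
  rw [Finset.sum_range_one, cf_R0 hh, norm_zero, zero_pow two_ne_zero, zero_mul, sub_zero] at h5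
  have h2 : (fun n : ℕ => ‖cf (deriv (fun z => z * (z * h z))) (n + 1)‖ ^ 2 *
      (Real.pi / (((n + 1 : ℕ) : ℝ) + 1))) = fun n : ℕ => Real.pi * (n + 2) * ‖cf h n‖ ^ 2 := by
    funext n
    have h3 : ((n : ℂ) + 2) = ((n + 2 : ℕ) : ℂ) := by push_cast; rfl
    have h4 : ((n : ℝ) + 1 + 1) ≠ 0 := by positivity
    rw [cf_R hh, norm_mul, mul_pow, h3, Complex.norm_natCast]
    push_cast
    field_simp
    ring
  rw [h2] at h5
  exact h5

end sums

theorem re_int {F : ℝ → ℂ} (hF : Continuous F) :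
    ∫ θ in (0 : ℝ)..(2 * Real.pi), (F θ).re = (∫ θ in (0 : ℝ)..(2 * Real.pi), F θ).re :=
  Complex.reCLM.intervalIntegral_comp_comm (hF.intervalIntegrable _ _)

theorem re_ball {F : ℂ → ℂ} (hF : IntegrableOn F (Metric.ball (0 : ℂ) 1)) :
    ∫ z in Metric.ball (0 : ℂ) 1, (F z).re = (∫ z in Metric.ball (0 : ℂ) 1, F z).re :=
  Complex.reCLM.integral_comp_comm hF

theorem g_em (g : ℂ → ℂ) (θ : ℝ) : g (DD.em θ) = (starRingEnd ℂ) (gh g (ep θ)) := by
  unfold gh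
  rw [em_ep, Complex.conj_conj]

theorem dg_em (g : ℂ → ℂ) (θ : ℝ) :
    deriv g (DD.em θ) = (starRingEnd ℂ) (deriv (gh g) (ep θ)) := by
  rw [deriv_gh, g_em (deriv g)]

theorem WW_eq {h : ℂ → ℂ} {ρ : ℝ} (hh : Good h ρ) {z : ℂ} (hz : ‖z‖ < ρ) :
    WW h z = h z + z * deriv h z := by
  unfold WW
  have h1 := (hasDerivAt_id z).mul (good_at hh hz).hasDerivAt
  have h2 : deriv (fun z => z * h z) z = 1 * h z + id z * deriv h z := h1.deriv
  rw [h2, one_mul]
  rfl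

theorem R_eq {h : ℂ → ℂ} {ρ : ℝ} (hh : Good h ρ) {z : ℂ} (hz : ‖z‖ < ρ) :
    deriv (fun z => z * (z * h z)) z = 2 * (z * h z) + z ^ 2 * deriv h z := by
  have h1 := WW_eq (good_mul hh) hz
  unfold WW at h1
  have h2 := WW_eq hh hz
  unfold WW at h2
  rw [h1, h2]
  ring

theorem nsq (z : ℂ) : ‖z‖ ^ 2 = z.re ^ 2 + z.im ^ 2 := by
  rw [Complex.sq_norm, Complex.normSq_apply]
  ring

theorem ptw {g : ℂ → ℂ} {ρ : ℝ} (hg : Good g ρ) (ζ : ℂ) (hζ : ‖ζ‖ = 1) (θ : ℝ) :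
    (qq g θ ^ 2 / 2 + q2 g θ) + qq g θ * (ζ * kk g ζ (ep θ)).re =
      (‖SS (gh g) (ep θ)‖ ^ 2 - ‖gh g (ep θ)‖ ^ 2 - ‖WW (gh g) (ep θ)‖ ^ 2) / 2 -
        ((DD.em θ * g (DD.em θ)) ^ 2).re / 2 +
        (ζ ^ 2 * ((qq g θ : ℂ) * deriv (gh g) (ep θ))).re := by
  have hz : ‖ep θ‖ < ρ := by rw [ep_norm]; exact hg.one_lt
  have hh := good_gh hg
  set w := ep θ with hw
  set h := gh g w with hh1
  set d := deriv (gh g) w with hd
  have hwn : ‖w‖ = 1 := ep_norm θ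
  have e1 : DD.em θ * g (DD.em θ) = (starRingEnd ℂ) (w * h) := by
    rw [g_em g, em_ep, ← map_mul]
  have e2 : xx g θ = (starRingEnd ℂ) (w ^ 2 * d) := by
    unfold xx
    rw [dg_em, em_ep, map_mul, map_pow]
  have e3 : qq g θ = (w * h).re := by
    unfold qq
    rw [e1, Complex.conj_re]
  have e4 : pp g θ = -(w * h).im := by
    unfold pp
    rw [e1, Complex.conj_im]
  have e5 : (xx g θ).im = -(w ^ 2 * d).im := by
    rw [e2, Complex.conj_im]
  have e6 : ζ * kk g ζ w = ζ ^ 2 * d - (2 * (w * h) + w ^ 2 * d) := by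
    unfold kk
    rw [g2_eq, R_eq hh hz]
    have h1 : ζ * (starRingEnd ℂ) ζ = 1 := by
      rw [Complex.mul_conj, Complex.normSq_eq_norm_sq, hζ]
      norm_num
    linear_combination (-(2 * (w * h) + w ^ 2 * d)) * h1
  have n1 : ‖SS (gh g) w‖ ^ 2 = ‖w ^ 2 * d‖ ^ 2 := by
    unfold SS
    rw [norm_mul, norm_mul, norm_pow, hwn, one_pow]
  have n2 : ‖h‖ ^ 2 = ‖w * h‖ ^ 2 := by
    rw [norm_mul, hwn, one_mul]
  have n3 : ‖WW (gh g) w‖ ^ 2 = ‖w * h + w ^ 2 * d‖ ^ 2 := by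
    rw [WW_eq hh hz]
    have h1 : w * h + w ^ 2 * d = w * (h + w * d) := by ring
    rw [h1, norm_mul, hwn, one_mul]
  have e7 : ((DD.em θ * g (DD.em θ)) ^ 2).re = (w * h).re ^ 2 - (w * h).im ^ 2 := by
    rw [e1, ← map_pow, Complex.conj_re, pow_two, Complex.mul_re]
    ring
  have e8 : (ζ ^ 2 * ((qq g θ : ℂ) * d)).re = (w * h).re * (ζ ^ 2 * d).re := by
    have h1 : ζ ^ 2 * ((qq g θ : ℂ) * d) = (qq g θ : ℂ) * (ζ ^ 2 * d) := by ring
    rw [h1, Complex.re_ofReal_mul, e3]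
  rw [e8, e7, n1, n2, n3, e6, nsq, nsq, nsq]
  unfold q2
  rw [e3, e4, e5]
  generalize w * h = P
  generalize w ^ 2 * d = Q
  generalize ζ ^ 2 * d = Z
  simp only [Complex.sub_re, Complex.add_re, Complex.add_im, Complex.mul_re, Complex.re_ofNat,
    Complex.im_ofNat]
  ring

theorem ptb (ζ d R : ℂ) (hζ : ‖ζ‖ = 1) :
    ‖ζ * d - (starRingEnd ℂ) ζ * R‖ ^ 2 = ‖d‖ ^ 2 + ‖R‖ ^ 2 - 2 * (ζ ^ 2 * (d * (starRingEnd ℂ) R)).re := by
  have h1 : Complex.normSq ζ = 1 := by rw [Complex.normSq_eq_norm_sq, hζ]; norm_num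
  rw [Complex.sq_norm, Complex.sq_norm, Complex.sq_norm, Complex.normSq_sub, Complex.normSq_mul,
    Complex.normSq_mul, Complex.normSq_conj, h1, map_mul, Complex.conj_conj]
  have h2 : ζ * d * (ζ * (starRingEnd ℂ) R) = ζ ^ 2 * (d * (starRingEnd ℂ) R) := by ring
  rw [h2]
  ring

end Pool.Agent.H74.DE.QfDAux

namespace Pool.Agent.H74.DE

open MeasureTheory Set Filter Topology Pool.Agent.H74.SX Pool.Agent.H74.DD QfDAux

theorem qfD : QfDStmt := by
  intro g ρ hg0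
  have hg := hg0.good
  have hh := good_gh hg
  set h := gh g with hh1
  set R : ℂ → ℂ := deriv (fun z => z * (z * h z)) with hR
  have hd := good_deriv hh
  have hRg : Good R ρ := good_deriv (good_mul (good_mul hh))
  have hSg : Good (SS h) ρ := good_mul hd
  have hWg : Good (WW h) ρ := good_deriv (good_mul hh)
  set a0 := ∫ θ in (0 : ℝ)..(2 * Real.pi), ‖h (ep θ)‖ ^ 2 with ha0
  set aS := ∫ θ in (0 : ℝ)..(2 * Real.pi), ‖SS h (ep θ)‖ ^ 2 with haS
  set aW := ∫ θ in (0 : ℝ)..(2 * Real.pi), ‖WW h (ep θ)‖ ^ 2 with haW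
  set I1 := ∫ z in Metric.ball (0 : ℂ) 1, ‖deriv h z‖ ^ 2 with hI1
  set I2 := ∫ z in Metric.ball (0 : ℂ) 1, ‖R z‖ ^ 2 with hI2
  set J := ∫ θ in (0 : ℝ)..(2 * Real.pi), (qq g θ : ℂ) * deriv h (ep θ) with hJ
  set K := ∫ z in Metric.ball (0 : ℂ) 1, deriv h z * (starRingEnd ℂ) (R z) with hK
  have cqq : Continuous (qq g) := by
    have h1 : qq g = fun θ => (ep θ * h (ep θ)).re := by
      funext θ
      unfold qq
      rw [g_em g, em_ep, ← map_mul, Complex.conj_re]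
    rw [h1]
    exact Complex.continuous_re.comp (ep_cont.mul (cont_ep hh))
  have cq : Continuous fun θ => (qq g θ : ℂ) * deriv h (ep θ) :=
    (Complex.continuous_ofReal.comp cqq).mul (cont_ep hd)
  have cem : Continuous fun θ => (DD.em θ * g (DD.em θ)) ^ 2 := by
    have h1 : (fun θ => (DD.em θ * g (DD.em θ)) ^ 2) = fun θ =>
        ((starRingEnd ℂ) (ep θ * h (ep θ))) ^ 2 := by
      funext θ
      rw [g_em g, em_ep, ← map_mul]
    rw [h1]
    exact (Complex.continuous_conj.comp (ep_cont.mul (cont_ep hh))).pow 2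
  have zero : ∫ θ in (0 : ℝ)..(2 * Real.pi), ((DD.em θ * g (DD.em θ)) ^ 2).re = 0 := by
    rw [re_int cem]
    have h1 := mv (fun z => (z * g z) ^ 2) ρ ⟨hg.one_lt, (good_mul hg).hol.pow 2⟩
    rw [h1]
    simp
  refine ⟨((aS - a0 - aW) / 2 + (I1 + I2) / 4) / Real.pi, J - K / 2, ?_, ?_⟩
  · have s1 := (((sumS hh).sub (circ1 hh)).sub (sumW hh)).add
      (((sumD hh).add (sumR hh)).div_const (4 * Real.pi))
    have e1 : (fun n : ℕ => ‖cf g n‖ ^ 2 * (-(3 * (n : ℝ) + 3) / 2)) =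
        fun n : ℕ => (n : ℝ) ^ 2 * ‖cf h n‖ ^ 2 - ‖cf h n‖ ^ 2 - ((n : ℝ) + 1) ^ 2 * ‖cf h n‖ ^ 2 +
          (Real.pi * n * ‖cf h n‖ ^ 2 + Real.pi * (n + 2) * ‖cf h n‖ ^ 2) / (4 * Real.pi) := by
      funext n
      rw [hh1, norm_gh]
      have := Real.pi_ne_zero
      field_simp
      ring
    have e2 : ((aS - a0 - aW) / 2 + (I1 + I2) / 4) / Real.pi = aS / (2 * Real.pi) -
        a0 / (2 * Real.pi) - aW / (2 * Real.pi) + (I1 + I2) / (4 * Real.pi) := by
      have := Real.pi_ne_zero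
      field_simp
    rw [e1, e2]
    exact s1
  · intro ζ hζ
    have cS : Continuous fun θ => ‖SS h (ep θ)‖ ^ 2 := (cont_ep hSg).norm.pow 2
    have c0 : Continuous fun θ => ‖h (ep θ)‖ ^ 2 := (cont_ep hh).norm.pow 2
    have cW : Continuous fun θ => ‖WW h (ep θ)‖ ^ 2 := (cont_ep hWg).norm.pow 2
    have cz : Continuous fun θ => (ζ ^ 2 * ((qq g θ : ℂ) * deriv h (ep θ))).re :=
      Complex.continuous_re.comp (continuous_const.mul cq)
    have cpp : Continuous (pp g) := by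
      have h1 : pp g = fun θ => -(ep θ * h (ep θ)).im := by
        funext θ
        unfold pp
        rw [g_em g, em_ep, ← map_mul, Complex.conj_im]
      rw [h1]
      exact (Complex.continuous_im.comp (ep_cont.mul (cont_ep hh))).neg
    have cxx : Continuous fun θ => (xx g θ).im := by
      have h1 : (fun θ => (xx g θ).im) = fun θ => -(ep θ ^ 2 * deriv h (ep θ)).im := by
        funext θ
        unfold xx
        rw [dg_em, em_ep, ← map_pow, ← map_mul, Complex.conj_im]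
      rw [h1]
      exact (Complex.continuous_im.comp ((ep_cont.pow 2).mul (cont_ep hd))).neg
    have c1 : Continuous fun θ => qq g θ ^ 2 / 2 + q2 g θ := by
      unfold q2
      exact ((cqq.pow 2).div_const 2).add ((((cpp.pow 2).neg).div_const 2).sub (cpp.mul cxx))
    have c2 : Continuous fun θ => qq g θ * (ζ * kk g ζ (ep θ)).re := by
      have h1 : (fun θ => qq g θ * (ζ * kk g ζ (ep θ)).re) = fun θ =>
          qq g θ * (ζ * (ζ * deriv h (ep θ) - (starRingEnd ℂ) ζ * R (ep θ))).re := by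
        funext θ
        unfold kk
        rw [g2_eq]
      rw [h1]
      exact cqq.mul (Complex.continuous_re.comp (continuous_const.mul
        ((continuous_const.mul (cont_ep hd)).sub (continuous_const.mul (cont_ep hRg)))))
    have b1 : IntegrableOn (fun z => ‖deriv h z‖ ^ 2) (Metric.ball (0 : ℂ) 1) :=
      int_ball ((cont_ball hd).norm.pow 2)
    have b2 : IntegrableOn (fun z => ‖R z‖ ^ 2) (Metric.ball (0 : ℂ) 1) :=
      int_ball ((cont_ball hRg).norm.pow 2)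
    have ck : ContinuousOn (fun z => deriv h z * (starRingEnd ℂ) (R z)) (Metric.closedBall 0 1) :=
      (cont_ball hd).mul (Complex.continuous_conj.comp_continuousOn (cont_ball hRg))
    have b3 : IntegrableOn (fun z => ζ ^ 2 * (deriv h z * (starRingEnd ℂ) (R z)))
        (Metric.ball (0 : ℂ) 1) := int_ball (continuousOn_const.mul ck)
    have b4 : IntegrableOn (fun z => 2 * (ζ ^ 2 * (deriv h z * (starRingEnd ℂ) (R z))).re)
        (Metric.ball (0 : ℂ) 1) :=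
      int_ball (continuousOn_const.mul (Complex.continuous_re.comp_continuousOn
        (continuousOn_const.mul ck)))
    have eball : ∫ z in Metric.ball (0 : ℂ) 1, ‖kk g ζ z‖ ^ 2 = I1 + I2 - 2 * (ζ ^ 2 * K).re := by
      have h1 : (fun z => ‖kk g ζ z‖ ^ 2) = fun z => ‖deriv h z‖ ^ 2 + ‖R z‖ ^ 2 -
          2 * (ζ ^ 2 * (deriv h z * (starRingEnd ℂ) (R z))).re := by
        funext z
        unfold kk
        rw [g2_eq]
        exact ptb ζ (deriv h z) (R z) hζ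
      have b12 : IntegrableOn (fun z => ‖deriv h z‖ ^ 2 + ‖R z‖ ^ 2) (Metric.ball (0 : ℂ) 1) :=
        b1.add b2
      rw [h1, integral_sub b12 b4, integral_add b1 b2, integral_const_mul, re_ball b3,
        integral_const_mul]
    have ecirc : (∫ θ in (0 : ℝ)..(2 * Real.pi), (qq g θ ^ 2 / 2 + q2 g θ)) +
        (∫ θ in (0 : ℝ)..(2 * Real.pi), qq g θ * (ζ * kk g ζ (ep θ)).re) =
        (aS - a0 - aW) / 2 + (ζ ^ 2 * J).re := by
      rw [← intervalIntegral.integral_add (c1.intervalIntegrable _ _) (c2.intervalIntegrable _ _)]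
      have h1 : (∫ θ in (0 : ℝ)..(2 * Real.pi), ((qq g θ ^ 2 / 2 + q2 g θ) +
          qq g θ * (ζ * kk g ζ (ep θ)).re)) = ∫ θ in (0 : ℝ)..(2 * Real.pi),
          ((‖SS h (ep θ)‖ ^ 2 - ‖h (ep θ)‖ ^ 2 - ‖WW h (ep θ)‖ ^ 2) / 2 -
            ((DD.em θ * g (DD.em θ)) ^ 2).re / 2 +
            (ζ ^ 2 * ((qq g θ : ℂ) * deriv h (ep θ))).re) :=
        intervalIntegral.integral_congr fun θ _ => ptw hg ζ hζ θ
      have cA : Continuous fun θ => (‖SS h (ep θ)‖ ^ 2 - ‖h (ep θ)‖ ^ 2 - ‖WW h (ep θ)‖ ^ 2) / 2 :=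
        ((cS.sub c0).sub cW).div_const 2
      have cB : Continuous fun θ => ((DD.em θ * g (DD.em θ)) ^ 2).re / 2 :=
        (Complex.continuous_re.comp cem).div_const 2
      have cAB : Continuous fun θ => (‖SS h (ep θ)‖ ^ 2 - ‖h (ep θ)‖ ^ 2 - ‖WW h (ep θ)‖ ^ 2) / 2 -
          ((DD.em θ * g (DD.em θ)) ^ 2).re / 2 := cA.sub cB
      have cS0 : Continuous fun θ => ‖SS h (ep θ)‖ ^ 2 - ‖h (ep θ)‖ ^ 2 := cS.sub c0
      have cZ : Continuous fun θ => ζ ^ 2 * ((qq g θ : ℂ) * deriv h (ep θ)) :=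
        continuous_const.mul cq
      rw [h1, intervalIntegral.integral_add (cAB.intervalIntegrable _ _)
        (cz.intervalIntegrable _ _), intervalIntegral.integral_sub (cA.intervalIntegrable _ _)
        (cB.intervalIntegrable _ _), intervalIntegral.integral_div, intervalIntegral.integral_div,
        zero, intervalIntegral.integral_sub (cS0.intervalIntegrable _ _)
        (cW.intervalIntegrable _ _), intervalIntegral.integral_sub (cS.intervalIntegrable _ _)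
        (c0.intervalIntegrable _ _), re_int cZ,
        intervalIntegral.integral_const_mul]
      ring
    unfold Dq
    rw [ecirc, eball]
    have h2 : ((J - K / 2) * ζ ^ 2).re = (ζ ^ 2 * J).re - (ζ ^ 2 * K).re / 2 := by
      have h3 : (J - K / 2) * ζ ^ 2 = ζ ^ 2 * J - ((1 / 2 : ℝ) : ℂ) * (ζ ^ 2 * K) := by
        push_cast
        ring
      rw [h3, Complex.sub_re, Complex.re_ofReal_mul]
      ring
    rw [h2]
    have := Real.pi_ne_zero
    field_simp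
    ring

end Pool.Agent.H74.DE
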