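import Pool.Agent.H74.DE.Fr
import Pool.Agent.H74.DD.Mv

set_option autoImplicit false

/-!
# [H74 DE QfE] the second order form outside (see the docstring of `QfEStmt` in `Fr.lean`)
-/

namespace Pool.Agent.H74.DE

open MeasureTheory Set Filter Topology Pool.Agent.H74.SX Pool.Agent.H74.DD

namespace Qe

theorem term {E : Type} [NormedAddCommGroup E] [NormedSpace ℝ E] [CompleteSpace E] {F : ℕ → ℝ → E} {f : ℝ → E}
    {B : ℕ → ℝ} (a b : ℝ) (hc : ∀ n, Continuous (F n)) (hb : ∀ n, ∀ t ∈ uIoc a b, ‖F n t‖ ≤ B n) (hB : Summable B)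
    (hs : ∀ t ∈ uIoc a b, HasSum (fun n => F n t) (f t)) :
    HasSum (fun n => ∫ t in a..b, F n t) (∫ t in a..b, f t) := by
  refine intervalIntegral.hasSum_integral_of_dominated_convergence (fun n _ => B n)
    (fun n => (hc n).aestronglyMeasurable) (fun n => ae_of_all _ fun t ht => hb n t ht)
    (ae_of_all _ fun t _ => hB) ?_ (ae_of_all _ fun t ht => hs t ht)
  exact intervalIntegrable_const

theorem cont_ep : Continuous ep := by
  unfold ep
  fun_prop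

theorem norm_ep (θ : ℝ) : ‖ep θ‖ = 1 := Complex.norm_exp_ofReal_mul_I θ

theorem orth (a : ℝ) (n m : ℕ) :
    ∫ θ in a..(a + 2 * Real.pi), ep θ ^ n * (starRingEnd ℂ) (ep θ ^ m) = if n = m then (2 * Real.pi : ℂ) else 0 := by
  have h1 : ∀ θ : ℝ, ep θ ^ n * (starRingEnd ℂ) (ep θ ^ m) = Complex.exp ((((n : ℤ) - (m : ℤ) : ℤ) : ℂ) * Complex.I * θ) := by
    intro θ
    rw [ep, map_pow, ← Complex.exp_conj, ← Complex.exp_nat_mul, ← Complex.exp_nat_mul, ← Complex.exp_add]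
    congr 1
    simp
    ring
  simp_rw [h1]
  split_ifs with h
  · subst h
    simp
  · have hk : (((n : ℤ) - (m : ℤ) : ℤ) : ℂ) ≠ 0 := by
      intro h0
      have : (n : ℤ) - m = 0 := by exact_mod_cast h0
      exact h (by omega)
    have hc : (((n : ℤ) - (m : ℤ) : ℤ) : ℂ) * Complex.I ≠ 0 := mul_ne_zero hk Complex.I_ne_zero
    rw [integral_exp_mul_complex hc]
    have h2 : Complex.exp ((((n : ℤ) - (m : ℤ) : ℤ) : ℂ) * Complex.I * ((a + 2 * Real.pi : ℝ) : ℂ)) =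
        Complex.exp ((((n : ℤ) - (m : ℤ) : ℤ) : ℂ) * Complex.I * (a : ℂ)) := by
      have h3 : (((n : ℤ) - (m : ℤ) : ℤ) : ℂ) * Complex.I * ((a + 2 * Real.pi : ℝ) : ℂ) =
          (((n : ℤ) - (m : ℤ) : ℤ) : ℂ) * Complex.I * (a : ℂ) + (((n : ℤ) - (m : ℤ) : ℤ) : ℂ) * (2 * Real.pi * Complex.I) := by
        push_cast
        ring
      rw [h3, Complex.exp_add, Complex.exp_int_mul_two_pi_mul_I, mul_one]
    rw [h2, sub_self, zero_div]

theorem pars {b : ℕ → ℂ} {h : ℂ → ℂ} {ρ : ℝ} (hs : ∀ z, z ≠ 0 → ‖z‖ < ρ → HasSum (fun n => b n * z ^ n) (h z))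
    (a r : ℝ) (hr0 : 0 < r) (hr : r < ρ) :
    HasSum (fun n => 2 * Real.pi * (‖b n‖ ^ 2 * r ^ (2 * n))) (∫ θ in a..(a + 2 * Real.pi), ‖h (r * ep θ)‖ ^ 2) := by
  have hrn : ‖(r : ℂ)‖ = r := by rw [Complex.norm_real, Real.norm_of_nonneg hr0.le]
  have hr' : (r : ℂ) ≠ 0 := by exact_mod_cast hr0.ne'
  have hep : ∀ θ, ep θ ≠ 0 := fun θ => Complex.exp_ne_zero _
  have hS : Summable (fun n => ‖b n * (r : ℂ) ^ n‖) := (hs r hr' (by rw [hrn]; exact hr)).summable.norm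
  have hH : ∀ θ : ℝ, HasSum (fun n => b n * (r : ℂ) ^ n * ep θ ^ n) (h (r * ep θ)) := by
    intro θ
    have h1 := hs (r * ep θ) (mul_ne_zero hr' (hep θ)) (by rw [norm_mul, hrn, norm_ep, mul_one]; exact hr)
    have h2 : (fun n => b n * (r : ℂ) ^ n * ep θ ^ n) = fun n => b n * ((r : ℂ) * ep θ) ^ n := by
      funext n
      rw [mul_pow, mul_assoc]
    rw [h2]
    exact h1
  have hbd : ∀ (n : ℕ) (θ : ℝ), ‖b n * (r : ℂ) ^ n * ep θ ^ n‖ = ‖b n * (r : ℂ) ^ n‖ := by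
    intro n θ
    rw [norm_mul, norm_pow, norm_ep, one_pow, mul_one]
  have hHb : ∀ θ : ℝ, ‖h (r * ep θ)‖ ≤ ∑' n, ‖b n * (r : ℂ) ^ n‖ := by
    intro θ
    rw [← (hH θ).tsum_eq]
    refine tsum_of_norm_bounded hS.hasSum fun n => (hbd n θ).le
  have hHc : Continuous fun θ : ℝ => h (r * ep θ) := by
    have h3 : (fun θ : ℝ => h (r * ep θ)) = fun θ => ∑' n, b n * (r : ℂ) ^ n * ep θ ^ n := by
      funext θ
      exact (hH θ).tsum_eq.symm
    rw [h3]
    exact continuous_tsum (fun n => continuous_const.mul (cont_ep.pow n)) hS fun n θ => (hbd n θ).le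
  have h1 : ∀ k : ℕ, ∫ θ in a..(a + 2 * Real.pi), h (r * ep θ) * (starRingEnd ℂ) (ep θ ^ k) =
      2 * Real.pi * (b k * (r : ℂ) ^ k) := by
    intro k
    have h4 := term (F := fun n θ => b n * (r : ℂ) ^ n * ep θ ^ n * (starRingEnd ℂ) (ep θ ^ k))
      (f := fun θ => h (r * ep θ) * (starRingEnd ℂ) (ep θ ^ k)) (B := fun n => ‖b n * (r : ℂ) ^ n‖) a (a + 2 * Real.pi)
      (fun n => (continuous_const.mul (cont_ep.pow n)).mul (Complex.continuous_conj.comp (cont_ep.pow k)))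
      (fun n θ _ => by
        rw [norm_mul, hbd, RCLike.norm_conj, norm_pow, norm_ep, one_pow, mul_one]) hS
      (fun θ _ => (hH θ).mul_right _)
    have h5 : ∀ n : ℕ, ∫ θ in a..(a + 2 * Real.pi), b n * (r : ℂ) ^ n * ep θ ^ n * (starRingEnd ℂ) (ep θ ^ k) =
        if n = k then 2 * Real.pi * (b k * (r : ℂ) ^ k) else 0 := by
      intro n
      simp_rw [mul_assoc (b n * (r : ℂ) ^ n)]
      rw [intervalIntegral.integral_const_mul, orth]
      split_ifs with h6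
      · subst h6
        ring
      · ring
    simp only [h5] at h4
    exact h4.unique (hasSum_ite_eq k _)
  have h2 := term (F := fun n θ => b n * (r : ℂ) ^ n * ep θ ^ n * (starRingEnd ℂ) (h (r * ep θ)))
      (f := fun θ => h (r * ep θ) * (starRingEnd ℂ) (h (r * ep θ)))
      (B := fun n => ‖b n * (r : ℂ) ^ n‖ * ∑' n, ‖b n * (r : ℂ) ^ n‖) a (a + 2 * Real.pi)
      (fun n => (continuous_const.mul (cont_ep.pow n)).mul (Complex.continuous_conj.comp hHc))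
      (fun n θ _ => by
        rw [norm_mul, hbd, RCLike.norm_conj]
        exact mul_le_mul_of_nonneg_left (hHb θ) (norm_nonneg _)) (hS.mul_right _)
      (fun θ _ => (hH θ).mul_right _)
  have h3 : ∀ n : ℕ, ∫ θ in a..(a + 2 * Real.pi), b n * (r : ℂ) ^ n * ep θ ^ n * (starRingEnd ℂ) (h (r * ep θ)) =
      ((2 * Real.pi * (‖b n‖ ^ 2 * r ^ (2 * n)) : ℝ) : ℂ) := by
    intro n
    simp_rw [mul_assoc (b n * (r : ℂ) ^ n)]
    rw [intervalIntegral.integral_const_mul]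
    have h4 : ∫ θ in a..(a + 2 * Real.pi), ep θ ^ n * (starRingEnd ℂ) (h (r * ep θ)) =
        (starRingEnd ℂ) (∫ θ in a..(a + 2 * Real.pi), h (r * ep θ) * (starRingEnd ℂ) (ep θ ^ n)) := by
      rw [intervalIntegral.integral_of_le (by linarith [Real.pi_pos]), intervalIntegral.integral_of_le (by linarith [Real.pi_pos]),
        ← integral_conj]
      congr 1
      funext θ
      rw [map_mul, Complex.conj_conj, mul_comm]
    rw [h4, h1, map_mul, map_mul, Complex.conj_ofReal]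
    have h5 : b n * (r : ℂ) ^ n * ((starRingEnd ℂ) 2 * (Real.pi : ℂ) * (starRingEnd ℂ) (b n * (r : ℂ) ^ n)) =
        2 * Real.pi * ((b n * (r : ℂ) ^ n) * (starRingEnd ℂ) (b n * (r : ℂ) ^ n)) := by
      rw [show (starRingEnd ℂ) (2 : ℂ) = 2 from Complex.conj_ofNat 2]
      ring
    rw [h5, Complex.mul_conj, Complex.normSq_eq_norm_sq, norm_mul, norm_pow, hrn]
    push_cast
    ring
  simp only [h3] at h2
  have h6 : ∫ θ in a..(a + 2 * Real.pi), h (r * ep θ) * (starRingEnd ℂ) (h (r * ep θ)) =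
      ((∫ θ in a..(a + 2 * Real.pi), ‖h (r * ep θ)‖ ^ 2 : ℝ) : ℂ) := by
    rw [← intervalIntegral.integral_ofReal]
    congr 1
    funext θ
    rw [Complex.mul_conj, Complex.normSq_eq_norm_sq]
  rw [h6] at h2
  exact Complex.hasSum_ofReal.1 h2

theorem ball_polar (f : ℂ → ℝ) (hf : ContinuousOn f (Metric.closedBall 0 1)) :
    ∫ z in Metric.ball (0 : ℂ) 1, f z = ∫ r in (0 : ℝ)..1, ∫ θ in (-Real.pi)..Real.pi, r • f (r * ep θ) := by
  have hnm : ∀ r : ℝ, 0 ≤ r → ∀ θ : ℝ, ‖(r : ℂ) * ep θ‖ = r := by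
    intro r hr θ
    rw [norm_mul, norm_ep, mul_one, Complex.norm_real, Real.norm_of_nonneg hr]
  have hsy : ∀ p : ℝ × ℝ, Complex.polarCoord.symm p = p.1 * ep p.2 := by
    intro p
    rw [Complex.polarCoord_symm_apply, ep, Complex.exp_mul_I]
    simp
  have h1 : ∫ z in Metric.ball (0:ℂ) 1, f z = ∫ z, (Metric.ball (0:ℂ) 1).indicator f z :=
    (integral_indicator measurableSet_ball).symm
  rw [h1, ← Complex.integral_comp_polarCoord_symm]
  have h2 : ∀ p ∈ polarCoord.target, p.1 • (Metric.ball (0:ℂ) 1).indicator f (Complex.polarCoord.symm p) =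
      (Iio (1 : ℝ) ×ˢ (univ : Set ℝ)).indicator (fun p : ℝ × ℝ => p.1 • f (p.1 * ep p.2)) p := by
    intro p hp
    have hp1 : 0 < p.1 := hp.1
    rw [hsy]
    by_cases h : p.1 < 1
    · rw [indicator_of_mem, indicator_of_mem]
      · exact ⟨h, mem_univ _⟩
      · rw [mem_ball_zero_iff, hnm _ hp1.le]
        exact h
    · rw [indicator_of_notMem, indicator_of_notMem, smul_zero]
      · intro h'
        exact h h'.1
      · rw [mem_ball_zero_iff, hnm _ hp1.le]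
        exact h
  rw [setIntegral_congr_fun polarCoord.open_target.measurableSet h2,
    setIntegral_indicator (measurableSet_Iio.prod MeasurableSet.univ)]
  have h3 : polarCoord.target ∩ (Iio (1 : ℝ) ×ˢ (univ : Set ℝ)) = Ioo 0 1 ×ˢ Ioo (-Real.pi) Real.pi := by
    rw [polarCoord_target, prod_inter_prod, inter_univ, Ioi_inter_Iio]
  rw [h3]
  have hcont : ContinuousOn (fun p : ℝ × ℝ => p.1 • f (p.1 * ep p.2)) (Icc 0 1 ×ˢ Icc (-Real.pi) Real.pi) := by
    apply ContinuousOn.smul continuousOn_fst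
    apply hf.comp
    · have : Continuous (fun p : ℝ × ℝ => (p.1:ℂ) * ep p.2) :=
        (Complex.continuous_ofReal.comp continuous_fst).mul (cont_ep.comp continuous_snd)
      exact this.continuousOn
    · intro p hp
      rw [mem_closedBall_zero_iff, hnm _ hp.1.1]
      exact hp.1.2
  have hint : IntegrableOn (fun p : ℝ × ℝ => p.1 • f (p.1 * ep p.2)) (Icc 0 1 ×ˢ Icc (-Real.pi) Real.pi)
      (volume.prod volume) :=
    hcont.integrableOn_compact (isCompact_Icc.prod isCompact_Icc)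
  have hint' : IntegrableOn (fun p : ℝ × ℝ => p.1 • f (p.1 * ep p.2)) (Ioo 0 1 ×ˢ Ioo (-Real.pi) Real.pi)
      (volume.prod volume) :=
    hint.mono_set (prod_mono Ioo_subset_Icc_self Ioo_subset_Icc_self)
  rw [Measure.volume_eq_prod, setIntegral_prod _ hint']
  rw [intervalIntegral.integral_of_le zero_le_one, integral_Ioc_eq_integral_Ioo]
  apply setIntegral_congr_fun measurableSet_Ioo
  intro r _
  simp only
  rw [intervalIntegral.integral_of_le (by linarith [Real.pi_pos]), integral_Ioc_eq_integral_Ioo]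

/-- `g'(z)/z` -/
noncomputable def hh (g : ℂ → ℂ) : ℂ → ℂ := dslope (deriv g) 0

theorem hh_ne {g : ℂ → ℂ} {ρ : ℝ} (hg : Good0 g ρ) {z : ℂ} (hz : z ≠ 0) : hh g z = deriv g z / z := by
  rw [hh, dslope_of_ne _ hz, slope_def_field, hg.dzero, sub_zero, sub_zero]

theorem hh_diff {g : ℂ → ℂ} {ρ : ℝ} (hg : Good0 g ρ) : DifferentiableOn ℂ (hh g) (Metric.ball 0 ρ) :=
  (Complex.differentiableOn_dslope (Metric.ball_mem_nhds _ (by linarith [hg.good.one_lt]))).2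
    (hg.good.hol.deriv Metric.isOpen_ball)

theorem coef {g : ℂ → ℂ} {ρ : ℝ} (hg : Good0 g ρ) : ∀ z : ℂ, z ≠ 0 → ‖z‖ < ρ →
    HasSum (fun n : ℕ => (((n + 2 : ℕ) : ℂ) * cf g (n + 2)) * z ^ n) (hh g z) := by
  intro z hz hzρ
  have hd : DifferentiableOn ℂ (deriv g) (Metric.ball 0 ρ) := hg.good.hol.deriv Metric.isOpen_ball
  have h1 := Complex.hasSum_taylorSeries_on_ball hd (show z ∈ Metric.ball (0 : ℂ) ρ by simpa using hzρ)
  have h2 : ∀ n : ℕ, ((n.factorial : ℂ)⁻¹ • (z - 0) ^ n • iteratedDeriv n (deriv g) 0) =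
      ((n + 1 : ℕ) : ℂ) * cf g (n + 1) * z ^ n := by
    intro n
    rw [← iteratedDeriv_succ', cf, sub_zero, smul_eq_mul, smul_eq_mul, Nat.factorial_succ]
    have h3 : ((n.factorial : ℕ) : ℂ) ≠ 0 := by exact_mod_cast n.factorial_ne_zero
    have h4 : ((n + 1 : ℕ) : ℂ) ≠ 0 := by exact_mod_cast n.succ_ne_zero
    push_cast at h4 ⊢
    field_simp
  simp only [h2] at h1
  have h3 := (hasSum_nat_add_iff' 1).2 h1
  have h4 : ((0 + 1 : ℕ) : ℂ) * cf g (0 + 1) * z ^ 0 = 0 := by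
    have h5 := h2 0
    rw [← h5]
    simp [hg.dzero]
  rw [Finset.sum_range_one, h4, sub_zero] at h3
  have h6 := h3.mul_right z⁻¹
  rw [hh_ne hg hz, div_eq_mul_inv]
  have h7 : (fun n : ℕ => (((n + 2 : ℕ) : ℂ) * cf g (n + 2)) * z ^ n) =
      fun n : ℕ => ((n + 1 + 1 : ℕ) : ℂ) * cf g (n + 1 + 1) * z ^ (n + 1) * z⁻¹ := by
    funext n
    rw [pow_succ]
    field_simp
  rw [h7]
  exact h6

theorem hcongr {f f' : ℕ → ℝ} {a : ℝ} (h : HasSum f a) (hf : ∀ n, f' n = f n) : HasSum f' a := by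
  rw [show f' = f from funext hf]
  exact h

theorem em_ep (θ : ℝ) : em θ = ep (-θ) := by
  rw [DD.em, ep]
  congr 1
  push_cast
  ring

theorem norm_em (θ : ℝ) : ‖em θ‖ = 1 := by rw [em_ep, norm_ep]

theorem em_ne (θ : ℝ) : em θ ≠ 0 := Complex.exp_ne_zero _

theorem cont_em : Continuous em := by
  unfold DD.em
  fun_prop

theorem partA {g : ℂ → ℂ} {ρ : ℝ} (hg : Good0 g ρ) :
    HasSum (fun n : ℕ => Real.pi / 2 * ‖((n + 2 : ℕ) : ℂ) * cf g (n + 2)‖ ^ 2)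
      (∫ θ in (0 : ℝ)..(2 * Real.pi), b2 g θ) := by
  have hρ := hg.good.one_lt
  have hd : DifferentiableOn ℂ (deriv g) (Metric.ball 0 ρ) := hg.good.hol.deriv Metric.isOpen_ball
  have hem : ∀ θ, em θ ∈ Metric.ball (0 : ℂ) ρ := fun θ => by
    rw [mem_ball_zero_iff, norm_em]
    exact hρ
  have h1 := pars (coef hg) (-(2 * Real.pi)) 1 one_pos hρ
  have h2 : ∫ θ in (-(2 * Real.pi))..(-(2 * Real.pi) + 2 * Real.pi), ‖hh g (((1 : ℝ) : ℂ) * ep θ)‖ ^ 2 =
      ∫ θ in (0 : ℝ)..(2 * Real.pi), ‖hh g (em θ)‖ ^ 2 := by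
    have h3 := intervalIntegral.integral_comp_neg (a := (0 : ℝ)) (b := 2 * Real.pi) (fun θ : ℝ => ‖hh g (ep θ)‖ ^ 2)
    rw [neg_zero] at h3
    rw [neg_add_cancel, Complex.ofReal_one]
    simp only [one_mul, em_ep]
    exact h3.symm
  rw [h2] at h1
  have hcG : Continuous fun θ : ℝ => (em θ ^ 2 * deriv g (em θ)) ^ 2 := by
    have h4 : Continuous fun θ : ℝ => deriv g (em θ) := hd.continuousOn.comp_continuous cont_em hem
    exact ((cont_em.pow 2).mul h4).pow 2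
  have hch : Continuous fun θ : ℝ => hh g (em θ) := (hh_diff hg).continuousOn.comp_continuous cont_em hem
  have hG : ∫ θ in (0 : ℝ)..(2 * Real.pi), (em θ ^ 2 * deriv g (em θ)) ^ 2 = 0 := by
    have h5 := mv (fun z => (z ^ 2 * deriv g z) ^ 2) ρ ⟨hρ, ((differentiableOn_id.pow 2).mul hd).pow 2⟩
    simpa using h5
  have hGr : ∫ θ in (0 : ℝ)..(2 * Real.pi), ((em θ ^ 2 * deriv g (em θ)) ^ 2).re = 0 := by
    have h6 := Complex.reCLM.intervalIntegral_comp_comm (hcG.intervalIntegrable (μ := volume) 0 (2 * Real.pi))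
    rw [hG, map_zero] at h6
    exact h6
  have hb : ∀ θ, b2 g θ = ‖hh g (em θ)‖ ^ 2 / 4 - ((em θ ^ 2 * deriv g (em θ)) ^ 2).re / 4 := by
    intro θ
    have h7 : deriv g (em θ) = hh g (em θ) * em θ := by
      rw [hh_ne hg (em_ne θ), div_mul_cancel₀ _ (em_ne θ)]
    have h8 : ‖hh g (em θ)‖ ^ 2 = ‖xx g θ‖ ^ 2 := by
      rw [xx, h7, norm_mul, norm_mul, norm_pow, norm_em, one_pow, one_mul, mul_one]
    rw [h8, b2, Complex.sq_norm, Complex.normSq_apply, ← xx, pow_two (xx g θ), Complex.mul_re]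
    ring
  have h9 : ∫ θ in (0 : ℝ)..(2 * Real.pi), b2 g θ = (∫ θ in (0 : ℝ)..(2 * Real.pi), ‖hh g (em θ)‖ ^ 2) / 4 := by
    simp_rw [hb]
    rw [intervalIntegral.integral_sub, intervalIntegral.integral_div, intervalIntegral.integral_div, hGr]
    · ring
    · exact (((hch.norm).pow 2).div_const 4).intervalIntegrable _ _
    · exact ((Complex.continuous_re.comp hcG).div_const 4).intervalIntegrable _ _
  rw [h9]
  have h10 := h1.div_const 4
  refine hcongr h10 fun n => ?_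
  rw [one_pow]
  ring

theorem partB {g : ℂ → ℂ} {ρ : ℝ} (hg : Good0 g ρ) :
    HasSum (fun n : ℕ => 2 * Real.pi * ‖((n + 2 : ℕ) : ℂ) * cf g (n + 2)‖ ^ 2 * (1 / (2 * n + 2) + 1 / (2 * n + 6)))
      (∫ z in Metric.ball (0 : ℂ) 1, ‖hh g z‖ ^ 2 * (1 + ‖z‖ ^ 4)) := by
  have hρ := hg.good.one_lt
  have hhc : ContinuousOn (hh g) (Metric.closedBall 0 1) :=
    (hh_diff hg).continuousOn.mono (Metric.closedBall_subset_ball hρ)
  rw [ball_polar (fun z => ‖hh g z‖ ^ 2 * (1 + ‖z‖ ^ 4))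
    ((hhc.norm.pow 2).mul (continuousOn_const.add (continuous_norm.pow 4).continuousOn))]
  have hsum : Summable fun n : ℕ => ‖((n + 2 : ℕ) : ℂ) * cf g (n + 2)‖ ^ 2 := by
    have h1 := (pars (coef hg) 0 1 one_pos hρ).summable
    have h2 := h1.mul_left (2 * Real.pi)⁻¹
    refine h2.congr fun n => ?_
    rw [one_pow, mul_one, inv_mul_cancel_left₀ (by positivity)]
  have h3 := term (F := fun (n : ℕ) (r : ℝ) => 2 * Real.pi * ‖((n + 2 : ℕ) : ℂ) * cf g (n + 2)‖ ^ 2 *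
      (r ^ (2 * n + 1) + r ^ (2 * n + 5)))
    (f := fun r => ∫ θ in (-Real.pi)..Real.pi, r • (‖hh g (r * ep θ)‖ ^ 2 * (1 + ‖(r : ℂ) * ep θ‖ ^ 4)))
    (B := fun n => 4 * Real.pi * ‖((n + 2 : ℕ) : ℂ) * cf g (n + 2)‖ ^ 2) 0 1 (fun n => by fun_prop)
    (fun n r hr => by
      rw [uIoc_of_le zero_le_one] at hr
      have h4 : 0 ≤ r ^ (2 * n + 1) := pow_nonneg hr.1.le _
      have h5 : r ^ (2 * n + 1) ≤ 1 := pow_le_one₀ hr.1.le hr.2
      have h6 : 0 ≤ r ^ (2 * n + 5) := pow_nonneg hr.1.le _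
      have h7 : r ^ (2 * n + 5) ≤ 1 := pow_le_one₀ hr.1.le hr.2
      rw [Real.norm_of_nonneg (by positivity)]
      have h8 : (0 : ℝ) ≤ 2 * Real.pi * ‖((n + 2 : ℕ) : ℂ) * cf g (n + 2)‖ ^ 2 := by positivity
      nlinarith [mul_le_mul_of_nonneg_left (show r ^ (2 * n + 1) + r ^ (2 * n + 5) ≤ 2 by linarith) h8])
    (hsum.mul_left _)
    (fun r hr => by
      rw [uIoc_of_le zero_le_one] at hr
      have h4 := pars (coef hg) (-Real.pi) r hr.1 (lt_of_le_of_lt hr.2 hρ)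
      rw [show -Real.pi + 2 * Real.pi = Real.pi by ring] at h4
      have h5 : ∫ θ in (-Real.pi)..Real.pi, r • (‖hh g (r * ep θ)‖ ^ 2 * (1 + ‖(r : ℂ) * ep θ‖ ^ 4)) =
          (∫ θ in (-Real.pi)..Real.pi, ‖hh g (r * ep θ)‖ ^ 2) * (r * (1 + r ^ 4)) := by
        rw [← intervalIntegral.integral_mul_const]
        congr 1
        funext θ
        rw [norm_mul, norm_ep, mul_one, Complex.norm_real, Real.norm_of_nonneg hr.1.le, smul_eq_mul]
        ring
      rw [h5]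
      refine hcongr (h4.mul_right (r * (1 + r ^ 4))) fun n => ?_
      ring)
  refine hcongr h3 fun n => ?_
  rw [intervalIntegral.integral_const_mul, intervalIntegral.integral_add, integral_pow, integral_pow]
  · simp
    left
    congr 1
    · congr 1
      ring
    · congr 1
      ring
  · exact (continuous_pow _).intervalIntegrable _ _
  · exact (continuous_pow _).intervalIntegrable _ _

theorem L0_sq (ξ : ℂ) (θ : ℝ) : L0 ξ θ ^ 2 = ‖ξ‖ ^ 2 / 2 + (ξ ^ 2).re * (Real.cos θ ^ 2 - 1 / 2) +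
    (ξ ^ 2).im * (Real.cos θ * Real.sin θ) := by
  have h : L0 ξ θ = ξ.re * Real.cos θ + ξ.im * Real.sin θ := by
    rw [L0, ep, Complex.mul_re, Complex.exp_ofReal_mul_I_re, Complex.exp_ofReal_mul_I_im, Complex.conj_re,
      Complex.conj_im]
    ring
  rw [h, Complex.sq_norm, Complex.normSq_apply, pow_two ξ, Complex.mul_re, Complex.mul_im]
  have hs := Real.sin_sq_add_cos_sq θ
  linear_combination (ξ.im ^ 2) * hs

theorem nsq (ξ w : ℂ) : ‖(starRingEnd ℂ) ξ + ξ * w‖ ^ 2 =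
    ‖ξ‖ ^ 2 * (1 + ‖w‖ ^ 2) + 2 * (ξ ^ 2).re * w.re - 2 * (ξ ^ 2).im * w.im := by
  rw [Complex.sq_norm, Complex.sq_norm, Complex.sq_norm, Complex.normSq_apply, Complex.normSq_apply,
    Complex.normSq_apply, pow_two ξ]
  simp only [Complex.add_re, Complex.add_im, Complex.mul_re, Complex.mul_im, Complex.conj_re, Complex.conj_im]
  ring

theorem ballint {g : ℂ → ℂ} {ρ : ℝ} (hg : Good0 g ρ) (ξ : ℂ) :
    ∫ z in Metric.ball (0 : ℂ) 1, ‖((starRingEnd ℂ) ξ + ξ * z ^ 2) * (deriv g z / z)‖ ^ 2 =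
      ‖ξ‖ ^ 2 * (∫ z in Metric.ball (0 : ℂ) 1, ‖hh g z‖ ^ 2 * (1 + ‖z‖ ^ 4)) +
        2 * (ξ ^ 2).re * (∫ z in Metric.ball (0 : ℂ) 1, ‖hh g z‖ ^ 2 * (z ^ 2).re) -
        2 * (ξ ^ 2).im * (∫ z in Metric.ball (0 : ℂ) 1, ‖hh g z‖ ^ 2 * (z ^ 2).im) := by
  have hρ := hg.good.one_lt
  have hhc : ContinuousOn (hh g) (Metric.closedBall 0 1) :=
    (hh_diff hg).continuousOn.mono (Metric.closedBall_subset_ball hρ)
  have hi : ∀ f : ℂ → ℝ, Continuous f → IntegrableOn (fun z => ‖hh g z‖ ^ 2 * f z) (Metric.ball 0 1) := by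
    intro f hf
    have h1 : ContinuousOn (fun z => ‖hh g z‖ ^ 2 * f z) (Metric.closedBall 0 1) := (hhc.norm.pow 2).mul hf.continuousOn
    exact (h1.integrableOn_compact (isCompact_closedBall _ _)).mono_set Metric.ball_subset_closedBall
  have h1 := hi (fun z => 1 + ‖z‖ ^ 4) (continuous_const.add (continuous_norm.pow 4))
  have h2 := hi (fun z => (z ^ 2).re) (Complex.continuous_re.comp (continuous_pow 2))
  have h3 := hi (fun z => (z ^ 2).im) (Complex.continuous_im.comp (continuous_pow 2))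
  have h12 : IntegrableOn (fun z : ℂ => ‖ξ‖ ^ 2 * (‖hh g z‖ ^ 2 * (1 + ‖z‖ ^ 4)) +
      2 * (ξ ^ 2).re * (‖hh g z‖ ^ 2 * (z ^ 2).re)) (Metric.ball 0 1) := (h1.const_mul _).add (h2.const_mul _)
  rw [← integral_const_mul, ← integral_const_mul, ← integral_const_mul, ← integral_add (h1.const_mul _) (h2.const_mul _),
    ← integral_sub h12 (h3.const_mul _)]
  refine setIntegral_congr_ae measurableSet_ball ?_
  have h0 : ∀ᵐ z : ℂ, z ≠ 0 := compl_mem_ae_iff.2 (measure_singleton 0)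
  filter_upwards [h0] with z hz _
  rw [norm_mul, mul_pow, nsq, ← hh_ne hg hz, norm_pow]
  ring

end Qe

theorem qfE : QfEStmt := by
  intro g ρ hg
  have hρ := hg.good.one_lt
  have hd : DifferentiableOn ℂ (deriv g) (Metric.ball 0 ρ) := hg.good.hol.deriv Metric.isOpen_ball
  have hem : ∀ θ, DD.em θ ∈ Metric.ball (0 : ℂ) ρ := fun θ => by
    rw [mem_ball_zero_iff, Qe.norm_em]
    exact hρ
  have hA := Qe.partA hg
  have hB := Qe.partB hg
  obtain ⟨I1, hI1⟩ : ∃ x : ℝ, x = ∫ z in Metric.ball (0 : ℂ) 1, ‖Qe.hh g z‖ ^ 2 * (1 + ‖z‖ ^ 4) := ⟨_, rfl⟩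
  obtain ⟨I2, hI2⟩ : ∃ x : ℝ, x = ∫ θ in (0 : ℝ)..(2 * Real.pi), b2 g θ := ⟨_, rfl⟩
  obtain ⟨Ja, hJa⟩ : ∃ x : ℝ, x = ∫ z in Metric.ball (0 : ℂ) 1, ‖Qe.hh g z‖ ^ 2 * (z ^ 2).re := ⟨_, rfl⟩
  obtain ⟨Jb, hJb⟩ : ∃ x : ℝ, x = ∫ z in Metric.ball (0 : ℂ) 1, ‖Qe.hh g z‖ ^ 2 * (z ^ 2).im := ⟨_, rfl⟩
  obtain ⟨Kc, hKc⟩ : ∃ x : ℝ, x = ∫ θ in (0 : ℝ)..(2 * Real.pi), (Real.cos θ ^ 2 - 1 / 2) * b2 g θ := ⟨_, rfl⟩
  obtain ⟨Ks, hKs⟩ : ∃ x : ℝ, x = ∫ θ in (0 : ℝ)..(2 * Real.pi), (Real.cos θ * Real.sin θ) * b2 g θ := ⟨_, rfl⟩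
  rw [← hI2] at hA
  rw [← hI1] at hB
  have hpi := Real.pi_pos
  refine ⟨(I1 / 4 + I2 / 2) / Real.pi, ⟨Ja / 2 + Kc, Jb / 2 - Ks⟩, ?_, fun ξ => ?_⟩
  · rw [← hasSum_nat_add_iff' 2]
    have h0 : cf g 0 = 0 := by
      rw [cf]
      simp [hg.zero]
    have h1 : cf g 1 = 0 := by
      rw [cf, iteratedDeriv_one]
      simp [hg.dzero]
    rw [Finset.sum_range_succ, Finset.sum_range_one, h0, h1]
    have h2 := ((hB.div_const 4).add (hA.div_const 2)).div_const Real.pi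
    have h3 : (I1 / 4 + I2 / 2) / Real.pi - (‖(0 : ℂ)‖ ^ 2 * (((0 : ℕ) : ℝ) ^ 2 / 4 + ((0 : ℕ) : ℝ) ^ 3 / (2 * (((0 : ℕ) : ℝ) ^ 2 - 1))) +
        ‖(0 : ℂ)‖ ^ 2 * (((1 : ℕ) : ℝ) ^ 2 / 4 + ((1 : ℕ) : ℝ) ^ 3 / (2 * (((1 : ℕ) : ℝ) ^ 2 - 1)))) = (I1 / 4 + I2 / 2) / Real.pi := by
      rw [norm_zero]
      ring
    rw [h3]
    refine Qe.hcongr h2 fun n => ?_
    rw [norm_mul, Complex.norm_natCast]
    have h4 : ((n + 2 : ℕ) : ℝ) ^ 2 - 1 = ((n : ℝ) + 1) * ((n : ℝ) + 3) := by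
      push_cast
      ring
    rw [h4]
    push_cast
    have h5 : (n : ℝ) + 1 ≠ 0 := by positivity
    have h6 : (n : ℝ) + 3 ≠ 0 := by positivity
    have h7 : 2 * (n : ℝ) + 2 ≠ 0 := by positivity
    have h8 : 2 * (n : ℝ) + 6 ≠ 0 := by positivity
    field_simp
    ring
  · rw [Mq, Qe.ballint hg, ← hI1, ← hJa, ← hJb]
    have hcb : Continuous (b2 g) := by
      have h4 : Continuous fun θ : ℝ => deriv g (DD.em θ) := hd.continuousOn.comp_continuous Qe.cont_em hem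
      have h5 : Continuous fun θ : ℝ => (DD.em θ ^ 2 * deriv g (DD.em θ)) := (Qe.cont_em.pow 2).mul h4
      exact ((Complex.continuous_im.comp h5).pow 2).div_const 2
    have h6 : ∫ θ in (0 : ℝ)..(2 * Real.pi), L0 ξ θ ^ 2 * b2 g θ = ‖ξ‖ ^ 2 / 2 * I2 + (ξ ^ 2).re * Kc + (ξ ^ 2).im * Ks := by
      rw [hI2, hKc, hKs, ← intervalIntegral.integral_const_mul, ← intervalIntegral.integral_const_mul,
        ← intervalIntegral.integral_const_mul, ← intervalIntegral.integral_add, ← intervalIntegral.integral_add]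
      · congr 1
        funext θ
        rw [Qe.L0_sq]
        ring
      · exact Continuous.intervalIntegrable (by fun_prop) _ _
      · exact Continuous.intervalIntegrable (by fun_prop) _ _
      · exact Continuous.intervalIntegrable (by fun_prop) _ _
      · exact Continuous.intervalIntegrable (by fun_prop) _ _
    rw [h6, Complex.mul_re]
    simp only
    field_simp
    ring

end Pool.Agent.H74.DE
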