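import Pool.Agent.H74.DE.Prs
import Pool.Agent.H74.DD.Mv
import Pool.Agent.H74.DD.UpI

set_option autoImplicit false

/-!
# [H74 DE QfN] the form `Nq` by Fourier series
-/

namespace Pool.Agent.H74.DE

open MeasureTheory Set Filter Topology Pool.Agent.H74.SX Pool.Agent.H74.DD

namespace QfNAux

open Pool.Agent.H74.DD.UpI

theorem ep_eq (θ : ℝ) : ep θ = (starRingEnd ℂ) (DD.em θ) := exp_eq θ

theorem em_mul (θ : ℝ) : DD.em θ * (starRingEnd ℂ) (DD.em θ) = 1 := by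
  rw [Complex.mul_conj, Complex.normSq_eq_norm_sq, norm_em]
  simp

theorem gh_ep (g : ℂ → ℂ) (θ : ℝ) : gh g (ep θ) = (starRingEnd ℂ) (g (DD.em θ)) := by
  rw [gh, ep_eq, Complex.conj_conj]

theorem dgh {g : ℂ → ℂ} {ρ : ℝ} (h : Good g ρ) (θ : ℝ) :
    HasDerivAt (gh g) ((starRingEnd ℂ) (deriv g (DD.em θ))) (ep θ) := by
  have h1 : HasDerivAt g (deriv g (DD.em θ)) (DD.em θ) := by
    refine (h.hol.differentiableAt (Metric.isOpen_ball.mem_nhds ?_)).hasDerivAt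
    rw [Metric.mem_ball, dist_zero_right, norm_em]
    exact h.one_lt
  have h2 := h1.conj_conj
  rw [← ep_eq] at h2
  exact h2

theorem dg2 {g : ℂ → ℂ} {ρ : ℝ} (h : Good g ρ) (θ : ℝ) :
    HasDerivAt (g2 g) (2 * ep θ * (starRingEnd ℂ) (g (DD.em θ)) +
      ep θ ^ 2 * (starRingEnd ℂ) (deriv g (DD.em θ))) (ep θ) := by
  have h1 := (hasDerivAt_pow 2 (ep θ)).mul (dgh h θ)
  rw [gh_ep] at h1
  have h2 : ((2 : ℕ) : ℂ) * ep θ ^ (2 - 1) * (starRingEnd ℂ) (g (DD.em θ)) +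
      ep θ ^ 2 * (starRingEnd ℂ) (deriv g (DD.em θ)) = 2 * ep θ * (starRingEnd ℂ) (g (DD.em θ)) +
      ep θ ^ 2 * (starRingEnd ℂ) (deriv g (DD.em θ)) := by
    simp
  rw [← h2]
  exact h1

theorem kk_ep {g : ℂ → ℂ} {ρ : ℝ} (h : Good g ρ) (ζ : ℂ) (θ : ℝ) :
    kk g ζ (ep θ) = ζ * (starRingEnd ℂ) (deriv g (DD.em θ)) - (starRingEnd ℂ) ζ *
      (2 * ep θ * (starRingEnd ℂ) (g (DD.em θ)) + ep θ ^ 2 * (starRingEnd ℂ) (deriv g (DD.em θ))) := by
  rw [kk, (dgh h θ).deriv, (dg2 h θ).deriv]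

/-- real form of the pointwise identity -/
theorem pt_real (c s q p x1 x2 : ℝ) (h : c ^ 2 + s ^ 2 = 1) :
    (c * q + 2 * s * p) ^ 2 + c * ((c * (x1 * q + x2 * p) - s * (x1 * p - x2 * q)) -
      (c * (2 * (q ^ 2 + p ^ 2) + (x1 * q + x2 * p)) + s * (x1 * p - x2 * q))) +
      2 * c * (c * q + 2 * s * p) * -x1 + c ^ 2 * (x2 ^ 2 / 2) =
    (-q ^ 2 / 2 + p ^ 2 - q * x1 + x2 ^ 2 / 4) +
      ((c ^ 2 - s ^ 2) * ((q ^ 2 - 4 * p ^ 2) / 2 - (q ^ 2 + p ^ 2) - q * x1 + x2 ^ 2 / 4) +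
        2 * c * s * (2 * q * p - (x1 * p - x2 * q) - 2 * p * x1)) := by
  linear_combination (-q ^ 2 / 2 + p ^ 2 - q * x1 + x2 ^ 2 / 4) * h

/-- the coefficient of `Z²` -/
noncomputable def BB (A x : ℂ) : ℂ :=
  ⟨(A.re ^ 2 - 4 * A.im ^ 2) / 2 - (A.re ^ 2 + A.im ^ 2) - A.re * x.re + x.im ^ 2 / 4,
    -(2 * A.re * A.im - (x.re * A.im - x.im * A.re) - 2 * A.im * x.re)⟩

theorem pt (e G D ζ : ℂ) (he : e * (starRingEnd ℂ) e = 1) (hζ : ‖ζ‖ = 1) :
    (((starRingEnd ℂ) ζ * G).re + (ζ * (starRingEnd ℂ) G - (starRingEnd ℂ) ζ *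
        (((starRingEnd ℂ) e) ^ 2 * (starRingEnd ℂ) G)).re / 2) ^ 2 +
      ((starRingEnd ℂ) ζ * (starRingEnd ℂ) e).re * ((ζ * (starRingEnd ℂ) D - (starRingEnd ℂ) ζ *
        (2 * (starRingEnd ℂ) e * (starRingEnd ℂ) G + ((starRingEnd ℂ) e) ^ 2 * (starRingEnd ℂ) D)) * G).re +
      2 * ((starRingEnd ℂ) ζ * (starRingEnd ℂ) e).re * (((starRingEnd ℂ) ζ * G).re +
        (ζ * (starRingEnd ℂ) G - (starRingEnd ℂ) ζ *
        (((starRingEnd ℂ) e) ^ 2 * (starRingEnd ℂ) G)).re / 2) * -(e ^ 2 * D).re +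
      ((starRingEnd ℂ) ζ * (starRingEnd ℂ) e).re ^ 2 * ((e ^ 2 * D).im ^ 2 / 2) =
    ((1 / 4 * (G * (starRingEnd ℂ) G) - 1 / 2 * (G * (starRingEnd ℂ) (e * D)) +
      1 / 8 * (e * D * (starRingEnd ℂ) (e * D))).re -
      (3 / 4 * (e * G) ^ 2 + 1 / 2 * ((e * G) * (e ^ 2 * D)) + 1 / 8 * (e ^ 2 * D) ^ 2).re) +
      (e ^ 2 * BB (e * G) (e ^ 2 * D) * ζ ^ 2).re := by
  obtain ⟨f, hf⟩ : ∃ f, f = (starRingEnd ℂ) e := ⟨_, rfl⟩
  obtain ⟨A, hA⟩ : ∃ A, A = e * G := ⟨_, rfl⟩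
  obtain ⟨x, hx⟩ : ∃ x, x = e ^ 2 * D := ⟨_, rfl⟩
  obtain ⟨Z, hZ⟩ : ∃ Z, Z = ζ * e := ⟨_, rfl⟩
  have hZ1 : Z.re ^ 2 + Z.im ^ 2 = 1 := by
    have h1 : Z * (starRingEnd ℂ) Z = 1 := by
      rw [hZ, map_mul]
      have h2 : ζ * (starRingEnd ℂ) ζ = 1 := by
        rw [Complex.mul_conj, Complex.normSq_eq_norm_sq, hζ]
        simp
      linear_combination (ζ * (starRingEnd ℂ) ζ) * he + h2
    rw [Complex.mul_conj, Complex.normSq_apply] at h1
    have h3 := congrArg Complex.re h1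
    rw [Complex.ofReal_re, Complex.one_re] at h3
    linarith
  have hcZ : (starRingEnd ℂ) Z = (starRingEnd ℂ) ζ * f := by rw [hZ, map_mul, hf]
  have hfe : e * f = 1 := by rw [hf]; exact he
  have hcA : (starRingEnd ℂ) A = f * (starRingEnd ℂ) G := by rw [hA, map_mul, hf]
  have hcx : (starRingEnd ℂ) x = f ^ 2 * (starRingEnd ℂ) D := by rw [hx, map_mul, map_pow, hf]
  rw [← hf, ← hA, ← hx]
  have e1 : (starRingEnd ℂ) ζ * G = (starRingEnd ℂ) Z * A := by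
    rw [hcZ, hA]
    linear_combination (-((starRingEnd ℂ) ζ * G)) * hfe
  have e2 : ζ * (starRingEnd ℂ) G - (starRingEnd ℂ) ζ * (f ^ 2 * (starRingEnd ℂ) G) =
      Z * (starRingEnd ℂ) A - (starRingEnd ℂ) Z * (starRingEnd ℂ) A := by
    rw [hcZ, hcA, hZ]
    linear_combination (-(ζ * (starRingEnd ℂ) G)) * hfe
  have e3 : (ζ * (starRingEnd ℂ) D - (starRingEnd ℂ) ζ *
        (2 * f * (starRingEnd ℂ) G + f ^ 2 * (starRingEnd ℂ) D)) * G =
      Z * ((starRingEnd ℂ) x * A) - (starRingEnd ℂ) Z * (2 * ((starRingEnd ℂ) A * A) + (starRingEnd ℂ) x * A) := by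
    rw [hcZ, hcA, hcx, hZ, hA]
    linear_combination (-(ζ * (starRingEnd ℂ) D * G) * (e * f + 1) + (starRingEnd ℂ) ζ * f * 2 * (starRingEnd ℂ) G * G +
      (starRingEnd ℂ) ζ * f ^ 2 * (starRingEnd ℂ) D * G) * hfe
  have e4 : G * (starRingEnd ℂ) G = A * (starRingEnd ℂ) A := by
    rw [hcA, hA]
    linear_combination (-(G * (starRingEnd ℂ) G)) * hfe
  have e5 : G * (starRingEnd ℂ) (e * D) = A * (starRingEnd ℂ) x := by
    rw [hcx, hA, map_mul, ← hf]
    linear_combination (-(G * f * (starRingEnd ℂ) D)) * hfe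
  have e6 : e * D * (starRingEnd ℂ) (e * D) = x * (starRingEnd ℂ) x := by
    rw [hcx, hx, map_mul, ← hf]
    linear_combination (-(e * D * f * (starRingEnd ℂ) D)) * hfe
  have e7 : e ^ 2 * BB A x * ζ ^ 2 = BB A x * Z ^ 2 := by
    rw [hZ]
    ring
  rw [e1, e2, e3, ← hcZ, e4, e5, e6, e7]
  have key := pt_real Z.re Z.im A.re A.im x.re x.im hZ1
  obtain ⟨c, s⟩ := Z
  obtain ⟨q, p⟩ := A
  obtain ⟨x1, x2⟩ := x
  simp only at key
  simp only [BB, pow_two, Complex.mul_re, Complex.mul_im, Complex.add_re, Complex.add_im, Complex.sub_re,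
    Complex.sub_im, Complex.conj_re, Complex.conj_im] 
  norm_num
  linear_combination key

theorem orth2 (n m : ℕ) : ∫ θ in (0 : ℝ)..(2 * Real.pi), DD.em θ ^ n * (starRingEnd ℂ) (DD.em θ ^ m) =
    if n = m then (2 * Real.pi : ℂ) else 0 := by
  have hg : ∀ k : ℕ, Good (fun z : ℂ => z ^ k) 2 := fun k => ⟨one_lt_two, differentiableOn_pow k⟩
  have hk : ∀ k : ℕ, k ≠ 0 → ∫ θ in (0 : ℝ)..(2 * Real.pi), DD.em θ ^ k = 0 := by
    intro k hk
    rw [mv _ 2 (hg k), zero_pow hk, mul_zero]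
  rcases lt_trichotomy n m with h | h | h
  · rw [if_neg h.ne]
    have h1 : ∀ θ : ℝ, DD.em θ ^ n * (starRingEnd ℂ) (DD.em θ ^ m) = (starRingEnd ℂ) (DD.em θ ^ (m - n)) := by
      intro θ
      have h2 : DD.em θ ^ m = DD.em θ ^ (m - n) * DD.em θ ^ n := by rw [← pow_add]; congr 1; omega
      rw [h2, map_mul, mul_comm, mul_assoc, mul_comm _ (DD.em θ ^ n)]
      rw [map_pow (starRingEnd ℂ) (DD.em θ) n, ← mul_pow, em_mul, one_pow, mul_one]
    have h3 : ∫ θ in (0 : ℝ)..(2 * Real.pi), DD.em θ ^ n * (starRingEnd ℂ) (DD.em θ ^ m) =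
        ∫ θ in (0 : ℝ)..(2 * Real.pi), (starRingEnd ℂ) (DD.em θ ^ (m - n)) :=
      intervalIntegral.integral_congr fun θ _ => h1 θ
    rw [h3, intervalIntegral.integral_of_le (by positivity), integral_conj,
      ← intervalIntegral.integral_of_le (by positivity), hk _ (by omega), map_zero]
  · rw [if_pos h, h]
    have h3 : ∫ θ in (0 : ℝ)..(2 * Real.pi), DD.em θ ^ m * (starRingEnd ℂ) (DD.em θ ^ m) =
        ∫ θ in (0 : ℝ)..(2 * Real.pi), (1 : ℂ) := by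
      refine intervalIntegral.integral_congr fun θ _ => ?_
      show DD.em θ ^ m * (starRingEnd ℂ) (DD.em θ ^ m) = 1
      rw [map_pow, ← mul_pow, em_mul, one_pow]
    rw [h3, intervalIntegral.integral_const]
    simp
  · rw [if_neg h.ne']
    have h3 : ∫ θ in (0 : ℝ)..(2 * Real.pi), DD.em θ ^ n * (starRingEnd ℂ) (DD.em θ ^ m) =
        ∫ θ in (0 : ℝ)..(2 * Real.pi), DD.em θ ^ (n - m) := by
      refine intervalIntegral.integral_congr fun θ _ => ?_
      show DD.em θ ^ n * (starRingEnd ℂ) (DD.em θ ^ m) = DD.em θ ^ (n - m)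
      have h2 : DD.em θ ^ n = DD.em θ ^ (n - m) * DD.em θ ^ m := by rw [← pow_add]; congr 1; omega
      rw [h2, mul_assoc, map_pow (starRingEnd ℂ) (DD.em θ) m, ← mul_pow, em_mul, one_pow, mul_one]
    rw [h3, hk _ (by omega)]

theorem pars (a b : ℕ → ℂ) (f F : ℝ → ℂ) (ha : Summable fun n => ‖a n‖) (hb : Summable fun n => ‖b n‖)
    (hf : ∀ θ, HasSum (fun n => a n * DD.em θ ^ n) (f θ)) (hF : ∀ θ, HasSum (fun n => b n * DD.em θ ^ n) (F θ))
    (hFc : Continuous F) : HasSum (fun n => 2 * Real.pi * (a n * (starRingEnd ℂ) (b n)))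
      (∫ θ in (0 : ℝ)..(2 * Real.pi), f θ * (starRingEnd ℂ) (F θ)) := by
  rw [intervalIntegral.integral_of_le (by positivity)]
  refine orth (volume.restrict (Ioc 0 (2 * Real.pi))) (fun n θ => DD.em θ ^ n)
    (fun n => (cont_em.pow n).aestronglyMeasurable) (fun n => Eventually.of_forall fun θ => ?_)
    (fun _ => 2 * Real.pi) (fun n m => ?_) a b ha hb f F (Eventually.of_forall hf)
    (Eventually.of_forall hF) hFc.aestronglyMeasurable
  · rw [norm_pow, norm_em, one_pow]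
  · rw [← intervalIntegral.integral_of_le (by positivity)]
    exact orth2 n m

end QfNAux

open QfNAux in
theorem qfN : QfNStmt := by
  intro g ρ h0
  have h := h0.good
  have hc : Continuous fun θ : ℝ => g (DD.em θ) := UpI.cont g ρ h
  have hd : Continuous fun θ : ℝ => deriv g (DD.em θ) := UpI.cont _ ρ (UpI.good_deriv g ρ h)
  have hce := UpI.cont_em
  have hem : ∀ θ, ‖DD.em θ‖ < ρ := fun θ => by rw [UpI.norm_em]; exact h.one_lt
  -- series
  have hs0 : ∀ z : ℂ, ‖z‖ < ρ → HasSum (fun n => cf g n * z ^ n) (g z) := fun z hz => ser h hz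
  have hs1 : ∀ z : ℂ, ‖z‖ < ρ → HasSum (fun n : ℕ => (n * cf g n) * z ^ n) (z * deriv g z) := by
    intro z hz
    have h1 := (ser (UpI.good_deriv g ρ h) hz).mul_left z
    have h2 : (fun n : ℕ => z * (cf (deriv g) n * z ^ n)) =
        fun n : ℕ => ((n + 1 : ℕ) * cf g (n + 1)) * z ^ (n + 1) := by
      funext n
      have h3 : cf (deriv g) n = (n + 1 : ℕ) * cf g (n + 1) := by
        rw [cf, cf, ← iteratedDeriv_succ', Nat.factorial_succ, Nat.cast_mul]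
        have h4 : ((n + 1 : ℕ) : ℂ) ≠ 0 := Nat.cast_ne_zero.2 (Nat.succ_ne_zero n)
        have h5 : ((n.factorial : ℕ) : ℂ) ≠ 0 := Nat.cast_ne_zero.2 (Nat.factorial_ne_zero n)
        field_simp
      rw [h3]
      ring
    rw [h2] at h1
    have h6 := (hasSum_nat_add_iff (f := fun n : ℕ => (n * cf g n) * z ^ n) 1).1 h1
    simpa using h6
  have ha : Summable fun n => ‖cf g n‖ := sumn h
  have hb : Summable fun n : ℕ => ‖(n : ℂ) * cf g n‖ := by
    have h1 := (hs1 1 (by rw [norm_one]; exact h.one_lt)).summable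
    simp only [one_pow, mul_one] at h1
    exact h1.norm
  have hX : Continuous fun θ : ℝ => DD.em θ * deriv g (DD.em θ) := hce.mul hd
  have p1 := pars (cf g) (cf g) (fun θ => g (DD.em θ)) (fun θ => g (DD.em θ)) ha ha
    (fun θ => hs0 _ (hem θ)) (fun θ => hs0 _ (hem θ)) hc
  have p2 := pars (cf g) (fun n => n * cf g n) (fun θ => g (DD.em θ)) (fun θ => DD.em θ * deriv g (DD.em θ)) ha hb
    (fun θ => hs0 _ (hem θ)) (fun θ => hs1 _ (hem θ)) hX
  have p3 := pars (fun n => n * cf g n) (fun n => n * cf g n) (fun θ => DD.em θ * deriv g (DD.em θ))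
    (fun θ => DD.em θ * deriv g (DD.em θ)) hb hb (fun θ => hs1 _ (hem θ)) (fun θ => hs1 _ (hem θ)) hX
  -- continuity
  have hcc : Continuous fun θ : ℝ => (starRingEnd ℂ) (g (DD.em θ)) := Complex.continuous_conj.comp hc
  have hXc : Continuous fun θ : ℝ => (starRingEnd ℂ) (DD.em θ * deriv g (DD.em θ)) :=
    Complex.continuous_conj.comp hX
  obtain ⟨P, hP⟩ : ∃ P : ℝ → ℂ, P = fun θ => 1 / 4 * (g (DD.em θ) * (starRingEnd ℂ) (g (DD.em θ))) -
      1 / 2 * (g (DD.em θ) * (starRingEnd ℂ) (DD.em θ * deriv g (DD.em θ))) +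
      1 / 8 * (DD.em θ * deriv g (DD.em θ) * (starRingEnd ℂ) (DD.em θ * deriv g (DD.em θ))) := ⟨_, rfl⟩
  obtain ⟨M, hM⟩ : ∃ M : ℝ → ℂ, M = fun θ => 3 / 4 * (DD.em θ * g (DD.em θ)) ^ 2 +
      1 / 2 * ((DD.em θ * g (DD.em θ)) * (DD.em θ ^ 2 * deriv g (DD.em θ))) +
      1 / 8 * (DD.em θ ^ 2 * deriv g (DD.em θ)) ^ 2 := ⟨_, rfl⟩
  obtain ⟨B, hB⟩ : ∃ B : ℝ → ℂ, B = fun θ => DD.em θ ^ 2 * BB (DD.em θ * g (DD.em θ))
      (DD.em θ ^ 2 * deriv g (DD.em θ)) := ⟨_, rfl⟩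
  have hPc : Continuous P := by
    rw [hP]
    exact ((continuous_const.mul (hc.mul hcc)).sub (continuous_const.mul (hc.mul hXc))).add
      (continuous_const.mul (hX.mul hXc))
  have hMc : Continuous M := by
    rw [hM]
    exact ((continuous_const.mul ((hce.mul hc).pow 2)).add (continuous_const.mul
      ((hce.mul hc).mul ((hce.pow 2).mul hd)))).add (continuous_const.mul (((hce.pow 2).mul hd).pow 2))
  have hBB : Continuous fun v : ℂ × ℂ => BB v.1 v.2 := by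
    have h1 : (fun v : ℂ × ℂ => BB v.1 v.2) = fun v : ℂ × ℂ =>
        ((((v.1.re ^ 2 - 4 * v.1.im ^ 2) / 2 - (v.1.re ^ 2 + v.1.im ^ 2) - v.1.re * v.2.re + v.2.im ^ 2 / 4 : ℝ) : ℂ)) +
        (((-(2 * v.1.re * v.1.im - (v.2.re * v.1.im - v.2.im * v.1.re) - 2 * v.1.im * v.2.re) : ℝ) : ℂ)) * Complex.I := by
      funext v
      exact (Complex.mk_eq_add_mul_I _ _)
    rw [h1]
    fun_prop
  have hBc : Continuous B := by
    rw [hB]
    exact (hce.pow 2).mul (hBB.comp ((hce.mul hc).prodMk ((hce.pow 2).mul hd)))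
  have hMi : ∫ θ in (0 : ℝ)..(2 * Real.pi), M θ = 0 := by
    have hG : Good (fun z => 3 / 4 * (z * g z) ^ 2 + 1 / 2 * ((z * g z) * (z ^ 2 * deriv g z)) +
        1 / 8 * (z ^ 2 * deriv g z) ^ 2) ρ := by
      refine ⟨h.one_lt, ?_⟩
      have h1 := h.hol
      have h2 := (UpI.good_deriv g ρ h).hol
      fun_prop
    have h1 := mv _ ρ hG
    rw [hM]
    rw [h1]
    simp
  refine ⟨(∫ θ in (0 : ℝ)..(2 * Real.pi), (P θ).re) / Real.pi, ∫ θ in (0 : ℝ)..(2 * Real.pi), B θ, ?_, ?_⟩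
  · have i1 : ∫ θ in (0 : ℝ)..(2 * Real.pi), P θ =
        1 / 4 * (∫ θ in (0 : ℝ)..(2 * Real.pi), g (DD.em θ) * (starRingEnd ℂ) (g (DD.em θ))) -
        1 / 2 * (∫ θ in (0 : ℝ)..(2 * Real.pi), g (DD.em θ) * (starRingEnd ℂ) (DD.em θ * deriv g (DD.em θ))) +
        1 / 8 * (∫ θ in (0 : ℝ)..(2 * Real.pi), DD.em θ * deriv g (DD.em θ) *
          (starRingEnd ℂ) (DD.em θ * deriv g (DD.em θ))) := by
      rw [hP, ← intervalIntegral.integral_const_mul, ← intervalIntegral.integral_const_mul,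
        ← intervalIntegral.integral_const_mul, ← intervalIntegral.integral_sub,
        ← intervalIntegral.integral_add]
      · exact ((continuous_const.mul (hc.mul hcc)).sub
          (continuous_const.mul (hc.mul hXc))).intervalIntegrable _ _
      · exact (continuous_const.mul (hX.mul hXc)).intervalIntegrable _ _
      · exact (continuous_const.mul (hc.mul hcc)).intervalIntegrable _ _
      · exact (continuous_const.mul (hc.mul hXc)).intervalIntegrable _ _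
    have h4 := ((p1.mul_left (1 / 4 : ℂ)).sub (p2.mul_left (1 / 2 : ℂ))).add (p3.mul_left (1 / 8 : ℂ))
    rw [← i1] at h4
    have h5 := Complex.hasSum_re h4
    have h6 : (∫ θ in (0 : ℝ)..(2 * Real.pi), P θ).re = ∫ θ in (0 : ℝ)..(2 * Real.pi), (P θ).re :=
      (Complex.reCLM.intervalIntegral_comp_comm (hPc.intervalIntegrable 0 (2 * Real.pi))).symm
    rw [h6] at h5
    have h7 := h5.div_const Real.pi
    refine (funext fun n => ?_ : _ = fun n : ℕ => ‖cf g n‖ ^ 2 * (1 / 2 - (n : ℝ) + (n : ℝ) ^ 2 / 4)) ▸ h7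
    have h8 : 1 / 4 * (2 * (Real.pi : ℂ) * (cf g n * (starRingEnd ℂ) (cf g n))) -
        1 / 2 * (2 * Real.pi * (cf g n * (starRingEnd ℂ) (n * cf g n))) +
        1 / 8 * (2 * Real.pi * (n * cf g n * (starRingEnd ℂ) (n * cf g n))) =
        ((Real.pi * (‖cf g n‖ ^ 2 * (1 / 2 - n + (n : ℝ) ^ 2 / 4)) : ℝ) : ℂ) := by
      have h9 : cf g n * (starRingEnd ℂ) (cf g n) = ((‖cf g n‖ ^ 2 : ℝ) : ℂ) := by
        rw [Complex.mul_conj, Complex.normSq_eq_norm_sq]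
      rw [map_mul, Complex.conj_natCast]
      push_cast at h9 ⊢
      rw [← h9]
      ring
    rw [h8, Complex.ofReal_re]
    field_simp
  · intro ζ hζ
    have h4 : ∀ θ : ℝ, u1 g ζ θ ^ 2 + L0 ζ θ * (kk g ζ (ep θ) * g (DD.em θ)).re +
        2 * L0 ζ θ * u1 g ζ θ * b1 g θ + L0 ζ θ ^ 2 * b2 g θ =
        ((P θ).re - (M θ).re) + (B θ * ζ ^ 2).re := by
      intro θ
      rw [kk_ep h]
      unfold u1 L0 b1 b2 xx g2
      rw [gh_ep, ep_eq, hP, hM, hB]
      exact pt (DD.em θ) (g (DD.em θ)) (deriv g (DD.em θ)) ζ (em_mul θ) hζ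
    unfold Nq
    rw [intervalIntegral.integral_congr fun θ _ => h4 θ]
    have hPi : IntervalIntegrable (fun θ => (P θ).re) volume 0 (2 * Real.pi) :=
      (Complex.continuous_re.comp hPc).intervalIntegrable _ _
    have hMi' : IntervalIntegrable (fun θ => (M θ).re) volume 0 (2 * Real.pi) :=
      (Complex.continuous_re.comp hMc).intervalIntegrable _ _
    have hBi : IntervalIntegrable (fun θ => (B θ * ζ ^ 2).re) volume 0 (2 * Real.pi) :=
      (Complex.continuous_re.comp (hBc.mul continuous_const)).intervalIntegrable _ _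
    rw [intervalIntegral.integral_add (hPi.sub hMi') hBi, intervalIntegral.integral_sub hPi hMi']
    have h5 : ∫ θ in (0 : ℝ)..(2 * Real.pi), (M θ).re = 0 := by
      have h10 : IntervalIntegrable M volume 0 (2 * Real.pi) := hMc.intervalIntegrable _ _
      have h6 := Complex.reCLM.intervalIntegral_comp_comm h10
      rw [hMi] at h6
      simpa using h6
    have h7 : ∫ θ in (0 : ℝ)..(2 * Real.pi), (B θ * ζ ^ 2).re =
        ((∫ θ in (0 : ℝ)..(2 * Real.pi), B θ) * ζ ^ 2).re := by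
      have h9 : IntervalIntegrable (fun θ => B θ * ζ ^ 2) volume 0 (2 * Real.pi) :=
        (hBc.mul continuous_const).intervalIntegrable _ _
      have h8 := Complex.reCLM.intervalIntegral_comp_comm h9
      rw [intervalIntegral.integral_mul_const] at h8
      exact h8
    rw [h5, h7, sub_zero, mul_div_cancel₀ _ Real.pi_ne_zero]

end Pool.Agent.H74.DE
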