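import Pool.Agent.H74.DE.Fr
import Pool.Agent.H74.DD.ArA

set_option autoImplicit false

/-!
# [H74 DE Rad2] second order radial bound of the deformed disk (helper54)
-/

namespace Pool.Agent.H74.DE

open MeasureTheory Set Filter Topology Pool.Agent.H74.SX Pool.Agent.H74.DD

namespace Rad2

theorem taylor (g : ℂ → ℂ) (ρ : ℝ) (h : Good g ρ) (s : ℝ) (hsρ : s < ρ) :
    ∃ M : ℝ, 0 < M ∧ ∀ a b : ℂ, ‖a‖ ≤ s → ‖b‖ ≤ s → ‖g b - g a - deriv g a * (b - a)‖ ≤ M * ‖b - a‖ ^ 2 := by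
  have hsub : Metric.closedBall (0 : ℂ) s ⊆ Metric.ball 0 ρ := Metric.closedBall_subset_ball hsρ
  have hd := h.hol
  have hd1 : DifferentiableOn ℂ (deriv g) (Metric.ball 0 ρ) := hd.deriv Metric.isOpen_ball
  obtain ⟨M0, hM0⟩ := (isCompact_closedBall (0 : ℂ) s).exists_bound_of_continuousOn
    (((hd1.deriv Metric.isOpen_ball).continuousOn).mono hsub)
  obtain ⟨M, hM, hM1⟩ : ∃ M : ℝ, 0 < M ∧ M0 ≤ M :=
    ⟨|M0| + 1, by positivity, (le_abs_self _).trans (by linarith)⟩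
  refine ⟨M, hM, fun a b ha hb => ?_⟩
  have hab : segment ℝ a b ⊆ Metric.closedBall (0 : ℂ) s :=
    (convex_closedBall (0 : ℂ) s).segment_subset (by simpa using ha) (by simpa using hb)
  have hda : ∀ x ∈ Metric.closedBall (0 : ℂ) s, DifferentiableAt ℂ g x := fun x hx =>
    hd.differentiableAt (Metric.isOpen_ball.mem_nhds (hsub hx))
  have hda1 : ∀ x ∈ Metric.closedBall (0 : ℂ) s, DifferentiableAt ℂ (deriv g) x := fun x hx =>
    hd1.differentiableAt (Metric.isOpen_ball.mem_nhds (hsub hx))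
  have hl : ∀ x ∈ segment ℝ a b, ‖deriv g x - deriv g a‖ ≤ M * ‖b - a‖ := by
    intro x hx
    have h1 := (convex_closedBall (0 : ℂ) s).norm_image_sub_le_of_norm_deriv_le (f := deriv g)
      (C := M) (x := a) (y := x) (fun y hy => hda1 y hy) (fun y hy => (hM0 y hy).trans hM1)
      (by simpa using ha) (hab hx)
    refine h1.trans ?_
    gcongr
    have h2 := (segment_subset_closedBall_left a b) hx
    rw [Metric.mem_closedBall, dist_eq_norm, dist_eq_norm] at h2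
    rwa [norm_sub_rev a b] at h2
  have hmain := (convex_segment (𝕜 := ℝ) a b).norm_image_sub_le_of_norm_deriv_le
    (f := fun z => g z - deriv g a * z) (C := M * ‖b - a‖) (x := a) (y := b)
    (fun y hy => (hda y (hab hy)).sub ((differentiableAt_id).const_mul _)) (fun y hy => by
      have : deriv (fun z => g z - deriv g a * z) y = deriv g y - deriv g a := by
        have h3 := ((hda y (hab hy)).hasDerivAt).sub ((hasDerivAt_id y).const_mul (deriv g a))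
        rw [mul_one] at h3
        exact h3.deriv
      rw [this]
      exact hl y hy) (left_mem_segment ℝ a b) (right_mem_segment ℝ a b)
  have e1 : (g b - deriv g a * b) - (g a - deriv g a * a) = g b - g a - deriv g a * (b - a) := by
    ring
  rw [e1] at hmain
  calc _ ≤ _ := hmain
    _ = _ := by ring

end Rad2

open Rad2 in
theorem rad2 : Rad2Stmt := by
  intro g ρ hg0
  obtain ⟨hg, hz0, -⟩ := hg0
  obtain ⟨C₁, ε₁, hC₁, hε₁, hA⟩ := arA g ρ hg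
  obtain ⟨h1, hd⟩ := id hg
  obtain ⟨s, hs1, hsρ⟩ := exists_between h1
  have hs0 : 0 < s := by linarith
  have hsub : Metric.closedBall (0 : ℂ) s ⊆ Metric.ball 0 ρ := Metric.closedBall_subset_ball hsρ
  obtain ⟨K0, hK0⟩ := (isCompact_closedBall (0 : ℂ) s).exists_bound_of_continuousOn
    (((hd.deriv Metric.isOpen_ball).continuousOn).mono hsub)
  obtain ⟨K, hK, hK1⟩ : ∃ K : ℝ, 0 < K ∧ K0 ≤ K :=
    ⟨|K0| + 1, by positivity, (le_abs_self _).trans (by linarith)⟩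
  have hLip : ∀ a b : ℂ, ‖a‖ ≤ s → ‖b‖ ≤ s → ‖g a - g b‖ ≤ K * ‖a - b‖ := by
    intro a b ha hb
    refine (convex_closedBall (0 : ℂ) s).norm_image_sub_le_of_norm_deriv_le (f := g)
      (fun x hx => ?_) (fun x hx => (hK0 x hx).trans hK1) ?_ ?_
    · exact hd.differentiableAt (Metric.isOpen_ball.mem_nhds (hsub hx))
    · simpa using hb
    · simpa using ha
  obtain ⟨G, hGdef⟩ : ∃ G : ℝ, G = K * s := ⟨_, rfl⟩
  have hG0 : 0 < G := by rw [hGdef]; positivity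
  have hG : ∀ a : ℂ, ‖a‖ ≤ s → ‖g a - g 0‖ ≤ G := by
    intro a ha
    refine (hLip a 0 ha (by simpa using hs0.le)).trans ?_
    rw [sub_zero, hGdef]
    gcongr
  have hG' : ∀ a : ℂ, ‖a‖ ≤ s → ‖g a‖ ≤ G := by
    intro a ha
    have := hG a ha
    rwa [hz0, sub_zero] at this
  obtain ⟨M, hM, hT⟩ := taylor g ρ hg s hsρ
  have hs2 : 0 < 1 - 1 / s := by
    rw [sub_pos, div_lt_one hs0]
    exact hs1
  -- constants
  obtain ⟨Q, hQ⟩ : ∃ Q : ℝ, Q = G ^ 2 / 2 + G * K := ⟨_, rfl⟩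
  have hQ0 : 0 < Q := by rw [hQ]; positivity
  obtain ⟨C₃, hC₃⟩ : ∃ C₃ : ℝ, C₃ = C₁ + Q := ⟨_, rfl⟩
  have hC₃0 : 0 < C₃ := by rw [hC₃]; positivity
  obtain ⟨c₁, hc₁⟩ : ∃ c₁ : ℝ, c₁ = 2 * G + C₃ := ⟨_, rfl⟩
  have hc₁0 : 0 < c₁ := by rw [hc₁]; positivity
  obtain ⟨c₂, hc₂⟩ : ∃ c₂ : ℝ, c₂ = C₃ + K * (s * c₁) := ⟨_, rfl⟩
  have hc₂0 : 0 < c₂ := by rw [hc₂]; positivity
  obtain ⟨c₃, hc₃⟩ : ∃ c₃ : ℝ, c₃ = c₂ + s * c₁ ^ 2 := ⟨_, rfl⟩
  have hc₃0 : 0 < c₃ := by rw [hc₃]; positivity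
  obtain ⟨c₄, hc₄⟩ : ∃ c₄ : ℝ, c₄ = M * (s * c₁) ^ 2 + K * c₃ := ⟨_, rfl⟩
  have hc₄0 : 0 < c₄ := by rw [hc₄]; positivity
  obtain ⟨C₇, hC₇⟩ : ∃ C₇ : ℝ, C₇ = G * K + c₄ := ⟨_, rfl⟩
  have hC₇0 : 0 < C₇ := by rw [hC₇]; positivity
  refine ⟨c₄ + G * C₇ + 1, min ε₁ (min 1 (min (1 / (2 * (K * s ^ 2)))
    (min ((1 - 1 / s) / (2 * G + Q)) (1 / (G + 1))))), by positivity, by positivity, ?_⟩
  intro ε hε hlt φ t ht hin
  have k1 : ε < ε₁ := hlt.trans_le (min_le_left _ _)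
  have k2 : ε < 1 := hlt.trans_le ((min_le_right _ _).trans (min_le_left _ _))
  have k3 : ε < 1 / (2 * (K * s ^ 2)) :=
    hlt.trans_le ((min_le_right _ _).trans ((min_le_right _ _).trans (min_le_left _ _)))
  have k4 : ε < (1 - 1 / s) / (2 * G + Q) :=
    hlt.trans_le ((min_le_right _ _).trans ((min_le_right _ _).trans ((min_le_right _ _).trans
      (min_le_left _ _))))
  have k5 : ε < 1 / (G + 1) :=
    hlt.trans_le ((min_le_right _ _).trans ((min_le_right _ _).trans ((min_le_right _ _).trans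
      (min_le_right _ _))))
  rw [lt_div_iff₀ (by positivity)] at k3 k4 k5
  by_contra hc
  push Not at hc
  obtain ⟨e, he⟩ : ∃ e : ℂ, e = ep φ := ⟨_, rfl⟩
  have hen : ‖e‖ = 1 := by rw [he, ep, Complex.norm_exp_ofReal_mul_I]
  have hem : DD.em φ = e⁻¹ := by rw [he, DD.em, ep, Complex.exp_neg]
  have hein : ‖e⁻¹‖ = 1 := by rw [norm_inv, hen, inv_one]
  have he0 : e ≠ 0 := by
    rw [he]
    exact Complex.exp_ne_zero _
  have heis : ‖e⁻¹‖ ≤ s := by rw [hein]; exact hs1.le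
  -- the numbers q, p, x
  obtain ⟨q, hq⟩ : ∃ q : ℝ, q = qq g φ := ⟨_, rfl⟩
  obtain ⟨p, hp⟩ : ∃ p : ℝ, p = pp g φ := ⟨_, rfl⟩
  obtain ⟨x, hx⟩ : ∃ x : ℂ, x = xx g φ := ⟨_, rfl⟩
  have hq' : q = (e⁻¹ * g e⁻¹).re := by rw [hq, qq, hem]
  have hp' : p = (e⁻¹ * g e⁻¹).im := by rw [hp, pp, hem]
  have hx' : x = e⁻¹ ^ 2 * deriv g e⁻¹ := by rw [hx, xx, hem]
  have hqp : (q : ℂ) + p * Complex.I = e⁻¹ * g e⁻¹ := by
    rw [hq', hp']
    exact Complex.re_add_im _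
  have hnorm : ‖e⁻¹ * g e⁻¹‖ ≤ G := by
    rw [norm_mul, hein, one_mul]
    exact hG' _ heis
  have hqG : |q| ≤ G := by rw [hq']; exact (Complex.abs_re_le_norm _).trans hnorm
  have hpG : |p| ≤ G := by rw [hp']; exact (Complex.abs_im_le_norm _).trans hnorm
  have hdK : ‖deriv g e⁻¹‖ ≤ K := (hK0 _ (by simpa using heis)).trans hK1
  have hxK : ‖x‖ ≤ K := by
    rw [hx', norm_mul, norm_pow, hein, one_pow, one_mul]
    exact hdK
  have hxi : |x.im| ≤ K := (Complex.abs_im_le_norm _).trans hxK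
  have hxr : |x.re| ≤ K := (Complex.abs_re_le_norm _).trans hxK
  have hq2 : q2 g φ = -(p ^ 2) / 2 - p * x.im := by rw [q2, hp, hx]
  have hpx : |p * x.im| ≤ G * K := by
    rw [abs_mul]
    exact mul_le_mul hpG hxi (abs_nonneg _) hG0.le
  have hp2 : p ^ 2 ≤ G ^ 2 := by
    rw [← sq_abs p]
    exact pow_le_pow_left₀ (abs_nonneg _) hpG 2
  have hq2b : -Q ≤ q2 g φ := by
    rw [hq2, hQ]
    have := (abs_le.1 hpx).2
    linarith
  rw [← hq] at hc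
  have hup : t < 1 + ε * q + C₁ * ε ^ 2 := by
    have h3 := hA ε hε k1 φ t ht (by
      rw [hz0, mul_zero, zero_add]
      exact hin)
    rw [hz0, sub_zero, hem, ← hq'] at h3
    exact h3
  apply hin
  have hCe : 0 ≤ (c₄ + G * C₇ + 1) * ε ^ 3 := by positivity
  have ht1 : |t - 1 - ε * q| ≤ C₃ * ε ^ 2 := by
    have a1 := mul_nonneg hC₁.le (sq_nonneg ε)
    have a2 := mul_le_mul_of_nonneg_left hq2b (sq_nonneg ε)
    have a3 := mul_nonneg hQ0.le (sq_nonneg ε)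
    rw [abs_le, hC₃]
    constructor
    · linarith
    · linarith
  have he2 : ε ^ 2 ≤ ε := by
    rw [pow_two]
    exact mul_le_of_le_one_left hε.le k2.le
  have hεq : |ε * q| ≤ ε * G := by
    rw [abs_mul, abs_of_pos hε]
    gcongr
  have ht2 : |t - 1| ≤ ε * (G + C₃) := by
    have h3 : |t - 1| ≤ |t - 1 - ε * q| + |ε * q| := by
      have := abs_add_le (t - 1 - ε * q) (ε * q)
      rwa [sub_add_cancel] at this
    have h4 : C₃ * ε ^ 2 ≤ C₃ * ε := by gcongr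
    linarith
  have ht3 : 1 / s ≤ t - ε * G := by
    have h3 := mul_le_mul_of_nonneg_left hq2b (sq_nonneg ε)
    have h4 := (abs_le.1 hεq).1
    have h5 : Q * ε ^ 2 ≤ Q * ε := by gcongr
    linarith
  obtain ⟨w, hws, hw⟩ := ArA.fixed g s K G ε t e hs1 hK hε hen hLip hG (by linarith) ht3
  rw [hz0, sub_zero] at hw
  have hwi : ‖w⁻¹‖ ≤ s := by
    rw [norm_inv]
    have : 0 < 1 / s := by positivity
    have h3 := inv_anti₀ this hws
    simpa using h3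
  have hw0 : w ≠ 0 := by
    rintro rfl
    rw [norm_zero] at hws
    have : 0 < 1 / s := by positivity
    linarith
  -- first order
  have w1 : ‖w - e‖ ≤ ε * c₁ := by
    have e1 : w - e = ((t - 1 : ℝ) : ℂ) * e - ε * g w⁻¹ := by
      conv_lhs => rw [hw]
      push_cast
      ring
    rw [e1]
    refine (norm_sub_le _ _).trans ?_
    rw [norm_mul, hen, mul_one, Complex.norm_real, Real.norm_eq_abs, norm_mul,
      Complex.norm_of_nonneg hε.le]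
    have h9 : ε * ‖g w⁻¹‖ ≤ ε * G := mul_le_mul_of_nonneg_left (hG' _ hwi) hε.le
    rw [hc₁]
    linarith
  have w2 : ‖w⁻¹ - e⁻¹‖ ≤ s * (ε * c₁) := by
    have e2 : w⁻¹ - e⁻¹ = w⁻¹ * e⁻¹ * (e - w) := by
      field_simp
    rw [e2, norm_mul, norm_mul, hein, mul_one, norm_sub_rev e w]
    gcongr
  have w3 : ‖g w⁻¹ - g e⁻¹‖ ≤ K * (s * (ε * c₁)) := (hLip _ _ hwi heis).trans (by gcongr)
  -- second order
  have w4 : ‖w - e + ε * p * Complex.I * e‖ ≤ ε ^ 2 * c₂ := by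
    have e1 : w - e + ε * p * Complex.I * e =
        ((t - 1 - ε * q : ℝ) : ℂ) * e - ε * (g w⁻¹ - g e⁻¹) := by
      have h3 : g e⁻¹ = e * ((q : ℂ) + p * Complex.I) := by
        rw [hqp]
        field_simp
      conv_lhs => rw [hw]
      rw [h3]
      push_cast
      ring
    rw [e1]
    refine (norm_sub_le _ _).trans ?_
    rw [norm_mul, hen, mul_one, Complex.norm_real, Real.norm_eq_abs, norm_mul,
      Complex.norm_of_nonneg hε.le, hc₂]
    have h9 : ε * ‖g w⁻¹ - g e⁻¹‖ ≤ ε * (K * (s * (ε * c₁))) :=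
      mul_le_mul_of_nonneg_left w3 hε.le
    linarith
  have w5 : ‖w⁻¹ - e⁻¹ - ε * p * Complex.I * e⁻¹‖ ≤ ε ^ 2 * c₃ := by
    have e2 : w⁻¹ - e⁻¹ - ε * p * Complex.I * e⁻¹ =
        -(e⁻¹ ^ 2 * (w - e + ε * p * Complex.I * e)) - (w⁻¹ - e⁻¹) * (e⁻¹ * (w - e)) := by
      field_simp
      ring
    rw [e2]
    refine (norm_sub_le _ _).trans ?_
    rw [norm_neg, norm_mul, norm_pow, hein, one_pow, one_mul, norm_mul, norm_mul, hein, one_mul]
    have h9 : ‖w⁻¹ - e⁻¹‖ * ‖w - e‖ ≤ s * (ε * c₁) * (ε * c₁) := by gcongr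
    rw [hc₃]
    linarith
  have w6 : ‖g w⁻¹ - g e⁻¹ - ε * p * Complex.I * e⁻¹ * deriv g e⁻¹‖ ≤ ε ^ 2 * c₄ := by
    have e2 : g w⁻¹ - g e⁻¹ - ε * p * Complex.I * e⁻¹ * deriv g e⁻¹ =
        (g w⁻¹ - g e⁻¹ - deriv g e⁻¹ * (w⁻¹ - e⁻¹)) +
          deriv g e⁻¹ * (w⁻¹ - e⁻¹ - ε * p * Complex.I * e⁻¹) := by
      ring
    rw [e2]
    refine (norm_add_le _ _).trans ?_
    rw [norm_mul]
    have h9 := hT e⁻¹ w⁻¹ heis hwi
    have h10 : M * ‖w⁻¹ - e⁻¹‖ ^ 2 ≤ M * (s * (ε * c₁)) ^ 2 := by gcongr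
    have h11 : ‖deriv g e⁻¹‖ * ‖w⁻¹ - e⁻¹ - ε * p * Complex.I * e⁻¹‖ ≤ K * (ε ^ 2 * c₃) := by
      gcongr
    rw [hc₄]
    have h12 : M * (s * (ε * c₁)) ^ 2 + K * (ε ^ 2 * c₃) =
        ε ^ 2 * (M * (s * c₁) ^ 2 + K * c₃) := by ring
    linarith
  -- v = e⁻¹ w
  obtain ⟨τ, hτ⟩ : ∃ τ : ℂ, τ = -(ε * (e⁻¹ * (g w⁻¹ - g e⁻¹ - ε * p * Complex.I * e⁻¹ * deriv g e⁻¹))) :=
    ⟨_, rfl⟩
  have hτn : ‖τ‖ ≤ ε ^ 3 * c₄ := by
    rw [hτ, norm_neg, norm_mul, Complex.norm_of_nonneg hε.le, norm_mul, hein, one_mul]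
    have := mul_le_mul_of_nonneg_left w6 hε.le
    calc _ ≤ _ := this
      _ = _ := by ring
  have hv : e⁻¹ * w = ((t - ε * q : ℝ) : ℂ) - ((ε * p : ℝ) : ℂ) * Complex.I -
      ((ε ^ 2 * p : ℝ) : ℂ) * Complex.I * x + τ := by
    rw [hτ, hx']
    conv_lhs => rw [hw]
    have h3 : g e⁻¹ = e * ((q : ℂ) + p * Complex.I) := by
      rw [hqp]
      field_simp
    have h4 : e⁻¹ * g e⁻¹ = (q : ℂ) + p * Complex.I := hqp.symm
    have h5 : e⁻¹ * (t * e) = t := by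
      field_simp
    push_cast
    linear_combination h5 - (ε : ℂ) * h4
  have hre : (e⁻¹ * w).re = t - ε * q + ε ^ 2 * p * x.im + τ.re := by
    rw [hv]
    simp only [Complex.add_re, Complex.sub_re, Complex.mul_re, Complex.ofReal_re,
      Complex.ofReal_im, Complex.I_re, Complex.I_im, Complex.mul_im]
    ring
  have him : (e⁻¹ * w).im = -(ε * p) - ε ^ 2 * p * x.re + τ.im := by
    rw [hv]
    simp only [Complex.add_im, Complex.sub_im, Complex.mul_re, Complex.ofReal_re,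
      Complex.ofReal_im, Complex.I_re, Complex.I_im, Complex.mul_im]
    ring
  have hτr := abs_le.1 ((Complex.abs_re_le_norm τ).trans hτn)
  have hτi := (Complex.abs_im_le_norm τ).trans hτn
  have hvn : ‖e⁻¹ * w‖ = ‖w‖ := by rw [norm_mul, hein, one_mul]
  have hsq : ‖w‖ ^ 2 = (e⁻¹ * w).re ^ 2 + (e⁻¹ * w).im ^ 2 := by
    rw [← hvn, Complex.sq_norm, Complex.normSq_apply]
    ring
  obtain ⟨y, hy⟩ : ∃ y : ℝ, y = -(ε ^ 2 * p ^ 2 / 2) + (G * C₇ + 1) * ε ^ 3 := ⟨_, rfl⟩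
  have hR : 1 + y ≤ (e⁻¹ * w).re := by
    rw [hre, hy]
    rw [hq2] at hc
    have h3 := hτr.1
    linarith
  have hεG : ε * |p| ≤ 1 := by
    have : ε * |p| ≤ ε * G := by gcongr
    linarith
  have hy0 : 0 ≤ 1 + y := by
    rw [hy]
    have h3 : (ε * |p|) ^ 2 ≤ 1 := pow_le_one₀ (by positivity) hεG
    rw [mul_pow, sq_abs] at h3
    have h4 : 0 ≤ (G * C₇ + 1) * ε ^ 3 := by positivity
    linarith
  have hR2 : 1 + 2 * y ≤ (e⁻¹ * w).re ^ 2 := by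
    have h3 : (1 + y) ^ 2 ≤ (e⁻¹ * w).re ^ 2 := pow_le_pow_left₀ hy0 hR 2
    have h4 := sq_nonneg y
    linarith
  have hI : ε ^ 2 * p ^ 2 - 2 * G * C₇ * ε ^ 3 ≤ (e⁻¹ * w).im ^ 2 := by
    obtain ⟨d, hd'⟩ : ∃ d : ℝ, d = - ε ^ 2 * p * x.re + τ.im := ⟨_, rfl⟩
    have h3 : |d| ≤ C₇ * ε ^ 2 := by
      rw [hd', hC₇]
      have h4 : |(- ε ^ 2 * p * x.re)| ≤ ε ^ 2 * (G * K) := by
        rw [abs_mul, abs_mul, abs_neg, abs_of_nonneg (sq_nonneg ε), mul_assoc]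
        gcongr
      have h5 : ε ^ 3 * c₄ ≤ ε ^ 2 * c₄ := by
        have : ε ^ 3 ≤ ε ^ 2 := by
          rw [pow_succ]
          exact mul_le_of_le_one_right (sq_nonneg ε) k2.le
        gcongr
      have h6 := abs_add_le (- ε ^ 2 * p * x.re) τ.im
      linarith
    have h7 : (e⁻¹ * w).im = -(ε * p) + d := by rw [him, hd']; ring
    rw [h7]
    have h8 : |ε * p * d| ≤ ε * G * (C₇ * ε ^ 2) := by
      rw [abs_mul, abs_mul, abs_of_pos hε]
      gcongr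
    have h9 := (abs_le.1 h8).2
    have h10 := sq_nonneg d
    linarith
  refine ⟨w, ?_, ?_⟩
  · show 1 ≤ ‖w‖
    have h3 : 1 ≤ ‖w‖ ^ 2 := by
      rw [hsq]
      rw [hy] at hR2
      have : 0 ≤ ε ^ 3 := by positivity
      linarith
    by_contra hlt'
    push Not at hlt'
    have h4 : ‖w‖ ^ 2 < 1 := pow_lt_one₀ (norm_nonneg w) hlt' two_ne_zero
    linarith
  · show w + ε * g w⁻¹ = t * ep φ
    rw [← he]
    have h15 : w + ε * g w⁻¹ = t * e := by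
      conv_lhs => enter [1]; rw [hw]
      ring
    exact h15

end Pool.Agent.H74.DE
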