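import Pool.Agent.H74.DE.Fr
import Pool.Agent.H74.SX.St

set_option autoImplicit false

/-!
# [H74 DE StJ] the trace inequality with all modes `j ≤ J` (helper53; after helper30's SX/St and helper69's DD/St2)
-/

namespace Pool.Agent.H74.DE

open MeasureTheory Set Filter Topology Pool.Agent.H74.SX Pool.Agent.H74.DD Pool.Agent.H74.SX.StB

namespace StJP

theorem hc (f : ℝ → ℝ) (hf : Continuous f) : IntervalIntegrable f volume 0 (2 * Real.pi) :=
  hf.intervalIntegrable _ _

theorem sin_per (k : ℤ) : Real.sin (k * (2 * Real.pi)) = 0 := by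
  have e : (k : ℝ) * (2 * Real.pi) = ((2 * k : ℤ) : ℝ) * Real.pi := by
    push_cast
    ring
  rw [e]
  exact Real.sin_int_mul_pi _

theorem i_cos {k : ℤ} (hk : k ≠ 0) : ∫ x in (0 : ℝ)..(2 * Real.pi), Real.cos (k * x) = 0 := by
  have hk' : (k : ℝ) ≠ 0 := by exact_mod_cast hk
  rw [intervalIntegral.integral_comp_mul_left (fun x => Real.cos x) hk', integral_cos, sin_per]
  simp

theorem i_sin (k : ℤ) : ∫ x in (0 : ℝ)..(2 * Real.pi), Real.sin (k * x) = 0 := by
  rcases eq_or_ne k 0 with rfl | hk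
  · simp
  · have hk' : (k : ℝ) ≠ 0 := by exact_mod_cast hk
    rw [intervalIntegral.integral_comp_mul_left (fun x => Real.sin x) hk', integral_sin, Real.cos_int_mul_two_pi]
    simp

theorem i_cc {m n : ℕ} (hm : 1 ≤ m) : ∫ x in (0 : ℝ)..(2 * Real.pi), Real.cos (m * x) * Real.cos (n * x) =
    if m = n then Real.pi else 0 := by
  have e : ∀ x : ℝ, Real.cos (m * x) * Real.cos (n * x) =
      Real.cos (((m : ℤ) - n : ℤ) * x) / 2 + Real.cos (((m : ℤ) + n : ℤ) * x) / 2 := by
    intro x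
    push_cast
    rw [sub_mul, add_mul, Real.cos_sub, Real.cos_add]
    ring
  simp only [e]
  rw [intervalIntegral.integral_add (hc _ (by fun_prop)) (hc _ (by fun_prop)), intervalIntegral.integral_div,
    intervalIntegral.integral_div, i_cos (k := (m : ℤ) + n) (by omega)]
  split_ifs with h
  · subst h
    simp
  · rw [i_cos (k := (m : ℤ) - n) (by omega)]
    simp

theorem i_ss {m n : ℕ} (hm : 1 ≤ m) : ∫ x in (0 : ℝ)..(2 * Real.pi), Real.sin (m * x) * Real.sin (n * x) =
    if m = n then Real.pi else 0 := by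
  have e : ∀ x : ℝ, Real.sin (m * x) * Real.sin (n * x) =
      Real.cos (((m : ℤ) - n : ℤ) * x) / 2 - Real.cos (((m : ℤ) + n : ℤ) * x) / 2 := by
    intro x
    push_cast
    rw [sub_mul, add_mul, Real.cos_sub, Real.cos_add]
    ring
  simp only [e]
  rw [intervalIntegral.integral_sub (hc _ (by fun_prop)) (hc _ (by fun_prop)), intervalIntegral.integral_div,
    intervalIntegral.integral_div, i_cos (k := (m : ℤ) + n) (by omega)]
  split_ifs with h
  · subst h
    simp
  · rw [i_cos (k := (m : ℤ) - n) (by omega)]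
    simp

theorem i_sc (m n : ℕ) : ∫ x in (0 : ℝ)..(2 * Real.pi), Real.sin (m * x) * Real.cos (n * x) = 0 := by
  have e : ∀ x : ℝ, Real.sin (m * x) * Real.cos (n * x) =
      Real.sin (((m : ℤ) - n : ℤ) * x) / 2 + Real.sin (((m : ℤ) + n : ℤ) * x) / 2 := by
    intro x
    push_cast
    rw [sub_mul, add_mul, Real.sin_sub, Real.sin_add]
    ring
  simp only [e]
  rw [intervalIntegral.integral_add (hc _ (by fun_prop)) (hc _ (by fun_prop)), intervalIntegral.integral_div,
    intervalIntegral.integral_div, i_sin, i_sin]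
  simp

/-- Bessel's inequality -/
theorem bess (J : ℕ) (q : ℝ → ℝ) (hq : Continuous q) :
    ∑ j ∈ Finset.Icc 1 J, ((∫ x in (0 : ℝ)..(2 * Real.pi), q x * Real.cos (j * x)) ^ 2 +
      (∫ x in (0 : ℝ)..(2 * Real.pi), q x * Real.sin (j * x)) ^ 2) / Real.pi ≤
      ∫ x in (0 : ℝ)..(2 * Real.pi), q x ^ 2 := by
  have hpp : 0 < Real.pi := Real.pi_pos
  induction J generalizing q with
  | zero =>
    rw [Finset.Icc_eq_empty (by norm_num), Finset.sum_empty]
    exact intervalIntegral.integral_nonneg (by positivity) fun x _ => sq_nonneg _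
  | succ J ih =>
    obtain ⟨a, ha⟩ : ∃ a, a = (∫ x in (0 : ℝ)..(2 * Real.pi), q x * Real.cos ((J + 1 : ℕ) * x)) / Real.pi := ⟨_, rfl⟩
    obtain ⟨b, hb⟩ : ∃ b, b = (∫ x in (0 : ℝ)..(2 * Real.pi), q x * Real.sin ((J + 1 : ℕ) * x)) / Real.pi := ⟨_, rfl⟩
    have hA : ∫ x in (0 : ℝ)..(2 * Real.pi), q x * Real.cos ((J + 1 : ℕ) * x) = Real.pi * a := by
      rw [ha]
      field_simp
    have hB : ∫ x in (0 : ℝ)..(2 * Real.pi), q x * Real.sin ((J + 1 : ℕ) * x) = Real.pi * b := by
      rw [hb]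
      field_simp
    have h := ih (fun x => q x - a * Real.cos ((J + 1 : ℕ) * x) - b * Real.sin ((J + 1 : ℕ) * x)) (by fun_prop)
    have c1 : ∀ j ∈ Finset.Icc 1 J, ∫ x in (0 : ℝ)..(2 * Real.pi),
        (q x - a * Real.cos ((J + 1 : ℕ) * x) - b * Real.sin ((J + 1 : ℕ) * x)) * Real.cos (j * x) =
        ∫ x in (0 : ℝ)..(2 * Real.pi), q x * Real.cos (j * x) := by
      intro j hj
      rw [Finset.mem_Icc] at hj
      have e : ∀ x, (q x - a * Real.cos ((J + 1 : ℕ) * x) - b * Real.sin ((J + 1 : ℕ) * x)) * Real.cos (j * x) =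
          q x * Real.cos (j * x) - a * (Real.cos ((J + 1 : ℕ) * x) * Real.cos (j * x)) -
            b * (Real.sin ((J + 1 : ℕ) * x) * Real.cos (j * x)) := fun x => by ring
      simp only [e]
      rw [intervalIntegral.integral_sub (hc _ (by fun_prop)) (hc _ (by fun_prop)),
        intervalIntegral.integral_sub (hc _ (by fun_prop)) (hc _ (by fun_prop)),
        intervalIntegral.integral_const_mul, intervalIntegral.integral_const_mul, i_cc (by omega), i_sc,
        if_neg (by omega)]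
      ring
    have c2 : ∀ j ∈ Finset.Icc 1 J, ∫ x in (0 : ℝ)..(2 * Real.pi),
        (q x - a * Real.cos ((J + 1 : ℕ) * x) - b * Real.sin ((J + 1 : ℕ) * x)) * Real.sin (j * x) =
        ∫ x in (0 : ℝ)..(2 * Real.pi), q x * Real.sin (j * x) := by
      intro j hj
      rw [Finset.mem_Icc] at hj
      have e : ∀ x, (q x - a * Real.cos ((J + 1 : ℕ) * x) - b * Real.sin ((J + 1 : ℕ) * x)) * Real.sin (j * x) =
          q x * Real.sin (j * x) - a * (Real.sin (j * x) * Real.cos ((J + 1 : ℕ) * x)) -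
            b * (Real.sin ((J + 1 : ℕ) * x) * Real.sin (j * x)) := fun x => by ring
      simp only [e]
      rw [intervalIntegral.integral_sub (hc _ (by fun_prop)) (hc _ (by fun_prop)),
        intervalIntegral.integral_sub (hc _ (by fun_prop)) (hc _ (by fun_prop)),
        intervalIntegral.integral_const_mul, intervalIntegral.integral_const_mul, i_ss (by omega), i_sc,
        if_neg (by omega)]
      ring
    have c3 : ∫ x in (0 : ℝ)..(2 * Real.pi),
        (q x - a * Real.cos ((J + 1 : ℕ) * x) - b * Real.sin ((J + 1 : ℕ) * x)) ^ 2 =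
        (∫ x in (0 : ℝ)..(2 * Real.pi), q x ^ 2) - Real.pi * a ^ 2 - Real.pi * b ^ 2 := by
      have e : ∀ x, (q x - a * Real.cos ((J + 1 : ℕ) * x) - b * Real.sin ((J + 1 : ℕ) * x)) ^ 2 =
          ((((q x ^ 2 - 2 * a * (q x * Real.cos ((J + 1 : ℕ) * x))) - 2 * b * (q x * Real.sin ((J + 1 : ℕ) * x))) +
            a ^ 2 * (Real.cos ((J + 1 : ℕ) * x) * Real.cos ((J + 1 : ℕ) * x))) +
            b ^ 2 * (Real.sin ((J + 1 : ℕ) * x) * Real.sin ((J + 1 : ℕ) * x))) +
            2 * a * b * (Real.sin ((J + 1 : ℕ) * x) * Real.cos ((J + 1 : ℕ) * x)) := fun x => by ring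
      simp only [e]
      rw [intervalIntegral.integral_add (hc _ (by fun_prop)) (hc _ (by fun_prop)),
        intervalIntegral.integral_add (hc _ (by fun_prop)) (hc _ (by fun_prop)),
        intervalIntegral.integral_add (hc _ (by fun_prop)) (hc _ (by fun_prop)),
        intervalIntegral.integral_sub (hc _ (by fun_prop)) (hc _ (by fun_prop)),
        intervalIntegral.integral_sub (hc _ (by fun_prop)) (hc _ (by fun_prop)),
        intervalIntegral.integral_const_mul, intervalIntegral.integral_const_mul,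
        intervalIntegral.integral_const_mul, intervalIntegral.integral_const_mul,
        intervalIntegral.integral_const_mul, i_cc (by omega), i_ss (by omega), i_sc, if_pos rfl, hA, hB]
      ring
    have c4 : ∑ j ∈ Finset.Icc 1 J, ((∫ x in (0 : ℝ)..(2 * Real.pi),
        (q x - a * Real.cos ((J + 1 : ℕ) * x) - b * Real.sin ((J + 1 : ℕ) * x)) * Real.cos (j * x)) ^ 2 +
        (∫ x in (0 : ℝ)..(2 * Real.pi),
        (q x - a * Real.cos ((J + 1 : ℕ) * x) - b * Real.sin ((J + 1 : ℕ) * x)) * Real.sin (j * x)) ^ 2) / Real.pi =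
        ∑ j ∈ Finset.Icc 1 J, ((∫ x in (0 : ℝ)..(2 * Real.pi), q x * Real.cos (j * x)) ^ 2 +
        (∫ x in (0 : ℝ)..(2 * Real.pi), q x * Real.sin (j * x)) ^ 2) / Real.pi :=
      Finset.sum_congr rfl fun j hj => by rw [c1 j hj, c2 j hj]
    have h' := h
    rw [c4, c3] at h'
    rw [Finset.sum_Icc_succ_top (by omega), hA, hB]
    have e5 : ((Real.pi * a) ^ 2 + (Real.pi * b) ^ 2) / Real.pi = Real.pi * a ^ 2 + Real.pi * b ^ 2 := by
      field_simp
    rw [e5]
    linarith

theorem cos_per (j : ℕ) : Real.cos (j * (2 * Real.pi)) = 1 := Real.cos_nat_mul_two_pi j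

theorem sin_per' (j : ℕ) : Real.sin (j * (2 * Real.pi)) = 0 := by
  have h := sin_per (j : ℤ)
  exact_mod_cast h

/-- integration by parts against `cos (j x)`, `sin (j x)` -/
theorem parts {f f' : ℝ → ℝ} (hd : ∀ x, HasDerivAt f (f' x) x) (hf' : Continuous f')
    (hp : f (2 * Real.pi) = f 0) (j : ℕ) :
    (∫ x in (0 : ℝ)..(2 * Real.pi), f' x * Real.cos (j * x) =
        j * ∫ x in (0 : ℝ)..(2 * Real.pi), f x * Real.sin (j * x)) ∧
      ∫ x in (0 : ℝ)..(2 * Real.pi), f' x * Real.sin (j * x) =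
        -(j * ∫ x in (0 : ℝ)..(2 * Real.pi), f x * Real.cos (j * x)) := by
  have hfc : Continuous f := continuous_iff_continuousAt.2 fun x => (hd x).continuousAt
  have dc : ∀ x : ℝ, HasDerivAt (fun x : ℝ => Real.cos (j * x)) (-(j * Real.sin (j * x))) x := by
    intro x
    have h1 := (Real.hasDerivAt_cos (j * x)).comp x ((hasDerivAt_id x).const_mul (j : ℝ))
    refine h1.congr_deriv ?_
    simp
    ring
  have ds : ∀ x : ℝ, HasDerivAt (fun x : ℝ => Real.sin (j * x)) (j * Real.cos (j * x)) x := by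
    intro x
    have h1 := (Real.hasDerivAt_sin (j * x)).comp x ((hasDerivAt_id x).const_mul (j : ℝ))
    refine h1.congr_deriv ?_
    simp
    ring
  constructor
  · have h1 : ∀ x ∈ uIcc (0 : ℝ) (2 * Real.pi), HasDerivAt (fun x => f x * Real.cos (j * x))
        (f' x * Real.cos (j * x) + f x * -(j * Real.sin (j * x))) x := fun x _ => (hd x).mul (dc x)
    have h2 := intervalIntegral.integral_eq_sub_of_hasDerivAt h1 (hc _ (by fun_prop))
    rw [intervalIntegral.integral_add (hc _ (by fun_prop)) (hc _ (by fun_prop)), cos_per, hp] at h2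
    have e : ∀ x, f x * -(j * Real.sin (j * x)) = -(j * (f x * Real.sin (j * x))) := fun x => by ring
    simp only [e, intervalIntegral.integral_neg, intervalIntegral.integral_const_mul, mul_zero, Real.cos_zero] at h2
    linarith
  · have h1 : ∀ x ∈ uIcc (0 : ℝ) (2 * Real.pi), HasDerivAt (fun x => f x * Real.sin (j * x))
        (f' x * Real.sin (j * x) + f x * (j * Real.cos (j * x))) x := fun x _ => (hd x).mul (ds x)
    have h2 := intervalIntegral.integral_eq_sub_of_hasDerivAt h1 (hc _ (by fun_prop))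
    rw [intervalIntegral.integral_add (hc _ (by fun_prop)) (hc _ (by fun_prop)), sin_per', hp] at h2
    have e : ∀ x, f x * (j * Real.cos (j * x)) = j * (f x * Real.cos (j * x)) := fun x => by ring
    simp only [e, intervalIntegral.integral_const_mul, mul_zero, Real.sin_zero] at h2
    linarith

end StJP

open StJP in
theorem stJ : StJStmt := by
  intro r V hr hV hper hint J
  obtain ⟨g, hg⟩ : ∃ g : ℂ → ℝ, g = fun ζ => ‖fderiv ℝ V ζ‖ ^ 2 := ⟨_, rfl⟩
  have hVc := hV.continuousOn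
  have hfc := cont_fderiv hV
  have hgc : ContinuousOn g {ζ | r < ζ.re} := by rw [hg]; exact hfc.norm.pow 2
  have h1c : ContinuousOn (fun ζ => fderiv ℝ V ζ 1) {ζ | r < ζ.re} := hfc.clm_apply continuousOn_const
  have h2c : ContinuousOn (fun ζ => fderiv ℝ V ζ Complex.I) {ζ | r < ζ.re} := hfc.clm_apply continuousOn_const
  obtain ⟨E, hE⟩ : ∃ E : ℝ → ℝ, E = fun t : ℝ => ∫ θ in (0 : ℝ)..(2 * Real.pi), g (t + θ * Complex.I) := ⟨_, rfl⟩
  have hstr := strip_integral (h := g) (by rw [hg]; exact hint)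
  rw [← hE] at hstr
  have hpi : (0 : ℝ) < 2 * Real.pi := by positivity
  have hpp : 0 < Real.pi := Real.pi_pos
  have hp0 : Real.pi ≠ 0 := Real.pi_ne_zero
  obtain ⟨A, hA⟩ : ∃ A : ℕ → ℝ → ℝ, A = fun (j : ℕ) (t : ℝ) => ∫ θ in (0 : ℝ)..(2 * Real.pi),
    V (t + θ * Complex.I) * Real.cos (j * θ) := ⟨_, rfl⟩
  obtain ⟨B, hB⟩ : ∃ B : ℕ → ℝ → ℝ, B = fun (j : ℕ) (t : ℝ) => ∫ θ in (0 : ℝ)..(2 * Real.pi),
    V (t + θ * Complex.I) * Real.sin (j * θ) := ⟨_, rfl⟩
  obtain ⟨A', hA'⟩ : ∃ A' : ℕ → ℝ → ℝ, A' = fun (j : ℕ) (t : ℝ) => ∫ θ in (0 : ℝ)..(2 * Real.pi),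
    fderiv ℝ V (t + θ * Complex.I) 1 * Real.cos (j * θ) := ⟨_, rfl⟩
  obtain ⟨B', hB'⟩ : ∃ B' : ℕ → ℝ → ℝ, B' = fun (j : ℕ) (t : ℝ) => ∫ θ in (0 : ℝ)..(2 * Real.pi),
    fderiv ℝ V (t + θ * Complex.I) 1 * Real.sin (j * θ) := ⟨_, rfl⟩
  obtain ⟨G, hG⟩ : ∃ G : ℝ → ℝ, G = fun t : ℝ => ∑ j ∈ Finset.Icc 1 J, (j : ℝ) * (A j t ^ 2 + B j t ^ 2) / Real.pi :=
    ⟨_, rfl⟩
  obtain ⟨G', hG'⟩ : ∃ G' : ℝ → ℝ, G' = fun t : ℝ => ∑ j ∈ Finset.Icc 1 J,
    (j : ℝ) * (2 * A j t * A' j t + 2 * B j t * B' j t) / Real.pi := ⟨_, rfl⟩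
  have hdV : ∀ ζ : ℂ, r < ζ.re → DifferentiableAt ℝ V ζ := fun ζ hζ =>
    (hV.differentiableOn (by norm_num)).differentiableAt ((isOpen_half r).mem_nhds hζ)
  have dA : ∀ j t, r < t → HasDerivAt (A j) (A' j t) t := by
    intro j t ht
    have hcos : ContDiff ℝ 1 fun ζ : ℂ => Real.cos (j * ζ.im) :=
      Real.contDiff_cos.comp (contDiff_const.mul Complex.imCLM.contDiff)
    have d := hasDeriv_int (hV.mul hcos.contDiffOn) ht
    have e1 : A j = fun t : ℝ => ∫ θ in (0 : ℝ)..(2 * Real.pi),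
        (fun ζ => V ζ * Real.cos (j * ζ.im)) (t + θ * Complex.I) := by
      rw [hA]
      funext t
      simp
    rw [e1]
    refine d.congr_deriv ?_
    rw [hA']
    refine intervalIntegral.integral_congr fun θ _ => ?_
    have h3 : HasFDerivAt (fun ζ : ℂ => Real.cos (j * ζ.im))
        ((-Real.sin (j * ((t : ℂ) + θ * Complex.I).im)) • ((j : ℝ) • Complex.imCLM)) ((t : ℂ) + θ * Complex.I) :=
      (Real.hasDerivAt_cos _).comp_hasFDerivAt _ (Complex.imCLM.hasFDerivAt.const_mul (j : ℝ))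
    have h4 := ((hdV ((t : ℂ) + θ * Complex.I) (by simpa using ht)).hasFDerivAt.mul h3).fderiv
    have h5 : fderiv ℝ (fun ζ : ℂ => V ζ * Real.cos (j * ζ.im)) ((t : ℂ) + θ * Complex.I) 1 =
        fderiv ℝ V ((t : ℂ) + θ * Complex.I) 1 * Real.cos (j * θ) := by
      have h6 := congrArg (fun L : ℂ →L[ℝ] ℝ => L 1) h4
      refine h6.trans ?_
      simp
      ring
    exact h5
  have dB : ∀ j t, r < t → HasDerivAt (B j) (B' j t) t := by
    intro j t ht
    have hsin : ContDiff ℝ 1 fun ζ : ℂ => Real.sin (j * ζ.im) :=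
      Real.contDiff_sin.comp (contDiff_const.mul Complex.imCLM.contDiff)
    have d := hasDeriv_int (hV.mul hsin.contDiffOn) ht
    have e1 : B j = fun t : ℝ => ∫ θ in (0 : ℝ)..(2 * Real.pi),
        (fun ζ => V ζ * Real.sin (j * ζ.im)) (t + θ * Complex.I) := by
      rw [hB]
      funext t
      simp
    rw [e1]
    refine d.congr_deriv ?_
    rw [hB']
    refine intervalIntegral.integral_congr fun θ _ => ?_
    have h3 : HasFDerivAt (fun ζ : ℂ => Real.sin (j * ζ.im))
        ((Real.cos (j * ((t : ℂ) + θ * Complex.I).im)) • ((j : ℝ) • Complex.imCLM)) ((t : ℂ) + θ * Complex.I) :=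
      (Real.hasDerivAt_sin _).comp_hasFDerivAt _ (Complex.imCLM.hasFDerivAt.const_mul (j : ℝ))
    have h4 := ((hdV ((t : ℂ) + θ * Complex.I) (by simpa using ht)).hasFDerivAt.mul h3).fderiv
    have h5 : fderiv ℝ (fun ζ : ℂ => V ζ * Real.sin (j * ζ.im)) ((t : ℂ) + θ * Complex.I) 1 =
        fderiv ℝ V ((t : ℂ) + θ * Complex.I) 1 * Real.sin (j * θ) := by
      have h6 := congrArg (fun L : ℂ →L[ℝ] ℝ => L 1) h4
      refine h6.trans ?_
      simp
      ring
    exact h5
  have dG : ∀ t, r < t → HasDerivAt G (G' t) t := by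
    intro t ht
    rw [hG, hG']
    refine HasDerivAt.fun_sum fun j _ => ?_
    have d := ((((dA j t ht).pow 2).add ((dB j t ht).pow 2)).const_mul (j : ℝ)).div_const Real.pi
    refine d.congr_deriv ?_
    simp
  -- Bessel on the line `t`
  have hT1 : ∀ t, r < t → ∑ j ∈ Finset.Icc 1 J, (A' j t ^ 2 + B' j t ^ 2) / Real.pi ≤
      ∫ θ in (0 : ℝ)..(2 * Real.pi), (fderiv ℝ V (t + θ * Complex.I) 1) ^ 2 := by
    intro t ht
    rw [hA', hB']
    exact bess J _ (cont_line h1c ht)
  have hT2 : ∀ t, r < t → ∑ j ∈ Finset.Icc 1 J, (j : ℝ) ^ 2 * (A j t ^ 2 + B j t ^ 2) / Real.pi ≤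
      ∫ θ in (0 : ℝ)..(2 * Real.pi), (fderiv ℝ V (t + θ * Complex.I) Complex.I) ^ 2 := by
    intro t ht
    refine le_trans (le_of_eq ?_) (bess J _ (cont_line h2c ht))
    refine Finset.sum_congr rfl fun j _ => ?_
    have hP : (fun θ : ℝ => V (t + θ * Complex.I)) (2 * Real.pi) = (fun θ : ℝ => V (t + θ * Complex.I)) 0 := by
      show V (t + ((2 * Real.pi : ℝ) : ℂ) * Complex.I) = V (t + ((0 : ℝ) : ℂ) * Complex.I)
      rw [← hper (t + ((0 : ℝ) : ℂ) * Complex.I)]
      congr 1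
      push_cast
      ring
    obtain ⟨p1, p2⟩ := parts (f := fun θ : ℝ => V (t + θ * Complex.I))
      (f' := fun θ : ℝ => fderiv ℝ V (t + θ * Complex.I) Complex.I) (fun θ => hasDeriv_line' hV ht)
      (cont_line h2c ht) hP j
    rw [p1, p2, hA, hB]
    ring
  have hEb : ∀ t, r < t → (∫ θ in (0 : ℝ)..(2 * Real.pi), (fderiv ℝ V (t + θ * Complex.I) Complex.I) ^ 2) +
      (∫ θ in (0 : ℝ)..(2 * Real.pi), (fderiv ℝ V (t + θ * Complex.I) 1) ^ 2) ≤ E t := by
    intro t ht
    have hc1 := cont_line h1c ht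
    have hc2 := cont_line h2c ht
    have hch := cont_line hgc ht
    rw [hE]
    simp only
    rw [← intervalIntegral.integral_add (hc _ (by fun_prop)) (hc _ (by fun_prop))]
    refine intervalIntegral.integral_mono_on hpi.le (hc _ (by fun_prop)) (hch.intervalIntegrable _ _) fun θ _ => ?_
    rw [hg]
    have := sq_le (fderiv ℝ V (t + θ * Complex.I))
    simp only
    linarith
  -- the derivative bound
  have hgE : ∀ t, r < t → -(E t) ≤ G' t := by
    intro t ht
    have a1 := hT1 t ht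
    have a2 := hT2 t ht
    have a3 := hEb t ht
    have a4 : -(∑ j ∈ Finset.Icc 1 J, (A' j t ^ 2 + B' j t ^ 2) / Real.pi +
        ∑ j ∈ Finset.Icc 1 J, (j : ℝ) ^ 2 * (A j t ^ 2 + B j t ^ 2) / Real.pi) ≤ G' t := by
      rw [hG', ← Finset.sum_add_distrib, ← Finset.sum_neg_distrib]
      refine Finset.sum_le_sum fun j _ => ?_
      have b1 : 0 ≤ ((j * A j t + A' j t) ^ 2 + (j * B j t + B' j t) ^ 2) / Real.pi := by positivity
      have b2 : ((j * A j t + A' j t) ^ 2 + (j * B j t + B' j t) ^ 2) / Real.pi =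
          (j : ℝ) * (2 * A j t * A' j t + 2 * B j t * B' j t) / Real.pi +
          ((A' j t ^ 2 + B' j t ^ 2) / Real.pi + (j : ℝ) ^ 2 * (A j t ^ 2 + B j t ^ 2) / Real.pi) := by
        ring
      linarith
    linarith
  -- `G T ≤ E T`
  have hgT : ∀ t, r < t → G t ≤ E t := by
    intro t ht
    have a2 := hT2 t ht
    have a3 := hEb t ht
    have a5 : 0 ≤ ∫ θ in (0 : ℝ)..(2 * Real.pi), (fderiv ℝ V (t + θ * Complex.I) 1) ^ 2 :=
      intervalIntegral.integral_nonneg hpi.le fun θ _ => sq_nonneg _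
    have a4 : G t ≤ ∑ j ∈ Finset.Icc 1 J, (j : ℝ) ^ 2 * (A j t ^ 2 + B j t ^ 2) / Real.pi := by
      rw [hG]
      refine Finset.sum_le_sum fun j hj => ?_
      have hj1 : (1 : ℝ) ≤ j := by exact_mod_cast (Finset.mem_Icc.1 hj).1
      have b1 : (j : ℝ) * (A j t ^ 2 + B j t ^ 2) ≤ (j : ℝ) ^ 2 * (A j t ^ 2 + B j t ^ 2) :=
        mul_le_mul_of_nonneg_right (by nlinarith) (by positivity)
      exact div_le_div_of_nonneg_right b1 hpp.le
    linarith
  have hE0 : ∀ t, 0 ≤ E t := fun t => by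
    rw [hE]
    refine intervalIntegral.integral_nonneg hpi.le fun θ _ => ?_
    rw [hg]; positivity
  -- `E` is continuous on `[0, ∞)`
  have hEc : ContinuousOn E (Ici 0) := by
    have e1 : Continuous fun t : ℝ => ∫ θ in (0 : ℝ)..(2 * Real.pi), g ((max t 0 : ℝ) + θ * Complex.I) := by
      refine intervalIntegral.continuous_parametric_intervalIntegral_of_continuous' ?_ _ _
      refine hgc.comp_continuous (f := fun p : ℝ × ℝ => ((max p.1 0 : ℝ) : ℂ) + p.2 * Complex.I) (by fun_prop) fun p => ?_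
      show r < (((max p.1 0 : ℝ) : ℂ) + p.2 * Complex.I).re
      simp [hr]
    refine e1.continuousOn.congr fun t ht => ?_
    rw [hE]
    simp only
    rw [max_eq_left ht]
  -- comparison
  have key' : ∀ T : ℝ, 0 < T → G 0 ≤ G T + ∫ t in Ioi (0 : ℝ), E t := by
    intro T hT
    have hEi : IntervalIntegrable E volume 0 T :=
      (hEc.mono (by rw [uIcc_of_le hT.le]; exact fun x hx => hx.1)).intervalIntegrable
    have hge : -(∫ t in (0 : ℝ)..T, E t) ≤ G T - G 0 := by
      rw [← intervalIntegral.integral_neg]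
      refine intervalIntegral.integral_le_sub_of_hasDeriv_right_of_le hT.le (fun t ht => ?_) (fun t ht => ?_)
        (g' := G') ?_ (fun t ht => ?_)
      · exact (dG t (lt_of_lt_of_le hr ht.1)).continuousAt.continuousWithinAt
      · exact (dG t (hr.trans ht.1)).hasDerivWithinAt
      · exact ((hEc.mono fun x hx => hx.1).integrableOn_compact isCompact_Icc).neg
      · exact hgE t (hr.trans ht.1)
    have hle : ∫ t in (0 : ℝ)..T, E t ≤ ∫ t in Ioi (0 : ℝ), E t := by
      rw [intervalIntegral.integral_of_le hT.le]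
      exact setIntegral_mono_set hstr.1 (Eventually.of_forall fun t => hE0 t) (Eventually.of_forall fun t ht => ht.1)
    linarith
  have hfin : G 0 ≤ ∫ t in Ioi (0 : ℝ), E t := by
    refine le_of_forall_pos_le_add fun ε hε => ?_
    obtain ⟨T, hT, hTε⟩ := exists_small hstr.1 hε
    have := key' T hT
    have h6 := hgT T (hr.trans hT)
    linarith
  rw [← hstr.2, hg] at hfin
  refine le_trans (le_of_eq ?_) hfin
  rw [hG, hA, hB]
  refine Finset.sum_congr rfl fun j _ => ?_
  unfold cj sj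
  simp only [Complex.ofReal_zero, zero_add]
  generalize (∫ y in (0 : ℝ)..(2 * Real.pi), V (y * Complex.I) * Real.cos (j * y)) = X1
  generalize (∫ y in (0 : ℝ)..(2 * Real.pi), V (y * Complex.I) * Real.sin (j * y)) = X2
  field_simp

end Pool.Agent.H74.DE
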