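import Pool.Agent.H74.DE.Fr

set_option autoImplicit false

/-!
# [H74 DE Trn] translation invariance of the min-max values (helper22)
-/

namespace Pool.Agent.H74.DE.TrnH

open MeasureTheory Set Filter Topology Pool.Agent.H74.SX Pool.Agent.H74.DD

theorem dir_sub (c : ℂ) (S : Set ℂ) (u : ℂ → ℝ) :
    dir ((fun z => z - c) ⁻¹' S) (fun z => u (z - c)) = dir S u := by
  unfold dir
  have h1 : ∀ z : ℂ, ‖fderiv ℝ (fun z => u (z - c)) z‖ ^ 2 = (fun z => ‖fderiv ℝ u z‖ ^ 2) (z - c) := by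
    intro z
    simp only
    rw [fderiv_comp_sub]
  simp only [h1]
  exact (measurePreserving_sub_right volume c).setIntegral_preimage_emb
    (MeasurableEquiv.subRight c).measurableEmbedding (fun z => ‖fderiv ℝ u z‖ ^ 2) S

theorem int_sub (c : ℂ) (S : Set ℂ) (u : ℂ → ℝ) (h : IntegrableOn (fun z => ‖fderiv ℝ u z‖ ^ 2) S) :
    IntegrableOn (fun z => ‖fderiv ℝ (fun z => u (z - c)) z‖ ^ 2) ((fun z => z - c) ⁻¹' S) := by
  have h1 : (fun z : ℂ => ‖fderiv ℝ (fun z => u (z - c)) z‖ ^ 2) =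
      (fun z => ‖fderiv ℝ u z‖ ^ 2) ∘ fun z => z - c := by
    funext z
    simp only [Function.comp]
    rw [fderiv_comp_sub]
  rw [h1]
  exact ((measurePreserving_sub_right volume c).integrableOn_comp_preimage
    (MeasurableEquiv.subRight c).measurableEmbedding).2 h

theorem le (ψ : ℂ → ℂ) (c : ℂ) (k : ℕ) (S S' : Set ℂ) (Adm Adm' : (ℂ → ℝ) → Prop)
    (hS : S' = (fun z => z - c) ⁻¹' S) (hA : ∀ u, Adm u → Adm' (fun z => u (z - c))) :
    minmax (fun w => ψ w + c) S' Adm' k ≤ minmax ψ S Adm k := by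
  unfold minmax
  refine sInf_le_sInf ?_
  rintro x ⟨R, rfl, u, h1, h2, h3⟩
  refine ⟨R, rfl, fun i z => u i (z - c), fun i => hA _ (h1 i), fun a ha => h2 a fun w hw => ?_, fun a => ?_⟩
  · have h4 := ha w hw
    simp only [add_sub_cancel_right] at h4
    exact h4
  · have e1 : dir S' (fun z => ∑ i, a i * u i (z - c)) = dir S (fun z => ∑ i, a i * u i z) := by
      rw [hS]
      exact dir_sub c S (fun z => ∑ i, a i * u i z)
    have e2 : bd (fun w => ψ w + c) (fun z => (∑ i, a i * u i (z - c)) ^ 2) =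
        bd ψ (fun z => (∑ i, a i * u i z) ^ 2) := by
      unfold bd
      simp only [add_sub_cancel_right, deriv_add_const]
    rw [e1, e2]
    exact h3 a

theorem inn (ψ : ℂ → ℂ) (c : ℂ) : Inn (fun w => ψ w + c) = (fun z => z - c) ⁻¹' Inn ψ := by
  ext z
  simp only [Inn, mem_compl_iff, mem_image, mem_preimage, not_iff_not]
  constructor
  · rintro ⟨w, hw, rfl⟩
    exact ⟨w, hw, by simp⟩
  · rintro ⟨w, hw, h⟩
    exact ⟨w, hw, by change ψ w + c = z; rw [h]; simp⟩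

theorem ext' (ψ : ℂ → ℂ) (c : ℂ) : Ext (fun w => ψ w + c) = (fun z => z - c) ⁻¹' Ext ψ := by
  ext z
  simp only [Pool.Agent.H74.SX.Ext, mem_image, mem_preimage]
  constructor
  · rintro ⟨w, hw, rfl⟩
    exact ⟨w, hw, by simp⟩
  · rintro ⟨w, hw, h⟩
    exact ⟨w, hw, by change ψ w + c = z; rw [h]; simp⟩

theorem cd (c : ℂ) (u : ℂ → ℝ) (h : ContDiff ℝ 1 u) : ContDiff ℝ 1 (fun z => u (z - c)) :=
  h.comp (contDiff_id.sub contDiff_const)

theorem adm (ψ : ℂ → ℂ) (c : ℂ) (u : ℂ → ℝ) (h : ExtAdm ψ u) :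
    ExtAdm (fun w => ψ w + c) (fun z => u (z - c)) := by
  obtain ⟨h1, ⟨C, h2⟩, h3⟩ := h
  refine ⟨cd c u h1, ⟨C, fun z => h2 _⟩, ?_⟩
  rw [ext']
  exact int_sub c _ u h3

theorem back (ψ : ℂ → ℂ) (c : ℂ) : (fun w => (fun w => ψ w + c) w + -c) = ψ := by
  funext w
  simp

theorem le1 (ψ : ℂ → ℂ) (c : ℂ) (k : ℕ) :
    minmax (fun w => ψ w + c) (Inn (fun w => ψ w + c)) (fun u => ContDiff ℝ 1 u) k ≤
      minmax ψ (Inn ψ) (fun u => ContDiff ℝ 1 u) k :=
  le ψ c k _ _ _ _ (inn ψ c) (cd c)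

theorem le2 (ψ : ℂ → ℂ) (c : ℂ) (k : ℕ) :
    minmax (fun w => ψ w + c) (Ext (fun w => ψ w + c)) (ExtAdm (fun w => ψ w + c)) k ≤
      minmax ψ (Ext ψ) (ExtAdm ψ) k :=
  le ψ c k _ _ _ _ (ext' ψ c) (adm ψ c)

end TrnH

theorem trn : TrnStmt := by
  intro ψ c k
  refine ⟨le_antisymm (TrnH.le1 ψ c k) ?_, le_antisymm (TrnH.le2 ψ c k) ?_⟩
  · have h := TrnH.le1 (fun w => ψ w + c) (-c) k
    rw [TrnH.back] at h
    exact h
  · have h := TrnH.le2 (fun w => ψ w + c) (-c) k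
    rw [TrnH.back] at h
    exact h

end Pool.Agent.H74.DE
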