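import Pool.Agent.H74.DE.Fr

set_option autoImplicit false

/-!
# [H74 DE ParC] Parseval on the circle and in the disk (helper42)
-/

namespace Pool.Agent.H74.DE.ParC

open MeasureTheory Set Filter Topology Pool.Agent.H74.DE

namespace Par

theorem ts {f : ℂ → ℂ} {ρ : ℝ} (hf : DifferentiableOn ℂ f (Metric.ball 0 ρ)) {z : ℂ} (hz : ‖z‖ < ρ) :
    HasSum (fun n : ℕ => cf f n * z ^ n) (f z) := by
  have h := Complex.hasSum_taylorSeries_on_ball hf (z := z) (by simpa using hz)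
  have e : (fun n : ℕ => cf f n * z ^ n) =
      fun n : ℕ => ((n.factorial : ℂ)⁻¹ • (z - 0) ^ n • iteratedDeriv n f 0) := by
    funext n
    unfold cf
    rw [smul_eq_mul, smul_eq_mul, sub_zero, div_eq_mul_inv]
    ring
  rw [e]
  exact h

theorem sm' {f : ℂ → ℂ} {ρ : ℝ} (hρ : 1 < ρ) {c : ℕ → ℂ}
    (hc : ∀ z : ℂ, ‖z‖ < ρ → HasSum (fun n : ℕ => c n * z ^ n) (f z)) : Summable (fun n : ℕ => ‖c n‖) := by
  have h := (hc 1 (by simpa using hρ)).summable.norm
  simpa using h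

theorem sm {f : ℂ → ℂ} {ρ : ℝ} (hρ : 1 < ρ) (hf : DifferentiableOn ℂ f (Metric.ball 0 ρ)) :
    Summable (fun n : ℕ => ‖cf f n‖) := sm' hρ fun _ hz => ts hf hz

theorem stepA {X : Type*} [MeasurableSpace X] (μ : Measure X) [IsFiniteMeasure μ] (φ : X → ℂ)
    (hφm : AEStronglyMeasurable φ μ) (hφ : ∀ᵐ x ∂μ, ‖φ x‖ ≤ 1) {f : ℂ → ℂ} {ρ : ℝ} (hρ : 1 < ρ)
    {c : ℕ → ℂ} (hc : ∀ z : ℂ, ‖z‖ < ρ → HasSum (fun n : ℕ => c n * z ^ n) (f z))
    (k : X → ℂ) (hk : AEStronglyMeasurable k μ) (K : ℝ)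
    (hK : ∀ᵐ x ∂μ, ‖k x‖ ≤ K) :
    HasSum (fun n : ℕ => c n * ∫ x, φ x ^ n * k x ∂μ) (∫ x, f (φ x) * k x ∂μ) := by
  have h := hasSum_integral_of_dominated_convergence (μ := μ)
    (F := fun (n : ℕ) x => c n * (φ x ^ n * k x)) (f := fun x => f (φ x) * k x)
    (fun n _ => ‖c n‖ * K) (fun n => ((hφm.pow n).mul hk).const_mul _) (fun n => ?_) ?_ ?_ ?_
  · simpa only [integral_const_mul] using h
  · filter_upwards [hφ, hK] with x h1 h2
    rw [norm_mul, norm_mul, norm_pow]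
    have h3 : ‖φ x‖ ^ n ≤ 1 := pow_le_one₀ (norm_nonneg _) h1
    have h4 : ‖φ x‖ ^ n * ‖k x‖ ≤ 1 * K :=
      mul_le_mul h3 h2 (norm_nonneg _) zero_le_one
    rw [one_mul] at h4
    exact mul_le_mul_of_nonneg_left h4 (norm_nonneg _)
  · exact Filter.Eventually.of_forall fun x => (sm' hρ hc).mul_right K
  · exact integrable_const _
  · filter_upwards [hφ] with x h1
    have h2 := (hc (φ x) (lt_of_le_of_lt h1 hρ)).mul_right (k x)
    simpa only [mul_assoc] using h2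

theorem gen {X : Type*} [MeasurableSpace X] (μ : Measure X) [IsFiniteMeasure μ] (φ : X → ℂ)
    (hφm : AEStronglyMeasurable φ μ) (hφ : ∀ᵐ x ∂μ, ‖φ x‖ ≤ 1) (mo : ℕ → ℝ)
    (hmo : ∀ n m : ℕ, ∫ x, φ x ^ n * (starRingEnd ℂ) (φ x) ^ m ∂μ = if n = m then (mo n : ℂ) else 0)
    {f h : ℂ → ℂ} {ρ : ℝ} (hρ : 1 < ρ) (hf : DifferentiableOn ℂ f (Metric.ball 0 ρ))
    (hh : DifferentiableOn ℂ h (Metric.ball 0 ρ)) (hhm : AEStronglyMeasurable (fun x => h (φ x)) μ) :
    HasSum (fun n : ℕ => cf f n * ((starRingEnd ℂ) (cf h n) * mo n))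
      (∫ x, f (φ x) * (starRingEnd ℂ) (h (φ x)) ∂μ) := by
  have hb : ∀ᵐ x ∂μ, ‖h (φ x)‖ ≤ ∑' n, ‖cf h n‖ := by
    filter_upwards [hφ] with x h1
    have h2 := ts hh (z := φ x) (lt_of_le_of_lt h1 hρ)
    rw [← h2.tsum_eq]
    have h3 : ∀ n, ‖cf h n * φ x ^ n‖ ≤ ‖cf h n‖ := by
      intro n
      rw [norm_mul, norm_pow]
      exact mul_le_of_le_one_right (norm_nonneg _) (pow_le_one₀ (norm_nonneg _) h1)
    exact tsum_of_norm_bounded (sm hρ hh).hasSum h3
  have hB : ∀ n : ℕ, ∫ x, φ x ^ n * (starRingEnd ℂ) (h (φ x)) ∂μ = (starRingEnd ℂ) (cf h n) * mo n := by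
    intro n
    have h1 := stepA μ φ hφm hφ hρ (fun _ hz => ts hh hz) (fun x => (starRingEnd ℂ) (φ x) ^ n)
      ((continuous_star.comp_aestronglyMeasurable hφm).pow n) 1 (by
        filter_upwards [hφ] with x h1
        rw [norm_pow, RCLike.norm_conj]
        exact pow_le_one₀ (norm_nonneg _) h1)
    have h2 : HasSum (fun m : ℕ => cf h m * ∫ x, φ x ^ m * (starRingEnd ℂ) (φ x) ^ n ∂μ)
        (cf h n * mo n) := by
      have : (fun m : ℕ => cf h m * ∫ x, φ x ^ m * (starRingEnd ℂ) (φ x) ^ n ∂μ) =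
          fun m => if m = n then cf h n * mo n else 0 := by
        funext m
        rw [hmo m n]
        split_ifs with e
        · rw [e]
        · rw [mul_zero]
      rw [this]
      exact hasSum_ite_eq n _
    have h3 := h1.unique h2
    have h4 : ∫ x, φ x ^ n * (starRingEnd ℂ) (h (φ x)) ∂μ =
        (starRingEnd ℂ) (∫ x, h (φ x) * (starRingEnd ℂ) (φ x) ^ n ∂μ) := by
      rw [← integral_conj]
      congr 1
      funext x
      rw [map_mul, map_pow, Complex.conj_conj, mul_comm]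
    rw [h4, h3, map_mul, Complex.conj_ofReal]
  have h5 := stepA μ φ hφm hφ hρ (fun _ hz => ts hf hz) (fun x => (starRingEnd ℂ) (h (φ x)))
    (continuous_star.comp_aestronglyMeasurable hhm) (∑' n, ‖cf h n‖) (by
      filter_upwards [hb] with x h1
      rwa [RCLike.norm_conj])
  simpa only [hB] using h5

theorem ep_conj (θ : ℝ) : (starRingEnd ℂ) (ep θ) = Complex.exp (-(θ * Complex.I)) := by
  unfold ep
  rw [← Complex.exp_conj]
  congr 1
  simp

theorem norm_ep (θ : ℝ) : ‖ep θ‖ = 1 := by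
  unfold ep
  exact Complex.norm_exp_ofReal_mul_I θ

theorem cont_ep : Continuous ep := by
  unfold ep
  fun_prop

theorem mo1 (n m : ℕ) : ∫ θ in (0 : ℝ)..(2 * Real.pi), ep θ ^ n * (starRingEnd ℂ) (ep θ) ^ m =
    if n = m then ((2 * Real.pi : ℝ) : ℂ) else 0 := by
  have e1 : ∀ θ : ℝ, ep θ ^ n * (starRingEnd ℂ) (ep θ) ^ m =
      Complex.exp ((((n : ℂ) - m) * Complex.I) * θ) := by
    intro θ
    rw [ep_conj]
    unfold ep
    rw [← Complex.exp_nat_mul, ← Complex.exp_nat_mul, ← Complex.exp_add]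
    congr 1
    ring
  simp only [e1]
  split_ifs with e
  · subst e
    simp
  · have h0 : ((n : ℂ) - m) * Complex.I ≠ 0 := by
      refine mul_ne_zero (sub_ne_zero.mpr ?_) Complex.I_ne_zero
      exact_mod_cast e
    rw [integral_exp_mul_complex h0]
    have h1 : Complex.exp ((((n : ℂ) - m) * Complex.I) * ((2 * Real.pi : ℝ) : ℂ)) = 1 := by
      rw [Complex.exp_eq_one_iff]
      refine ⟨(n : ℤ) - m, ?_⟩
      push_cast
      ring
    rw [h1]
    simp

theorem mo2 (n m : ℕ) : ∫ z in Metric.ball (0 : ℂ) 1, z ^ n * (starRingEnd ℂ) z ^ m =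
    if n = m then ((Real.pi / (n + 1) : ℝ) : ℂ) else 0 := by
  rw [← integral_indicator measurableSet_ball, ← Complex.integral_comp_polarCoord_symm,
    polarCoord_target]
  have e1 : ∀ p ∈ Set.Ioi (0 : ℝ) ×ˢ Set.Ioo (-Real.pi) Real.pi,
      p.1 • (Metric.ball (0 : ℂ) 1).indicator (fun z => z ^ n * (starRingEnd ℂ) z ^ m)
        (Complex.polarCoord.symm p) =
      ((Set.Iio (1 : ℝ)).indicator (fun r : ℝ => (r : ℂ) ^ (n + m + 1)) p.1) *
        Complex.exp ((((n : ℂ) - m) * Complex.I) * p.2) := by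
    rintro ⟨r, θ⟩ ⟨hr, _⟩
    have hr : 0 < r := hr
    have e2 : Complex.polarCoord.symm (r, θ) = r * ep θ := by
      rw [Complex.polarCoord_symm_apply]
      unfold ep
      rw [Complex.exp_mul_I, Complex.ofReal_cos, Complex.ofReal_sin]
    rw [e2]
    by_cases h1 : r < 1
    · rw [Set.indicator_of_mem, Set.indicator_of_mem (show r ∈ Set.Iio (1 : ℝ) from h1)]
      · rw [map_mul, Complex.conj_ofReal, ep_conj]
        unfold ep
        rw [mul_pow, mul_pow, ← Complex.exp_nat_mul, ← Complex.exp_nat_mul]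
        have e3 : Complex.exp ((((n : ℂ) - m) * Complex.I) * θ) =
            Complex.exp ((n : ℂ) * (θ * Complex.I)) * Complex.exp ((m : ℂ) * -(θ * Complex.I)) := by
          rw [← Complex.exp_add]
          congr 1
          ring
        rw [e3, Complex.real_smul]
        ring
      · simp [norm_ep, abs_of_pos hr, h1]
    · rw [Set.indicator_of_notMem, Set.indicator_of_notMem (show r ∉ Set.Iio (1 : ℝ) from h1)]
      · simp
      · simp [norm_ep, abs_of_pos hr, not_lt.mp h1]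
  rw [setIntegral_congr_fun (measurableSet_Ioi.prod measurableSet_Ioo) e1]
  rw [Measure.volume_eq_prod, setIntegral_prod_mul
    (fun r : ℝ => (Set.Iio (1 : ℝ)).indicator (fun r : ℝ => (r : ℂ) ^ (n + m + 1)) r)
    (fun θ : ℝ => Complex.exp ((((n : ℂ) - m) * Complex.I) * θ))]
  rw [← integral_Ioc_eq_integral_Ioo, ← intervalIntegral.integral_of_le (by linarith [Real.pi_pos])]
  split_ifs with e
  · subst e
    have e4 : ∫ r in Set.Ioi (0 : ℝ), (Set.Iio (1 : ℝ)).indicator (fun r : ℝ => (r : ℂ) ^ (n + n + 1)) r =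
        ((1 / (2 * n + 2) : ℝ) : ℂ) := by
      rw [integral_indicator measurableSet_Iio, Measure.restrict_restrict measurableSet_Iio,
        Set.inter_comm, Set.Ioi_inter_Iio, ← integral_Ioc_eq_integral_Ioo,
        ← intervalIntegral.integral_of_le zero_le_one]
      have e5 : ∀ r : ℝ, (r : ℂ) ^ (n + n + 1) = ((r ^ (n + n + 1) : ℝ) : ℂ) := by
        intro r; push_cast; rfl
      simp only [e5]
      rw [intervalIntegral.integral_ofReal, integral_pow]
      congr 1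
      push_cast
      ring_nf
    rw [e4]
    simp
    field_simp
    ring
  · have h0 : ((n : ℂ) - m) * Complex.I ≠ 0 := by
      refine mul_ne_zero (sub_ne_zero.mpr ?_) Complex.I_ne_zero
      exact_mod_cast e
    rw [integral_exp_mul_complex h0]
    have h1 : Complex.exp ((((n : ℂ) - m) * Complex.I) * ((Real.pi : ℝ) : ℂ)) =
        Complex.exp ((((n : ℂ) - m) * Complex.I) * ((-Real.pi : ℝ) : ℂ)) := by
      rw [Complex.exp_eq_exp_iff_exists_int]
      refine ⟨(n : ℤ) - m, ?_⟩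
      push_cast
      ring
    rw [h1]
    simp

theorem coef {f : ℂ → ℂ} {ρ : ℝ} (hρ : 1 < ρ) {c : ℕ → ℂ}
    (hc : ∀ z : ℂ, ‖z‖ < ρ → HasSum (fun n : ℕ => c n * z ^ n) (f z)) (n : ℕ) :
    ∫ θ in (0 : ℝ)..(2 * Real.pi), f (ep θ) * (starRingEnd ℂ) (ep θ) ^ n = c n * (2 * Real.pi : ℝ) := by
  have hpi : (0 : ℝ) ≤ 2 * Real.pi := by positivity
  have h1 := stepA (volume.restrict (Set.Ioc 0 (2 * Real.pi))) ep cont_ep.aestronglyMeasurable
    (Filter.Eventually.of_forall fun θ => (norm_ep θ).le) hρ hc (fun x => (starRingEnd ℂ) (ep x) ^ n)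
    ((continuous_star.comp cont_ep).pow n).aestronglyMeasurable 1
    (Filter.Eventually.of_forall fun θ => by
      rw [norm_pow, RCLike.norm_conj, norm_ep, one_pow])
  have h2 : HasSum (fun m : ℕ => c m * ∫ x in Set.Ioc 0 (2 * Real.pi), ep x ^ m * (starRingEnd ℂ) (ep x) ^ n)
      (c n * (2 * Real.pi : ℝ)) := by
    have : (fun m : ℕ => c m * ∫ x in Set.Ioc 0 (2 * Real.pi), ep x ^ m * (starRingEnd ℂ) (ep x) ^ n) =
        fun m => if m = n then c n * (2 * Real.pi : ℝ) else 0 := by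
      funext m
      rw [← intervalIntegral.integral_of_le hpi, mo1 m n]
      split_ifs with e
      · rw [e]
      · rw [mul_zero]
    rw [this]
    exact hasSum_ite_eq n _
  rw [intervalIntegral.integral_of_le hpi]
  exact h1.unique h2

end Par

/-- uniqueness of the coefficients -/
theorem cf_uniq {f : ℂ → ℂ} {ρ : ℝ} (hρ : 1 < ρ) (hf : DifferentiableOn ℂ f (Metric.ball 0 ρ)) {c : ℕ → ℂ}
    (hc : ∀ z : ℂ, ‖z‖ < ρ → HasSum (fun n : ℕ => c n * z ^ n) (f z)) (n : ℕ) : cf f n = c n := by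
  have h1 := Par.coef hρ hc n
  have h2 := Par.coef hρ (fun _ hz => Par.ts hf hz) n
  have h3 : ((2 * Real.pi : ℝ) : ℂ) ≠ 0 := by
    exact_mod_cast (by positivity : (2 * Real.pi : ℝ) ≠ 0)
  exact mul_right_cancel₀ h3 (h2.symm.trans h1)

theorem cf_add {f h : ℂ → ℂ} {ρ : ℝ} (hρ : 1 < ρ) (hf : DifferentiableOn ℂ f (Metric.ball 0 ρ))
    (hh : DifferentiableOn ℂ h (Metric.ball 0 ρ)) (n : ℕ) : cf (fun z => f z + h z) n = cf f n + cf h n := by
  have key : ∀ z : ℂ, ‖z‖ < ρ → HasSum (fun n : ℕ => (fun n => cf f n + cf h n) n * z ^ n) (f z + h z) := by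
    intro z hz
    have h1 := (Par.ts hf hz).add (Par.ts hh hz)
    have e : (fun n : ℕ => (fun n => cf f n + cf h n) n * z ^ n) =
        fun n : ℕ => cf f n * z ^ n + cf h n * z ^ n := by funext m; ring
    rw [e]
    exact h1
  exact cf_uniq (f := fun z => f z + h z) (c := fun n => cf f n + cf h n) hρ (hf.add hh) key n

theorem cf_mul {f : ℂ → ℂ} {ρ : ℝ} (hρ : 1 < ρ) (hf : DifferentiableOn ℂ f (Metric.ball 0 ρ)) (a : ℂ) (n : ℕ) :
    cf (fun z => a * f z) n = a * cf f n := by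
  have key : ∀ z : ℂ, ‖z‖ < ρ → HasSum (fun n : ℕ => (fun n => a * cf f n) n * z ^ n) (a * f z) := by
    intro z hz
    have h1 := (Par.ts hf hz).mul_left a
    have e : (fun n : ℕ => (fun n => a * cf f n) n * z ^ n) =
        fun n : ℕ => a * (cf f n * z ^ n) := by funext m; ring
    rw [e]
    exact h1
  exact cf_uniq (f := fun z => a * f z) (c := fun n => a * cf f n) hρ (hf.const_mul a) key n

theorem cf_deriv (f : ℂ → ℂ) (n : ℕ) : cf (deriv f) n = (n + 1) * cf f (n + 1) := by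
  unfold cf
  rw [iteratedDeriv_succ', Nat.factorial_succ]
  push_cast
  have h1 : (n.factorial : ℂ) ≠ 0 := by exact_mod_cast n.factorial_ne_zero
  have h2 : (n : ℂ) + 1 ≠ 0 := by exact_mod_cast n.succ_ne_zero
  field_simp

theorem gh_diff {g : ℂ → ℂ} {ρ : ℝ} (hg : DifferentiableOn ℂ g (Metric.ball 0 ρ)) :
    DifferentiableOn ℂ (gh g) (Metric.ball 0 ρ) := by
  intro z hz
  have hz' : (starRingEnd ℂ) z ∈ Metric.ball (0 : ℂ) ρ := by
    rw [mem_ball_zero_iff] at hz ⊢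
    rwa [RCLike.norm_conj]
  have h := (hg _ hz').differentiableAt (Metric.isOpen_ball.mem_nhds hz')
  have h2 := h.conj_conj
  rw [Complex.conj_conj] at h2
  exact h2.differentiableWithinAt

theorem cf_gh {g : ℂ → ℂ} {ρ : ℝ} (hρ : 1 < ρ) (hg : DifferentiableOn ℂ g (Metric.ball 0 ρ)) (n : ℕ) :
    cf (gh g) n = (starRingEnd ℂ) (cf g n) := by
  have key : ∀ z : ℂ, ‖z‖ < ρ → HasSum (fun n : ℕ => (fun n => (starRingEnd ℂ) (cf g n)) n * z ^ n) (gh g z) := by
    intro z hz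
    have h := Par.ts hg (z := (starRingEnd ℂ) z) (by rwa [RCLike.norm_conj])
    have h2 := (Complex.hasSum_conj'.mpr h)
    have e : (fun n : ℕ => (fun n => (starRingEnd ℂ) (cf g n)) n * z ^ n) =
        fun n : ℕ => (starRingEnd ℂ) (cf g n * (starRingEnd ℂ) z ^ n) := by
      funext m
      rw [map_mul, map_pow, Complex.conj_conj]
    rw [e]
    exact h2
  exact cf_uniq (c := fun n => (starRingEnd ℂ) (cf g n)) hρ (gh_diff hg) key n

/-- multiplication by `z` -/
theorem cf_z {f : ℂ → ℂ} {ρ : ℝ} (hρ : 1 < ρ) (hf : DifferentiableOn ℂ f (Metric.ball 0 ρ)) (n : ℕ) :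
    cf (fun z => z * f z) n = if n = 0 then 0 else cf f (n - 1) := by
  have key : ∀ z : ℂ, ‖z‖ < ρ →
      HasSum (fun n : ℕ => (fun n => if n = 0 then 0 else cf f (n - 1)) n * z ^ n) (z * f z) := by
    intro z hz
    have h := (Par.ts hf hz).mul_left z
    rw [← hasSum_nat_add_iff' 1]
    have e : (fun n : ℕ => (fun n => if n = 0 then 0 else cf f (n - 1)) (n + 1) * z ^ (n + 1)) =
        fun n : ℕ => z * (cf f n * z ^ n) := by
      funext m
      simp only [Nat.succ_ne_zero, if_false, Nat.add_sub_cancel, pow_succ]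
      ring
    rw [e]
    simpa using h
  exact cf_uniq (f := fun z => z * f z) (c := fun n => if n = 0 then 0 else cf f (n - 1)) hρ
    (differentiableOn_id.mul hf) key n

/-- Parseval on the circle, two functions -/
theorem par {f h : ℂ → ℂ} {ρ : ℝ} (hρ : 1 < ρ) (hf : DifferentiableOn ℂ f (Metric.ball 0 ρ))
    (hh : DifferentiableOn ℂ h (Metric.ball 0 ρ)) :
    HasSum (fun n : ℕ => 2 * Real.pi * (cf f n * (starRingEnd ℂ) (cf h n)))
      (∫ θ in (0 : ℝ)..(2 * Real.pi), f (ep θ) * (starRingEnd ℂ) (h (ep θ))) := by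
  have hpi : (0 : ℝ) ≤ 2 * Real.pi := by positivity
  have hc : Continuous (fun θ : ℝ => h (ep θ)) := by
    refine ContinuousOn.comp_continuous hh.continuousOn Par.cont_ep fun θ => ?_
    simpa [Par.norm_ep] using hρ
  have h1 := Par.gen (volume.restrict (Set.Ioc 0 (2 * Real.pi))) ep Par.cont_ep.aestronglyMeasurable
    (Filter.Eventually.of_forall fun θ => (Par.norm_ep θ).le) (fun _ => 2 * Real.pi) (fun n m => by
      rw [← intervalIntegral.integral_of_le hpi, Par.mo1]) hρ hf hh hc.aestronglyMeasurable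
  rw [intervalIntegral.integral_of_le hpi]
  convert h1 using 2 with n
  push_cast
  ring

/-- Parseval on the circle -/
theorem parn {f : ℂ → ℂ} {ρ : ℝ} (hρ : 1 < ρ) (hf : DifferentiableOn ℂ f (Metric.ball 0 ρ)) :
    HasSum (fun n : ℕ => 2 * Real.pi * ‖cf f n‖ ^ 2) (∫ θ in (0 : ℝ)..(2 * Real.pi), ‖f (ep θ)‖ ^ 2) := by
  have h := par hρ hf hf
  have h2 : ∀ z : ℂ, z * (starRingEnd ℂ) z = ((‖z‖ ^ 2 : ℝ) : ℂ) := by
    intro z; rw [Complex.mul_conj, Complex.normSq_eq_norm_sq]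
  simp only [h2] at h
  rw [intervalIntegral.integral_ofReal] at h
  have h3 : (fun n : ℕ => 2 * (Real.pi : ℂ) * ((‖cf f n‖ ^ 2 : ℝ) : ℂ)) =
      fun n : ℕ => ((2 * Real.pi * ‖cf f n‖ ^ 2 : ℝ) : ℂ) := by
    funext n; push_cast; ring
  rw [h3] at h
  exact_mod_cast h

/-- Parseval in the disk, two functions -/
theorem area2 {f h : ℂ → ℂ} {ρ : ℝ} (hρ : 1 < ρ) (hf : DifferentiableOn ℂ f (Metric.ball 0 ρ))
    (hh : DifferentiableOn ℂ h (Metric.ball 0 ρ)) :
    HasSum (fun n : ℕ => Real.pi / (n + 1) * (cf f n * (starRingEnd ℂ) (cf h n)))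
      (∫ z in Metric.ball (0 : ℂ) 1, f z * (starRingEnd ℂ) (h z)) := by
  have hm : AEStronglyMeasurable h (volume.restrict (Metric.ball (0 : ℂ) 1)) :=
    (hh.continuousOn.mono (Metric.ball_subset_ball hρ.le)).aestronglyMeasurable measurableSet_ball
  have : IsFiniteMeasure (volume.restrict (Metric.ball (0 : ℂ) 1)) :=
    ⟨by rw [Measure.restrict_apply_univ]; exact measure_ball_lt_top⟩
  have h1 := Par.gen (volume.restrict (Metric.ball (0 : ℂ) 1)) (fun z => z) aestronglyMeasurable_id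
    (by
      filter_upwards [ae_restrict_mem measurableSet_ball] with z hz
      exact (mem_ball_zero_iff.mp hz).le) (fun n => Real.pi / (n + 1)) (fun n m => Par.mo2 n m) hρ hf hh hm
  convert h1 using 2 with n
  push_cast
  ring

/-- Parseval in the disk -/
theorem area {f : ℂ → ℂ} {ρ : ℝ} (hρ : 1 < ρ) (hf : DifferentiableOn ℂ f (Metric.ball 0 ρ)) :
    HasSum (fun n : ℕ => Real.pi / (n + 1) * ‖cf f n‖ ^ 2) (∫ z in Metric.ball (0 : ℂ) 1, ‖f z‖ ^ 2) := by
  have h := area2 hρ hf hf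
  have h2 : ∀ z : ℂ, z * (starRingEnd ℂ) z = ((‖z‖ ^ 2 : ℝ) : ℂ) := by
    intro z; rw [Complex.mul_conj, Complex.normSq_eq_norm_sq]
  simp only [h2] at h
  rw [integral_complex_ofReal] at h
  have h3 : (fun n : ℕ => (Real.pi : ℂ) / (n + 1) * ((‖cf f n‖ ^ 2 : ℝ) : ℂ)) =
      fun n : ℕ => ((Real.pi / (n + 1) * ‖cf f n‖ ^ 2 : ℝ) : ℂ) := by
    funext n; push_cast; ring
  rw [h3] at h
  exact_mod_cast h

end Pool.Agent.H74.DE.ParC
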