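import Pool.Agent.H74.DE.Fr
import Pool.Agent.H74.DE.ParC
import Pool.Agent.H74.DD.Wt2
import Pool.Agent.H74.DD.Wgt
import Pool.Agent.H74.DD.Mv

set_option autoImplicit false

/-!
# [H74 DE Wt3] the weight on the circle, second order
-/

namespace Pool.Agent.H74.DE.Wt3

open MeasureTheory Set Filter Topology Pool.Agent.H74.SX Pool.Agent.H74.DD

/-! Parseval's formula for the real coefficients (from helper30's StJ) -/

noncomputable def cn (n : ℤ) (f : ℝ → ℝ) : ℝ := ∫ x in (0 : ℝ)..(2 * Real.pi), f x * Real.cos (n * x)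
noncomputable def sn (n : ℤ) (f : ℝ → ℝ) : ℝ := ∫ x in (0 : ℝ)..(2 * Real.pi), f x * Real.sin (n * x)

theorem hpi : (0 : ℝ) < 2 * Real.pi := by positivity

theorem memLp_of_continuous {g : ℝ → ℂ} (hg : Continuous g) (a b : ℝ) :
    MemLp g 2 (volume.restrict (Ioc a b)) := by
  obtain ⟨C, hC⟩ := isCompact_Icc.exists_bound_of_continuousOn (hg.continuousOn (s := Icc a b))
  refine MemLp.of_bound hg.aestronglyMeasurable C ?_
  exact (ae_restrict_iff' measurableSet_Ioc).2 (Eventually.of_forall fun x hx => hC x (Ioc_subset_Icc_self hx))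

theorem coe_four (n : ℤ) (x : ℝ) :
    fourier (-n) (x : AddCircle (2 * Real.pi - 0)) =
      ((Real.cos (n * x) : ℝ) : ℂ) - Complex.I * ((Real.sin (n * x) : ℝ) : ℂ) := by
  have hp : (Real.pi : ℂ) ≠ 0 := by exact_mod_cast Real.pi_ne_zero
  rw [fourier_coe_apply]
  have e3 : 2 * (Real.pi : ℂ) * Complex.I * ((-n : ℤ) : ℂ) * (x : ℂ) / ((2 * Real.pi - 0 : ℝ) : ℂ) =
      (-((n : ℂ) * x)) * Complex.I := by
    push_cast
    field_simp
    ring
  rw [e3, Complex.exp_mul_I, Complex.cos_neg, Complex.sin_neg]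
  push_cast
  ring

theorem coeff {f : ℝ → ℝ} (hf : Continuous f) (n : ℤ) :
    ‖fourierCoeffOn hpi (fun x => ((f x : ℝ) : ℂ)) n‖ ^ 2 = (1 / (2 * Real.pi)) ^ 2 * (cn n f ^ 2 + sn n f ^ 2) := by
  have e1 : ∀ x : ℝ, fourier (-n) (x : AddCircle (2 * Real.pi - 0)) • ((f x : ℝ) : ℂ) =
      ((f x * Real.cos (n * x) : ℝ) : ℂ) - Complex.I * ((f x * Real.sin (n * x) : ℝ) : ℂ) := by
    intro x
    rw [coe_four n x, smul_eq_mul]
    push_cast
    ring
  have i1 : IntervalIntegrable (fun x => ((f x * Real.cos (n * x) : ℝ) : ℂ)) volume 0 (2 * Real.pi) :=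
    (by fun_prop : Continuous fun x => ((f x * Real.cos (n * x) : ℝ) : ℂ)).intervalIntegrable _ _
  have i2 : IntervalIntegrable (fun x => Complex.I * ((f x * Real.sin (n * x) : ℝ) : ℂ)) volume 0 (2 * Real.pi) :=
    (by fun_prop : Continuous fun x => Complex.I * ((f x * Real.sin (n * x) : ℝ) : ℂ)).intervalIntegrable _ _
  have e : fourierCoeffOn hpi (fun x => ((f x : ℝ) : ℂ)) n =
      ((1 / (2 * Real.pi) : ℝ) : ℂ) * ((cn n f : ℝ) - Complex.I * (sn n f : ℝ)) := by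
    rw [fourierCoeffOn_eq_integral]
    simp_rw [e1]
    rw [intervalIntegral.integral_sub i1 i2, intervalIntegral.integral_const_mul,
      intervalIntegral.integral_ofReal, intervalIntegral.integral_ofReal]
    simp [cn, sn]
  rw [e, norm_mul, mul_pow]
  congr 1
  · rw [Complex.norm_real, Real.norm_eq_abs, sq_abs]
  · rw [Complex.sq_norm, Complex.normSq_apply]
    simp
    ring

theorem parseval {f : ℝ → ℝ} (hf : Continuous f) :
    HasSum (fun n : ℤ => cn n f ^ 2 + sn n f ^ 2) (2 * Real.pi * ∫ x in (0 : ℝ)..(2 * Real.pi), f x ^ 2) := by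
  have h1 := hasSum_sq_fourierCoeffOn hpi (memLp_of_continuous (Complex.continuous_ofReal.comp hf) 0 (2 * Real.pi))
  have e1 : ∀ x : ℝ, ‖((f x : ℝ) : ℂ)‖ ^ 2 = f x ^ 2 := fun x => by
    rw [Complex.norm_real, Real.norm_eq_abs, sq_abs]
  have h2 := h1.mul_left ((2 * Real.pi) ^ 2)
  have hp := Real.pi_pos
  have e2 : (fun n : ℤ => cn n f ^ 2 + sn n f ^ 2) = fun n : ℤ => (2 * Real.pi) ^ 2 *
      ‖fourierCoeffOn hpi (Complex.ofReal ∘ f) n‖ ^ 2 := by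
    funext n
    have h3 : ‖fourierCoeffOn hpi (Complex.ofReal ∘ f) n‖ ^ 2 = (1 / (2 * Real.pi)) ^ 2 * (cn n f ^ 2 + sn n f ^ 2) :=
      coeff hf n
    rw [h3]
    field_simp
  have e3 : (2 * Real.pi * ∫ x in (0 : ℝ)..(2 * Real.pi), f x ^ 2) =
      (2 * Real.pi) ^ 2 * (2 * Real.pi - 0)⁻¹ • ∫ x in (0 : ℝ)..(2 * Real.pi), ‖(Complex.ofReal ∘ f) x‖ ^ 2 := by
    have e4 : ∀ x : ℝ, ‖(Complex.ofReal ∘ f) x‖ ^ 2 = f x ^ 2 := e1
    simp_rw [e4]
    rw [sub_zero, smul_eq_mul]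
    field_simp
  rw [e2, e3]
  exact h2

theorem sqrt_le {a c : ℝ} (ha : 0 < a) : Real.sqrt (a ^ 2 + c ^ 2) ≤ a + c ^ 2 / (2 * a) := by
  have h0 : 0 ≤ a + c ^ 2 / (2 * a) := by positivity
  refine (Real.sqrt_le_left h0).2 ?_
  have h1 : (a + c ^ 2 / (2 * a)) ^ 2 = a ^ 2 + c ^ 2 + (c ^ 2 / (2 * a)) ^ 2 := by
    field_simp
    ring
  rw [h1]
  have := sq_nonneg (c ^ 2 / (2 * a))
  linarith

/-- upper bound of the weight -/
theorem wt_le {g : ℂ → ℂ} {ρ : ℝ} (hg : Good g ρ) {K ε : ℝ} (hK1 : 1 ≤ K) (hK : ∀ θ, ‖deriv g (em θ)‖ ≤ K) (hε : 0 < ε)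
    (hεK : ε * K ≤ 1 / 2) (θ : ℝ) :
    wt g ε θ ≤ 1 + ε * b1 g θ + ε ^ 2 * b2 g θ + K ^ 3 * ε ^ 3 := by
  unfold wt b1 b2 ep
  rw [Pool.Agent.H74.DD.WgtAux.deriv_eq g ρ hg ε θ]
  have hx : em θ ^ 2 * deriv g (em θ) = xx g θ := rfl
  rw [hx]
  have hxn : ‖xx g θ‖ ≤ K := by
    rw [← hx, norm_mul, norm_pow, Wt2.em_norm, one_pow, one_mul]
    exact hK θ
  have hre : |(xx g θ).re| ≤ K := (Complex.abs_re_le_norm _).trans hxn
  have him : |(xx g θ).im| ≤ K := (Complex.abs_im_le_norm _).trans hxn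
  generalize xx g θ = x at *
  obtain ⟨p, q⟩ := x
  simp only at hre him ⊢
  have h1 : ‖(1 + -((ε : ℂ) * (⟨p, q⟩ : ℂ)))‖ = Real.sqrt ((1 - ε * p) ^ 2 + (ε * q) ^ 2) := by
    rw [Complex.norm_def, Complex.normSq_apply]
    simp only [Complex.add_re, Complex.one_re, Complex.neg_re, Complex.re_ofReal_mul, Complex.add_im, Complex.one_im,
      Complex.neg_im, Complex.im_ofReal_mul, zero_add]
    ring_nf
  rw [h1]
  have hp := abs_le.1 hre
  have hq := abs_le.1 him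
  have ha : ε * p ≤ 1 / 2 := (mul_le_mul_of_nonneg_left hp.2 hε.le).trans hεK
  have ha' : -(1 / 2) ≤ ε * p := by nlinarith [mul_le_mul_of_nonneg_left hp.1 hε.le]
  have h2 := sqrt_le (a := 1 - ε * p) (c := ε * q) (by linarith)
  refine h2.trans ?_
  have h3 : (ε * q) ^ 2 / (2 * (1 - ε * p)) ≤ (ε * q) ^ 2 / 2 * (1 + 2 * (ε * K)) := by
    rw [div_le_iff₀ (by linarith)]
    have h4 : 1 ≤ (1 + 2 * (ε * K)) * (1 - ε * p) := by
      have h5 : ε * p ≤ ε * K := mul_le_mul_of_nonneg_left hp.2 hε.le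
      nlinarith [mul_nonneg hε.le (le_trans zero_le_one hK1)]
    have h6 : (ε * q) ^ 2 / 2 * (1 + 2 * (ε * K)) * (2 * (1 - ε * p)) =
      (ε * q) ^ 2 * ((1 + 2 * (ε * K)) * (1 - ε * p)) := by ring
    rw [h6]
    exact le_mul_of_one_le_right (sq_nonneg _) h4
  have h7 : q ^ 2 ≤ K ^ 2 := by
    rw [← sq_abs q]
    exact pow_le_pow_left₀ (abs_nonneg _) him 2
  have h8 : (ε * q) ^ 2 / 2 * (1 + 2 * (ε * K)) ≤ ε ^ 2 * (q ^ 2 / 2) + K ^ 3 * ε ^ 3 := by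
    have h9 : (ε * q) ^ 2 / 2 * (1 + 2 * (ε * K)) = ε ^ 2 * (q ^ 2 / 2) + (ε ^ 3 * K) * q ^ 2 := by ring
    rw [h9]
    have h10 : (ε ^ 3 * K) * q ^ 2 ≤ (ε ^ 3 * K) * K ^ 2 :=
      mul_le_mul_of_nonneg_left h7 (by positivity)
    have h11 : (ε ^ 3 * K) * K ^ 2 = K ^ 3 * ε ^ 3 := by ring
    linarith
  linarith

/-- the function `F` -/
noncomputable def Fz (g : ℂ → ℂ) (ξ z : ℂ) : ℂ := ((starRingEnd ℂ) ξ + ξ * z ^ 2) * dslope (deriv g) 0 z

theorem Fz_good {g : ℂ → ℂ} {ρ : ℝ} (hg : Good g ρ) (ξ : ℂ) : Good (Fz g ξ) ρ := by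
  refine ⟨hg.one_lt, ?_⟩
  have hd : DifferentiableOn ℂ (dslope (deriv g) 0) (Metric.ball 0 ρ) :=
    (Complex.differentiableOn_dslope (Metric.ball_mem_nhds 0 (lt_trans one_pos hg.one_lt))).2 (Wt2.dg_hol hg)
  unfold Fz
  exact ((differentiableOn_const _).add ((differentiableOn_const _).mul (differentiableOn_id.pow 2))).mul hd

theorem Fz_ne {g : ℂ → ℂ} (h0 : deriv g 0 = 0) (ξ : ℂ) {z : ℂ} (hz : z ≠ 0) :
    Fz g ξ z = ((starRingEnd ℂ) ξ + ξ * z ^ 2) * (deriv g z / z) := by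
  unfold Fz
  rw [dslope_of_ne _ hz, slope_def_field, h0, sub_zero, sub_zero]

theorem em_ne (θ : ℝ) : em θ ≠ 0 := by
  unfold DD.em
  exact Complex.exp_ne_zero _

/-- `v` -/
theorem L0_eq (A B θ : ℝ) : L0 (A + B * Complex.I) θ = A * Real.cos θ + B * Real.sin θ := by
  unfold L0 ep
  rw [Complex.mul_re, Complex.exp_ofReal_mul_I_re, Complex.exp_ofReal_mul_I_im]
  simp

/-- `2 v b₁ = - Re (z² F)` -/
theorem vb1 {g : ℂ → ℂ} (h0 : deriv g 0 = 0) (A B θ : ℝ) :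
    2 * (A * Real.cos θ + B * Real.sin θ) * b1 g θ = -(em θ ^ 2 * Fz g (A + B * Complex.I) (em θ)).re := by
  rw [Fz_ne h0 _ (em_ne θ)]
  have h1 : em θ ^ 2 * (((starRingEnd ℂ) (A + B * Complex.I) + (A + B * Complex.I) * em θ ^ 2) * (deriv g (em θ) / em θ)) =
      (((starRingEnd ℂ) (A + B * Complex.I) + (A + B * Complex.I) * em θ ^ 2) * em θ) * deriv g (em θ) := by
    field_simp [em_ne θ]
  rw [h1]
  unfold b1 xx
  have hre := Wt2.em_re θ
  have him := Wt2.em_im θ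
  have hcs := Real.cos_sq_add_sin_sq θ
  generalize em θ = z at *
  generalize deriv g z = h at *
  have h2 : ((starRingEnd ℂ) (A + B * Complex.I) + (A + B * Complex.I) * z ^ 2) * z =
      ((2 * (A * Real.cos θ + B * Real.sin θ) : ℝ) : ℂ) * z ^ 2 := by
    obtain ⟨x, y⟩ := z
    simp only at hre him
    subst hre
    subst him
    generalize Real.cos θ = C at *
    generalize Real.sin θ = S at *
    have e2 : ((⟨C, -S⟩ : ℂ) ^ 2) = ⟨C ^ 2 - S ^ 2, -(2 * C * S)⟩ := by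
      rw [pow_two]
      apply Complex.ext
      · simp only [Complex.mul_re]; ring
      · simp only [Complex.mul_im]; ring
    rw [e2]
    apply Complex.ext
    · simp
      linear_combination (-(A * C - B * S)) * hcs
    · simp
      linear_combination (A * S + B * C) * hcs
  have h3 : (((2 * (A * Real.cos θ + B * Real.sin θ) : ℝ) : ℂ) * z ^ 2 * h).re =
      2 * (A * Real.cos θ + B * Real.sin θ) * (z ^ 2 * h).re := by
    rw [mul_assoc, Complex.re_ofReal_mul]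
  rw [h2, h3]
  ring

theorem em_pow (θ : ℝ) (n : ℕ) :
    em θ ^ n = ((Real.cos (n * θ) : ℝ) : ℂ) - ((Real.sin (n * θ) : ℝ) : ℂ) * Complex.I := by
  unfold DD.em
  rw [← Complex.exp_nat_mul]
  have h : (n : ℂ) * -((θ : ℂ) * Complex.I) = ((-(n * θ) : ℝ) : ℂ) * Complex.I := by push_cast; ring
  rw [h, Complex.exp_mul_I, ← Complex.ofReal_cos, ← Complex.ofReal_sin, Real.cos_neg, Real.sin_neg]
  push_cast
  ring

theorem int_em {U : ℝ → ℝ} (hU : Continuous U) (n : ℕ) :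
    ∫ θ in (0 : ℝ)..(2 * Real.pi), (U θ : ℂ) * em θ ^ n =
      ((Real.pi * cj U n : ℝ) : ℂ) - ((Real.pi * sj U n : ℝ) : ℂ) * Complex.I := by
  have h1 : ∀ θ : ℝ, (U θ : ℂ) * em θ ^ n =
      ((U θ * Real.cos (n * θ) : ℝ) : ℂ) - ((U θ * Real.sin (n * θ) : ℝ) : ℂ) * Complex.I := by
    intro θ
    rw [em_pow]
    push_cast
    ring
  simp only [h1]
  have c1 : Continuous (fun θ : ℝ => ((U θ * Real.cos (n * θ) : ℝ) : ℂ)) := by fun_prop
  have c2 : Continuous (fun θ : ℝ => ((U θ * Real.sin (n * θ) : ℝ) : ℂ) * Complex.I) := by fun_prop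
  rw [intervalIntegral.integral_sub (c1.intervalIntegrable _ _) (c2.intervalIntegrable _ _),
    intervalIntegral.integral_mul_const, intervalIntegral.integral_ofReal, intervalIntegral.integral_ofReal]
  have hp := Real.pi_ne_zero
  have e1 : Real.pi * cj U n = ∫ θ in (0 : ℝ)..(2 * Real.pi), U θ * Real.cos (n * θ) := by
    unfold cj
    field_simp
  have e2 : Real.pi * sj U n = ∫ θ in (0 : ℝ)..(2 * Real.pi), U θ * Real.sin (n * θ) := by
    unfold sj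
    field_simp
  rw [e1, e2]

theorem ser_int {U : ℝ → ℝ} (hU : Continuous U) {F : ℂ → ℂ} {c : ℕ → ℂ}
    (hs : ∀ θ : ℝ, HasSum (fun n => c n * em θ ^ n) (F (em θ))) (hn : Summable (fun n => ‖c n‖)) :
    HasSum (fun m : ℕ => (c m * (((Real.pi * cj U (m + 2) : ℝ) : ℂ) - ((Real.pi * sj U (m + 2) : ℝ) : ℂ) * Complex.I)))
      (∫ θ in (0 : ℝ)..(2 * Real.pi), (U θ : ℂ) * (em θ ^ 2 * F (em θ))) := by
  obtain ⟨M, hM⟩ := (isCompact_uIcc (a := (0 : ℝ)) (b := 2 * Real.pi)).exists_bound_of_continuousOn hU.continuousOn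
  have h := intervalIntegral.hasSum_integral_of_dominated_convergence (μ := volume) (a := (0 : ℝ)) (b := 2 * Real.pi)
    (F := fun (m : ℕ) (θ : ℝ) => c m * ((U θ : ℂ) * em θ ^ (m + 2)))
    (f := fun θ : ℝ => (U θ : ℂ) * (em θ ^ 2 * F (em θ))) (fun m _ => ‖c m‖ * M) ?_ ?_ ?_ ?_ ?_
  · have e : (fun m : ℕ => (c m * (((Real.pi * cj U (m + 2) : ℝ) : ℂ) - ((Real.pi * sj U (m + 2) : ℝ) : ℂ) * Complex.I))) =
        fun m : ℕ => ∫ θ in (0 : ℝ)..(2 * Real.pi), c m * ((U θ : ℂ) * em θ ^ (m + 2)) := by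
      funext m
      rw [intervalIntegral.integral_const_mul, int_em hU]
    rw [e]
    exact h
  · intro m
    have : Continuous (fun θ : ℝ => c m * ((U θ : ℂ) * em θ ^ (m + 2))) :=
      continuous_const.mul ((Complex.continuous_ofReal.comp hU).mul (Wt2.em_cont.pow _))
    exact this.aestronglyMeasurable
  · intro m
    refine Eventually.of_forall fun θ hθ => ?_
    rw [norm_mul, norm_mul, norm_pow, Wt2.em_norm, one_pow, mul_one, Complex.norm_real]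
    exact mul_le_mul_of_nonneg_left (hM θ (uIoc_subset_uIcc hθ)) (norm_nonneg _)
  · exact Eventually.of_forall fun θ _ => hn.mul_right M
  · exact intervalIntegrable_const
  · refine Eventually.of_forall fun θ _ => ?_
    have h1 := (hs θ).mul_left ((U θ : ℂ) * em θ ^ 2)
    have e : (fun m : ℕ => c m * ((U θ : ℂ) * em θ ^ (m + 2))) = fun m : ℕ => (U θ : ℂ) * em θ ^ 2 * (c m * em θ ^ m) := by
      funext m
      ring
    have e2 : (U θ : ℂ) * (em θ ^ 2 * F (em θ)) = (U θ : ℂ) * em θ ^ 2 * F (em θ) := by ring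
    show HasSum (fun m : ℕ => c m * ((U θ : ℂ) * em θ ^ (m + 2))) ((U θ : ℂ) * (em θ ^ 2 * F (em θ)))
    rw [e, e2]
    exact h1

/-- Parseval -/
theorem pars {U : ℝ → ℝ} (hU : Continuous U) (h0 : ∫ θ in (0 : ℝ)..(2 * Real.pi), U θ = 0) :
    HasSum (fun m : ℕ => Real.pi * (cj U (m + 2) ^ 2 + sj U (m + 2) ^ 2))
      ((∫ θ in (0 : ℝ)..(2 * Real.pi), U θ ^ 2) - Real.pi * (cj U 1 ^ 2 + sj U 1 ^ 2)) := by
  have hp := Real.pi_ne_zero
  have h := (parseval hU).nat_add_neg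
  have hneg : ∀ n : ℤ, cn (-n) U = cn n U ∧ sn (-n) U = -sn n U := by
    intro n
    constructor
    · unfold cn
      refine intervalIntegral.integral_congr fun x _ => ?_
      rw [show ((-n : ℤ) : ℝ) * x = -((n : ℝ) * x) by push_cast; ring, Real.cos_neg]
    · unfold sn
      rw [← intervalIntegral.integral_neg]
      refine intervalIntegral.integral_congr fun x _ => ?_
      rw [show ((-n : ℤ) : ℝ) * x = -((n : ℝ) * x) by push_cast; ring, Real.sin_neg]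
      ring
  have hc : ∀ j : ℕ, cn (j : ℤ) U = Real.pi * cj U j := by
    intro j
    unfold cn cj
    simp only [Int.cast_natCast]
    field_simp
  have hs : ∀ j : ℕ, sn (j : ℤ) U = Real.pi * sj U j := by
    intro j
    unfold sn sj
    simp only [Int.cast_natCast]
    field_simp
  have z1 : cn 0 U = 0 := by
    unfold cn
    simp [h0]
  have z2 : sn 0 U = 0 := by
    unfold sn
    simp
  have h1 := ((hasSum_nat_add_iff' 2).2 h).mul_left (1 / (2 * Real.pi))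
  have e : (fun m : ℕ => Real.pi * (cj U (m + 2) ^ 2 + sj U (m + 2) ^ 2)) = fun m : ℕ => 1 / (2 * Real.pi) *
      (cn ((m + 2 : ℕ) : ℤ) U ^ 2 + sn ((m + 2 : ℕ) : ℤ) U ^ 2 +
        (cn (-((m + 2 : ℕ) : ℤ)) U ^ 2 + sn (-((m + 2 : ℕ) : ℤ)) U ^ 2)) := by
    funext m
    rw [(hneg _).1, (hneg _).2, hc, hs]
    field_simp
    ring
  have e3 : (∫ θ in (0 : ℝ)..(2 * Real.pi), U θ ^ 2) - Real.pi * (cj U 1 ^ 2 + sj U 1 ^ 2) =
      1 / (2 * Real.pi) * ((2 * Real.pi * ∫ x in (0 : ℝ)..(2 * Real.pi), U x ^ 2) + (cn 0 U ^ 2 + sn 0 U ^ 2) -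
            ∑ i ∈ Finset.range 2,
              (cn (i : ℤ) U ^ 2 + sn (i : ℤ) U ^ 2 + (cn (-(i : ℤ)) U ^ 2 + sn (-(i : ℤ)) U ^ 2))) := by
    rw [Finset.sum_range_succ, Finset.sum_range_one, (hneg _).1, (hneg _).2, (hneg _).1, (hneg _).2, hc, hs, hc 1, hs 1]
    have y1 : Real.pi * cj U 0 = 0 := by rw [← hc 0]; exact z1
    have y2 : Real.pi * sj U 0 = 0 := by rw [← hs 0]; exact z2
    rw [z1, z2, y1, y2]
    field_simp
    ring
  rw [e, e3]
  exact h1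

/-- the arithmetic-geometric step -/
theorem am {n δ e a p : ℝ} (hn : 0 < n) (hδ : 0 ≤ δ) (hδ2 : δ ≤ 1 / 2) :
    -(e * (p * a)) ≤ (1 - δ) * n * a ^ 2 + (1 + 2 * δ) * e ^ 2 / 4 * (p ^ 2 / n) := by
  have h1 : 0 ≤ (1 - δ) * ((1 - δ) * (2 * n * a) ^ 2 + 2 * (2 * n * a) * (e * p) + (1 + 2 * δ) * (e * p) ^ 2) := by
    have h2 : (1 - δ) * ((1 - δ) * (2 * n * a) ^ 2 + 2 * (2 * n * a) * (e * p) + (1 + 2 * δ) * (e * p) ^ 2) =
        ((1 - δ) * (2 * n * a) + e * p) ^ 2 + δ * (1 - 2 * δ) * (e * p) ^ 2 := by ring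
    rw [h2]
    have h3 : 0 ≤ 1 - 2 * δ := by linarith
    positivity
  have h4 := (mul_nonneg_iff_of_pos_left (by linarith : 0 < 1 - δ)).1 h1
  have h5 : (1 - δ) * n * a ^ 2 + (1 + 2 * δ) * e ^ 2 / 4 * (p ^ 2 / n) + e * (p * a) =
      ((1 - δ) * (2 * n * a) ^ 2 + 2 * (2 * n * a) * (e * p) + (1 + 2 * δ) * (e * p) ^ 2) / (4 * n) := by
    field_simp
    ring
  have h6 : 0 ≤ ((1 - δ) * (2 * n * a) ^ 2 + 2 * (2 * n * a) * (e * p) + (1 + 2 * δ) * (e * p) ^ 2) / (4 * n) :=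
    div_nonneg h4 (by linarith)
  linarith

theorem sum_Icc (G : ℕ → ℝ) (n : ℕ) : ∑ j ∈ Finset.Icc 1 (n + 1), G j = G 1 + ∑ m ∈ Finset.range n, G (m + 2) := by
  induction n with
  | zero => simp
  | succ n ih =>
    rw [Finset.sum_Icc_succ_top (by omega), ih, Finset.sum_range_succ]
    ring

/-- the cross term -/
theorem cross {g : ℂ → ℂ} {ρ : ℝ} (hg : Good g ρ) (h0 : deriv g 0 = 0) {U : ℝ → ℝ} (hU : Continuous U)
    (hm : ∫ θ in (0 : ℝ)..(2 * Real.pi), U θ = 0) {A B : ℝ} {c : ℕ → ℂ} {Bg D W S : ℝ}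
    (hs : ∀ θ : ℝ, HasSum (fun n => c n * em θ ^ n) (Fz g (A + B * Complex.I) (em θ))) (hn : Summable (fun n => ‖c n‖))
    (hb : HasSum (fun n : ℕ => Real.pi / ((n : ℝ) + 1) * ‖c n‖ ^ 2) Bg)
    (hS : S = ∫ θ in (0 : ℝ)..(2 * Real.pi), 2 * (A * Real.cos θ + B * Real.sin θ) * b1 g θ * U θ)
    (hW : W = (∫ θ in (0 : ℝ)..(2 * Real.pi), U θ ^ 2) - Real.pi * (cj U 1 ^ 2 + sj U 1 ^ 2))
    (hD : ∀ J : ℕ, ∑ j ∈ Finset.Icc 1 J, j * Real.pi * (cj U j ^ 2 + sj U j ^ 2) ≤ D) :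
    ∃ T : ℝ, W ≤ T ∧ Real.pi * (cj U 1 ^ 2 + sj U 1 ^ 2) + W + T ≤ D ∧
      ∀ δ ε : ℝ, 0 ≤ δ → δ ≤ 1 / 2 → 0 < ε → ε * S ≤ (1 - δ) * T + (1 + 2 * δ) * ε ^ 2 / 4 * Bg := by
  have hpi := Real.pi_pos
  have hu := pars hU hm
  rw [← hW] at hu
  have hf0 : ∀ m : ℕ, 0 ≤ ((m : ℝ) + 2) * (Real.pi * (cj U (m + 2) ^ 2 + sj U (m + 2) ^ 2)) := fun m => by positivity
  have hfs : ∀ n : ℕ, ∑ m ∈ Finset.range n, ((m : ℝ) + 2) * (Real.pi * (cj U (m + 2) ^ 2 + sj U (m + 2) ^ 2)) ≤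
      D - Real.pi * (cj U 1 ^ 2 + sj U 1 ^ 2) := by
    intro n
    have h1 := hD (n + 1)
    rw [sum_Icc (fun j : ℕ => (j : ℝ) * Real.pi * (cj U j ^ 2 + sj U j ^ 2))] at h1
    have h2 : ∑ m ∈ Finset.range n, ((m : ℝ) + 2) * (Real.pi * (cj U (m + 2) ^ 2 + sj U (m + 2) ^ 2)) =
        ∑ m ∈ Finset.range n, (fun j : ℕ => (j : ℝ) * Real.pi * (cj U j ^ 2 + sj U j ^ 2)) (m + 2) := by
      refine Finset.sum_congr rfl fun m _ => ?_
      simp only
      push_cast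
      ring
    rw [h2]
    simp only [Nat.cast_one, one_mul] at h1 ⊢
    linarith
  have hsf := summable_of_sum_range_le hf0 hfs
  have hle := Real.tsum_le_of_sum_range_le hf0 hfs
  have ht := hsf.hasSum.sub hu
  refine ⟨(∑' m : ℕ, ((m : ℝ) + 2) * (Real.pi * (cj U (m + 2) ^ 2 + sj U (m + 2) ^ 2))) - W, ?_, ?_, ?_⟩
  · refine hasSum_le (fun m => ?_) hu ht
    have h1 : 0 ≤ (m : ℝ) * (Real.pi * (cj U (m + 2) ^ 2 + sj U (m + 2) ^ 2)) := by positivity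
    linarith
  · linarith
  · intro δ ε hδ hδ2 hε
    have h1 := ser_int hU hs hn
    have h2 := (Complex.hasSum_re h1).mul_left (-ε)
    have e1 : -ε * (∫ θ in (0 : ℝ)..(2 * Real.pi), (U θ : ℂ) * (em θ ^ 2 * Fz g (A + B * Complex.I) (em θ))).re = ε * S := by
      have hFc : Continuous (fun θ : ℝ => Fz g (A + B * Complex.I) (em θ)) :=
        (Fz_good hg _).hol.continuousOn.comp_continuous Wt2.em_cont (Wt2.em_mem hg)
      have hc : Continuous (fun θ : ℝ => (U θ : ℂ) * (em θ ^ 2 * Fz g (A + B * Complex.I) (em θ))) :=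
        (Complex.continuous_ofReal.comp hU).mul ((Wt2.em_cont.pow 2).mul hFc)
      have h3 := Complex.reCLM.intervalIntegral_comp_comm (μ := volume) (hc.intervalIntegrable 0 (2 * Real.pi))
      have h4 : (∫ θ in (0 : ℝ)..(2 * Real.pi), (U θ : ℂ) * (em θ ^ 2 * Fz g (A + B * Complex.I) (em θ))).re =
          ∫ θ in (0 : ℝ)..(2 * Real.pi), ((U θ : ℂ) * (em θ ^ 2 * Fz g (A + B * Complex.I) (em θ))).re := h3.symm
      have h5 : S = -∫ θ in (0 : ℝ)..(2 * Real.pi), ((U θ : ℂ) * (em θ ^ 2 * Fz g (A + B * Complex.I) (em θ))).re := by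
        rw [hS, ← intervalIntegral.integral_neg]
        refine intervalIntegral.integral_congr fun θ _ => ?_
        rw [vb1 h0, Complex.re_ofReal_mul]
        ring
      rw [h4, h5]
      ring
    rw [e1] at h2
    have h6 := (ht.mul_left (1 - δ)).add (hb.mul_left ((1 + 2 * δ) * ε ^ 2 / 4))
    refine hasSum_le (fun m => ?_) h2 h6
    have hm1 : (0 : ℝ) < (m : ℝ) + 1 := by positivity
    have k1 := am (n := (m : ℝ) + 1) (δ := δ) (e := ε) (a := cj U (m + 2)) (p := (c m).re) hm1 hδ hδ2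
    have k2 := am (n := (m : ℝ) + 1) (δ := δ) (e := ε) (a := sj U (m + 2)) (p := (c m).im) hm1 hδ hδ2
    have k3 : ‖c m‖ ^ 2 = (c m).re ^ 2 + (c m).im ^ 2 := by
      rw [← Complex.normSq_eq_norm_sq, Complex.normSq_apply]
      ring
    have k4 : (c m * (((Real.pi * cj U (m + 2) : ℝ) : ℂ) - ((Real.pi * sj U (m + 2) : ℝ) : ℂ) * Complex.I)).re =
        Real.pi * ((c m).re * cj U (m + 2) + (c m).im * sj U (m + 2)) := by
      simp
      ring
    have k5 := mul_le_mul_of_nonneg_left (add_le_add k1 k2) hpi.le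
    rw [k4, k3]
    have k6 : (1 - δ) * (((m : ℝ) + 2) * (Real.pi * (cj U (m + 2) ^ 2 + sj U (m + 2) ^ 2)) -
        Real.pi * (cj U (m + 2) ^ 2 + sj U (m + 2) ^ 2)) +
        (1 + 2 * δ) * ε ^ 2 / 4 * (Real.pi / ((m : ℝ) + 1) * ((c m).re ^ 2 + (c m).im ^ 2)) =
        Real.pi * ((1 - δ) * ((m : ℝ) + 1) * cj U (m + 2) ^ 2 + (1 + 2 * δ) * ε ^ 2 / 4 * ((c m).re ^ 2 / ((m : ℝ) + 1)) +
        ((1 - δ) * ((m : ℝ) + 1) * sj U (m + 2) ^ 2 + (1 + 2 * δ) * ε ^ 2 / 4 * ((c m).im ^ 2 / ((m : ℝ) + 1)))) := by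
      field_simp
      ring
    rw [k6]
    refine le_trans (le_of_eq ?_) k5
    ring

theorem xx_cont {g : ℂ → ℂ} {ρ : ℝ} (hg : Good g ρ) : Continuous (xx g) := by
  unfold xx
  exact (Wt2.em_cont.pow 2).mul (Wt2.dg_cont hg)

theorem wt_cont {g : ℂ → ℂ} {ρ : ℝ} (hg : Good g ρ) (ε : ℝ) : Continuous (wt g ε) := Wt2.b_cont hg ε

/-- the pointwise estimate -/
theorem pt {K ε u v c1 c2 t : ℝ} (hK : 1 ≤ K) (hε : 0 < ε) (hε1 : ε ≤ 1) (hc1 : |c1| ≤ K) (hc2 : 0 ≤ c2) (hc2' : c2 ≤ K ^ 2)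
    (ht : t ≤ 1 + ε * c1 + ε ^ 2 * c2 + K ^ 3 * ε ^ 3) :
    u ^ 2 * t ≤ u ^ 2 + (ε * (2 * v * c1 * u) + (-ε * (v ^ 2 * c1) + (ε ^ 2 * (v ^ 2 * c2) +
      (5 * K ^ 3 * ε * (u - v) ^ 2 + 5 * K ^ 3 * ε ^ 3 * v ^ 2)))) := by
  have h1 : u ^ 2 * t ≤ u ^ 2 * (1 + ε * c1 + ε ^ 2 * c2 + K ^ 3 * ε ^ 3) := mul_le_mul_of_nonneg_left ht (sq_nonneg _)
  have h2 : ε * (c1 * (u - v) ^ 2) ≤ ε * (K * (u - v) ^ 2) :=
    mul_le_mul_of_nonneg_left (mul_le_mul_of_nonneg_right (abs_le.1 hc1).2 (sq_nonneg _)) hε.le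
  have h3 : 2 * ε ^ 2 * c2 * v * (u - v) ≤ K ^ 2 * (ε * (u - v) ^ 2 + ε ^ 3 * v ^ 2) := by
    have h4 : 0 ≤ c2 * ε * ((u - v) - ε * v) ^ 2 := by positivity
    have h5 : c2 * (ε * (u - v) ^ 2 + ε ^ 3 * v ^ 2) ≤ K ^ 2 * (ε * (u - v) ^ 2 + ε ^ 3 * v ^ 2) :=
      mul_le_mul_of_nonneg_right hc2' (by positivity)
    nlinarith
  have hε2 : ε ^ 2 ≤ ε := by nlinarith
  have hε3 : ε ^ 3 ≤ ε := by nlinarith [mul_le_mul_of_nonneg_left hε2 hε.le]
  have h6 : ε ^ 2 * c2 * (u - v) ^ 2 ≤ K ^ 2 * (ε * (u - v) ^ 2) := by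
    have h7 : ε ^ 2 * c2 ≤ ε * K ^ 2 := mul_le_mul hε2 hc2' hc2 hε.le
    nlinarith [mul_le_mul_of_nonneg_right h7 (sq_nonneg (u - v))]
  have h8 : K ^ 3 * ε ^ 3 * u ^ 2 ≤ 2 * K ^ 3 * (ε * (u - v) ^ 2) + 2 * K ^ 3 * (ε ^ 3 * v ^ 2) := by
    have h9 : u ^ 2 ≤ 2 * (u - v) ^ 2 + 2 * v ^ 2 := by nlinarith [sq_nonneg (u - v - v)]
    have h10 : K ^ 3 * ε ^ 3 * u ^ 2 ≤ K ^ 3 * ε ^ 3 * (2 * (u - v) ^ 2 + 2 * v ^ 2) :=
      mul_le_mul_of_nonneg_left h9 (by positivity)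
    have h11 : K ^ 3 * ε ^ 3 * (u - v) ^ 2 ≤ K ^ 3 * ε * (u - v) ^ 2 :=
      mul_le_mul_of_nonneg_right (mul_le_mul_of_nonneg_left hε3 (by positivity)) (sq_nonneg _)
    linarith
  have hK2 : K ^ 2 ≤ K ^ 3 := pow_le_pow_right₀ hK (by norm_num)
  have hK1 : K ≤ K ^ 3 := by
    calc K = K ^ 1 := (pow_one K).symm
      _ ≤ K ^ 3 := pow_le_pow_right₀ hK (by norm_num)
  have q1 : 0 ≤ ε * (u - v) ^ 2 := by positivity
  have q2 : 0 ≤ ε ^ 3 * v ^ 2 := by positivity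
  have h12 : K * (ε * (u - v) ^ 2) ≤ K ^ 3 * (ε * (u - v) ^ 2) := mul_le_mul_of_nonneg_right hK1 q1
  have h13 : K ^ 2 * (ε * (u - v) ^ 2) ≤ K ^ 3 * (ε * (u - v) ^ 2) := mul_le_mul_of_nonneg_right hK2 q1
  have h14 : K ^ 2 * (ε ^ 3 * v ^ 2) ≤ K ^ 3 * (ε ^ 3 * v ^ 2) := mul_le_mul_of_nonneg_right hK2 q2
  have h15 : 0 ≤ K ^ 3 * (ε ^ 3 * v ^ 2) := by positivity
  nlinarith

end Pool.Agent.H74.DE.Wt3

namespace Pool.Agent.H74.DE

open MeasureTheory Set Filter Topology Pool.Agent.H74.SX Pool.Agent.H74.DD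

open Wt3 in
/-- `Wt3`: the weight on the circle, second order. -/
theorem wt3 : Wt3Stmt := by
  intro g ρ hg0
  have hg := hg0.good
  have h0 := hg0.dzero
  have hpi := Real.pi_pos
  obtain ⟨K0, hK00, hK0⟩ := Wt2.dg_bdd hg
  obtain ⟨K, hKdef⟩ : ∃ K : ℝ, K = K0 + 1 := ⟨_, rfl⟩
  have hK1 : 1 ≤ K := by rw [hKdef]; linarith
  have hK : ∀ θ, ‖deriv g (em θ)‖ ≤ K := fun θ => (hK0 θ).trans (by rw [hKdef]; linarith)
  -- bound of the difference quotient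
  have hdc : ContinuousOn (dslope (deriv g) 0) (Metric.closedBall 0 1) :=
    ((Complex.differentiableOn_dslope (Metric.ball_mem_nhds 0 (lt_trans one_pos hg.one_lt))).2
      (Wt2.dg_hol hg)).continuousOn.mono (Metric.closedBall_subset_ball hg.one_lt)
  obtain ⟨K3, hK3⟩ := (isCompact_closedBall (0 : ℂ) 1).exists_bound_of_continuousOn hdc
  obtain ⟨V0, hV0⟩ : ∃ V0 : ℝ, V0 = volume.real (Metric.ball (0 : ℂ) 1) := ⟨_, rfl⟩
  have hV00 : 0 ≤ V0 := by rw [hV0]; exact measureReal_nonneg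
  refine ⟨5 * K ^ 3 / 2 * (4 * K3 ^ 2 * V0) + 5 * K ^ 3, 1 / (10 * K ^ 3), by positivity, by positivity, ?_⟩
  intro ε hε hε0 U hU D hm hD
  have hKp : (0 : ℝ) < K := lt_of_lt_of_le one_pos hK1
  have hK3p : 1 ≤ K ^ 3 := one_le_pow₀ hK1
  have hKK3 : K ≤ K ^ 3 := by
    calc K = K ^ 1 := (pow_one K).symm
      _ ≤ K ^ 3 := pow_le_pow_right₀ hK1 (by norm_num)
  have hεK3 : ε * (10 * K ^ 3) < 1 := (lt_div_iff₀ (by positivity)).1 hε0
  have hδ2 : 5 * K ^ 3 * ε ≤ 1 / 2 := by linarith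
  have hδ : 0 ≤ 5 * K ^ 3 * ε := by positivity
  have hε1 : ε ≤ 1 := by nlinarith
  have hεK : ε * K ≤ 1 / 2 := by nlinarith [mul_le_mul_of_nonneg_left hKK3 hε.le]
  obtain ⟨A, hA⟩ : ∃ A : ℝ, A = cj U 1 := ⟨_, rfl⟩
  obtain ⟨B, hB⟩ : ∃ B : ℝ, B = sj U 1 := ⟨_, rfl⟩
  have hFg := Fz_good hg (A + B * Complex.I)
  have hs : ∀ θ : ℝ, HasSum (fun n => cf (Fz g (A + B * Complex.I)) n * em θ ^ n) (Fz g (A + B * Complex.I) (em θ)) := fun θ =>
    ParC.Par.ts hFg.hol (by rw [Wt2.em_norm]; exact hg.one_lt)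
  have hn := ParC.Par.sm hFg.one_lt hFg.hol
  have hb := ParC.area hFg.one_lt hFg.hol
  obtain ⟨Bg, hBg⟩ : ∃ Bg : ℝ, Bg = ∫ z in Metric.ball (0 : ℂ) 1, ‖Fz g (A + B * Complex.I) z‖ ^ 2 := ⟨_, rfl⟩
  rw [← hBg] at hb
  obtain ⟨W, hW⟩ : ∃ W : ℝ, W = (∫ θ in (0 : ℝ)..(2 * Real.pi), U θ ^ 2) - Real.pi * (cj U 1 ^ 2 + sj U 1 ^ 2) := ⟨_, rfl⟩
  obtain ⟨S, hS⟩ : ∃ S : ℝ, S = ∫ θ in (0 : ℝ)..(2 * Real.pi), 2 * (A * Real.cos θ + B * Real.sin θ) * b1 g θ * U θ :=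
    ⟨_, rfl⟩
  obtain ⟨T, hWT, hTD, hcr⟩ := cross hg h0 hU hm hs hn hb hS hW hD
  have hcr1 := hcr (5 * K ^ 3 * ε) ε hδ hδ2 hε
  rw [← hA, ← hB] at hW hTD
  -- the value of `Mq`
  have hMq : Mq g (cj U 1 + sj U 1 * Complex.I) = 1 / 4 * Bg +
      ∫ θ in (0 : ℝ)..(2 * Real.pi), (A * Real.cos θ + B * Real.sin θ) ^ 2 * b2 g θ := by
    unfold Mq
    rw [← hA, ← hB, hBg]
    have e1 : ∫ z in Metric.ball (0 : ℂ) 1,
        ‖((starRingEnd ℂ) (A + B * Complex.I) + (A + B * Complex.I) * z ^ 2) * (deriv g z / z)‖ ^ 2 =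
        ∫ z in Metric.ball (0 : ℂ) 1, ‖Fz g (A + B * Complex.I) z‖ ^ 2 := by
      refine integral_congr_ae (ae_restrict_of_ae ?_)
      have h1 : ∀ᵐ z : ℂ, z ≠ 0 := by
        have : volume ({0} : Set ℂ) = 0 := measure_singleton 0
        exact compl_mem_ae_iff.2 this
      filter_upwards [h1] with z hz
      rw [Fz_ne h0 _ hz]
    have e2 : ∀ θ : ℝ, L0 (A + B * Complex.I) θ ^ 2 * b2 g θ = (A * Real.cos θ + B * Real.sin θ) ^ 2 * b2 g θ := by
      intro θ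
      rw [L0_eq]
    rw [e1]
    simp only [e2]
  -- bound of `Bg`
  have hBgle : Bg ≤ 4 * K3 ^ 2 * V0 * (A ^ 2 + B ^ 2) := by
    have h1 : ‖∫ z in Metric.ball (0 : ℂ) 1, ‖Fz g (A + B * Complex.I) z‖ ^ 2‖ ≤
        (4 * K3 ^ 2 * (A ^ 2 + B ^ 2)) * volume.real (Metric.ball (0 : ℂ) 1) := by
      refine norm_setIntegral_le_of_norm_le_const measure_ball_lt_top fun z hz => ?_
      rw [norm_pow, norm_norm]
      have hz1 : ‖z‖ < 1 := by simpa using hz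
      have h2 : ‖dslope (deriv g) 0 z‖ ≤ K3 := hK3 z (by simpa using hz1.le)
      have h3 : ‖(A + B * Complex.I : ℂ)‖ ^ 2 = A ^ 2 + B ^ 2 := by
        rw [← Complex.normSq_eq_norm_sq, Complex.normSq_add_mul_I]
      have h4 : ‖(starRingEnd ℂ) (A + B * Complex.I) + (A + B * Complex.I) * z ^ 2‖ ≤ 2 * ‖(A + B * Complex.I : ℂ)‖ := by
        refine (norm_add_le _ _).trans ?_
        rw [RCLike.norm_conj, norm_mul, norm_pow]
        have : ‖z‖ ^ 2 ≤ 1 := pow_le_one₀ (norm_nonneg _) hz1.le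
        nlinarith [norm_nonneg (A + B * Complex.I : ℂ), mul_le_mul_of_nonneg_left this (norm_nonneg (A + B * Complex.I : ℂ))]
      unfold Fz
      rw [norm_mul, mul_pow]
      have h5 : ‖(starRingEnd ℂ) (A + B * Complex.I) + (A + B * Complex.I) * z ^ 2‖ ^ 2 ≤ (2 * ‖(A + B * Complex.I : ℂ)‖) ^ 2 :=
        pow_le_pow_left₀ (norm_nonneg _) h4 2
      have h6 : ‖dslope (deriv g) 0 z‖ ^ 2 ≤ K3 ^ 2 := pow_le_pow_left₀ (norm_nonneg _) h2 2
      have h7 := mul_le_mul h5 h6 (sq_nonneg _) (sq_nonneg _)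
      rw [mul_pow, h3] at h7
      linarith
    rw [← hBg, ← hV0] at h1
    have h2 := (le_abs_self Bg).trans h1
    linarith
  -- pointwise
  have hxx := xx_cont hg
  have hwt := wt_cont hg ε
  have hxn : ∀ θ, ‖xx g θ‖ ≤ K := fun θ => by
    unfold xx
    rw [norm_mul, norm_pow, Wt2.em_norm, one_pow, one_mul]
    exact hK θ
  have hb1c : Continuous (b1 g) := by
    unfold b1
    exact (Complex.continuous_re.comp hxx).neg
  have hb2c : Continuous (b2 g) := by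
    unfold b2
    exact ((Complex.continuous_im.comp hxx).pow 2).div_const 2
  have hpt : ∀ θ : ℝ, U θ ^ 2 * wt g ε θ ≤ U θ ^ 2 + (ε * (2 * (A * Real.cos θ + B * Real.sin θ) * b1 g θ * U θ) +
      (-ε * ((A * Real.cos θ + B * Real.sin θ) ^ 2 * b1 g θ) + (ε ^ 2 * ((A * Real.cos θ + B * Real.sin θ) ^ 2 * b2 g θ) +
      (5 * K ^ 3 * ε * (U θ - (A * Real.cos θ + B * Real.sin θ)) ^ 2 +
        5 * K ^ 3 * ε ^ 3 * (A * Real.cos θ + B * Real.sin θ) ^ 2)))) := by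
    intro θ
    refine pt hK1 hε hε1 ?_ ?_ ?_ (wt_le hg hK1 hK hε hεK θ)
    · unfold b1
      rw [abs_neg]
      exact (Complex.abs_re_le_norm _).trans (hxn θ)
    · unfold b2
      positivity
    · unfold b2
      have h1 : (xx g θ).im ^ 2 ≤ K ^ 2 := by
        rw [← sq_abs]
        exact pow_le_pow_left₀ (abs_nonneg _) ((Complex.abs_im_le_norm _).trans (hxn θ)) 2
      have h2 := sq_nonneg (xx g θ).im
      linarith
  have hint := intervalIntegral.integral_mono (μ := volume) (a := (0 : ℝ)) (b := 2 * Real.pi) (by positivity)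
    ((by fun_prop : Continuous (fun θ : ℝ => U θ ^ 2 * wt g ε θ)).intervalIntegrable _ _)
    ((by fun_prop : Continuous (fun θ : ℝ => U θ ^ 2 + (ε * (2 * (A * Real.cos θ + B * Real.sin θ) * b1 g θ * U θ) +
      (-ε * ((A * Real.cos θ + B * Real.sin θ) ^ 2 * b1 g θ) + (ε ^ 2 * ((A * Real.cos θ + B * Real.sin θ) ^ 2 * b2 g θ) +
      (5 * K ^ 3 * ε * (U θ - (A * Real.cos θ + B * Real.sin θ)) ^ 2 +
        5 * K ^ 3 * ε ^ 3 * (A * Real.cos θ + B * Real.sin θ) ^ 2)))))).intervalIntegrable _ _) hpt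
  rw [intervalIntegral.integral_add ((by fun_prop : Continuous _).intervalIntegrable _ _)
      ((by fun_prop : Continuous _).intervalIntegrable _ _),
    intervalIntegral.integral_add ((by fun_prop : Continuous _).intervalIntegrable _ _)
      ((by fun_prop : Continuous _).intervalIntegrable _ _),
    intervalIntegral.integral_add ((by fun_prop : Continuous _).intervalIntegrable _ _)
      ((by fun_prop : Continuous _).intervalIntegrable _ _),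
    intervalIntegral.integral_add ((by fun_prop : Continuous _).intervalIntegrable _ _)
      ((by fun_prop : Continuous _).intervalIntegrable _ _),
    intervalIntegral.integral_add ((by fun_prop : Continuous _).intervalIntegrable _ _)
      ((by fun_prop : Continuous _).intervalIntegrable _ _),
    intervalIntegral.integral_const_mul, intervalIntegral.integral_const_mul, intervalIntegral.integral_const_mul,
    intervalIntegral.integral_const_mul, intervalIntegral.integral_const_mul, ← hS] at hint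
  have hvv := Wt2.i_vv A B
  have hvb : ∫ θ in (0 : ℝ)..(2 * Real.pi), (A * Real.cos θ + B * Real.sin θ) ^ 2 * b1 g θ = 0 := by
    have h1 := Wt2.int_v2 mv hg A B
    rw [h0] at h1
    have h2 : ∀ θ : ℝ, (A * Real.cos θ + B * Real.sin θ) ^ 2 * b1 g θ =
        -((A * Real.cos θ + B * Real.sin θ) ^ 2 * Wt2.X g θ) := by
      intro θ
      unfold b1 Wt2.X xx
      ring
    simp only [h2]
    rw [intervalIntegral.integral_neg, h1]
    simp
  have hww : ∫ θ in (0 : ℝ)..(2 * Real.pi), (U θ - (A * Real.cos θ + B * Real.sin θ)) ^ 2 = W := by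
    have iA : ∫ θ in (0 : ℝ)..(2 * Real.pi), U θ * Real.cos θ = Real.pi * A := by
      rw [hA]
      unfold cj
      simp only [Nat.cast_one, one_mul]
      field_simp
    have iB : ∫ θ in (0 : ℝ)..(2 * Real.pi), U θ * Real.sin θ = Real.pi * B := by
      rw [hB]
      unfold sj
      simp only [Nat.cast_one, one_mul]
      field_simp
    have h1 : ∀ θ : ℝ, (U θ - (A * Real.cos θ + B * Real.sin θ)) ^ 2 = U θ ^ 2 + (-(2 * A) * (U θ * Real.cos θ) +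
        (-(2 * B) * (U θ * Real.sin θ) + (A * Real.cos θ + B * Real.sin θ) ^ 2)) := by
      intro θ
      ring
    simp only [h1]
    rw [intervalIntegral.integral_add ((by fun_prop : Continuous _).intervalIntegrable _ _)
        ((by fun_prop : Continuous _).intervalIntegrable _ _),
      intervalIntegral.integral_add ((by fun_prop : Continuous _).intervalIntegrable _ _)
        ((by fun_prop : Continuous _).intervalIntegrable _ _),
      intervalIntegral.integral_add ((by fun_prop : Continuous _).intervalIntegrable _ _)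
        ((by fun_prop : Continuous _).intervalIntegrable _ _),
      intervalIntegral.integral_const_mul, intervalIntegral.integral_const_mul, iA, iB, hvv, hW]
    ring
  have hW0 : 0 ≤ W := by
    rw [← hww]
    exact intervalIntegral.integral_nonneg (by positivity) fun θ _ => sq_nonneg _
  rw [hvv, hvb, hww] at hint
  rw [hMq]
  have hAB : A ^ 2 + B ^ 2 ≤ Real.pi * (A ^ 2 + B ^ 2) := by
    have := Real.pi_gt_three
    nlinarith [sq_nonneg A, sq_nonneg B]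
  have hBg0 : 0 ≤ Bg := by
    rw [hBg]
    exact integral_nonneg fun z => by positivity
  generalize (∫ θ in (0 : ℝ)..(2 * Real.pi), (A * Real.cos θ + B * Real.sin θ) ^ 2 * b2 g θ) = Q at hint ⊢
  generalize (∫ θ in (0 : ℝ)..(2 * Real.pi), U θ ^ 2 * wt g ε θ) = Y at hint ⊢
  generalize (∫ θ in (0 : ℝ)..(2 * Real.pi), U θ ^ 2) = N at hint hW
  have f1 : 5 * K ^ 3 * ε * W ≤ 5 * K ^ 3 * ε * T := mul_le_mul_of_nonneg_left hWT hδ
  have f2 : 0 ≤ Real.pi * (A ^ 2 + B ^ 2) := by positivity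
  have hNW : 0 ≤ W + T := by linarith
  have f3 : Real.pi * (A ^ 2 + B ^ 2) ≤ D := by linarith
  have f4 : A ^ 2 + B ^ 2 ≤ D := hAB.trans f3
  have f5 : Bg ≤ 4 * K3 ^ 2 * V0 * D := hBgle.trans (mul_le_mul_of_nonneg_left f4 (by positivity))
  have f6 : (5 * K ^ 3 / 2 * ε ^ 3) * Bg ≤ (5 * K ^ 3 / 2 * ε ^ 3) * (4 * K3 ^ 2 * V0 * D) :=
    mul_le_mul_of_nonneg_left f5 (by positivity)
  have f7 : 5 * K ^ 3 * ε ^ 3 * (Real.pi * (A ^ 2 + B ^ 2)) ≤ 5 * K ^ 3 * ε ^ 3 * D :=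
    mul_le_mul_of_nonneg_left f3 (by positivity)
  have f8 : (1 - 5 * K ^ 3 * ε) * T + (1 + 2 * (5 * K ^ 3 * ε)) * ε ^ 2 / 4 * Bg =
      T - 5 * K ^ 3 * ε * T + ε ^ 2 * (1 / 4 * Bg) + (5 * K ^ 3 / 2 * ε ^ 3) * Bg := by ring
  rw [f8] at hcr1
  have f9 : (5 * K ^ 3 / 2 * (4 * K3 ^ 2 * V0) + 5 * K ^ 3) * ε ^ 3 * D =
      (5 * K ^ 3 / 2 * ε ^ 3) * (4 * K3 ^ 2 * V0 * D) + 5 * K ^ 3 * ε ^ 3 * D := by ring
  rw [f9]
  have f10 : N = W + Real.pi * (A ^ 2 + B ^ 2) := by linarith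
  linarith

end Pool.Agent.H74.DE
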