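import Pool.Agent.H74.DD.Fin
import Pool.Agent.H74.DE.Asm3
import Pool.Agent.H74.DE.Rad2
import Pool.Agent.H74.DE.Dir2
import Pool.Agent.H74.DE.Bd2
import Pool.Agent.H74.DE.QfN
import Pool.Agent.H74.DE.QfD
import Pool.Agent.H74.DE.QfE
import Pool.Agent.H74.DE.StJ
import Pool.Agent.H74.DE.Wt3
import Pool.Agent.H74.DE.Low3
import Pool.Agent.H74.DE.CfeU
import Pool.Agent.H74.DE.IntM
import Pool.Agent.H74.DE.Trn
import Pool.Agent.H74.DE.Nc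

set_option autoImplicit false

/-!
# [H74 DE Fin] all nonconstant functions (helper74)
-/

namespace Pool.Agent.H74.DE

open MeasureTheory Set Filter Topology Pool.Agent.H74.SX Pool.Agent.H74.DD

theorem finA {g : ℂ → ℂ} {ρ : ℝ} (hg : Good g ρ) (hne : ∃ z : ℂ, ‖z‖ < ρ ∧ g z ≠ g 0) :
    ∃ k : ℕ, (k = 2 ∨ k = 3) ∧ ∃ ε₀ : ℝ, 0 < ε₀ ∧ ∀ ε : ℝ, 0 < ε → ε < ε₀ →
      minmax (psi g ε) (Inn (psi g ε)) (fun u => ContDiff ℝ 1 u) k <
        minmax (psi g ε) (Ext (psi g ε)) (ExtAdm (psi g ε)) k :=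
  mainA (low3 cv stJ wt3) cfeU qfE qfN qfD (dir2 rad2 mv) (bd2 mv) intM ch trn nc
    (fun _ _ hg h0 => (fin hg).2 h0) hg hne

end Pool.Agent.H74.DE
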