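import Pool.Agent.H74.DD.Fr

set_option autoImplicit false

/-!
# [H74 DE Fr] small analytic deformations of the disk, second order (MP_bddfa3_an): statements of the modules (helper74)

`g` is holomorphic on `|z| < ρ`, `ρ > 1`, `g 0 = 0`, `g' 0 = 0`, `g = ∑ a_n z^n` (`n ≥ 2`), `w = e^{iθ}`, `g = g(e^{-iθ})`.
-/

namespace Pool.Agent.H74.DE

open MeasureTheory Set Filter Topology Pool.Agent.H74.SX Pool.Agent.H74.DD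

structure Good0 (g : ℂ → ℂ) (ρ : ℝ) : Prop where
  good : Good g ρ
  zero : g 0 = 0
  dzero : deriv g 0 = 0

/-- `e^{iθ}` -/
noncomputable def ep (θ : ℝ) : ℂ := Complex.exp (θ * Complex.I)

/-- the conjugate series `∑ conj a_n z^n`, and `z²` times it -/
noncomputable def gh (g : ℂ → ℂ) (z : ℂ) : ℂ := (starRingEnd ℂ) (g ((starRingEnd ℂ) z))
noncomputable def g2 (g : ℂ → ℂ) (z : ℂ) : ℂ := z ^ 2 * gh g z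

/-- test functions inside: `Re (FF g ε ζ z)`; the derivative of `FF g ε ζ` is `conj ζ + (ε/2) kk g ζ z` -/
noncomputable def FF (g : ℂ → ℂ) (ε : ℝ) (ζ z : ℂ) : ℂ :=
  (starRingEnd ℂ) ζ * z + ε / 2 * (ζ * gh g z - (starRingEnd ℂ) ζ * g2 g z)
noncomputable def kk (g : ℂ → ℂ) (ζ z : ℂ) : ℂ := ζ * deriv (gh g) z - (starRingEnd ℂ) ζ * deriv (g2 g) z

/-- `q + i p = e^{-iθ} g(e^{-iθ})`, `x = e^{-2iθ} g'(e^{-iθ})` -/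
noncomputable def qq (g : ℂ → ℂ) (θ : ℝ) : ℝ := (em θ * g (em θ)).re
noncomputable def pp (g : ℂ → ℂ) (θ : ℝ) : ℝ := (em θ * g (em θ)).im
noncomputable def xx (g : ℂ → ℂ) (θ : ℝ) : ℂ := em θ ^ 2 * deriv g (em θ)
/-- second order term of the radius -/
noncomputable def q2 (g : ℂ → ℂ) (θ : ℝ) : ℝ := -(pp g θ ^ 2) / 2 - pp g θ * (xx g θ).im

/-- Taylor coefficients -/
noncomputable def cf (g : ℂ → ℂ) (n : ℕ) : ℂ := iteratedDeriv n g 0 / n.factorial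

/-- second order terms of the Dirichlet integral and of the boundary integral, for `|ζ| = 1` -/
noncomputable def Dq (g : ℂ → ℂ) (ζ : ℂ) : ℝ :=
  (∫ θ in (0 : ℝ)..(2 * Real.pi), (qq g θ ^ 2 / 2 + q2 g θ)) +
    (∫ θ in (0 : ℝ)..(2 * Real.pi), qq g θ * (ζ * kk g ζ (ep θ)).re) +
    1 / 4 * ∫ z in Metric.ball (0 : ℂ) 1, ‖kk g ζ z‖ ^ 2

/-- `L₀ = Re (conj ζ w)`, `u₁ = Re (conj ζ g) + (1/2) Re (ζ gh w - conj ζ g2 w)`, `b₁ = - Re x`, `b₂ = (Im x)² / 2` -/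
noncomputable def L0 (ζ : ℂ) (θ : ℝ) : ℝ := ((starRingEnd ℂ) ζ * ep θ).re
noncomputable def u1 (g : ℂ → ℂ) (ζ : ℂ) (θ : ℝ) : ℝ :=
  ((starRingEnd ℂ) ζ * g (em θ)).re + (ζ * gh g (ep θ) - (starRingEnd ℂ) ζ * g2 g (ep θ)).re / 2
noncomputable def b1 (g : ℂ → ℂ) (θ : ℝ) : ℝ := -(xx g θ).re
noncomputable def b2 (g : ℂ → ℂ) (θ : ℝ) : ℝ := (xx g θ).im ^ 2 / 2

noncomputable def Nq (g : ℂ → ℂ) (ζ : ℂ) : ℝ :=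
  ∫ θ in (0 : ℝ)..(2 * Real.pi), (u1 g ζ θ ^ 2 + L0 ζ θ * (kk g ζ (ep θ) * g (em θ)).re + 2 * L0 ζ θ * u1 g ζ θ * b1 g θ +
    L0 ζ θ ^ 2 * b2 g θ)

/-- second order term outside: `∑ π |d_j|² / (4 (j - 1)) + ∫ v² b₂`, `v = Re (conj ξ w)`, `∑ d_j z^j = (conj ξ + ξ z²) z g'(z)` -/
noncomputable def Mq (g : ℂ → ℂ) (ξ : ℂ) : ℝ :=
  1 / 4 * (∫ z in Metric.ball (0 : ℂ) 1, ‖((starRingEnd ℂ) ξ + ξ * z ^ 2) * (deriv g z / z)‖ ^ 2) +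
    ∫ θ in (0 : ℝ)..(2 * Real.pi), L0 ξ θ ^ 2 * b2 g θ

/-- boundary values and weight -/
noncomputable def wt (g : ℂ → ℂ) (ε θ : ℝ) : ℝ := ‖deriv (psi g ε) (ep θ)‖
noncomputable def UU (g : ℂ → ℂ) (ε : ℝ) (ζ : ℂ) (θ : ℝ) : ℝ := (FF g ε ζ (psi g ε (ep θ))).re

/-- `DI`: Dirichlet integral of `Re FF` over `Ω`, `VI`: variance on the boundary -/
noncomputable def DI (g : ℂ → ℂ) (ε : ℝ) (ζ : ℂ) : ℝ := ∫ z in Inn (psi g ε), ‖(starRingEnd ℂ) ζ + ε / 2 * kk g ζ z‖ ^ 2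
noncomputable def VI (g : ℂ → ℂ) (ε : ℝ) (ζ : ℂ) : ℝ :=
  (∫ θ in (0 : ℝ)..(2 * Real.pi), UU g ε ζ θ ^ 2 * wt g ε θ) -
    (∫ θ in (0 : ℝ)..(2 * Real.pi), UU g ε ζ θ * wt g ε θ) ^ 2 / ∫ θ in (0 : ℝ)..(2 * Real.pi), wt g ε θ

/-- `Rad2` (model `DD/ArA`, helper54): second order radial bound. Proof: otherwise `w = t e^{iφ} - ε g(w⁻¹)` has a solution by Banach
(as in `ArA`); if `t ≥ 1 + ε q + C₁ ε²` then `ArA`'s first order argument gives `|w| ≥ 1`; so `t = 1 + ε q + O(ε²)`;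
then `w⁻¹ - e^{-iφ} = i ε p e^{-iφ} + O(ε²)`, `g(w⁻¹) = g + i ε p e^{-iφ} g' + O(ε²)`, so `Re (e^{-iφ} w) = t - ε q + ε² p Im x + O(ε³)`,
`Im (e^{-iφ} w) = - ε p + O(ε²)`, `|w| ≥ t - ε q + ε² (p Im x + p² / 2) - C ε³ ≥ 1`. -/
def Rad2Stmt : Prop := ∀ (g : ℂ → ℂ) (ρ : ℝ), Good0 g ρ → ∃ C ε₀ : ℝ, 0 < C ∧ 0 < ε₀ ∧ ∀ ε : ℝ, 0 < ε → ε < ε₀ →
  ∀ φ t : ℝ, 0 ≤ t → (t : ℂ) * ep φ ∈ Inn (psi g ε) → t < 1 + ε * qq g φ + ε ^ 2 * q2 g φ + C * ε ^ 3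

/-- `Dir2` (uses `Rad2`, `Mv`; model `DD/ArB`, helper24). Proof: polar coordinates, `Ω ⊆ {r < R(φ)}`, `∫₀^R = ∫₀^1 + ∫₁^R`,
`∫₁^R |conj ζ + (ε/2) kk|² r dr = (R² - 1)/2 + ε (R - 1) Re (ζ kk (e^{iφ})) + O(ε³)`, `∫ q = 0`; on the unit disk `∫ Re (ζ kk) = 0` as `kk g ζ 0 = 0`. -/
def Dir2Stmt : Prop := ∀ (g : ℂ → ℂ) (ρ : ℝ), Good0 g ρ → ∃ C ε₀ : ℝ, 0 < C ∧ 0 < ε₀ ∧ ∀ ε : ℝ, 0 < ε → ε < ε₀ →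
  ∀ ζ : ℂ, ‖ζ‖ = 1 → DI g ε ζ ≤ Real.pi + ε ^ 2 * Dq g ζ + C * ε ^ 3

/-- `Bd2` (uses `Mv`; model `DD/Up`, helper73). Proof: `U = L₀ + ε u₁ + ε² u₂ + O(ε³)`, `u₂ = Re (kk (w) g) / 2`, weight `1 + ε b₁ + ε² b₂ + O(ε³)`;
`∫ L₀² = π`, and by `Mv` `∫ (2 L₀ u₁ + L₀² b₁) = 0`, `∫ L₀ = 0`, `∫ (u₁ + L₀ b₁) = 0` (modes: `g` from 2, `b₁` from 3). The mean is `O(ε²)`. -/
def Bd2Stmt : Prop := ∀ (g : ℂ → ℂ) (ρ : ℝ), Good0 g ρ → ∃ C ε₀ : ℝ, 0 < C ∧ 0 < ε₀ ∧ ∀ ε : ℝ, 0 < ε → ε < ε₀ →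
  ∀ ζ : ℂ, ‖ζ‖ = 1 → Real.pi + ε ^ 2 * Nq g ζ - C * ε ^ 3 ≤ VI g ε ζ

/-- `QfN`: the form `Nq` by Fourier series (average over `ζ`, `iζ` pointwise: `2 ×` integrand `= (5/2)|g|² - (3/2) Re (w̄² g²) + Re (w gh'(w) g)
- Re (w̄ g2'(w) g) + 2 q b₁ + b₂`). -/
def QfNStmt : Prop := ∀ (g : ℂ → ℂ) (ρ : ℝ), Good0 g ρ → ∃ (α : ℝ) (β : ℂ),
  HasSum (fun n : ℕ => ‖cf g n‖ ^ 2 * (1 / 2 - n + (n : ℝ) ^ 2 / 4)) α ∧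
    ∀ ζ : ℂ, ‖ζ‖ = 1 → Nq g ζ = Real.pi * α + (β * ζ ^ 2).re

/-- `QfD`: the form `Dq`: `∫ (q²/2 + q2) = - π ∑ n |a_n|²`, the `ζ`-free part of the second integral is `- ∫ q Re g2'(w) = - π ∑ (n+2) |a_n|²`,
of the third `(1/4) ∫ (|gh'|² + |g2'|²) = (π/4) ∑ (2n+2) |a_n|²`. -/
def QfDStmt : Prop := ∀ (g : ℂ → ℂ) (ρ : ℝ), Good0 g ρ → ∃ (α : ℝ) (β : ℂ),
  HasSum (fun n : ℕ => ‖cf g n‖ ^ 2 * (-(3 * (n : ℝ) + 3) / 2)) α ∧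
    ∀ ζ : ℂ, ‖ζ‖ = 1 → Dq g ζ = Real.pi * α + (β * ζ ^ 2).re

/-- `QfE`: the form `Mq` (`∫_{|z|<1} |z|^{2m} = π/(m+1)`) -/
def QfEStmt : Prop := ∀ (g : ℂ → ℂ) (ρ : ℝ), Good0 g ρ → ∃ (α : ℝ) (β : ℂ),
  HasSum (fun n : ℕ => ‖cf g n‖ ^ 2 * ((n : ℝ) ^ 2 / 4 + (n : ℝ) ^ 3 / (2 * ((n : ℝ) ^ 2 - 1)))) α ∧
    ∀ ξ : ℂ, Mq g ξ = Real.pi * α * ‖ξ‖ ^ 2 + (β * ξ ^ 2).re

/-- Fourier coefficients of `U` -/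
noncomputable def cj (U : ℝ → ℝ) (j : ℕ) : ℝ := (∫ y in (0 : ℝ)..(2 * Real.pi), U y * Real.cos (j * y)) / Real.pi
noncomputable def sj (U : ℝ → ℝ) (j : ℕ) : ℝ := (∫ y in (0 : ℝ)..(2 * Real.pi), U y * Real.sin (j * y)) / Real.pi

/-- `StJ` (model `SX/St`, `DD/St2`): with `H t = ∑_{j ≤ J} j π (A_j² + B_j²)` on the line `Re = t`, `- H' ≤ ∑ π (A_j'² + B_j'² + j² (A_j² + B_j²)) ≤ ∫ V_t² + V_θ²`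
(Bessel), `H T` small for some large `T` as `H ≤ J ∫ V_θ²`. -/
def StJStmt : Prop := ∀ (r : ℝ) (V : ℂ → ℝ), r < 0 → ContDiffOn ℝ 1 V {ζ | r < ζ.re} →
  (∀ ζ, V (ζ + 2 * Real.pi * Complex.I) = V ζ) → IntegrableOn (fun ζ => ‖fderiv ℝ V ζ‖ ^ 2) Str →
  ∀ J : ℕ, ∑ j ∈ Finset.Icc 1 J, j * Real.pi * (cj (fun θ => V (θ * Complex.I)) j ^ 2 + sj (fun θ => V (θ * Complex.I)) j ^ 2) ≤
    ∫ ζ in Str, ‖fderiv ℝ V ζ‖ ^ 2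

/-- `Wt3` (model `DD/Wt2`, helper31). Proof: `U = v + w`, `v = A₁ cos + B₁ sin = Re (conj ξ e^{iθ})`; `b = 1 + ε b₁ + ε² b₂ + O(ε³)`, `∫ v² b₁ = 0`;
`2 v b₁ = - Re ∑_{j≥2} d_j e^{-ijθ}`, `d_j = conj ξ j a_j + ξ (j-2) a_{j-2}`, so `2 ε ∫ v w b₁ ≤ ε ∑ √π |d_j| |w_j| ≤ (1-δ) ∑ (j-1) |w_j|² + (1-δ)⁻¹ ε² ∑ π |d_j|² / (4 (j-1))`,
`δ = C' ε` absorbs `ε ∫ w² b₁`, `ε² ∫ v w b₂` and so on; `|w_j|² = π (A_j² + B_j²)`, Parseval `∫ w² = ∑_{j≥2} |w_j|²`;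
`∑ π |d_j|²/(j-1) = ∫_{|z|<1} |∑ d_j z^{j-2}|²`. -/
def Wt3Stmt : Prop := ∀ (g : ℂ → ℂ) (ρ : ℝ), Good0 g ρ → ∃ C ε₀ : ℝ, 0 < C ∧ 0 < ε₀ ∧ ∀ ε : ℝ, 0 < ε → ε < ε₀ →
  ∀ U : ℝ → ℝ, Continuous U → ∀ D : ℝ, ∫ θ in (0 : ℝ)..(2 * Real.pi), U θ = 0 →
    (∀ J : ℕ, ∑ j ∈ Finset.Icc 1 J, j * Real.pi * (cj U j ^ 2 + sj U j ^ 2) ≤ D) →
    ∫ θ in (0 : ℝ)..(2 * Real.pi), U θ ^ 2 * wt g ε θ ≤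
      D + ε ^ 2 * Mq g (cj U 1 + sj U 1 * Complex.I) + C * ε ^ 3 * D

/-- `Low3` (uses `Cv`, `StJ`, `Wt3`; model `DD/Low2`, helper3) -/
def Low3Stmt : Prop := ∀ (g : ℂ → ℂ) (ρ : ℝ), Good0 g ρ → ∃ C ε₀ : ℝ, 0 < C ∧ 0 < ε₀ ∧ ∀ ε : ℝ, 0 < ε → ε < ε₀ →
  Chart (psi g ε) → ∀ u : ℂ → ℝ, ExtAdm (psi g ε) u → ∫ θ in (0 : ℝ)..(2 * Real.pi), u (psi g ε (ep θ)) = 0 →
    Real.pi * (cj (fun θ => u (psi g ε (ep θ))) 1 ^ 2 + sj (fun θ => u (psi g ε (ep θ))) 1 ^ 2) ≤ dir (Ext (psi g ε)) u ∧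
    bd (psi g ε) (fun z => u z ^ 2) ≤ dir (Ext (psi g ε)) u +
      ε ^ 2 * Mq g (cj (fun θ => u (psi g ε (ep θ))) 1 + sj (fun θ => u (psi g ε (ep θ))) 1 * Complex.I) +
      C * ε ^ 3 * dir (Ext (psi g ε)) u

/-- `CfeU` (model `DD/CfeK`, helper3): Courant-Fischer with `n` linear conditions -/
def CfeUStmt : Prop := ∀ (ψ : ℂ → ℂ), Chart ψ → ∀ K : ℝ, 0 < K → ∀ (n : ℕ) (w : Fin n → ℝ → ℝ), (∀ i, Continuous (w i)) →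
  (∀ u : ℂ → ℝ, ExtAdm ψ u → (∀ i, ∫ θ in (0 : ℝ)..(2 * Real.pi), u (ψ (ep θ)) * w i θ = 0) →
    bd ψ (fun z => u z ^ 2) ≤ K * dir (Ext ψ) u) →
  ((1 / K : ℝ) : EReal) ≤ minmax ψ (Ext ψ) (ExtAdm ψ) (n + 1)

/-- `IntM` (model `DD/CfiL`, helper79): test functions `1`, `χ Re FF(ζ)` and `1`, `χ Re FF(1)`, `χ Re FF(i)`, `χ` a smooth function, `1` near the closure of `Ω`, support in
`|z| < ρ` (`ContDiffBump`; `Ω` is in a disk of radius less than `ρ` by `ArA`); `FF` is real linear in `ζ`. -/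
def IntMStmt : Prop := ∀ (g : ℂ → ℂ) (ρ : ℝ), Good0 g ρ → ∃ ε₀ : ℝ, 0 < ε₀ ∧ ∀ ε : ℝ, 0 < ε → ε < ε₀ → Chart (psi g ε) →
  ∀ R : ℝ, (∀ ζ : ℂ, ‖ζ‖ = 1 → 0 < VI g ε ζ → DI g ε ζ ≤ R * VI g ε ζ →
      minmax (psi g ε) (Inn (psi g ε)) (fun u => ContDiff ℝ 1 u) 2 ≤ (R : EReal)) ∧
    ((∀ ζ : ℂ, ‖ζ‖ = 1 → 0 < VI g ε ζ ∧ DI g ε ζ ≤ R * VI g ε ζ) →
      minmax (psi g ε) (Inn (psi g ε)) (fun u => ContDiff ℝ 1 u) 3 ≤ (R : EReal))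

/-- `Trn`: translation -/
def TrnStmt : Prop := ∀ (ψ : ℂ → ℂ) (c : ℂ) (k : ℕ),
  minmax (fun w => ψ w + c) (Inn (fun w => ψ w + c)) (fun u => ContDiff ℝ 1 u) k =
      minmax ψ (Inn ψ) (fun u => ContDiff ℝ 1 u) k ∧
    minmax (fun w => ψ w + c) (Ext (fun w => ψ w + c)) (ExtAdm (fun w => ψ w + c)) k =
      minmax ψ (Ext ψ) (ExtAdm ψ) k

/-- `Nc`: if all coefficients vanish, `g` is constant -/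
def NcStmt : Prop := ∀ (g : ℂ → ℂ) (ρ : ℝ), Good g ρ → (∀ n : ℕ, cf g n = 0) → ∀ z : ℂ, ‖z‖ < ρ → g z = 0

end Pool.Agent.H74.DE
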