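import Pool.Agent.H74.DE.Fr

set_option autoImplicit false

/-!
# [H74 DE Nc] a holomorphic function with vanishing Taylor coefficients (helper22)
-/

namespace Pool.Agent.H74.DE

open MeasureTheory Set Filter Topology Pool.Agent.H74.SX Pool.Agent.H74.DD

theorem nc : NcStmt := by
  intro g ρ hg h z hz
  have h1 := Complex.hasSum_taylorSeries_on_ball hg.hol (mem_ball_zero_iff.2 hz)
  have h2 : ∀ n : ℕ, iteratedDeriv n g 0 = 0 := by
    intro n
    have h3 := h n
    unfold cf at h3
    rcases div_eq_zero_iff.1 h3 with h4 | h4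
    · exact h4
    · exact absurd h4 (Nat.cast_ne_zero.2 (Nat.factorial_ne_zero n))
  simp only [h2, smul_zero] at h1
  exact h1.unique hasSum_zero

end Pool.Agent.H74.DE
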