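import Pool.Agent.H74.DE.Fr
import Pool.Agent.H74.DD.Mv

set_option autoImplicit false

/-!
# [H74 DE Pars] Parseval's identity for power series on the unit circle (helper24)
-/

namespace Pool.Agent.H74.DE.Pars

open MeasureTheory Set Filter Topology Pool.Agent.H74.SX Pool.Agent.H74.DD Pool.Agent.H74.DE

theorem em_cont : Continuous DD.em := by
  unfold DD.em
  fun_prop

theorem em_norm (θ : ℝ) : ‖DD.em θ‖ = 1 := by
  unfold DD.em
  have h : -((θ : ℂ) * Complex.I) = ((-θ : ℝ) : ℂ) * Complex.I := by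
    push_cast
    ring
  rw [h, Complex.norm_exp_ofReal_mul_I]

theorem em_zero : DD.em 0 = 1 := by
  simp [DD.em]

theorem em_conj (θ : ℝ) : DD.em θ * (starRingEnd ℂ) (DD.em θ) = 1 := by
  rw [Complex.mul_conj, Complex.normSq_eq_norm_sq, em_norm]
  simp

theorem em_mem {ρ : ℝ} (h : 1 < ρ) (θ : ℝ) : DD.em θ ∈ Metric.ball (0 : ℂ) ρ := by
  rw [mem_ball_zero_iff, em_norm]
  exact h

/-- Taylor series -/
theorem ser {G : ℂ → ℂ} {ρ : ℝ} (h : Good G ρ) {z : ℂ} (hz : z ∈ Metric.ball (0 : ℂ) ρ) :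
    HasSum (fun n => cf G n * z ^ n) (G z) := by
  have h1 := Complex.hasSum_taylorSeries_on_ball h.hol hz
  refine h1.congr_fun fun n => ?_
  simp only [smul_eq_mul, sub_zero, cf]
  ring

/-- Taylor series of `z G'(z)` -/
theorem ser1 {G : ℂ → ℂ} {ρ : ℝ} (h : Good G ρ) {z : ℂ} (hz : z ∈ Metric.ball (0 : ℂ) ρ) :
    HasSum (fun n : ℕ => (n * cf G n) * z ^ n) (z * deriv G z) := by
  have hd : Good (deriv G) ρ := ⟨h.one_lt, h.hol.deriv Metric.isOpen_ball⟩
  have h1 := (ser hd hz).mul_left z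
  have h2 := (hasSum_nat_add_iff (f := fun n : ℕ => ((n : ℂ) * cf G n) * z ^ n) 1 (g := z * deriv G z)).1 (by
    refine h1.congr_fun fun n => ?_
    have h3 : cf (deriv G) n = ((n : ℂ) + 1) * cf G (n + 1) := by
      unfold cf
      rw [← iteratedDeriv_succ', Nat.factorial_succ]
      have h4 : (n.factorial : ℂ) ≠ 0 := by exact_mod_cast n.factorial_ne_zero
      have h5 : ((n : ℂ) + 1) ≠ 0 := by exact_mod_cast n.succ_ne_zero
      push_cast
      field_simp
    rw [h3]
    push_cast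
    ring)
  simpa using h2

theorem i_pow (n : ℕ) : ∫ θ in (0 : ℝ)..(2 * Real.pi), DD.em θ ^ (n + 1) = 0 := by
  have h1 := mv (fun z => z ^ (n + 1)) 2 ⟨one_lt_two, differentiableOn_pow _⟩
  rw [h1]
  simp

theorem i_conj (f : ℝ → ℂ) :
    ∫ θ in (0 : ℝ)..(2 * Real.pi), (starRingEnd ℂ) (f θ) = (starRingEnd ℂ) (∫ θ in (0 : ℝ)..(2 * Real.pi), f θ) := by
  rw [intervalIntegral.integral_of_le (by positivity), intervalIntegral.integral_of_le (by positivity), integral_conj]

theorem orth (m n : ℕ) : ∫ θ in (0 : ℝ)..(2 * Real.pi), DD.em θ ^ m * (starRingEnd ℂ) (DD.em θ) ^ n =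
    if m = n then 2 * (Real.pi : ℂ) else 0 := by
  rcases lt_trichotomy m n with h | h | h
  · obtain ⟨k, rfl⟩ := Nat.exists_eq_add_of_lt h
    rw [if_neg (by omega)]
    have e : ∀ θ : ℝ, DD.em θ ^ m * (starRingEnd ℂ) (DD.em θ) ^ (m + k + 1) = (starRingEnd ℂ) (DD.em θ ^ (k + 1)) := by
      intro θ
      rw [add_assoc, pow_add, ← mul_assoc, ← mul_pow, em_conj, one_pow, one_mul, map_pow]
    simp only [e]
    rw [i_conj, i_pow, map_zero]
  · subst h
    rw [if_pos rfl]
    have e : ∀ θ : ℝ, DD.em θ ^ m * (starRingEnd ℂ) (DD.em θ) ^ m = 1 := by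
      intro θ
      rw [← mul_pow, em_conj, one_pow]
    simp only [e]
    simp
  · obtain ⟨k, rfl⟩ := Nat.exists_eq_add_of_lt h
    rw [if_neg (by omega)]
    have e : ∀ θ : ℝ, DD.em θ ^ (n + k + 1) * (starRingEnd ℂ) (DD.em θ) ^ n = DD.em θ ^ (k + 1) := by
      intro θ
      rw [add_assoc, pow_add, mul_comm (DD.em θ ^ n), mul_assoc, ← mul_pow, em_conj, one_pow, mul_one]
    simp only [e]
    exact i_pow k

theorem summ {c : ℕ → ℂ} {F : ℝ → ℂ} (h : ∀ θ, HasSum (fun n => c n * DD.em θ ^ n) (F θ)) :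
    Summable fun n => ‖c n‖ := by
  have h1 := (h 0).summable
  simp only [em_zero, one_pow, mul_one] at h1
  exact summable_norm_iff.2 h1

theorem coef {c : ℕ → ℂ} {F : ℝ → ℂ} (h : ∀ θ, HasSum (fun n => c n * DD.em θ ^ n) (F θ)) (n : ℕ) :
    ∫ θ in (0 : ℝ)..(2 * Real.pi), F θ * (starRingEnd ℂ) (DD.em θ) ^ n = 2 * Real.pi * c n := by
  have hs := summ h
  have h1 := intervalIntegral.hasSum_integral_of_dominated_convergence (μ := volume) (a := 0) (b := 2 * Real.pi)
    (F := fun m θ => (c m * DD.em θ ^ m) * (starRingEnd ℂ) (DD.em θ) ^ n)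
    (f := fun θ => F θ * (starRingEnd ℂ) (DD.em θ) ^ n) (fun m _ => ‖c m‖)
    (fun m => (((continuous_const.mul (em_cont.pow m)).mul
      ((Complex.continuous_conj.comp em_cont).pow n)).aestronglyMeasurable))
    (fun m => Eventually.of_forall fun θ _ => by simp [em_norm])
    (Eventually.of_forall fun θ _ => hs) intervalIntegrable_const
    (Eventually.of_forall fun θ _ => (h θ).mul_right _)
  have h2 : ∀ m, ∫ θ in (0 : ℝ)..(2 * Real.pi), (c m * DD.em θ ^ m) * (starRingEnd ℂ) (DD.em θ) ^ n =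
      if m = n then 2 * Real.pi * c n else 0 := by
    intro m
    simp only [mul_assoc]
    rw [intervalIntegral.integral_const_mul, orth]
    split_ifs with hmn
    · subst hmn
      ring
    · simp
  simp only [h2] at h1
  exact h1.unique (hasSum_ite_eq n _)

/-- Parseval -/
theorem pars {c : ℕ → ℂ} {F : ℝ → ℂ} (hF : Continuous F) (h : ∀ θ, HasSum (fun n => c n * DD.em θ ^ n) (F θ)) :
    HasSum (fun n => ‖c n‖ ^ 2) ((∫ θ in (0 : ℝ)..(2 * Real.pi), ‖F θ‖ ^ 2) / (2 * Real.pi)) := by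
  have hs := summ h
  have hle : ∀ θ, ‖F θ‖ ≤ ∑' n, ‖c n‖ := by
    intro θ
    rw [← (h θ).tsum_eq]
    have h1 : (fun n => ‖c n * DD.em θ ^ n‖) = fun n => ‖c n‖ := by
      funext n
      simp [em_norm]
    have h2 : Summable fun n => ‖c n * DD.em θ ^ n‖ := by rw [h1]; exact hs
    exact (norm_tsum_le_tsum_norm h2).trans (le_of_eq (by rw [h1]))
  have h1 := intervalIntegral.hasSum_integral_of_dominated_convergence (μ := volume) (a := 0) (b := 2 * Real.pi)
    (F := fun m θ => (starRingEnd ℂ) (c m) * (F θ * (starRingEnd ℂ) (DD.em θ) ^ m))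
    (f := fun θ => ((‖F θ‖ ^ 2 : ℝ) : ℂ)) (fun m _ => ‖c m‖ * ∑' n, ‖c n‖)
    (fun m => ((continuous_const.mul (hF.mul
      ((Complex.continuous_conj.comp em_cont).pow m))).aestronglyMeasurable))
    (fun m => Eventually.of_forall fun θ _ => by
      rw [norm_mul, norm_mul, norm_pow, Complex.norm_conj, Complex.norm_conj, em_norm, one_pow, mul_one]
      exact mul_le_mul_of_nonneg_left (hle θ) (norm_nonneg _))
    (Eventually.of_forall fun θ _ => hs.mul_right _) intervalIntegrable_const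
    (Eventually.of_forall fun θ _ => by
      have h2 := ((Complex.hasSum_conj'.2 (h θ)).mul_left (F θ))
      have h3 : F θ * (starRingEnd ℂ) (F θ) = ((‖F θ‖ ^ 2 : ℝ) : ℂ) := by
        rw [Complex.mul_conj, Complex.normSq_eq_norm_sq]
      rw [h3] at h2
      refine h2.congr_fun fun n => ?_
      simp only [map_mul, map_pow]
      ring)
  simp only [intervalIntegral.integral_const_mul, coef h] at h1
  have h4 : ∫ θ in (0 : ℝ)..(2 * Real.pi), ((‖F θ‖ ^ 2 : ℝ) : ℂ) =
      ((∫ θ in (0 : ℝ)..(2 * Real.pi), ‖F θ‖ ^ 2 : ℝ) : ℂ) := intervalIntegral.integral_ofReal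
  rw [h4] at h1
  have h5 : (fun n => (starRingEnd ℂ) (c n) * (2 * Real.pi * c n)) = fun n => ((2 * Real.pi * ‖c n‖ ^ 2 : ℝ) : ℂ) := by
    funext n
    have h6 : c n * (starRingEnd ℂ) (c n) = ((‖c n‖ ^ 2 : ℝ) : ℂ) := by
      rw [Complex.mul_conj, Complex.normSq_eq_norm_sq]
    push_cast at h6 ⊢
    rw [← h6]
    ring
  rw [h5, Complex.hasSum_ofReal] at h1
  have h7 := h1.div_const (2 * Real.pi)
  refine h7.congr_fun fun n => ?_
  have : (2 * Real.pi) ≠ 0 := by positivity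
  field_simp

end Pool.Agent.H74.DE.Pars
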