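import Pool.Agent.H74.DE.Prs

set_option autoImplicit false

/-!
# [H74 DE Pr2] Parseval on the unit circle
-/

namespace Pool.Agent.H74.DE

open MeasureTheory Set Filter Topology Pool.Agent.H74.SX Pool.Agent.H74.DD

theorem em_norm (θ : ℝ) : ‖em θ‖ = 1 := by
  rw [DD.em, ← neg_mul, ← Complex.ofReal_neg]
  exact Complex.norm_exp_ofReal_mul_I _

theorem em_cont : Continuous em := by
  unfold DD.em
  fun_prop

theorem gamc (n m : ℕ) :
    ∫ θ in (0 : ℝ)..(2 * Real.pi), em θ ^ n * (starRingEnd ℂ) (em θ ^ m) =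
      if n = m then 2 * (Real.pi : ℂ) else 0 := by
  have h1 : ∀ θ : ℝ, em θ ^ n * (starRingEnd ℂ) (em θ ^ m) =
      Complex.exp ((((m : ℤ) - (n : ℤ) : ℤ) : ℂ) * Complex.I * θ) := by
    intro θ
    rw [DD.em, map_pow, ← Complex.exp_conj, ← Complex.exp_nat_mul, ← Complex.exp_nat_mul,
      ← Complex.exp_add]
    congr 1
    simp only [map_neg, map_mul, Complex.conj_ofReal, Complex.conj_I]
    push_cast
    ring
  simp only [h1]
  by_cases hnm : n = m
  · subst hnm
    simp
  · have h2 : (((m : ℤ) - (n : ℤ) : ℤ) : ℂ) ≠ 0 := by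
      rw [Int.cast_ne_zero]
      omega
    rw [if_neg hnm, integral_exp_mul_complex (mul_ne_zero h2 Complex.I_ne_zero)]
    have h3 : (((m : ℤ) - (n : ℤ) : ℤ) : ℂ) * Complex.I * ((2 * Real.pi : ℝ) : ℂ) =
        (((m : ℤ) - (n : ℤ) : ℤ) : ℂ) * (2 * Real.pi * Complex.I) := by
      rw [Complex.ofReal_mul, Complex.ofReal_ofNat]
      ring
    rw [h3, Complex.exp_int_mul_two_pi_mul_I, Complex.ofReal_zero, mul_zero, Complex.exp_zero,
      sub_self, zero_div]

theorem par {f h : ℂ → ℂ} {ρ ρ' : ℝ} (hf : Good f ρ) (hh : Good h ρ') :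
    HasSum (fun n => 2 * (Real.pi : ℂ) * (cf f n * (starRingEnd ℂ) (cf h n)))
      (∫ θ in (0 : ℝ)..(2 * Real.pi), f (em θ) * (starRingEnd ℂ) (h (em θ))) := by
  rw [intervalIntegral.integral_of_le Real.two_pi_pos.le]
  have hc : Continuous fun θ : ℝ => h (em θ) :=
    hh.hol.continuousOn.comp_continuous em_cont fun θ => by
      rw [Metric.mem_ball, dist_zero_right, em_norm]
      exact hh.one_lt
  refine orth (volume.restrict (Ioc 0 (2 * Real.pi))) (fun n θ => em θ ^ n)
    (fun n => (em_cont.pow n).aestronglyMeasurable)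
    (fun n => Eventually.of_forall fun θ => by rw [norm_pow, em_norm, one_pow])
    (fun _ => 2 * (Real.pi : ℂ)) (fun n m => ?_) (cf f) (cf h) (sumn hf) (sumn hh)
    (fun θ => f (em θ)) (fun θ => h (em θ))
    (Eventually.of_forall fun θ => ser hf (by rw [em_norm]; exact hf.one_lt))
    (Eventually.of_forall fun θ => ser hh (by rw [em_norm]; exact hh.one_lt))
    hc.aestronglyMeasurable
  rw [← intervalIntegral.integral_of_le Real.two_pi_pos.le]
  exact gamc n m

/-- real form -/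
theorem parR {f : ℂ → ℂ} {ρ : ℝ} (hf : Good f ρ) :
    HasSum (fun n => 2 * Real.pi * ‖cf f n‖ ^ 2)
      (∫ θ in (0 : ℝ)..(2 * Real.pi), ‖f (em θ)‖ ^ 2) := by
  have h1 := par hf hf
  have h2 : ∀ z : ℂ, z * (starRingEnd ℂ) z = ((‖z‖ ^ 2 : ℝ) : ℂ) := fun z => by
    rw [Complex.mul_conj, Complex.normSq_eq_norm_sq]
  simp only [h2] at h1
  rw [intervalIntegral.integral_ofReal] at h1
  rw [← Complex.hasSum_ofReal]
  convert h1 using 2
  push_cast
  ring

end Pool.Agent.H74.DE
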