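import Pool.Agent.H74.DE.Fr

set_option autoImplicit false

/-!
# [H74 DE Prs] Parseval on the unit circle and in the unit disk
-/

namespace Pool.Agent.H74.DE

open MeasureTheory Set Filter Topology Pool.Agent.H74.SX Pool.Agent.H74.DD

theorem ser {f : ℂ → ℂ} {ρ : ℝ} (h : Good f ρ) {z : ℂ} (hz : ‖z‖ < ρ) :
    HasSum (fun n => cf f n * z ^ n) (f z) := by
  have h1 := Complex.hasSum_taylorSeries_on_ball h.hol (z := z)
    (by rw [Metric.mem_ball, dist_zero_right]; exact hz)
  have h2 : (fun n => cf f n * z ^ n) =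
      fun n : ℕ => ((n.factorial : ℂ))⁻¹ • (z - 0) ^ n • iteratedDeriv n f 0 := by
    funext n
    rw [cf, sub_zero, smul_eq_mul, smul_eq_mul]
    ring
  rw [h2]
  exact h1

theorem sumn {f : ℂ → ℂ} {ρ : ℝ} (h : Good f ρ) : Summable fun n => ‖cf f n‖ := by
  have h1 := (ser h (z := 1) (by rw [norm_one]; exact h.one_lt)).summable
  simp only [one_pow, mul_one] at h1
  exact h1.norm

theorem orth {X : Type} [MeasurableSpace X] (μ : Measure X) [IsFiniteMeasure μ] (e : ℕ → X → ℂ)
    (he : ∀ n, AEStronglyMeasurable (e n) μ) (he1 : ∀ n, ∀ᵐ x ∂μ, ‖e n x‖ ≤ 1) (γ : ℕ → ℂ)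
    (hγ : ∀ n m, ∫ x, e n x * (starRingEnd ℂ) (e m x) ∂μ = if n = m then γ n else 0) (a b : ℕ → ℂ)
    (ha : Summable fun n => ‖a n‖) (hb : Summable fun n => ‖b n‖) (f g : X → ℂ)
    (hf : ∀ᵐ x ∂μ, HasSum (fun n => a n * e n x) (f x))
    (hg : ∀ᵐ x ∂μ, HasSum (fun n => b n * e n x) (g x)) (hgm : AEStronglyMeasurable g μ) :
    HasSum (fun n => γ n * (a n * (starRingEnd ℂ) (b n))) (∫ x, f x * (starRingEnd ℂ) (g x) ∂μ) := by
  have hcm : ∀ u : X → ℂ, AEStronglyMeasurable u μ →
      AEStronglyMeasurable (fun x => (starRingEnd ℂ) (u x)) μ := fun u hu =>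
    Complex.continuous_conj.comp_aestronglyMeasurable hu
  have he1' : ∀ᵐ x ∂μ, ∀ n, ‖e n x‖ ≤ 1 := ae_all_iff.2 he1
  have h1 : ∀ n, ∫ x, e n x * (starRingEnd ℂ) (g x) ∂μ = γ n * (starRingEnd ℂ) (b n) := by
    intro n
    have h2 : HasSum (fun m => ∫ x, e n x * (starRingEnd ℂ) (b m * e m x) ∂μ)
        (∫ x, e n x * (starRingEnd ℂ) (g x) ∂μ) := by
      refine hasSum_integral_of_dominated_convergence (fun m _ => ‖b m‖) (fun m => ?_) (fun m => ?_)
        (Eventually.of_forall fun x => hb) ?_ ?_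
      · exact (he n).mul (hcm _ ((he m).const_mul (b m)))
      · filter_upwards [he1'] with x hx
        rw [norm_mul, RCLike.norm_conj, norm_mul]
        calc ‖e n x‖ * (‖b m‖ * ‖e m x‖) ≤ 1 * (‖b m‖ * 1) :=
              mul_le_mul (hx n) (mul_le_mul_of_nonneg_left (hx m) (norm_nonneg _)) (by positivity)
                zero_le_one
          _ = ‖b m‖ := by ring
      · exact integrable_const _
      · filter_upwards [hg] with x hx
        exact (Complex.hasSum_conj'.2 hx).mul_left (e n x)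
    have h3 : (fun m => ∫ x, e n x * (starRingEnd ℂ) (b m * e m x) ∂μ) =
        fun m => (starRingEnd ℂ) (b m) * if n = m then γ n else 0 := by
      funext m
      rw [← hγ n m, ← integral_const_mul]
      congr 1
      funext x
      rw [map_mul]
      ring
    rw [h3] at h2
    have h4 := hasSum_single (f := fun m => (starRingEnd ℂ) (b m) * if n = m then γ n else 0) n
      (fun m hm => by
        show (starRingEnd ℂ) (b m) * (if n = m then γ n else 0) = 0
        rw [if_neg hm.symm, mul_zero])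
    have h5 := h2.unique h4
    rw [h5]
    show (starRingEnd ℂ) (b n) * (if n = n then γ n else 0) = _
    rw [if_pos rfl, mul_comm]
  have hgB : ∀ᵐ x ∂μ, ‖g x‖ ≤ ∑' n, ‖b n‖ := by
    filter_upwards [he1', hg] with x hx hgx
    rw [← hgx.tsum_eq]
    refine (norm_tsum_le_tsum_norm ?_).trans ?_
    · refine hb.of_nonneg_of_le (fun n => norm_nonneg _) fun n => ?_
      rw [norm_mul]
      exact mul_le_of_le_one_right (norm_nonneg _) (hx n)
    · refine Summable.tsum_le_tsum (fun n => ?_) ?_ hb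
      · rw [norm_mul]
        exact mul_le_of_le_one_right (norm_nonneg _) (hx n)
      · refine hb.of_nonneg_of_le (fun n => norm_nonneg _) fun n => ?_
        rw [norm_mul]
        exact mul_le_of_le_one_right (norm_nonneg _) (hx n)
  have hB0 : 0 ≤ ∑' n, ‖b n‖ := tsum_nonneg fun n => norm_nonneg _
  have h6 : HasSum (fun n => ∫ x, a n * e n x * (starRingEnd ℂ) (g x) ∂μ)
      (∫ x, f x * (starRingEnd ℂ) (g x) ∂μ) := by
    refine hasSum_integral_of_dominated_convergence (fun n _ => ‖a n‖ * ∑' n, ‖b n‖) (fun n => ?_)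
      (fun n => ?_) (Eventually.of_forall fun x => ha.mul_right _) ?_ ?_
    · exact ((he n).const_mul (a n)).mul (hcm _ hgm)
    · filter_upwards [he1', hgB] with x hx hgx
      rw [norm_mul, RCLike.norm_conj, norm_mul]
      exact mul_le_mul (mul_le_of_le_one_right (norm_nonneg _) (hx n)) hgx (norm_nonneg _)
        (norm_nonneg _)
    · exact integrable_const _
    · filter_upwards [hf] with x hx
      exact hx.mul_right _
  have h7 : (fun n => ∫ x, a n * e n x * (starRingEnd ℂ) (g x) ∂μ) =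
      fun n => γ n * (a n * (starRingEnd ℂ) (b n)) := by
    funext n
    have h8 : ∫ x, a n * e n x * (starRingEnd ℂ) (g x) ∂μ =
        a n * ∫ x, e n x * (starRingEnd ℂ) (g x) ∂μ := by
      rw [← integral_const_mul]
      congr 1
      funext x
      ring
    rw [h8, h1 n]
    ring
  rw [h7] at h6
  exact h6

end Pool.Agent.H74.DE
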