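import Pool.Agent.H74.DE.Fr
import Pool.Agent.H74.DD.Wgt
import Pool.Agent.H74.DD.UpI

set_option autoImplicit false

/-!
# [H74 DE Wgt2] second order of the weight, and integrals with the weight (helper54)
-/

namespace Pool.Agent.H74.DE

open MeasureTheory Set Filter Topology Pool.Agent.H74.SX Pool.Agent.H74.DD

namespace Wgt2

theorem second {z : ℂ} (hz : ‖z‖ ≤ 1 / 2) : |‖1 + z‖ - 1 - z.re - z.im ^ 2 / 2| ≤ 3 * ‖z‖ ^ 3 := by
  obtain ⟨a, ha⟩ : ∃ a : ℝ, a = z.re := ⟨_, rfl⟩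
  obtain ⟨b, hb⟩ : ∃ b : ℝ, b = z.im := ⟨_, rfl⟩
  obtain ⟨r, hr⟩ : ∃ r : ℝ, r = ‖1 + z‖ := ⟨_, rfl⟩
  obtain ⟨n, hn⟩ : ∃ n : ℝ, n = ‖z‖ := ⟨_, rfl⟩
  have hr0 : 0 ≤ r := by rw [hr]; exact norm_nonneg _
  have hn0 : 0 ≤ n := by rw [hn]; exact norm_nonneg _
  have h1 : |a| ≤ n := by rw [ha, hn]; exact Complex.abs_re_le_norm z
  have h2 : |b| ≤ n := by rw [hb, hn]; exact Complex.abs_im_le_norm z
  have h3 : r ^ 2 = (1 + a) ^ 2 + b ^ 2 := by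
    rw [hr, ha, hb, ← Complex.normSq_eq_norm_sq, Complex.normSq_apply]
    simp only [Complex.add_re, Complex.one_re, Complex.add_im, Complex.one_im, zero_add]
    ring
  rw [← ha, ← hb, ← hr, ← hn]
  rw [← hn] at hz
  have hb2 : b ^ 2 ≤ n ^ 2 := by
    rw [← sq_abs b]
    exact pow_le_pow_left₀ (abs_nonneg _) h2 2
  have ha1 := (abs_le.1 h1).1
  obtain ⟨d, hd⟩ : ∃ d : ℝ, d = r + 1 + a + b ^ 2 / 2 := ⟨_, rfl⟩
  have hd0 : 1 / 2 ≤ d := by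
    rw [hd]
    have := sq_nonneg b
    linarith
  have key : (r - 1 - a - b ^ 2 / 2) * d = -(a * b ^ 2) - b ^ 4 / 4 := by
    rw [hd]
    linear_combination h3
  have hnum : |-(a * b ^ 2) - b ^ 4 / 4| ≤ 3 / 2 * n ^ 3 := by
    have e1 : |a * b ^ 2| ≤ n * n ^ 2 := by
      rw [abs_mul, abs_of_nonneg (sq_nonneg b)]
      exact mul_le_mul h1 hb2 (sq_nonneg b) hn0
    have e2 : b ^ 4 ≤ n ^ 2 * n ^ 2 := by
      have : b ^ 4 = b ^ 2 * b ^ 2 := by ring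
      rw [this]
      exact mul_le_mul hb2 hb2 (sq_nonneg b) (sq_nonneg n)
    have e3 : n ^ 2 * n ^ 2 ≤ n ^ 3 * (1 / 2) := by
      have : n ^ 2 * n ^ 2 = n ^ 3 * n := by ring
      rw [this]
      have : 0 ≤ n ^ 3 := by positivity
      gcongr
    have e4 : 0 ≤ b ^ 4 := by positivity
    have e5 := abs_le.1 e1
    have e6 : 0 ≤ n ^ 3 := by positivity
    rw [abs_le]
    constructor <;> nlinarith
  have h4 : |r - 1 - a - b ^ 2 / 2| * d ≤ 3 / 2 * n ^ 3 := by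
    have : |(r - 1 - a - b ^ 2 / 2) * d| = |r - 1 - a - b ^ 2 / 2| * d := by
      rw [abs_mul, abs_of_nonneg (by linarith : 0 ≤ d)]
    rw [← this, key]
    exact hnum
  have h5 : |r - 1 - a - b ^ 2 / 2| * (1 / 2) ≤ |r - 1 - a - b ^ 2 / 2| * d :=
    mul_le_mul_of_nonneg_left hd0 (abs_nonneg _)
  linarith

theorem L0_eq (ξ : ℂ) (θ : ℝ) : L0 ξ θ = (ξ * DD.em θ).re := by
  rw [L0, ep, UpI.exp_eq, ← map_mul, Complex.conj_re]

end Wgt2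

open Wgt2 in
theorem wgt2 (g : ℂ → ℂ) (ρ : ℝ) (h : Good g ρ) : ∃ C ε₀ : ℝ, 0 < C ∧ 0 < ε₀ ∧
    ∀ ε : ℝ, 0 < ε → ε < ε₀ → ∀ θ : ℝ, |wt g ε θ - 1 - ε * b1 g θ - ε ^ 2 * b2 g θ| ≤ C * ε ^ 3 := by
  obtain ⟨M, hM0, hM⟩ := WgtAux.bound g ρ h
  refine ⟨3 * M ^ 3 + 1, 1 / (2 * (M + 1)), by positivity, by positivity, fun ε hε hlt θ => ?_⟩
  rw [lt_div_iff₀ (by positivity)] at hlt
  have hx : ‖xx g θ‖ ≤ M := by
    rw [xx, norm_mul, norm_pow, UpI.norm_em, one_pow, one_mul]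
    exact hM θ
  have e1 : wt g ε θ = ‖1 + -(ε * xx g θ)‖ := by
    rw [wt, ep, WgtAux.deriv_eq g ρ h, xx]
  have hz : ‖-((ε : ℂ) * xx g θ)‖ ≤ ε * M := by
    rw [norm_neg, norm_mul, Complex.norm_of_nonneg hε.le]
    gcongr
  have h1 := second (z := -((ε : ℂ) * xx g θ)) (hz.trans (by nlinarith))
  have e2 : (-((ε : ℂ) * xx g θ)).re = ε * b1 g θ := by
    rw [Complex.neg_re, Complex.re_ofReal_mul, b1]
    ring
  have e3 : (-((ε : ℂ) * xx g θ)).im ^ 2 / 2 = ε ^ 2 * b2 g θ := by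
    rw [Complex.neg_im, Complex.im_ofReal_mul, b2]
    ring
  rw [e2, e3] at h1
  rw [e1]
  refine h1.trans ?_
  have h2 : ‖-((ε : ℂ) * xx g θ)‖ ^ 3 ≤ (ε * M) ^ 3 := by gcongr
  have h3 : 0 ≤ ε ^ 3 := by positivity
  calc 3 * ‖-((ε : ℂ) * xx g θ)‖ ^ 3 ≤ 3 * (ε * M) ^ 3 := by gcongr
    _ = 3 * M ^ 3 * ε ^ 3 := by ring
    _ ≤ (3 * M ^ 3 + 1) * ε ^ 3 := by gcongr; linarith

open Wgt2 in
theorem int_L0_sq_b1 (hMv : MvStmt) (g : ℂ → ℂ) (ρ : ℝ) (h : Good g ρ) (hd : deriv g 0 = 0) (ξ : ℂ) :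
    ∫ θ in (0 : ℝ)..(2 * Real.pi), L0 ξ θ ^ 2 * b1 g θ = 0 := by
  have h1 := int_sq hMv g ρ h ξ
  rw [hd, mul_zero, Complex.zero_re, mul_zero] at h1
  have e : ∀ θ : ℝ, L0 ξ θ ^ 2 * b1 g θ =
      -(((starRingEnd ℂ) ξ * Complex.exp (θ * Complex.I)).re ^ 2 * (DD.em θ ^ 2 * deriv g (DD.em θ)).re) := by
    intro θ
    rw [L0, ep, b1, xx]
    ring
  rw [intervalIntegral.integral_congr fun θ _ => e θ, intervalIntegral.integral_neg, h1, neg_zero]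

open Wgt2 UpI in
theorem int_L0_re (hMv : MvStmt) (F : ℂ → ℂ) (ρ : ℝ) (h : Good F ρ) (ξ : ℂ) :
    ∫ θ in (0 : ℝ)..(2 * Real.pi), L0 ξ θ * (F (DD.em θ)).re = Real.pi * ((starRingEnd ℂ) ξ * deriv F 0).re := by
  have e : ∀ θ : ℝ, L0 ξ θ * (F (DD.em θ)).re =
      ((((1 / 2 : ℝ) : ℂ) * ξ) * (DD.em θ * F (DD.em θ))).re +
      ((((1 / 2 : ℝ) : ℂ) * (starRingEnd ℂ) ξ) * dslope F 0 (DD.em θ)).re +
      ((((1 / 2 : ℝ) : ℂ) * (starRingEnd ℂ) ((starRingEnd ℂ) ξ * F 0)) * DD.em θ).re := by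
    intro θ
    have hu := sq_em θ
    have hne : DD.em θ ≠ 0 := by
      intro h0
      have := UpI.norm_em θ
      rw [h0, norm_zero] at this
      norm_num at this
    have hg : F (DD.em θ) = F 0 + DD.em θ * dslope F 0 (DD.em θ) := by
      rw [dslope_of_ne _ hne, slope_def_field, sub_zero]
      field_simp
      ring
    rw [L0_eq]
    obtain ⟨D, hD⟩ : ∃ D, D = dslope F 0 (DD.em θ) := ⟨_, rfl⟩
    rw [hg, ← hD]
    obtain ⟨u, hu'⟩ : ∃ u, u = DD.em θ := ⟨_, rfl⟩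
    rw [← hu'] at hu ⊢
    obtain ⟨a, b⟩ := ξ
    obtain ⟨x, y⟩ := u
    obtain ⟨r, s⟩ := D
    rcases hg0 : F 0 with ⟨p, q⟩
    simp only [Complex.mul_re, Complex.mul_im, Complex.add_re, Complex.add_im, Complex.conj_re,
      Complex.conj_im, Complex.ofReal_re, Complex.ofReal_im]
    simp only at hu
    linear_combination (1 / 2 * (a * r + b * s)) * hu
  rw [intervalIntegral.integral_congr fun θ _ => e θ,
    intervalIntegral.integral_add ((cre _ ρ (good_mul F ρ h) _).add (cre _ ρ (good_dslope F ρ h) _))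
      (cre _ ρ (good_id F ρ h) _),
    intervalIntegral.integral_add (cre _ ρ (good_mul F ρ h) _) (cre _ ρ (good_dslope F ρ h) _),
    re_mv hMv _ ρ (good_mul F ρ h), re_mv hMv _ ρ (good_dslope F ρ h), re_mv hMv _ ρ (good_id F ρ h),
    dslope_same]
  have e2 : (((1 / 2 : ℝ) : ℂ) * (starRingEnd ℂ) ξ) * (2 * Real.pi * deriv F 0) =
      (Real.pi : ℂ) * ((starRingEnd ℂ) ξ * deriv F 0) := by
    push_cast
    ring
  rw [e2, Complex.re_ofReal_mul]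
  simp

end Pool.Agent.H74.DE
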