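import Pool.Agent.H74.DE.Fr
import Pool.Agent.H1.QF.Par

set_option autoImplicit false

/-!
# [H74 DE Wt3C] the cross term of Wt3 (helper69)
-/

namespace Pool.Agent.H74.DE.Wt3C

open MeasureTheory Set Filter Topology Pool.Agent.H74.SX Pool.Agent.H74.DD Pool.Agent.H74.DE

theorem em_pow (θ : ℝ) (j : ℕ) : em θ ^ j = (Real.cos (j * θ) : ℂ) - Real.sin (j * θ) * Complex.I := by
  unfold Pool.Agent.H74.DD.em
  rw [← Complex.exp_nat_mul]
  have e : (j : ℂ) * (-(θ * Complex.I)) = ((-(j * θ) : ℝ) : ℂ) * Complex.I := by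
    push_cast; ring
  rw [e, Complex.exp_mul_I, ← Complex.ofReal_cos, ← Complex.ofReal_sin, Real.cos_neg, Real.sin_neg]
  push_cast
  ring

theorem re_em (c : ℂ) (θ : ℝ) (j : ℕ) :
    (c * em θ ^ j).re = c.re * Real.cos (j * θ) + c.im * Real.sin (j * θ) := by
  rw [em_pow]
  simp only [Complex.mul_re, Complex.sub_re, Complex.sub_im, Complex.ofReal_re, Complex.ofReal_im, Complex.mul_im,
    Complex.I_re, Complex.I_im]
  ring

theorem norm_em (θ : ℝ) : ‖em θ‖ = 1 := by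
  unfold Pool.Agent.H74.DD.em
  have e : -(θ * Complex.I) = ((-θ : ℝ) : ℂ) * Complex.I := by push_cast; ring
  rw [e]
  exact Complex.norm_exp_ofReal_mul_I _

theorem cont_em : Continuous em := by
  unfold Pool.Agent.H74.DD.em
  fun_prop

theorem amgm (k a b A B : ℝ) (hk : 0 < k) : |a * A + b * B| ≤ k * (A ^ 2 + B ^ 2) + (a ^ 2 + b ^ 2) / (4 * k) := by
  have h1 : ∀ x y : ℝ, x * y ≤ k * y ^ 2 + x ^ 2 / (4 * k) := by
    intro x y
    have h2 : 0 ≤ (2 * k * y - x) ^ 2 / (4 * k) := by positivity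
    have h3 : (2 * k * y - x) ^ 2 / (4 * k) = k * y ^ 2 - x * y + x ^ 2 / (4 * k) := by
      field_simp
      ring
    linarith
  have h4 : (a ^ 2 + b ^ 2) / (4 * k) = a ^ 2 / (4 * k) + b ^ 2 / (4 * k) := add_div _ _ _
  rw [abs_le, h4]
  constructor
  · have e1 := h1 (-a) A
    have e2 := h1 (-b) B
    rw [neg_sq] at e1 e2
    linarith
  · linarith [h1 a A, h1 b B]

theorem cross {h : ℂ → ℂ} {ρ : ℝ} (hh : Good h ρ) (U : ℝ → ℝ) (hU : Continuous U) (D' : ℝ)
    (hD : ∀ J : ℕ, ∑ j ∈ Finset.Icc 2 J, ((j : ℝ) - 1) * Real.pi * (cj U j ^ 2 + sj U j ^ 2) ≤ D')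
    (k : ℝ) (hk : 0 < k) :
    |∫ θ in (0 : ℝ)..(2 * Real.pi), U θ * (em θ ^ 2 * h (em θ)).re| ≤
      k * D' + 1 / (4 * k) * ∫ z in Metric.ball (0 : ℂ) 1, ‖h z‖ ^ 2 := by
  have hp0 : Real.pi ≠ 0 := Real.pi_ne_zero
  have hpp : 0 < Real.pi := Real.pi_pos
  have hpi : (0 : ℝ) ≤ 2 * Real.pi := by positivity
  have hsum := Pool.Agent.H1.QF.summable_tc hh.one_lt hh.hol
  obtain ⟨c, hc⟩ : ∃ c : ℕ → ℂ, c = fun n => Pool.Agent.H1.QF.tc h n := ⟨_, rfl⟩
  have hcs : Summable fun n => ‖c n‖ := by rw [hc]; exact hsum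
  obtain ⟨K, hK⟩ := (isCompact_Icc (a := (0 : ℝ)) (b := 2 * Real.pi)).exists_bound_of_continuousOn hU.continuousOn
  have hK0 : 0 ≤ K := (norm_nonneg _).trans (hK 0 ⟨le_rfl, hpi⟩)
  have hser : ∀ θ : ℝ, HasSum (fun n => c n * em θ ^ (n + 2)) (em θ ^ 2 * h (em θ)) := by
    intro θ
    have h1 := (Pool.Agent.H1.QF.hasSum_tc hh.hol (z := em θ) (by rw [norm_em]; exact hh.one_lt)).mul_left (em θ ^ 2)
    refine h1.congr_fun ?_
    intro n
    rw [hc]
    simp only
    ring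
  have hHS : HasSum (fun n => ∫ θ in (0 : ℝ)..(2 * Real.pi), U θ * (c n * em θ ^ (n + 2)).re)
      (∫ θ in (0 : ℝ)..(2 * Real.pi), U θ * (em θ ^ 2 * h (em θ)).re) := by
    refine intervalIntegral.hasSum_integral_of_dominated_convergence (fun n _ => K * ‖c n‖) ?_ ?_ ?_ ?_ ?_
    · intro n
      have : Continuous fun θ : ℝ => U θ * (c n * em θ ^ (n + 2)).re :=
        hU.mul (Complex.continuous_re.comp (continuous_const.mul (cont_em.pow _)))
      exact this.aestronglyMeasurable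
    · intro n
      refine Eventually.of_forall fun θ hθ => ?_
      rw [uIoc_of_le hpi] at hθ
      rw [norm_mul]
      have h1 := hK θ ⟨hθ.1.le, hθ.2⟩
      have h2 : ‖(c n * em θ ^ (n + 2)).re‖ ≤ ‖c n‖ := by
        refine (Complex.abs_re_le_norm _).trans ?_
        rw [norm_mul, norm_pow, norm_em, one_pow, mul_one]
      gcongr
    · exact Eventually.of_forall fun θ _ => hcs.mul_left K
    · exact intervalIntegrable_const
    · refine Eventually.of_forall fun θ _ => ?_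
      exact (Complex.hasSum_re (hser θ)).mul_left (U θ)
  have hterm : ∀ n : ℕ, ∫ θ in (0 : ℝ)..(2 * Real.pi), U θ * (c n * em θ ^ (n + 2)).re =
      Real.pi * ((c n).re * cj U (n + 2) + (c n).im * sj U (n + 2)) := by
    intro n
    have e : ∀ θ : ℝ, U θ * (c n * em θ ^ (n + 2)).re =
        (c n).re * (U θ * Real.cos ((n + 2 : ℕ) * θ)) + (c n).im * (U θ * Real.sin ((n + 2 : ℕ) * θ)) := by
      intro θ
      rw [re_em]
      ring
    simp only [e]
    have i1 : IntervalIntegrable (fun θ : ℝ => (c n).re * (U θ * Real.cos ((n + 2 : ℕ) * θ))) volume 0 (2 * Real.pi) :=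
      (by fun_prop : Continuous fun θ : ℝ => (c n).re * (U θ * Real.cos ((n + 2 : ℕ) * θ))).intervalIntegrable _ _
    have i2 : IntervalIntegrable (fun θ : ℝ => (c n).im * (U θ * Real.sin ((n + 2 : ℕ) * θ))) volume 0 (2 * Real.pi) :=
      (by fun_prop : Continuous fun θ : ℝ => (c n).im * (U θ * Real.sin ((n + 2 : ℕ) * θ))).intervalIntegrable _ _
    rw [intervalIntegral.integral_add i1 i2, intervalIntegral.integral_const_mul, intervalIntegral.integral_const_mul]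
    unfold cj sj
    field_simp
  have hb : ∀ n : ℕ, |∫ θ in (0 : ℝ)..(2 * Real.pi), U θ * (c n * em θ ^ (n + 2)).re| ≤
      k * ((((n + 2 : ℕ) : ℝ) - 1) * Real.pi * (cj U (n + 2) ^ 2 + sj U (n + 2) ^ 2)) +
      1 / (4 * k) * (Real.pi / (n + 1) * ‖c n‖ ^ 2) := by
    intro n
    have hn : (0 : ℝ) < (n : ℝ) + 1 := by positivity
    rw [hterm, abs_mul, abs_of_pos hpp]
    have h1 := amgm (k * (n + 1)) (c n).re (c n).im (cj U (n + 2)) (sj U (n + 2)) (by positivity)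
    have h2 : (c n).re ^ 2 + (c n).im ^ 2 = ‖c n‖ ^ 2 := by
      rw [← Complex.normSq_eq_norm_sq, Complex.normSq_apply]; ring
    rw [h2] at h1
    calc Real.pi * |(c n).re * cj U (n + 2) + (c n).im * sj U (n + 2)| ≤
        Real.pi * (k * (n + 1) * (cj U (n + 2) ^ 2 + sj U (n + 2) ^ 2) + ‖c n‖ ^ 2 / (4 * (k * (n + 1)))) := by gcongr
      _ = _ := by
        push_cast
        field_simp
        ring
  have hbg := Pool.Agent.H1.QF.bergN hh.one_lt hh.hol
  have hpart : ∀ N : ℕ, |∑ n ∈ Finset.range N, ∫ θ in (0 : ℝ)..(2 * Real.pi), U θ * (c n * em θ ^ (n + 2)).re| ≤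
      k * D' + 1 / (4 * k) * ∫ z in Metric.ball (0 : ℂ) 1, ‖h z‖ ^ 2 := by
    intro N
    refine (Finset.abs_sum_le_sum_abs _ _).trans ((Finset.sum_le_sum fun n _ => hb n).trans ?_)
    rw [Finset.sum_add_distrib, ← Finset.mul_sum, ← Finset.mul_sum]
    have h1 : ∑ n ∈ Finset.range N, (((n + 2 : ℕ) : ℝ) - 1) * Real.pi * (cj U (n + 2) ^ 2 + sj U (n + 2) ^ 2) ≤ D' := by
      refine le_trans (le_of_eq ?_) (hD (N + 1))
      have e : Finset.Icc 2 (N + 1) = (Finset.range N).map ⟨fun n => n + 2, fun a b h => by simpa using h⟩ := by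
        ext j
        simp only [Finset.mem_Icc, Finset.mem_map, Finset.mem_range, Function.Embedding.coeFn_mk]
        constructor
        · intro hj
          exact ⟨j - 2, by omega, by omega⟩
        · rintro ⟨n, hn, rfl⟩
          omega
      rw [e, Finset.sum_map]
      rfl
    have h2 : ∑ n ∈ Finset.range N, Real.pi / (n + 1) * ‖c n‖ ^ 2 ≤ ∫ z in Metric.ball (0 : ℂ) 1, ‖h z‖ ^ 2 := by
      rw [hc]
      exact sum_le_hasSum _ (fun n _ => by positivity) hbg
    gcongr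
  exact le_of_tendsto' hHS.tendsto_sum_nat.abs hpart

end Pool.Agent.H74.DE.Wt3C
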