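import Pool.Agent.H74.DE.Fr
import Pool.Agent.H74.DD.Wt2

set_option autoImplicit false

/-!
# [H74 DE Wt3P] Parseval for a real continuous function, in terms of `cj`, `sj`
-/

namespace Pool.Agent.H74.DE.Wt3P

open MeasureTheory Set Filter Topology Pool.Agent.H74.SX Pool.Agent.H74.DD Pool.Agent.H74.DE

private lemma memLp_of_continuous {g : ℝ → ℂ} (hg : Continuous g) (a b : ℝ) :
    MemLp g 2 (volume.restrict (Ioc a b)) := by
  obtain ⟨C, hC⟩ := isCompact_Icc.exists_bound_of_continuousOn (hg.continuousOn (s := Icc a b))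
  refine MemLp.of_bound hg.aestronglyMeasurable C ?_
  exact (ae_restrict_iff' measurableSet_Ioc).2 (Eventually.of_forall fun x hx => hC x (Ioc_subset_Icc_self hx))

private lemma norm_sq_ofReal (x : ℝ) : ‖(x : ℂ)‖ ^ 2 = x ^ 2 := by
  rw [Complex.norm_real, Real.norm_eq_abs, sq_abs]

private lemma coe_four (n : ℤ) (x : ℝ) :
    fourier (-n) (x : AddCircle (2 * Real.pi - 0)) =
      ((Real.cos (n * x) : ℝ) : ℂ) - Complex.I * ((Real.sin (n * x) : ℝ) : ℂ) := by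
  have hp : (Real.pi : ℂ) ≠ 0 := by exact_mod_cast Real.pi_ne_zero
  rw [fourier_coe_apply]
  have e3 : 2 * (Real.pi : ℂ) * Complex.I * ((-n : ℤ) : ℂ) * (x : ℂ) / ((2 * Real.pi - 0 : ℝ) : ℂ) =
      (-(n * x : ℂ)) * Complex.I := by
    push_cast
    field_simp
    ring
  rw [e3, Complex.exp_mul_I, Complex.cos_neg, Complex.sin_neg]
  push_cast
  ring

private lemma fco {U : ℝ → ℝ} (hU : Continuous U) (hpi : (0 : ℝ) < 2 * Real.pi) (n : ℤ) :
    ‖fourierCoeffOn hpi (fun x => ((U x : ℝ) : ℂ)) n‖ ^ 2 =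
      ((∫ y in (0 : ℝ)..(2 * Real.pi), U y * Real.cos (n * y)) ^ 2 +
        (∫ y in (0 : ℝ)..(2 * Real.pi), U y * Real.sin (n * y)) ^ 2) / (4 * Real.pi ^ 2) := by
  rw [fourierCoeffOn_eq_integral]
  have e : ∫ x in (0 : ℝ)..(2 * Real.pi), fourier (-n) (x : AddCircle (2 * Real.pi - 0)) • ((U x : ℝ) : ℂ) =
      ((∫ y in (0 : ℝ)..(2 * Real.pi), U y * Real.cos (n * y) : ℝ) : ℂ) -
        Complex.I * ((∫ y in (0 : ℝ)..(2 * Real.pi), U y * Real.sin (n * y) : ℝ) : ℂ) := by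
    have e1 : ∀ x : ℝ, fourier (-n) (x : AddCircle (2 * Real.pi - 0)) • ((U x : ℝ) : ℂ) =
        ((U x * Real.cos (n * x) : ℝ) : ℂ) - Complex.I * ((U x * Real.sin (n * x) : ℝ) : ℂ) := by
      intro x
      rw [coe_four n x, smul_eq_mul]
      push_cast
      ring
    simp_rw [e1]
    have i1 : IntervalIntegrable (fun x => ((U x * Real.cos (n * x) : ℝ) : ℂ)) volume 0 (2 * Real.pi) :=
      (Complex.continuous_ofReal.comp (hU.mul (by fun_prop))).intervalIntegrable _ _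
    have i2 : IntervalIntegrable (fun x => Complex.I * ((U x * Real.sin (n * x) : ℝ) : ℂ)) volume
        0 (2 * Real.pi) :=
      (continuous_const.mul (Complex.continuous_ofReal.comp (hU.mul (by fun_prop)))).intervalIntegrable _ _
    rw [intervalIntegral.integral_sub i1 i2, intervalIntegral.integral_const_mul,
      intervalIntegral.integral_ofReal, intervalIntegral.integral_ofReal]
  rw [e]
  generalize (∫ y in (0 : ℝ)..(2 * Real.pi), U y * Real.cos (n * y)) = a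
  generalize (∫ y in (0 : ℝ)..(2 * Real.pi), U y * Real.sin (n * y)) = b
  have e2 : (1 / (2 * Real.pi - 0)) • ((a : ℂ) - Complex.I * (b : ℂ)) =
      (((a / (2 * Real.pi) : ℝ) : ℂ) + ((-b / (2 * Real.pi) : ℝ) : ℂ) * Complex.I) := by
    rw [Complex.real_smul]
    push_cast
    ring
  rw [e2, ← Complex.normSq_eq_norm_sq, Complex.normSq_add_mul_I]
  have hp0 : Real.pi ≠ 0 := Real.pi_ne_zero
  field_simp
  ring

/-- Parseval -/
theorem parU {U : ℝ → ℝ} (hU : Continuous U) (h0 : ∫ θ in (0 : ℝ)..(2 * Real.pi), U θ = 0) :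
    HasSum (fun n : ℕ => Real.pi * (cj U n ^ 2 + sj U n ^ 2)) (∫ θ in (0 : ℝ)..(2 * Real.pi), U θ ^ 2) := by
  have hpi : (0 : ℝ) < 2 * Real.pi := by positivity
  have hFc : Continuous fun x => ((U x : ℝ) : ℂ) := Complex.continuous_ofReal.comp hU
  have h1 := (hasSum_sq_fourierCoeffOn hpi (memLp_of_continuous hFc 0 (2 * Real.pi))).nat_add_neg
  simp only [fco hU hpi, norm_sq_ofReal] at h1
  have hp0 : Real.pi ≠ 0 := Real.pi_ne_zero
  have h2 := h1.mul_left (2 * Real.pi)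
  have c1 : ∀ (n : ℕ) (y : ℝ), Real.cos (((-(n : ℤ) : ℤ) : ℝ) * y) = Real.cos (n * y) := by
    intro n y
    push_cast
    rw [neg_mul, Real.cos_neg]
  have c2 : ∀ (n : ℕ) (y : ℝ), Real.sin (((-(n : ℤ) : ℤ) : ℝ) * y) = - Real.sin (n * y) := by
    intro n y
    push_cast
    rw [neg_mul, Real.sin_neg]
  simp only [c1, c2, Int.cast_natCast, mul_neg, intervalIntegral.integral_neg, Int.cast_zero, zero_mul,
    Real.cos_zero, Real.sin_zero, mul_one, mul_zero, h0, intervalIntegral.integral_zero, sub_zero,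
    smul_eq_mul] at h2
  have e1 : ∀ n : ℕ, Real.pi * (cj U n ^ 2 + sj U n ^ 2) = 2 * Real.pi *
      (((∫ y in (0 : ℝ)..(2 * Real.pi), U y * Real.cos (n * y)) ^ 2 +
          (∫ y in (0 : ℝ)..(2 * Real.pi), U y * Real.sin (n * y)) ^ 2) / (4 * Real.pi ^ 2) +
        ((∫ y in (0 : ℝ)..(2 * Real.pi), U y * Real.cos (n * y)) ^ 2 +
          (- ∫ y in (0 : ℝ)..(2 * Real.pi), U y * Real.sin (n * y)) ^ 2) / (4 * Real.pi ^ 2)) := by
    intro n
    unfold cj sj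
    field_simp
    ring
  have e2 : ∫ θ in (0 : ℝ)..(2 * Real.pi), U θ ^ 2 =
      2 * Real.pi * ((2 * Real.pi)⁻¹ * (∫ θ in (0 : ℝ)..(2 * Real.pi), U θ ^ 2) +
        (0 ^ 2 + 0 ^ 2) / (4 * Real.pi ^ 2)) := by
    field_simp
    ring
  simp only [e1]
  rw [e2]
  exact h2

/-- `v`, and the remainder -/
noncomputable def vv (U : ℝ → ℝ) (θ : ℝ) : ℝ := cj U 1 * Real.cos θ + sj U 1 * Real.sin θ
noncomputable def ww (U : ℝ → ℝ) (θ : ℝ) : ℝ := U θ - vv U θ

theorem vv_cont (U : ℝ → ℝ) : Continuous (vv U) := by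
  unfold vv
  fun_prop

theorem ww_cont {U : ℝ → ℝ} (hU : Continuous U) : Continuous (ww U) := hU.sub (vv_cont U)

theorem int_vv (U : ℝ → ℝ) :
    ∫ θ in (0 : ℝ)..(2 * Real.pi), vv U θ ^ 2 = Real.pi * (cj U 1 ^ 2 + sj U 1 ^ 2) := Wt2.i_vv _ _

theorem int_vU {U : ℝ → ℝ} (hU : Continuous U) :
    ∫ θ in (0 : ℝ)..(2 * Real.pi), U θ * vv U θ = Real.pi * (cj U 1 ^ 2 + sj U 1 ^ 2) := by
  have h1 : ∀ θ, U θ * vv U θ = cj U 1 * (U θ * Real.cos θ) + sj U 1 * (U θ * Real.sin θ) := by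
    intro θ
    unfold vv
    ring
  simp only [h1]
  rw [intervalIntegral.integral_add ((by fun_prop : Continuous _).intervalIntegrable _ _)
      ((by fun_prop : Continuous _).intervalIntegrable _ _),
    intervalIntegral.integral_const_mul, intervalIntegral.integral_const_mul]
  have h2 : cj U 1 * Real.pi = ∫ y in (0 : ℝ)..(2 * Real.pi), U y * Real.cos y := by
    unfold cj
    rw [div_mul_cancel₀ _ Real.pi_ne_zero]
    simp only [Nat.cast_one, one_mul]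
  have h3 : sj U 1 * Real.pi = ∫ y in (0 : ℝ)..(2 * Real.pi), U y * Real.sin y := by
    unfold sj
    rw [div_mul_cancel₀ _ Real.pi_ne_zero]
    simp only [Nat.cast_one, one_mul]
  rw [← h2, ← h3]
  ring

theorem int_ww {U : ℝ → ℝ} (hU : Continuous U) :
    ∫ θ in (0 : ℝ)..(2 * Real.pi), ww U θ ^ 2 =
      (∫ θ in (0 : ℝ)..(2 * Real.pi), U θ ^ 2) - Real.pi * (cj U 1 ^ 2 + sj U 1 ^ 2) := by
  have hv := vv_cont U
  have h1 : ∀ θ, ww U θ ^ 2 = U θ ^ 2 + (-2) * (U θ * vv U θ) + vv U θ ^ 2 := by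
    intro θ
    unfold ww
    ring
  simp only [h1]
  rw [intervalIntegral.integral_add ((by fun_prop : Continuous _).intervalIntegrable _ _)
      ((by fun_prop : Continuous _).intervalIntegrable _ _),
    intervalIntegral.integral_add ((by fun_prop : Continuous _).intervalIntegrable _ _)
      ((by fun_prop : Continuous _).intervalIntegrable _ _),
    intervalIntegral.integral_const_mul, int_vU hU, int_vv]
  ring

theorem int_vw {U : ℝ → ℝ} (hU : Continuous U) : ∫ θ in (0 : ℝ)..(2 * Real.pi), vv U θ * ww U θ = 0 := by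
  have hv := vv_cont U
  have h1 : ∀ θ, vv U θ * ww U θ = U θ * vv U θ - vv U θ ^ 2 := by
    intro θ
    unfold ww
    ring
  simp only [h1]
  rw [intervalIntegral.integral_sub ((by fun_prop : Continuous _).intervalIntegrable _ _)
      ((by fun_prop : Continuous _).intervalIntegrable _ _), int_vU hU, int_vv, sub_self]

/-- the norm of the remainder -/
theorem hs_ww {U : ℝ → ℝ} (hU : Continuous U) (h0 : ∫ θ in (0 : ℝ)..(2 * Real.pi), U θ = 0) :
    HasSum (fun n : ℕ => Real.pi * (cj U (n + 2) ^ 2 + sj U (n + 2) ^ 2))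
      (∫ θ in (0 : ℝ)..(2 * Real.pi), ww U θ ^ 2) := by
  have h1 := (hasSum_nat_add_iff' 2).2 (parU hU h0)
  rw [int_ww hU]
  have h2 : ∑ i ∈ Finset.range 2, Real.pi * (cj U i ^ 2 + sj U i ^ 2) =
      Real.pi * (cj U 1 ^ 2 + sj U 1 ^ 2) := by
    rw [Finset.sum_range_succ, Finset.sum_range_one]
    have h3 : cj U 0 = 0 := by
      unfold cj
      simp [h0]
    have h4 : sj U 0 = 0 := by
      unfold sj
      simp
    rw [h3, h4]
    ring
  rw [h2] at h1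
  exact h1

theorem sum_two (a : ℕ → ℝ) (N : ℕ) :
    ∑ j ∈ Finset.Icc 2 (N + 1), a j = ∑ n ∈ Finset.range N, a (n + 2) := by
  induction N with
  | zero => simp
  | succ N ih => rw [Finset.sum_Icc_succ_top (by omega), ih, Finset.sum_range_succ]

/-- the form used in the proof of `Wt3` -/
theorem bigJ {U : ℝ → ℝ} (hU : Continuous U) (h0 : ∫ θ in (0 : ℝ)..(2 * Real.pi), U θ = 0) (D : ℝ)
    (hD : ∀ J : ℕ, ∑ j ∈ Finset.Icc 1 J, j * Real.pi * (cj U j ^ 2 + sj U j ^ 2) ≤ D) (J : ℕ) :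
    ∑ j ∈ Finset.Icc 2 J, ((j : ℝ) - 1) * Real.pi * (cj U j ^ 2 + sj U j ^ 2) ≤
      D - Real.pi * (cj U 1 ^ 2 + sj U 1 ^ 2) - ∫ θ in (0 : ℝ)..(2 * Real.pi), ww U θ ^ 2 := by
  have hpos : ∀ j : ℕ, 0 ≤ Real.pi * (cj U j ^ 2 + sj U j ^ 2) := fun j => by positivity
  have h1 := (hs_ww hU h0).tendsto_sum_nat
  have h2 : ∀ᶠ N : ℕ in atTop, ∑ n ∈ Finset.range N, Real.pi * (cj U (n + 2) ^ 2 + sj U (n + 2) ^ 2) ≤
      D - Real.pi * (cj U 1 ^ 2 + sj U 1 ^ 2) -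
        ∑ j ∈ Finset.Icc 2 J, ((j : ℝ) - 1) * Real.pi * (cj U j ^ 2 + sj U j ^ 2) := by
    filter_upwards [eventually_ge_atTop J] with N hN
    have h3 := hD (N + 1)
    have h5 : ∑ j ∈ Finset.Icc 1 (N + 1), (j : ℝ) * Real.pi * (cj U j ^ 2 + sj U j ^ 2) =
        Real.pi * (cj U 1 ^ 2 + sj U 1 ^ 2) +
          ∑ j ∈ Finset.Icc 2 (N + 1), (j : ℝ) * Real.pi * (cj U j ^ 2 + sj U j ^ 2) := by
      rw [← Finset.insert_Icc_add_one_left_eq_Icc (by omega : 1 ≤ N + 1), Finset.sum_insert (by simp)]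
      push_cast
      ring
    have h6 : ∑ j ∈ Finset.Icc 2 (N + 1), (j : ℝ) * Real.pi * (cj U j ^ 2 + sj U j ^ 2) =
        (∑ n ∈ Finset.range N, Real.pi * (cj U (n + 2) ^ 2 + sj U (n + 2) ^ 2)) +
          ∑ j ∈ Finset.Icc 2 (N + 1), ((j : ℝ) - 1) * Real.pi * (cj U j ^ 2 + sj U j ^ 2) := by
      rw [← sum_two (fun j => Real.pi * (cj U j ^ 2 + sj U j ^ 2)), ← Finset.sum_add_distrib]
      refine Finset.sum_congr rfl fun j _ => ?_
      ring
    have h7 : ∑ j ∈ Finset.Icc 2 J, ((j : ℝ) - 1) * Real.pi * (cj U j ^ 2 + sj U j ^ 2) ≤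
        ∑ j ∈ Finset.Icc 2 (N + 1), ((j : ℝ) - 1) * Real.pi * (cj U j ^ 2 + sj U j ^ 2) := by
      refine Finset.sum_le_sum_of_subset_of_nonneg (Finset.Icc_subset_Icc_right (by omega))
        fun j hj _ => ?_
      have h8 : (1 : ℝ) ≤ j := by
        have := (Finset.mem_Icc.1 hj).1
        exact_mod_cast (by omega : 1 ≤ j)
      rw [mul_assoc]
      exact mul_nonneg (by linarith) (hpos j)
    rw [h5, h6] at h3
    linarith
  have h4 := le_of_tendsto h1 h2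
  linarith

theorem w2_le {U : ℝ → ℝ} (hU : Continuous U) (h0 : ∫ θ in (0 : ℝ)..(2 * Real.pi), U θ = 0) (D' : ℝ)
    (hD : ∀ J : ℕ, ∑ j ∈ Finset.Icc 2 J, ((j : ℝ) - 1) * Real.pi * (cj U j ^ 2 + sj U j ^ 2) ≤ D') :
    ∫ θ in (0 : ℝ)..(2 * Real.pi), ww U θ ^ 2 ≤ D' := by
  refine le_of_tendsto' (hs_ww hU h0).tendsto_sum_nat fun N => ?_
  refine le_trans ?_ (hD (N + 1))
  rw [sum_two (fun j => ((j : ℝ) - 1) * Real.pi * (cj U j ^ 2 + sj U j ^ 2))]
  refine Finset.sum_le_sum fun n _ => ?_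
  have h1 : 0 ≤ Real.pi * (cj U (n + 2) ^ 2 + sj U (n + 2) ^ 2) := by positivity
  push_cast
  nlinarith [Nat.cast_nonneg (α := ℝ) n]

end Pool.Agent.H74.DE.Wt3P
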