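import Pool.Agent.H74.DE.Wt3P
import Pool.Agent.H74.DE.Prs

set_option autoImplicit false

/-!
# [H74 DE Wt3V] the linear part `v`, the weight `b₁`, and the disk integral of `Mq`
-/

namespace Pool.Agent.H74.DE.Wt3V

open MeasureTheory Set Filter Topology Pool.Agent.H74.SX Pool.Agent.H74.DD Pool.Agent.H74.DE Wt3P

theorem v_eq (U : ℝ → ℝ) (θ : ℝ) : vv U θ = L0 (cj U 1 + sj U 1 * Complex.I) θ := by
  unfold vv L0 ep
  rw [Complex.exp_mul_I, ← Complex.ofReal_cos, ← Complex.ofReal_sin]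
  simp only [map_add, map_mul, Complex.conj_ofReal, Complex.conj_I, Complex.mul_re, Complex.add_re,
    Complex.add_im, Complex.mul_im, Complex.ofReal_re, Complex.ofReal_im, Complex.neg_re,
    Complex.neg_im, Complex.I_re, Complex.I_im]
  ring

theorem norm_xi (a b : ℝ) : ‖(a : ℂ) + b * Complex.I‖ ^ 2 = a ^ 2 + b ^ 2 := by
  rw [← Complex.normSq_eq_norm_sq, Complex.normSq_add_mul_I]

/-- `h z = (conj ξ + ξ z²) g'(z) / z` -/
noncomputable def hq (g : ℂ → ℂ) (ξ z : ℂ) : ℂ :=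
  ((starRingEnd ℂ) ξ + ξ * z ^ 2) * dslope (deriv g) 0 z

theorem hq_good {g : ℂ → ℂ} {ρ : ℝ} (hg : Good g ρ) (ξ : ℂ) : Good (hq g ξ) ρ := by
  refine ⟨hg.one_lt, ?_⟩
  have h0 : Metric.ball (0 : ℂ) ρ ∈ 𝓝 (0 : ℂ) := Metric.ball_mem_nhds _ (by linarith [hg.one_lt])
  have h1 : DifferentiableOn ℂ (dslope (deriv g) 0) (Metric.ball 0 ρ) :=
    (Complex.differentiableOn_dslope h0).2 (hg.hol.deriv Metric.isOpen_ball)
  exact DifferentiableOn.mul (by fun_prop) h1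

theorem dsl {g : ℂ → ℂ} {ρ : ℝ} (hg : Good0 g ρ) {z : ℂ} (hz : z ≠ 0) :
    dslope (deriv g) 0 z = deriv g z / z := by
  rw [dslope_of_ne _ hz, slope_def_field, hg.dzero, sub_zero, sub_zero]

theorem em_ne (θ : ℝ) : em θ ≠ 0 := Complex.exp_ne_zero _

theorem em_ep (θ : ℝ) : em θ * ep θ = 1 := by
  unfold DD.em ep
  rw [← Complex.exp_add, neg_add_cancel, Complex.exp_zero]

theorem conj_ep (θ : ℝ) : (starRingEnd ℂ) (ep θ) = em θ := by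
  unfold DD.em ep
  rw [← Complex.exp_conj, map_mul, Complex.conj_ofReal, Complex.conj_I, mul_neg]

theorem b1_eq {g : ℂ → ℂ} {ρ : ℝ} (hg : Good0 g ρ) (ξ : ℂ) (θ : ℝ) :
    2 * L0 ξ θ * b1 g θ = - (em θ ^ 2 * hq g ξ (em θ)).re := by
  unfold L0 b1 xx hq
  rw [dsl hg (em_ne θ)]
  have h1 : ∀ a b : ℂ, 2 * a.re * -b.re = -(a * b + (starRingEnd ℂ) a * b).re := by
    intro a b
    simp only [Complex.add_re, Complex.mul_re, Complex.conj_re, Complex.conj_im]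
    ring
  rw [h1, map_mul, Complex.conj_conj, conj_ep]
  congr 2
  have h2 := em_ep θ
  have h3 : em θ ^ 2 * (((starRingEnd ℂ) ξ + ξ * em θ ^ 2) * (deriv g (em θ) / em θ)) =
      em θ * (((starRingEnd ℂ) ξ + ξ * em θ ^ 2) * deriv g (em θ)) := by
    have := em_ne θ
    field_simp
  rw [h3]
  have h4 : (starRingEnd ℂ) ξ * ep θ * (em θ ^ 2 * deriv g (em θ)) =
      (starRingEnd ℂ) ξ * (em θ * ep θ) * em θ * deriv g (em θ) := by ring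
  rw [h4, h2]
  ring

theorem mq_int {g : ℂ → ℂ} {ρ : ℝ} (hg : Good0 g ρ) (ξ : ℂ) :
    ∫ z in Metric.ball (0 : ℂ) 1, ‖((starRingEnd ℂ) ξ + ξ * z ^ 2) * (deriv g z / z)‖ ^ 2 =
      ∫ z in Metric.ball (0 : ℂ) 1, ‖hq g ξ z‖ ^ 2 := by
  refine integral_congr_ae (ae_restrict_of_ae ?_)
  have h1 : ∀ᵐ z : ℂ ∂volume, z ≠ 0 := by
    rw [ae_iff]
    simp
  filter_upwards [h1] with z hz
  rw [hq, dsl hg hz]

theorem Mq_eq {g : ℂ → ℂ} {ρ : ℝ} (hg : Good0 g ρ) (ξ : ℂ) :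
    Mq g ξ = 1 / 4 * (∫ z in Metric.ball (0 : ℂ) 1, ‖hq g ξ z‖ ^ 2) +
      ∫ θ in (0 : ℝ)..(2 * Real.pi), L0 ξ θ ^ 2 * b2 g θ := by
  rw [Mq, mq_int hg]

end Pool.Agent.H74.DE.Wt3V
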