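import Pool.Agent.H74.DE.Fr
import Pool.Agent.H74.DD.Up

set_option autoImplicit false

/-!
# [H74 DE WtL] the weight on the circle to second order (helper13)
-/

namespace Pool.Agent.H74.DE.WtL

open MeasureTheory Set Filter Topology Pool.Agent.H74.SX Pool.Agent.H74.DD

theorem wt_eq {g : ℂ → ℂ} {ρ : ℝ} (hg : Good g ρ) (ε θ : ℝ) : wt g ε θ = ‖1 - (ε : ℂ) * xx g θ‖ := by
  unfold wt ep
  rw [UpM.deriv_psi hg, ← inv_pow, UpM.em_inv]
  congr 1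
  unfold xx
  ring

theorem xx_cont {g : ℂ → ℂ} {ρ : ℝ} (hg : Good g ρ) : Continuous (xx g) := by
  have hd : DifferentiableOn ℂ (deriv g) (Metric.ball 0 ρ) := hg.hol.deriv Metric.isOpen_ball
  have h1 : Continuous fun θ => deriv g (em θ) :=
    hd.continuousOn.comp_continuous UpM.em_cont (UpM.em_mem hg.one_lt)
  exact (UpM.em_cont.pow 2).mul h1

theorem b1_cont {g : ℂ → ℂ} {ρ : ℝ} (hg : Good g ρ) : Continuous (b1 g) :=
  (Complex.continuous_re.comp (xx_cont hg)).neg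

theorem b2_cont {g : ℂ → ℂ} {ρ : ℝ} (hg : Good g ρ) : Continuous (b2 g) :=
  ((Complex.continuous_im.comp (xx_cont hg)).pow 2).div_const 2

theorem wt_cont {g : ℂ → ℂ} {ρ : ℝ} (hg : Good g ρ) (ε : ℝ) : Continuous (wt g ε) := by
  have h : wt g ε = fun θ => ‖1 - (ε : ℂ) * xx g θ‖ := by
    funext θ
    exact wt_eq hg ε θ
  rw [h]
  exact (continuous_const.sub (continuous_const.mul (xx_cont hg))).norm

theorem bb {g : ℂ → ℂ} {ρ : ℝ} (hg : Good g ρ) :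
    ∃ X : ℝ, 0 < X ∧ ∀ θ : ℝ, ‖xx g θ‖ ≤ X ∧ |b1 g θ| ≤ X ∧ |b2 g θ| ≤ X := by
  have hd : DifferentiableOn ℂ (deriv g) (Metric.ball 0 ρ) := hg.hol.deriv Metric.isOpen_ball
  have hsub : Metric.closedBall (0 : ℂ) 1 ⊆ Metric.ball 0 ρ := Metric.closedBall_subset_ball hg.one_lt
  obtain ⟨R, hR⟩ := (isCompact_closedBall (0 : ℂ) 1).exists_bound_of_continuousOn (hd.continuousOn.mono hsub)
  have hmem : ∀ θ : ℝ, em θ ∈ Metric.closedBall (0 : ℂ) 1 := fun θ => by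
    rw [mem_closedBall_zero_iff, UpM.em_norm]
  have hx : ∀ θ, ‖xx g θ‖ ≤ R := by
    intro θ
    unfold xx
    rw [norm_mul, norm_pow, UpM.em_norm, one_pow, one_mul]
    exact hR _ (hmem θ)
  have hR0 : 0 ≤ R := (norm_nonneg _).trans (hx 0)
  refine ⟨R + R ^ 2 + 1, by positivity, fun θ => ⟨?_, ?_, ?_⟩⟩
  · nlinarith [hx θ]
  · have h1 : |b1 g θ| ≤ R := by
      unfold b1
      rw [abs_neg]
      exact (Complex.abs_re_le_norm _).trans (hx θ)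
    nlinarith
  · have h1 : |(xx g θ).im| ≤ R := (Complex.abs_im_le_norm _).trans (hx θ)
    have h2 : (xx g θ).im ^ 2 ≤ R ^ 2 := sq_le_sq' (abs_le.1 h1).1 (abs_le.1 h1).2
    unfold b2
    rw [abs_of_nonneg (by positivity)]
    nlinarith [sq_nonneg R]

/-- `|1 - ε x| = 1 - ε Re x + ε² (Im x)² / 2 + O(ε³)` -/
theorem pt {x : ℂ} {ε X : ℝ} (hX : ‖x‖ ≤ X) (h0 : 0 < ε) (h1 : ε * X ≤ 1 / 2) :
    |‖1 - (ε : ℂ) * x‖ - (1 + ε * (-x.re) + ε ^ 2 * (x.im ^ 2 / 2))| ≤ X ^ 3 * ε ^ 3 := by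
  have hX0 : 0 ≤ X := (norm_nonneg _).trans hX
  have ha : |x.re| ≤ X := (Complex.abs_re_le_norm x).trans hX
  have hb : |x.im| ≤ X := (Complex.abs_im_le_norm x).trans hX
  obtain ⟨n, hn⟩ : ∃ n, n = ‖1 - (ε : ℂ) * x‖ := ⟨_, rfl⟩
  have hn0 : 0 ≤ n := by rw [hn]; exact norm_nonneg _
  have hns : n ^ 2 = (1 - ε * x.re) ^ 2 + (ε * x.im) ^ 2 := by
    rw [hn, ← Complex.normSq_eq_norm_sq, Complex.normSq_apply]
    simp only [Complex.sub_re, Complex.sub_im, Complex.one_re, Complex.one_im, Complex.re_ofReal_mul,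
      Complex.im_ofReal_mul]
    ring
  have hex : ‖(ε : ℂ) * x‖ ≤ ε * X := by
    rw [norm_mul, Complex.norm_real, Real.norm_of_nonneg h0.le]
    exact mul_le_mul_of_nonneg_left hX h0.le
  have hnl : |n - 1| ≤ ε * X := by
    rw [hn]
    have h2 := abs_norm_sub_norm_le (1 - (ε : ℂ) * x) 1
    rw [norm_one] at h2
    refine h2.trans ?_
    rw [sub_right_comm, sub_self, zero_sub, norm_neg]
    exact hex
  rw [← hn]
  obtain ⟨s, hs⟩ : ∃ s, s = 1 - ε * x.re := ⟨_, rfl⟩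
  have hsl : |s - 1| ≤ ε * X := by
    rw [hs, show 1 - ε * x.re - 1 = -(ε * x.re) by ring, abs_neg, abs_mul, abs_of_pos h0]
    exact mul_le_mul_of_nonneg_left ha h0.le
  obtain ⟨y, hy⟩ : ∃ y, y = (ε * x.im) ^ 2 := ⟨_, rfl⟩
  have hy0 : 0 ≤ y := by rw [hy]; positivity
  have hyX : y ≤ (ε * X) ^ 2 := by
    rw [hy]
    apply sq_le_sq'
    · nlinarith [(abs_le.1 hb).1]
    · exact mul_le_mul_of_nonneg_left (abs_le.1 hb).2 h0.le
  have hns2 : n ^ 2 = s ^ 2 + y := by rw [hns, hs, hy]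
  have hn1 := (abs_le.1 hnl)
  have hs1 := (abs_le.1 hsl)
  have hpos : 1 ≤ n + s := by linarith [hn1.1, hs1.1]
  have hkey : (n - s - y / 2) * (n + s) = y * ((2 - n - s) / 2) := by nlinarith
  have hgoal : n - (1 + ε * (-x.re) + ε ^ 2 * (x.im ^ 2 / 2)) = n - s - y / 2 := by
    rw [hs, hy]
    ring
  rw [hgoal]
  have h3 : |n - s - y / 2| * (n + s) = y * (|2 - n - s| / 2) := by
    have h4 := congrArg abs hkey
    rw [abs_mul, abs_mul, abs_of_nonneg (by linarith : (0 : ℝ) ≤ n + s), abs_of_nonneg hy0, abs_div,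
      abs_of_pos (by norm_num : (0 : ℝ) < 2)] at h4
    exact h4
  have h5 : |2 - n - s| ≤ 2 * (ε * X) := by
    rw [abs_le]
    constructor <;> linarith [hn1.1, hn1.2, hs1.1, hs1.2]
  have h6 : |n - s - y / 2| ≤ |n - s - y / 2| * (n + s) := le_mul_of_one_le_right (abs_nonneg _) hpos
  have h7 : y * (|2 - n - s| / 2) ≤ (ε * X) ^ 2 * (ε * X) := by
    apply mul_le_mul hyX (by linarith) (by positivity) (by positivity)
  calc |n - s - y / 2| ≤ (ε * X) ^ 2 * (ε * X) := by linarith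
    _ = X ^ 3 * ε ^ 3 := by ring

theorem wtL {g : ℂ → ℂ} {ρ : ℝ} (hg : Good g ρ) : ∃ C ε₀ : ℝ, 0 < C ∧ 0 < ε₀ ∧ ε₀ ≤ 1 ∧ ∀ ε : ℝ, 0 < ε → ε < ε₀ →
    ∀ θ : ℝ, |wt g ε θ - (1 + ε * b1 g θ + ε ^ 2 * b2 g θ)| ≤ C * ε ^ 3 := by
  obtain ⟨X, hX0, hX⟩ := bb hg
  refine ⟨X ^ 3, min 1 (1 / (2 * X)), by positivity, lt_min one_pos (by positivity), min_le_left _ _, ?_⟩
  intro ε h0 h1 θ
  have h2 : ε < 1 / (2 * X) := h1.trans_le (min_le_right _ _)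
  have h3 : ε * X ≤ 1 / 2 := by
    rw [lt_div_iff₀ (by positivity)] at h2
    linarith
  rw [wt_eq hg]
  exact pt (hX θ).1 h0 h3

end Pool.Agent.H74.DE.WtL
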